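import Pool.Agent.K3h84.DL.Step

set_option autoImplicit false

/-!
# The horizon of the derivatives to the left of the critical line

`Hz f κ`: for all large `k` the `k`-th derivative of `f` has no zeros with `-Im z / 8 ≤ Re z ≤ 0` and
`k ≤ Im z ≤ exp (κ k)`.
-/

namespace Pool.Agent.K3h84.DL

open Complex Filter Topology MeasureTheory Set
open scoped ComplexConjugate

variable {m : ℝ} {f Ψ : ℂ → ℂ}

/-- no zeros of the high derivatives to the left, up to height `exp (κ k)` -/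
def Hz (f : ℂ → ℂ) (κ : ℝ) : Prop := ∃ K : ℕ, ∀ k : ℕ, K ≤ k → ∀ z : ℂ, (k : ℝ) ≤ z.im →
  z.im ≤ Real.exp (κ * k) → -(z.im / 8) ≤ z.re → z.re ≤ 0 → iteratedDeriv k f z ≠ 0

/-- the Lindelöf hypothesis -/
def LH (f : ℂ → ℂ) : Prop := ∀ ε : ℝ, 0 < ε → ∃ T : ℝ, ∀ z : ℂ, T ≤ z.im → 0 ≤ z.re → ‖f z‖ ≤ z.im ^ ε

lemma edge {y ϑ : ℝ} (hy : ZB f y) (hϑ : y < ϑ) :
    ∀ ε : ℝ, 0 < ε → ∃ T : ℝ, ∀ z : ℂ, T ≤ z.im → z.re = ϑ → ‖f z‖ ≤ z.im ^ ε := by
  intro ε1 hε1
  obtain ⟨t1, ht1, h3⟩ := hy (min ε1 (ϑ - y)) (lt_min hε1 (by linarith))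
  refine ⟨t1, fun z hz hz2 => ?_⟩
  have h4 := (h3 z (by rw [hz2]; linarith [min_le_right ε1 (ϑ - y)]) hz).2.2.2
  exact h4.trans (Real.rpow_le_rpow_of_exponent_le (by linarith) (min_le_left _ _))

/-- convexity -/
lemma gr_conv (h : RD m f Ψ) {y : ℝ} (hy0 : 0 < y) (hy1 : y ≤ 1 / 2) (hE : EF f y) :
    Gr m f (1 / 2) y := by
  have hm := h.hm
  refine ⟨y, hy0, fun e he hey ε hε => ?_⟩
  obtain ⟨δ, hδ⟩ : ∃ δ, δ = min (1 / 2) (ε / m) := ⟨_, rfl⟩
  have hδ0 : 0 < δ := by rw [hδ]; exact lt_min (by norm_num) (by positivity)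
  have hδ1 : δ ≤ 1 / 2 := by rw [hδ]; exact min_le_left _ _
  have hδ2 : δ ≤ ε / m := by rw [hδ]; exact min_le_right _ _
  have hδm : m * δ ≤ ε := by
    rw [le_div_iff₀ hm] at hδ2; linarith
  obtain ⟨T, hT⟩ := h.conv (y + δ) (by linarith) (by linarith)
    (edge (zb_of_ef h hy0.le hE) (by linarith)) (ε / 2) (by linarith)
  refine ⟨max T 1, fun w hw hw2 => ?_⟩
  have h1 : T ≤ w.im := (le_max_left _ _).trans hw
  have h2 : 1 ≤ w.im := (le_max_right _ _).trans hw
  have h3 := abs_le.1 hw2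
  rw [norm_fl]
  refine (hT (-conj w) (by rw [nc_im]; exact h1) (by
    rw [nc_re, abs_le]; constructor <;> linarith)).trans ?_
  rw [nc_im, nc_re]
  refine Real.rpow_le_rpow_of_exponent_le h2 ?_
  have h4 : m / 2 * (y + δ - -w.re) ≤ m / 2 * (y + δ + (y - e)) := by
    gcongr; linarith
  linarith

/-- growth from the Lindelöf hypothesis -/
lemma gr_lh (h : RD m f Ψ) (hL : LH f) {y : ℝ} (hy0 : 0 < y) (hy1 : y ≤ 1 / 2) : Gr m f 1 y := by
  have hm := h.hm
  obtain ⟨K, TA, hK, hTA, ha1, ha2, ha3⟩ := h.all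
  refine ⟨y, hy0, fun e he hey ε hε => ?_⟩
  obtain ⟨T, hT⟩ := hL (ε / 2) (by linarith)
  refine ⟨max (max T TA) (Real.exp (2 * K / ε)), fun w hw hw2 => ?_⟩
  have h1 : T ≤ w.im := ((le_max_left _ _).trans (le_max_left _ _)).trans hw
  have h2 : TA ≤ w.im := ((le_max_right _ _).trans (le_max_left _ _)).trans hw
  have h3 : Real.exp (2 * K / ε) ≤ w.im := (le_max_right _ _).trans hw
  have him : 1 ≤ w.im := by linarith
  have him0 : 0 < w.im := by linarith
  have h4 := abs_le.1 hw2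
  have hlog : 2 * K / ε ≤ Real.log w.im := (Real.le_log_iff_exp_le him0).2 h3
  rw [div_le_iff₀ hε] at hlog
  by_cases hc : 0 ≤ w.re
  · have hwa : |w.re| ≤ 1 := by rw [abs_le]; constructor <;> linarith
    have hw3 : |w.re| ≤ w.im / 2 := by linarith
    have e1 := (ha1 w h2 hw3).2.2.2
    have e2 := (ha3 w h2 hw3).2
    have e3 := hT w h1 hc
    rw [e1, norm_mul]
    calc ‖Ψ w‖ * ‖f w‖ ≤ Real.exp (m * w.re * Real.log w.im + K * |w.re|) * w.im ^ (ε / 2) := by
          gcongr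
      _ = Real.exp (m * w.re * Real.log w.im + K * |w.re| + Real.log w.im * (ε / 2)) := by
          rw [Real.rpow_def_of_pos him0, ← Real.exp_add]
      _ ≤ Real.exp (Real.log w.im * (m * (y - 1 * e) + ε)) := by
          apply Real.exp_le_exp.2
          have h5 : K * |w.re| ≤ K * 1 := by gcongr
          have h6 : 0 ≤ Real.log w.im := Real.log_nonneg him
          have h7 : m * w.re * Real.log w.im ≤ m * (y - e) * Real.log w.im := by
            gcongr; linarith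
          linarith
      _ = _ := by rw [Real.rpow_def_of_pos him0]
  · rw [not_le] at hc
    rw [norm_fl]
    refine (hT (-conj w) (by rw [nc_im]; exact h1) (by rw [nc_re]; linarith)).trans ?_
    rw [nc_im]
    refine Real.rpow_le_rpow_of_exponent_le him ?_
    have : 0 ≤ m * (y - 1 * e) := by
      have : 0 ≤ y - 1 * e := by linarith
      positivity
    linarith

/-- **the converse**, in general form -/
theorem back (h : RD m f Ψ) {β r0 y0 : ℝ} (hβ : 1 / 2 ≤ β) (hβ1 : β ≤ 1) (hy0 : 0 ≤ y0)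
    (hG : ∀ y : ℝ, y0 < y → y ≤ 1 / 2 → EF f y → Gr m f β y) (hN : NZ m f r0) (hr : r0 ≤ β * y0) :
    EF f y0 := by
  by_cases hc : 1 / 2 ≤ y0
  · exact (ef_half h).mono hc
  rw [not_le] at hc
  obtain ⟨S, hS⟩ : ∃ S : Set ℝ, S = {y | y0 ≤ y ∧ y ≤ 1 / 2 ∧ EF f y} := ⟨_, rfl⟩
  have hSn : S.Nonempty := ⟨1 / 2, by rw [hS]; exact ⟨hc.le, le_rfl, ef_half h⟩⟩
  have hSb : BddBelow S := ⟨y0, fun y hy => by rw [hS] at hy; exact hy.1⟩
  obtain ⟨ys, hys⟩ : ∃ ys, ys = sInf S := ⟨_, rfl⟩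
  have h1 : y0 ≤ ys := by rw [hys]; exact le_csInf hSn (fun y hy => by rw [hS] at hy; exact hy.1)
  have h2 : ys ≤ 1 / 2 := by
    rw [hys]; exact csInf_le hSb (by rw [hS]; exact ⟨hc.le, le_rfl, ef_half h⟩)
  have h3 : EF f ys := by
    refine EF.closed fun y' hy' => ?_
    rw [hys] at hy'
    obtain ⟨y, hyS, hyy⟩ := exists_lt_of_csInf_lt hSn hy'
    rw [hS] at hyS
    exact hyS.2.2.mono hyy.le
  rcases h1.eq_or_lt with h4 | h4
  · rw [h4]; exact h3
  exfalso
  have hysp : 0 < ys := lt_of_le_of_lt hy0 h4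
  have hβp : 0 < β := by linarith
  obtain ⟨ε0, hε0, h5⟩ := step h hysp h2 hβ hβ1 h3 (hG ys h4 h2 h3) hN (by nlinarith)
  have h6 : max (ys - ε0) y0 ∈ S := by
    rw [hS]
    refine ⟨le_max_right _ _, max_le (by linarith) hc.le, h5.mono (le_max_left _ _)⟩
  have h7 : ys ≤ max (ys - ε0) y0 := by rw [hys] at *; exact csInf_le hSb h6
  rcases le_max_iff.1 h7 with h8 | h8
  · linarith
  · linarith

lemma hz_nz (hm : 0 < m) {κ : ℝ} (hκ : 0 < κ) (hH : Hz f κ) : NZ m f (1 / (κ * m)) := by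
  obtain ⟨K, hK⟩ := hH
  refine ⟨max 2 (Real.exp (κ * (K + 1))), fun z n hz h1 h2 h3 h4 => ?_⟩
  have hz2 : 2 ≤ z.im := (le_max_left _ _).trans hz
  have hz3 : Real.exp (κ * (K + 1)) ≤ z.im := (le_max_right _ _).trans hz
  have hlog : κ * (K + 1) ≤ Real.log z.im := (Real.le_log_iff_exp_le (by linarith)).2 hz3
  have h5 : Real.log z.im ≤ κ * n := by
    have e1 : 1 / (κ * m) * (m * Real.log z.im) = Real.log z.im / κ := by field_simp
    rw [e1, div_le_iff₀ hκ] at h3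
    linarith
  have h6 : (K : ℝ) + 1 ≤ n := by
    have : κ * (K + 1) ≤ κ * n := hlog.trans h5
    exact le_of_mul_le_mul_left this hκ
  have h7 : K ≤ n := by
    have : (K : ℝ) ≤ n := by linarith
    exact_mod_cast this
  rw [iter_fl_ne]
  refine hK n h7 (-conj z) (by rw [nc_im]; exact h4) ?_ ?_ ?_
  · rw [nc_im]
    exact (Real.log_le_iff_le_exp (by linarith)).1 h5
  · rw [nc_im, nc_re]; linarith
  · rw [nc_re]; linarith

/-- **forward**: zero-free regions push the horizon up -/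
theorem hz_of_ef (h : RD m f Ψ) {κ ϑ : ℝ} (hϑ : 0 ≤ ϑ) (hE : EF f ϑ) (hκϑ : κ * m * ϑ < 1) :
    Hz f κ := by
  have hm := h.hm
  by_cases hκ : κ ≤ 0
  · refine ⟨2, fun k hk z hz1 hz2 => ?_⟩
    have h1 : (2 : ℝ) ≤ k := by exact_mod_cast hk
    have h2 : Real.exp (κ * k) ≤ 1 := by
      rw [Real.exp_le_one_iff]
      exact mul_nonpos_of_nonpos_of_nonneg hκ (by positivity)
    linarith
  rw [not_le] at hκ
  obtain ⟨y, hy⟩ : ∃ y, y = min ϑ (1 / 2) := ⟨_, rfl⟩
  have hy0 : 0 ≤ y := by rw [hy]; exact le_min hϑ (by norm_num)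
  have hy1 : y ≤ 1 / 2 := by rw [hy]; exact min_le_right _ _
  have hyE : EF f y := by
    rw [hy]
    rcases le_total ϑ (1 / 2) with h1 | h1
    · rw [min_eq_left h1]; exact hE
    · rw [min_eq_right h1]; exact ef_half h
  have hκy : κ * m * y < 1 := by
    refine lt_of_le_of_lt ?_ hκϑ
    have : y ≤ ϑ := by rw [hy]; exact min_le_left _ _
    have : 0 < κ * m := by positivity
    gcongr
  obtain ⟨r0, hr0⟩ : ∃ r0, r0 = min 1 (1 / (κ * m)) := ⟨_, rfl⟩
  have hr0y : y < r0 := by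
    rw [hr0]
    refine lt_min (by linarith) ?_
    rw [lt_div_iff₀ (by positivity)]
    linarith
  obtain ⟨T0, hT0, hF⟩ := fwd h hy0 (zb_of_ef h hy0 hyE) hr0y (by rw [hr0]; exact min_le_left _ _)
  refine ⟨⌈T0⌉₊, fun k hk z hz1 hz2 hz3 hz4 => ?_⟩
  have h1 : T0 ≤ k := (Nat.le_ceil _).trans (by exact_mod_cast hk)
  have h2 : 0 < z.im := by linarith
  have h3 := hF (-conj z) k (by rw [nc_im]; linarith) (by rw [nc_re]; linarith)
    (by rw [nc_re, nc_im]; linarith) (by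
      rw [nc_im]
      have h4 : Real.log z.im ≤ κ * k := (Real.log_le_iff_le_exp h2).2 hz2
      have h5 : 0 ≤ Real.log z.im := Real.log_nonneg (by linarith)
      have h6 : r0 ≤ 1 / (κ * m) := by rw [hr0]; exact min_le_right _ _
      calc r0 * (m * Real.log z.im) ≤ 1 / (κ * m) * (m * Real.log z.im) := by
            gcongr
        _ = Real.log z.im / κ := by field_simp
        _ ≤ k := by rw [div_le_iff₀ hκ]; linarith) (by rw [nc_im]; exact hz1)
  rw [iter_fl_ne] at h3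
  simpa using h3

/-- unconditional horizon -/
theorem hz_uncond (h : RD m f Ψ) {κ : ℝ} (hκ : κ * m < 2) : Hz f κ :=
  hz_of_ef h (by norm_num) (ef_half h) (by linarith)

/-- **converse** (convexity) -/
theorem ef_of_hz (h : RD m f Ψ) {κ : ℝ} (hκ : 0 < κ) (hH : Hz f κ) : EF f (2 / (κ * m)) := by
  have hm := h.hm
  have h0 : 0 < κ * m := by positivity
  refine back h (β := 1 / 2) le_rfl (by norm_num) (by positivity)
    (fun y h1 h2 h3 => gr_conv h (lt_of_le_of_lt (by positivity) h1) h2 h3) (hz_nz hm hκ hH) ?_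
  apply le_of_eq
  field_simp

/-- **all horizons iff GRH** (up to finitely many zeros off every strip) -/
theorem hz_all (h : RD m f Ψ) : (∀ κ : ℝ, Hz f κ) ↔ EF f 0 := by
  have hm := h.hm
  constructor
  · intro hH
    refine EF.closed fun y' hy' => ?_
    have h1 : 0 < 2 / (y' * m) := by positivity
    have := ef_of_hz h h1 (hH _)
    have e : 2 / (2 / (y' * m) * m) = y' := by field_simp
    rwa [e] at this
  · intro hE κ
    exact hz_of_ef h le_rfl hE (by simp)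

/-- **the exact constant under the Lindelöf hypothesis** -/
theorem hz_lh (h : RD m f Ψ) (hL : LH f) {κ : ℝ} (hκ : 0 < κ) :
    (∀ κ' : ℝ, κ' < κ → Hz f κ') ↔ EF f (1 / (κ * m)) := by
  have hm := h.hm
  have key : ∀ κ' : ℝ, 0 < κ' → Hz f κ' → EF f (1 / (κ' * m)) := by
    intro κ' hκ' hH
    refine back h (β := 1) (by norm_num) le_rfl (by positivity)
      (fun y h1 h2 _ => gr_lh h hL (lt_of_le_of_lt (by positivity) h1) h2) (hz_nz hm hκ' hH) ?_
    rw [one_mul]
  constructor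
  · intro hH
    refine EF.closed fun y' hy' => ?_
    have h0 : 0 < 1 / (κ * m) := by positivity
    have hy'0 : 0 < y' := by linarith
    have h1 : 0 < 1 / (y' * m) := by positivity
    have h2 : 1 / (y' * m) < κ := by
      rw [div_lt_iff₀ (by positivity)] at hy' ⊢
      linarith
    have := key _ h1 (hH _ h2)
    have e : 1 / (1 / (y' * m) * m) = y' := by field_simp
    rwa [e] at this
  · intro hE κ' hκ'
    refine hz_of_ef h (by positivity) hE ?_
    rw [mul_one_div, div_lt_one (by positivity)]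
    gcongr

end Pool.Agent.K3h84.DL
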