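import Pool.Agent.K3h84.DL.Spec

set_option autoImplicit false

namespace Pool.Agent.K3h84.DL

open Complex Filter Topology MeasureTheory Set
open scoped ComplexConjugate

lemma iter_aff (g : ℂ → ℂ) (z c : ℂ) (n : ℕ) :
    iteratedDeriv n (fun w => g (z + c * w)) = fun w => c ^ n * iteratedDeriv n g (z + c * w) := by
  induction n with
  | zero => simp
  | succ n ih =>
    rw [iteratedDeriv_succ, ih]
    funext w
    have h1 : deriv (fun w => c ^ n * iteratedDeriv n g (z + c * w)) w =
        c ^ n * deriv (fun w => iteratedDeriv n g (z + c * w)) w := by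
      rw [deriv_const_mul_field']
    have h2 := deriv_comp_mul_left c (fun u => iteratedDeriv n g (z + u)) w
    have h3 : deriv (fun u => iteratedDeriv n g (z + u)) (c * w) =
        deriv (iteratedDeriv n g) (z + c * w) := deriv_comp_const_add _ z (c * w)
    rw [h1]
    simp only [smul_eq_mul] at h2
    rw [h2, h3, iteratedDeriv_succ, pow_succ]
    ring

lemma deriv_fl (f : ℂ → ℂ) (z : ℂ) : deriv (fl f) z = -conj (deriv f (-conj z)) := by
  by_cases h : DifferentiableAt ℂ f (-conj z)
  · exact (fl_hasDeriv h.hasDerivAt).deriv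
  · have h1 : ¬ DifferentiableAt ℂ (fl f) z := by
      intro h2
      apply h
      have h3 : DifferentiableAt ℂ (fl f) (-conj (-conj z)) := by simpa using h2
      have := fl_diff h3
      rwa [fl_fl] at this
    rw [deriv_zero_of_not_differentiableAt h, deriv_zero_of_not_differentiableAt h1]
    simp

lemma iter_fl (f : ℂ → ℂ) (n : ℕ) (z : ℂ) :
    iteratedDeriv n (fl f) z = (-1) ^ n * conj (iteratedDeriv n f (-conj z)) := by
  have key : ∀ n : ℕ, iteratedDeriv n (fl f) = fun z => (-1) ^ n * fl (iteratedDeriv n f) z := by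
    intro n
    induction n with
    | zero => simp
    | succ n ih =>
      rw [iteratedDeriv_succ, ih]
      funext z
      rw [deriv_const_mul_field']
      show (-1) ^ n * deriv (fl (iteratedDeriv n f)) z = _
      rw [deriv_fl, pow_succ, iteratedDeriv_succ, fl_apply]
      ring
  rw [key n]
  rfl

lemma iter_fl_ne {f : ℂ → ℂ} {n : ℕ} {z : ℂ} :
    iteratedDeriv n (fl f) z ≠ 0 ↔ iteratedDeriv n f (-conj z) ≠ 0 := by
  rw [iter_fl]
  constructor
  · intro h h2
    apply h
    rw [h2]; simp
  · intro h h2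
    apply h
    rcases mul_eq_zero.1 h2 with h3 | h3
    · exact absurd h3 (pow_ne_zero _ (by norm_num))
    · simpa using h3

/-- logarithmic derivative of the reflected function -/
lemma logDeriv_fl_eq {f Ψ : ℂ → ℂ} {z : ℂ} (hΨ : DifferentiableAt ℂ Ψ z) (hΨ0 : Ψ z ≠ 0)
    (hf : DifferentiableAt ℂ f z) (hf0 : f z ≠ 0) (he : ∀ᶠ w in 𝓝 z, fl f w = Ψ w * f w) :
    logDeriv (fl f) z = logDeriv Ψ z + logDeriv f z := by
  have h1 : logDeriv (fl f) z = logDeriv (fun w => Ψ w * f w) z := by
    rw [logDeriv_apply, logDeriv_apply, Filter.EventuallyEq.deriv_eq he, Filter.Eventually.self_of_nhds he]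
  rw [h1]
  exact logDeriv_mul z hΨ0 hf0 hΨ hf

end Pool.Agent.K3h84.DL
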