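import Pool.Agent.K3h84.DL.PLr
import Pool.Agent.K3h84.DL.Abs

set_option autoImplicit false

/-! # Completed L-functions give the data `RD` -/

namespace Pool.Agent.K3h84.DL

open Complex Filter Topology MeasureTheory Set
open scoped ComplexConjugate

/-- centred completed L-function `X` with gamma factor `g` -/
structure CD (m : ℝ) (g X : ℂ → ℂ) : Prop where
  hm : 0 < m
  gam : ∃ K T0 : ℝ, 1 ≤ K ∧ 1 ≤ T0 ∧ ∀ z : ℂ, T0 ≤ z.im → |z.re| ≤ z.im / 2 →
    ‖logDeriv g z - ((m / 2 * Real.log z.im : ℝ) : ℂ)‖ ≤ K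
  gan : ∃ T0 : ℝ, ∀ z : ℂ, T0 ≤ z.im → DifferentiableAt ℂ g z ∧ g z ≠ 0
  slow : Differentiable ℂ X ∧ ∀ δ : ℝ, 0 < δ → ∃ K : ℝ, 0 < K ∧ ∀ z : ℂ, ‖X z‖ ≤ K * Real.exp (δ * ‖z‖ ^ 2)
  fe : ∃ ε : ℂ, ‖ε‖ = 1 ∧ ∀ z : ℂ, X z = ε * conj (X (-conj z))
  right : ∀ ρ : ℝ, 0 < ρ → ∃ B T0 : ℝ, 1 ≤ B ∧ ∀ z : ℂ, T0 ≤ z.im → 1 / 2 + ρ ≤ z.re →
    X z / g z ≠ 0 ∧ ‖logDeriv (fun w => X w / g w) z‖ ≤ B ∧ B⁻¹ ≤ ‖X z / g z‖ ∧ ‖X z / g z‖ ≤ B

variable {m : ℝ} {g X : ℂ → ℂ}

lemma psi_size {Ψ : ℂ → ℂ} {K T1 T2 : ℝ} (hpsi : ∀ z : ℂ, T1 ≤ z.im → |z.re| ≤ z.im / 2 →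
    DifferentiableAt ℂ Ψ z ∧ Ψ z ≠ 0 ∧ ‖logDeriv Ψ z - ((m * Real.log z.im : ℝ) : ℂ)‖ ≤ K)
    (hu : ∀ t : ℝ, T2 ≤ t → ‖Ψ (I * t)‖ = 1) {z : ℂ} (a1 : T1 ≤ z.im) (a2 : T2 ≤ z.im)
    (hz2 : |z.re| ≤ z.im / 2) : ‖Ψ z‖ ≤ Real.exp (m * z.re * Real.log z.im + K * |z.re|) := by
  have hre := abs_le.1 hz2
  have e0 : I * (z.im : ℂ) + (z.re : ℂ) = z := by
    apply Complex.ext <;> simp
  have hnv : ‖((z.re : ℝ) : ℂ)‖ = |z.re| := by rw [Complex.norm_real, Real.norm_eq_abs]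
  have hpt : ∀ c : ℝ, 0 ≤ c → c ≤ 1 → DifferentiableAt ℂ Ψ (I * (z.im : ℂ) + ((c * z.re : ℝ) : ℂ)) ∧
      Ψ (I * (z.im : ℂ) + ((c * z.re : ℝ) : ℂ)) ≠ 0 ∧
      ‖logDeriv Ψ (I * (z.im : ℂ) + ((c * z.re : ℝ) : ℂ)) - ((m * Real.log z.im : ℝ) : ℂ)‖ ≤ K := by
    intro c hc0 hc1
    have i1 : (I * (z.im : ℂ) + ((c * z.re : ℝ) : ℂ)).im = z.im := by simp
    have r1 : (I * (z.im : ℂ) + ((c * z.re : ℝ) : ℂ)).re = c * z.re := by simp
    have := hpsi (I * (z.im : ℂ) + ((c * z.re : ℝ) : ℂ)) (by rw [i1]; exact a1) (by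
      rw [i1, r1, abs_mul, abs_of_nonneg hc0]
      calc c * |z.re| ≤ 1 * |z.re| := by gcongr
        _ ≤ z.im / 2 := by linarith)
    rw [i1] at this
    exact this
  have h1 := seg (F := Ψ) (s := I * (z.im : ℂ)) (v := ((z.re : ℝ) : ℂ)) (ℓ := m * Real.log z.im) (K := K)
    (fun τ hτ => ?_) (fun τ hτ => ?_) (fun τ hτ => ?_)
  · rw [e0, hu z.im a2, ofReal_re, hnv, one_mul] at h1
    refine h1.trans (le_of_eq ?_)
    congr 1; ring
  all_goals
    have e2 : I * (z.im : ℂ) + (τ : ℂ) * ((z.re : ℝ) : ℂ) = I * (z.im : ℂ) + ((τ * z.re : ℝ) : ℂ) := by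
      push_cast; ring
    rw [e2]
    obtain ⟨p1, p2, p3⟩ := hpt τ hτ.1 hτ.2
  · exact p1
  · exact p2
  · exact p3

lemma fl_ne {z : ℂ} (h : g (-conj z) ≠ 0) : fl g z ≠ 0 := by
  rw [fl_apply]
  exact (map_ne_zero _).2 h

lemma logDeriv_fl (g : ℂ → ℂ) (z : ℂ) : logDeriv (fl g) z = -conj (logDeriv g (-conj z)) := by
  rw [logDeriv_apply, logDeriv_apply, deriv_fl, fl_apply, map_div₀, neg_div]

/-- a priori bound -/
lemma CD.ap (h : CD m g X) : ∃ T : ℝ, ∀ z : ℂ, T ≤ z.im → |z.re| ≤ 1 →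
    ‖X z / g z‖ ≤ Real.exp (z.im ^ 2 / 20) := by
  have hm := h.hm
  obtain ⟨K, T1, hK, hT1, hgam⟩ := h.gam
  obtain ⟨T2, hgan⟩ := h.gan
  obtain ⟨KS, hKS, hS⟩ := h.slow.2 (1 / 100) (by norm_num)
  obtain ⟨T, hT⟩ : ∃ T, T = max (max T1 T2) 2 := ⟨_, rfl⟩
  have hT1' : T1 ≤ T := by rw [hT]; exact (le_max_left _ _).trans (le_max_left _ _)
  have hT2' : T2 ≤ T := by rw [hT]; exact (le_max_right _ _).trans (le_max_left _ _)
  have hT2'' : 2 ≤ T := by rw [hT]; exact le_max_right _ _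
  have hc0 : 0 < ‖g (I * T)‖ := norm_pos_iff.2 (hgan (I * T) (by simpa using hT2')).2
  obtain ⟨A, hA⟩ : ∃ A, A = |Real.log (KS / ‖g (I * T)‖)| + 1 := ⟨_, rfl⟩
  have hA1 : 1 ≤ A := by rw [hA]; linarith [abs_nonneg (Real.log (KS / ‖g (I * T)‖))]
  have ev1 : ∀ᶠ t : ℝ in atTop, Real.log t ≤ 1 / (100 * m) * t := by
    have h1 := (Real.isLittleO_log_id_atTop).bound (show 0 < 1 / (100 * m) by positivity)
    filter_upwards [h1, eventually_ge_atTop (1 : ℝ)] with t h2 h3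
    rw [Real.norm_eq_abs, Real.norm_eq_abs, abs_of_nonneg (Real.log_nonneg h3)] at h2
    simp only [id_eq] at h2
    rwa [abs_of_pos (by linarith)] at h2
  obtain ⟨T3, hT3⟩ := eventually_atTop.1 ev1
  refine ⟨max (max T T3) (max (200 * K) (100 * A)), fun z hz hz2 => ?_⟩
  have u1 : T ≤ z.im := ((le_max_left _ _).trans (le_max_left _ _)).trans hz
  have u2 : T3 ≤ z.im := ((le_max_right _ _).trans (le_max_left _ _)).trans hz
  have u3 : 200 * K ≤ z.im := ((le_max_left _ _).trans (le_max_right _ _)).trans hz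
  have u4 : 100 * A ≤ z.im := ((le_max_right _ _).trans (le_max_right _ _)).trans hz
  obtain ⟨t, ht⟩ : ∃ t, t = z.im := ⟨_, rfl⟩
  rw [← ht] at u1 u2 u3 u4 ⊢
  have ht2 : 2 ≤ t := by linarith
  have hlog := hT3 t u2
  have hlog0 : 0 ≤ Real.log t := Real.log_nonneg (by linarith)
  have hre := abs_le.1 hz2
  -- the segment from `z` to `I T`
  have hpt : ∀ τ ∈ Icc (0 : ℝ) 1, T ≤ (z + (τ : ℂ) * (I * T - z)).im ∧
      (z + (τ : ℂ) * (I * T - z)).im ≤ t ∧ |(z + (τ : ℂ) * (I * T - z)).re| ≤ 1 := by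
    intro τ hτ
    have e1 : (z + (τ : ℂ) * (I * T - z)).im = t + τ * (T - t) := by simp [ht]
    have e2 : (z + (τ : ℂ) * (I * T - z)).re = (1 - τ) * z.re := by simp; ring
    refine ⟨?_, ?_, ?_⟩
    · rw [e1]; nlinarith [hτ.1, hτ.2]
    · rw [e1]; nlinarith [hτ.1, hτ.2]
    · rw [e2, abs_mul, abs_of_nonneg (by linarith [hτ.2])]
      have : (1 - τ) * |z.re| ≤ 1 * 1 := by
        have := hτ.1
        have := hτ.2
        have := abs_nonneg z.re
        gcongr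
        linarith
      linarith
  have hseg := seg (F := g) (s := z) (v := I * T - z) (ℓ := 0) (K := m / 2 * Real.log t + K)
    (fun τ hτ => (hgan _ (by linarith [(hpt τ hτ).1])).1)
    (fun τ hτ => (hgan _ (by linarith [(hpt τ hτ).1])).2)
    (fun τ hτ => by
      obtain ⟨q1, q2, q3⟩ := hpt τ hτ
      have h1 := hgam (z + (τ : ℂ) * (I * T - z)) (by linarith) (by linarith)
      have h2 : Real.log (z + (τ : ℂ) * (I * T - z)).im ≤ Real.log t :=
        Real.log_le_log (by linarith) q2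
      have h3 : 0 ≤ Real.log (z + (τ : ℂ) * (I * T - z)).im := Real.log_nonneg (by linarith)
      rw [Complex.ofReal_zero, sub_zero]
      calc ‖logDeriv g (z + (τ : ℂ) * (I * T - z))‖
          = ‖(logDeriv g (z + (τ : ℂ) * (I * T - z)) -
              ((m / 2 * Real.log (z + (τ : ℂ) * (I * T - z)).im : ℝ) : ℂ)) +
              ((m / 2 * Real.log (z + (τ : ℂ) * (I * T - z)).im : ℝ) : ℂ)‖ := by rw [sub_add_cancel]
        _ ≤ K + m / 2 * Real.log (z + (τ : ℂ) * (I * T - z)).im := by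
            refine (norm_add_le _ _).trans ?_
            rw [Complex.norm_real, Real.norm_eq_abs, abs_of_nonneg (by positivity)]
            linarith
        _ ≤ m / 2 * Real.log t + K := by
            have : m / 2 * Real.log (z + (τ : ℂ) * (I * T - z)).im ≤ m / 2 * Real.log t := by gcongr
            linarith)
  have e3 : z + (I * T - z) = I * T := by ring
  rw [e3, zero_mul, zero_add] at hseg
  have hvn : ‖I * (T : ℂ) - z‖ ≤ t + 1 := by
    have h1 := Complex.norm_le_abs_re_add_abs_im (I * (T : ℂ) - z)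
    have r1 : (I * (T : ℂ) - z).re = -z.re := by simp
    have i1 : (I * (T : ℂ) - z).im = T - t := by simp [ht]
    rw [r1, i1, abs_neg, abs_of_nonpos (by linarith : T - t ≤ 0)] at h1
    linarith
  have hzn : ‖z‖ ^ 2 ≤ 1 + t ^ 2 := by
    rw [← Complex.normSq_eq_norm_sq, Complex.normSq_apply, ← ht]
    nlinarith
  have hgz : 0 < ‖g z‖ := norm_pos_iff.2 (hgan z (by rw [← ht]; linarith)).2
  rw [norm_div, div_le_iff₀ hgz]
  have h1 := hS z
  have hKK : 0 ≤ m / 2 * Real.log t + K := by positivity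
  have h2 : KS ≤ Real.exp A * ‖g (I * T)‖ := by
    have h3 : KS / ‖g (I * T)‖ ≤ Real.exp A := by
      have h4 : 0 < KS / ‖g (I * T)‖ := by positivity
      rw [← Real.exp_log h4]
      apply Real.exp_le_exp.2
      rw [hA]
      linarith [le_abs_self (Real.log (KS / ‖g (I * T)‖))]
    rwa [div_le_iff₀ hc0] at h3
  calc ‖X z‖ ≤ KS * Real.exp (1 / 100 * ‖z‖ ^ 2) := h1
    _ ≤ (Real.exp A * (‖g z‖ * Real.exp ((m / 2 * Real.log t + K) * ‖I * (T : ℂ) - z‖))) *
        Real.exp (1 / 100 * (1 + t ^ 2)) := by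
        have h3 : KS ≤ Real.exp A * (‖g z‖ * Real.exp ((m / 2 * Real.log t + K) * ‖I * (T : ℂ) - z‖)) :=
          h2.trans (by gcongr)
        gcongr
    _ = Real.exp (A + (m / 2 * Real.log t + K) * ‖I * (T : ℂ) - z‖ + 1 / 100 * (1 + t ^ 2)) * ‖g z‖ := by
        rw [Real.exp_add, Real.exp_add]; ring
    _ ≤ Real.exp (t ^ 2 / 20) * ‖g z‖ := by
        refine mul_le_mul_of_nonneg_right (Real.exp_le_exp.2 ?_) hgz.le
        have h3 : (m / 2 * Real.log t + K) * ‖I * (T : ℂ) - z‖ ≤ (m / 2 * Real.log t + K) * (2 * t) := by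
          gcongr; linarith
        have h4 : m / 2 * Real.log t * (2 * t) ≤ m / 2 * (1 / (100 * m) * t) * (2 * t) := by gcongr
        have h5 : m / 2 * (1 / (100 * m) * t) * (2 * t) = t ^ 2 / 100 := by field_simp
        have h6 : K * (2 * t) ≤ t ^ 2 / 100 := by nlinarith
        have h7 : A + 1 / 100 ≤ t ^ 2 / 100 := by nlinarith
        nlinarith

/-- **the data `RD`** -/
theorem CD.rd (h : CD m g X) : ∃ Ψ : ℂ → ℂ, RD m (fun z => X z / g z) Ψ := by
  have hm := h.hm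
  obtain ⟨K, T1, hK, hT1, hgam⟩ := h.gam
  obtain ⟨T2, hgan⟩ := h.gan
  obtain ⟨ε, hε, hfe⟩ := h.fe
  have hε0 : ε ≠ 0 := by
    intro h0; rw [h0, norm_zero] at hε; norm_num at hε
  obtain ⟨Ψ, hΨ⟩ : ∃ Ψ : ℂ → ℂ, Ψ = fun z => ε⁻¹ * (g z / fl g z) := ⟨_, rfl⟩
  obtain ⟨T, hT⟩ : ∃ T, T = max (max T1 T2) 2 := ⟨_, rfl⟩
  have hT1' : T1 ≤ T := by rw [hT]; exact (le_max_left _ _).trans (le_max_left _ _)
  have hT2' : T2 ≤ T := by rw [hT]; exact (le_max_right _ _).trans (le_max_left _ _)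
  have hT2'' : 2 ≤ T := by rw [hT]; exact le_max_right _ _
  have hflg : ∀ z : ℂ, T ≤ z.im → DifferentiableAt ℂ (fl g) z ∧ fl g z ≠ 0 := by
    intro z hz
    have := hgan (-conj z) (by rw [nc_im]; linarith)
    exact ⟨fl_diff this.1, fl_ne this.2⟩
  have hpsi : ∀ z : ℂ, T ≤ z.im → |z.re| ≤ z.im / 2 →
      DifferentiableAt ℂ Ψ z ∧ Ψ z ≠ 0 ∧ ‖logDeriv Ψ z - ((m * Real.log z.im : ℝ) : ℂ)‖ ≤ 2 * K := by
    intro z hz hz2
    obtain ⟨a1, a2⟩ := hgan z (by linarith)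
    obtain ⟨b1, b2⟩ := hflg z hz
    refine ⟨?_, ?_, ?_⟩
    · rw [hΨ]; exact (a1.div b1 b2).const_mul _
    · rw [hΨ]; exact mul_ne_zero (inv_ne_zero hε0) (div_ne_zero a2 b2)
    · have e1 : logDeriv Ψ z = logDeriv g z - logDeriv (fl g) z := by
        have hq : logDeriv (fun w => g w / fl g w) z = logDeriv g z - logDeriv (fl g) z :=
          logDeriv_div z a2 b2 a1 b1
        rw [hΨ, ← hq]
        exact logDeriv_const_mul z ε⁻¹ (inv_ne_zero hε0)
      have c1 := hgam z (by linarith) hz2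
      have c2 := hgam (-conj z) (by rw [nc_im]; linarith) (by rw [nc_im, nc_re, abs_neg]; exact hz2)
      rw [nc_im] at c2
      rw [e1, logDeriv_fl]
      have e2 : logDeriv g z - -conj (logDeriv g (-conj z)) - ((m * Real.log z.im : ℝ) : ℂ) =
          (logDeriv g z - ((m / 2 * Real.log z.im : ℝ) : ℂ)) +
          conj (logDeriv g (-conj z) - ((m / 2 * Real.log z.im : ℝ) : ℂ)) := by
        rw [map_sub, Complex.conj_ofReal]
        push_cast
        ring
      rw [e2]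
      refine (norm_add_le _ _).trans ?_
      rw [RCLike.norm_conj]
      linarith
  have hunit : ∀ t : ℝ, T ≤ t → ‖Ψ (I * t)‖ = 1 := by
    intro t ht
    have e1 : -conj (I * (t : ℂ)) = I * t := by simp
    have hg0 := (hgan (I * t) (by simp; linarith)).2
    rw [hΨ]
    simp only
    rw [norm_mul, norm_inv, hε, norm_div, norm_fl, e1, div_self (norm_ne_zero_iff.2 hg0)]
    norm_num
  have hff : ∀ z : ℂ, T ≤ z.im → fl (fun z => X z / g z) z = Ψ z * (X z / g z) := by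
    intro z hz
    obtain ⟨a1, a2⟩ := hgan z (by linarith)
    obtain ⟨b1, b2⟩ := hflg z hz
    have e1 : fl (fun z => X z / g z) z = conj (X (-conj z)) / fl g z := by
      rw [fl_apply, fl_apply, map_div₀]
    have e2 : conj (X (-conj z)) = ε⁻¹ * X z := by
      rw [hfe z]; field_simp
    rw [e1, e2, hΨ]
    field_simp
  refine ⟨Ψ, hm, ⟨2 * K, T, by linarith, by linarith, hpsi⟩, ⟨T, hunit⟩, ⟨T, fun z hz => ?_⟩,
    ⟨T, fun z hz _ => hff z hz⟩, h.right, ?_⟩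
  · obtain ⟨a1, a2⟩ := hgan z (by linarith)
    exact (h.slow.1 z).div a1 a2
  · intro ϑ hϑ0 hϑ1 hbd ε1 hε1
    have key := pl (f := fun z => X z / g z) (a := -ϑ) (b := ϑ) (p := m * ϑ) (q := 0) (by linarith)
      (by linarith) hϑ1 ⟨T, fun z hz => (h.slow.1 z).div (hgan z (by linarith)).1 (hgan z (by linarith)).2⟩
      h.ap (by
        intro e he
        obtain ⟨T3, hT3⟩ := hbd (e / 2) (by linarith)
        refine ⟨max (max T T3) (Real.exp (2 * (2 * K) / e)), fun z hz hz2 => ?_⟩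
        have u1 : T ≤ z.im := ((le_max_left _ _).trans (le_max_left _ _)).trans hz
        have u2 : T3 ≤ z.im := ((le_max_right _ _).trans (le_max_left _ _)).trans hz
        have u3 : Real.exp (2 * (2 * K) / e) ≤ z.im := (le_max_right _ _).trans hz
        have him : 0 < z.im := by linarith
        have hlog : 2 * (2 * K) / e ≤ Real.log z.im := (Real.le_log_iff_exp_le him).2 u3
        rw [div_le_iff₀ he] at hlog
        have w1 : (-conj z).re = ϑ := by rw [nc_re, hz2, neg_neg]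
        have w2 := nc_im z
        have w3 : |(-conj z).re| ≤ (-conj z).im / 2 := by
          rw [w1, w2, abs_of_pos hϑ0]; linarith
        have e1 := hff (-conj z) (by rw [w2]; exact u1)
        have e2 := psi_size hpsi hunit (z := -conj z) (by rw [w2]; exact u1) (by rw [w2]; exact u1) w3
        have e3 := hT3 (-conj z) (by rw [w2]; exact u2) w1
        have e4 : ‖X z / g z‖ = ‖fl (fun z => X z / g z) (-conj z)‖ := by
          rw [norm_fl]
          simp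
        rw [w1, w2] at e2
        rw [w2] at e3
        rw [e4, e1, norm_mul]
        calc ‖Ψ (-conj z)‖ * ‖X (-conj z) / g (-conj z)‖
            ≤ Real.exp (m * ϑ * Real.log z.im + 2 * K * |ϑ|) * z.im ^ (e / 2) := by gcongr
          _ = Real.exp (m * ϑ * Real.log z.im + 2 * K * |ϑ| + Real.log z.im * (e / 2)) := by
              rw [Real.rpow_def_of_pos him, ← Real.exp_add]
          _ ≤ Real.exp (Real.log z.im * (m * ϑ + e)) := by
              apply Real.exp_le_exp.2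
              have : 2 * K * |ϑ| ≤ 2 * K * 1 := by
                gcongr; rw [abs_of_pos hϑ0]; exact hϑ1
              linarith
          _ = _ := by rw [Real.rpow_def_of_pos him])
      (by
        intro e he
        obtain ⟨T3, hT3⟩ := hbd e he
        refine ⟨T3, fun z hz hz2 => ?_⟩
        rw [zero_add]
        exact hT3 z hz hz2) ε1 hε1
    obtain ⟨T4, hT4⟩ := key
    refine ⟨T4, fun z hz hz2 => ?_⟩
    have hz3 := abs_le.1 hz2
    have := hT4 z hz hz3.1 hz3.2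
    have e1 : m * ϑ + (0 - m * ϑ) * ((z.re - -ϑ) / (ϑ - -ϑ)) + ε1 = m / 2 * (ϑ - z.re) + ε1 := by
      have : ϑ - -ϑ = 2 * ϑ := by ring
      rw [this]
      field_simp
      ring
    rw [e1] at this
    exact this

/-- Lindelöf on the critical line gives Lindelöf to the right -/
theorem CD.lh (h : CD m g X) (hL : ∀ ε : ℝ, 0 < ε → ∃ T : ℝ, ∀ t : ℝ, T ≤ t →
    ‖X (I * t) / g (I * t)‖ ≤ t ^ ε) : LH (fun z => X z / g z) := by
  obtain ⟨T2, hgan⟩ := h.gan
  obtain ⟨B, TB, hB, hright⟩ := h.right (1 / 2) (by norm_num)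
  have hBε : ∀ e : ℝ, 0 < e → ∃ T : ℝ, ∀ y : ℝ, T ≤ y → B ≤ y ^ e := by
    intro e he
    exact eventually_atTop.1 ((tendsto_rpow_atTop he).eventually_ge_atTop B)
  have key := pl (f := fun z => X z / g z) (a := 0) (b := 1) (p := 0) (q := 0) one_pos
    (by norm_num) le_rfl ⟨T2, fun z hz => (h.slow.1 z).div (hgan z hz).1 (hgan z hz).2⟩
    h.ap (by
      intro e he
      obtain ⟨T, hT⟩ := hL e he
      refine ⟨T, fun z hz hz2 => ?_⟩
      have e1 : z = I * z.im := by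
        apply Complex.ext
        · simp [hz2]
        · simp
      rw [zero_add, e1]
      have := hT z.im hz
      simpa using this)
    (by
      intro e he
      obtain ⟨T, hT⟩ := hBε e he
      refine ⟨max T TB, fun z hz hz2 => ?_⟩
      rw [zero_add]
      refine ((hright z ((le_max_right _ _).trans hz) (by rw [hz2]; norm_num)).2.2.2).trans ?_
      exact hT z.im ((le_max_left _ _).trans hz))
  intro ε hε
  obtain ⟨T3, hT3⟩ := key ε hε
  obtain ⟨T4, hT4⟩ := hBε ε hε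
  refine ⟨max T3 (max T4 TB), fun z hz hz2 => ?_⟩
  have u1 : T3 ≤ z.im := (le_max_left _ _).trans hz
  have u2 : T4 ≤ z.im := ((le_max_left _ _).trans (le_max_right _ _)).trans hz
  have u3 : TB ≤ z.im := ((le_max_right _ _).trans (le_max_right _ _)).trans hz
  by_cases hc : z.re ≤ 1
  · have := hT3 z u1 hz2 hc
    simpa using this
  · exact ((hright z u3 (by linarith)).2.2.2).trans (hT4 z.im u2)

end Pool.Agent.K3h84.DL
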