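import Pool.Agent.K3h84.DL.CDl

set_option autoImplicit false

/-! # The final statements in the variable `s` -/

namespace Pool.Agent.K3h84.DL

open Complex Filter Topology MeasureTheory Set
open scoped ComplexConjugate

/-- no zeros of the high derivatives to the left of `Re s = x`, up to height `exp (κ k)` -/
def Hor (x : ℝ) (L : ℂ → ℂ) (κ : ℝ) : Prop := ∃ K : ℕ, ∀ k : ℕ, K ≤ k → ∀ s : ℂ, (k : ℝ) ≤ |s.im| →
  |s.im| ≤ Real.exp (κ * k) → x - |s.im| / 8 ≤ s.re → s.re ≤ x → iteratedDeriv k L s ≠ 0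

/-- for every `ε > 0` only finitely many zeros with `Re s > σ + ε` -/
def AF (σ : ℝ) (Λ : ℂ → ℂ) : Prop := ∀ ε : ℝ, 0 < ε → {s : ℂ | Λ s = 0 ∧ σ + ε < s.re}.Finite

/-- the Lindelöf hypothesis on the line `Re s = x` -/
def Lin (x : ℝ) (L : ℂ → ℂ) : Prop := ∀ ε : ℝ, 0 < ε → ∃ T : ℝ, ∀ t : ℝ, T ≤ t →
  ‖L ((x : ℂ) + t * I)‖ ≤ t ^ ε

/-- the data for the final statements -/
structure FD (m x : ℝ) (f L Λ : ℂ → ℂ) : Prop where
  rd : ∃ Ψ : ℂ → ℂ, RD m f Ψ
  eqf : ∃ T0 : ℝ, ∀ z : ℂ, T0 ≤ z.im → f z = L (x + z)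
  lh : Lin x L → LH f
  cL : ∀ s : ℂ, L (conj s) = conj (L s)
  cΛ : ∀ s : ℂ, Λ (conj s) = conj (Λ s)
  zer : ∃ T0 : ℝ, ∀ s : ℂ, T0 ≤ s.im → (L s = 0 ↔ Λ s = 0)
  ent : Differentiable ℂ Λ
  far : ∀ s : ℂ, x + 1 / 2 < s.re → Λ s ≠ 0

variable {m x : ℝ} {f L Λ : ℂ → ℂ}

lemma iter_conj (h : ∀ s : ℂ, L (conj s) = conj (L s)) (k : ℕ) (s : ℂ) :
    iteratedDeriv k L (conj s) = conj (iteratedDeriv k L s) := by
  have key : ∀ k : ℕ, (⇑(starRingEnd ℂ) ∘ iteratedDeriv k L ∘ ⇑(starRingEnd ℂ)) = iteratedDeriv k L := by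
    intro k
    induction k with
    | zero =>
      funext s
      simp only [iteratedDeriv_zero, Function.comp_apply]
      rw [h s, Complex.conj_conj]
    | succ k ih =>
      rw [iteratedDeriv_succ, ← deriv_conj_conj, ih]
  have := congrFun (key k) s
  simp only [Function.comp_apply] at this
  rw [← this, Complex.conj_conj]

lemma FD.iter (h : FD m x f L Λ) : ∃ T0 : ℝ, ∀ (k : ℕ) (z : ℂ), T0 ≤ z.im →
    iteratedDeriv k f z = iteratedDeriv k L (x + z) := by
  obtain ⟨T0, hT⟩ := h.eqf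
  refine ⟨T0 + 1, fun k z hz => ?_⟩
  have o1 : IsOpen {w : ℂ | T0 < w.im} := isOpen_lt continuous_const Complex.continuous_im
  have hev : f =ᶠ[𝓝 z] fun w => L (x + 1 * w) := by
    filter_upwards [o1.mem_nhds (show T0 < z.im by linarith)] with w hw
    rw [one_mul]
    exact hT w (le_of_lt hw)
  rw [hev.iteratedDeriv_eq k, iter_aff]
  simp

lemma FD.hor (h : FD m x f L Λ) (κ : ℝ) : Hor x L κ ↔ Hz f κ := by
  obtain ⟨T0, hT⟩ := h.iter
  constructor
  · rintro ⟨K, hK⟩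
    refine ⟨max K (max ⌈T0⌉₊ 1), fun k hk z h1 h2 h3 h4 => ?_⟩
    have k1 : K ≤ k := (le_max_left _ _).trans hk
    have k2 : ⌈T0⌉₊ ≤ k := ((le_max_left _ _).trans (le_max_right _ _)).trans hk
    have k3 : T0 ≤ k := (Nat.le_ceil _).trans (by exact_mod_cast k2)
    have k4 : (1 : ℝ) ≤ k := by exact_mod_cast ((le_max_right _ _).trans (le_max_right _ _)).trans hk
    rw [hT k z (by linarith)]
    have him : ((x : ℂ) + z).im = z.im := by simp
    have hre : ((x : ℂ) + z).re = x + z.re := by simp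
    have hab : |z.im| = z.im := abs_of_pos (by linarith)
    refine hK k k1 (x + z) ?_ ?_ ?_ ?_
    · rw [him, hab]; exact h1
    · rw [him, hab]; exact h2
    · rw [him, hab, hre]; linarith
    · rw [hre]; linarith
  · rintro ⟨K, hK⟩
    refine ⟨max K (max ⌈T0⌉₊ 1), fun k hk s h1 h2 h3 h4 => ?_⟩
    have k1 : K ≤ k := (le_max_left _ _).trans hk
    have k2 : ⌈T0⌉₊ ≤ k := ((le_max_left _ _).trans (le_max_right _ _)).trans hk
    have k3 : T0 ≤ k := (Nat.le_ceil _).trans (by exact_mod_cast k2)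
    have k4 : (1 : ℝ) ≤ k := by exact_mod_cast ((le_max_right _ _).trans (le_max_right _ _)).trans hk
    have key : ∀ s : ℂ, (k : ℝ) ≤ s.im → s.im ≤ Real.exp (κ * k) → x - s.im / 8 ≤ s.re → s.re ≤ x →
        iteratedDeriv k L s ≠ 0 := by
      intro s h1 h2 h3 h4
      have e1 : (x : ℂ) + (s - x) = s := by ring
      have i1 : (s - (x : ℂ)).im = s.im := by simp
      have r1 : (s - (x : ℂ)).re = s.re - x := by simp
      have := hK k k1 (s - x) (by rw [i1]; exact h1) (by rw [i1]; exact h2)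
        (by rw [i1, r1]; linarith) (by rw [r1]; linarith)
      rw [hT k (s - x) (by rw [i1]; linarith), e1] at this
      exact this
    rcases le_total 0 s.im with hs | hs
    · rw [abs_of_nonneg hs] at h1 h2 h3
      exact key s h1 h2 h3 h4
    · rw [abs_of_nonpos hs] at h1 h2 h3
      have := key (conj s) (by rw [Complex.conj_im]; exact h1) (by rw [Complex.conj_im]; exact h2)
        (by rw [Complex.conj_im, Complex.conj_re]; exact h3) (by rw [Complex.conj_re]; exact h4)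
      rw [iter_conj h.cL] at this
      intro h0
      apply this
      rw [h0, map_zero]

/-- finitely many zeros in a bounded region -/
lemma finite_zeros (hΛ : Differentiable ℂ Λ) (hne : ∃ s, Λ s ≠ 0) {S : Set ℂ} (hS : Bornology.IsBounded S)
    (hz : ∀ s ∈ S, Λ s = 0) : S.Finite := by
  by_contra hinf
  have hinf' : S.Infinite := hinf
  obtain ⟨z0, -, hz0⟩ := hinf'.exists_accPt_of_subset_isCompact hS.isCompact_closure subset_closure
  rw [accPt_iff_frequently_nhdsNE] at hz0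
  have hfr : ∃ᶠ w in 𝓝[≠] z0, Λ w = 0 := hz0.mono fun w hw => hz w hw
  have han : AnalyticOnNhd ℂ Λ univ := fun w _ => hΛ.analyticAt w
  have := han.eqOn_zero_of_preconnected_of_frequently_eq_zero isPreconnected_univ (mem_univ z0) hfr
  obtain ⟨s, hs⟩ := hne
  exact hs (this (mem_univ s))

lemma FD.af (h : FD m x f L Λ) {ϑ : ℝ} (hϑ : 0 ≤ ϑ) : AF (x + ϑ) Λ ↔ EF f ϑ := by
  obtain ⟨T1, hT1⟩ := h.eqf
  obtain ⟨T2, hT2⟩ := h.zer
  have hfz : ∀ z : ℂ, max T1 T2 ≤ z.im → (f z = 0 ↔ Λ (x + z) = 0) := by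
    intro z hz
    rw [hT1 z ((le_max_left _ _).trans hz)]
    exact hT2 _ (by simpa using (le_max_right _ _).trans hz)
  constructor
  · intro hA ε hε
    have hfin := hA (ε / 2) (by linarith)
    obtain ⟨R, hR⟩ := hfin.isBounded.exists_norm_le
    refine ⟨max (max T1 T2) (R + 1), fun z hz hz2 hf0 => ?_⟩
    have h1 := (hfz z ((le_max_left _ _).trans hz)).1 hf0
    have h2 := hR (x + z) ⟨h1, by simp; linarith⟩
    have h3 := Complex.abs_im_le_norm ((x : ℂ) + z)
    have h4 : ((x : ℂ) + z).im = z.im := by simp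
    rw [h4] at h3
    have h5 := le_abs_self z.im
    have h6 : R + 1 ≤ z.im := (le_max_right _ _).trans hz
    linarith
  · intro hE ε hε
    obtain ⟨T, hT⟩ := hE ε hε
    refine finite_zeros h.ent ⟨((x + 1 : ℝ) : ℂ), h.far _ (by rw [Complex.ofReal_re]; linarith)⟩ ?_
      (fun s hs => hs.1)
    obtain ⟨R, hR⟩ : ∃ R, R = max T (max T1 T2) := ⟨_, rfl⟩
    have hno : ∀ s : ℂ, Λ s = 0 → x + ϑ + ε < s.re → s.im < R := by
      intro s h1 h2
      by_contra hc
      rw [not_lt, hR] at hc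
      have i1 : (s - (x : ℂ)).im = s.im := by simp
      have r1 : (s - (x : ℂ)).re = s.re - x := by simp
      have e1 : (x : ℂ) + (s - x) = s := by ring
      refine hT (s - x) (by rw [i1]; exact (le_max_left _ _).trans hc) (by rw [r1]; linarith) ?_
      rw [hfz _ (by rw [i1]; exact (le_max_right _ _).trans hc), e1]
      exact h1
    rw [isBounded_iff_forall_norm_le]
    refine ⟨|x| + 1 + |R|, fun s hs => ?_⟩
    obtain ⟨h1, h2⟩ := hs
    have h3 := hno s h1 h2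
    have h4 : -s.im < R := by
      have := hno (conj s) (by rw [h.cΛ, h1, map_zero]) (by rw [Complex.conj_re]; exact h2)
      rwa [Complex.conj_im] at this
    have h5 : s.re ≤ x + 1 / 2 := by
      by_contra hc
      exact h.far s (by linarith) h1
    have h6 := Complex.norm_le_abs_re_add_abs_im s
    have h7 : |s.re| ≤ |x| + 1 := by
      rw [abs_le]
      have := neg_abs_le x
      have := le_abs_self x
      constructor <;> linarith
    have h8 : |s.im| ≤ |R| := by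
      rw [abs_le]
      have := le_abs_self R
      constructor <;> linarith
    linarith

/-- **the final theorem** -/
theorem FD.main (h : FD m x f L Λ) :
    (∀ κ : ℝ, κ * m < 2 → Hor x L κ) ∧
    (∀ ϑ κ : ℝ, 0 ≤ ϑ → AF (x + ϑ) Λ → κ * m * ϑ < 1 → Hor x L κ) ∧
    (∀ κ : ℝ, 0 < κ → Hor x L κ → AF (x + 2 / (κ * m)) Λ) ∧
    ((∀ κ : ℝ, Hor x L κ) ↔ AF x Λ) ∧
    (Lin x L → ∀ κ : ℝ, 0 < κ → ((∀ κ' : ℝ, κ' < κ → Hor x L κ') ↔ AF (x + 1 / (κ * m)) Λ)) := by
  obtain ⟨Ψ, hrd⟩ := h.rd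
  have hm := hrd.hm
  have e0 : AF x Λ ↔ EF f 0 := by
    have := h.af (ϑ := 0) le_rfl
    rwa [add_zero] at this
  simp only [h.hor]
  refine ⟨fun κ hκ => hz_uncond hrd hκ, fun ϑ κ hϑ hA hκ => ?_, fun κ hκ hH => ?_, ?_, fun hL κ hκ => ?_⟩
  · exact hz_of_ef hrd hϑ ((h.af hϑ).1 hA) hκ
  · exact (h.af (by positivity)).2 (ef_of_hz hrd hκ hH)
  · rw [e0]; exact hz_all hrd
  · rw [h.af (by positivity)]
    exact hz_lh hrd (h.lh hL) hκ

end Pool.Agent.K3h84.DL
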