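import Pool.Agent.K3h84.DL.NLc
import Pool.Agent.K3h84.DL.Fin
import Pool.Agent.TH839.UH.Coh

set_option autoImplicit false

/-! # The data `FD` for the L-functions of cohomology groups

The proof of `data` follows `Pool.Agent.TH839.UH.Coh.main` (of the starting files). -/

open Complex Filter Topology Set Polynomial
open scoped ComplexConjugate

namespace Pool.Agent.K3h84.DL

open Pool.Agent.TH839.UH Pool.Agent.TH839.UH.Coh

/-- no zeros to the right of `Re s = 1` -/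
lemma NL.far {m r : ℕ} {N : ℝ} {a : Fin m → ℂ} {α : Nat.Primes → Fin m → ℂ} {X : ℂ → ℂ}
    (h : NL m r N a α X) (ha : ∀ j, -1 / 2 ≤ (a j).re) {s : ℂ} (hs : 1 < s.re) : X s ≠ 0 := by
  obtain ⟨M, hM⟩ := h.rt
  obtain ⟨σ, hσ⟩ := h.eq
  have hN0 : (N : ℂ) ≠ 0 := by exact_mod_cast h.hN.ne'
  have hgam : ∀ (z : ℂ) (j : Fin m), 1 < z.re → ∀ n : ℕ, z + a j ≠ -(2 * n) := by
    intro z j hz n
    refine Pool.Agent.W355.LJ.re_ne ?_ n
    rw [Complex.add_re]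
    linarith [ha j]
  have hG0 : ∀ z : ℂ, 1 < z.re → (z * (z - 1)) ^ r * ((N : ℂ) ^ (z / 2) * ∏ j, Gammaℝ (z + a j)) *
      EP.E α z ≠ 0 := by
    intro z hz
    have z0 : z ≠ 0 := fun h0 => by rw [h0] at hz; norm_num at hz
    have z1 : z - 1 ≠ 0 := fun h0 => by rw [sub_eq_zero] at h0; rw [h0] at hz; norm_num at hz
    refine mul_ne_zero (mul_ne_zero (pow_ne_zero _ (mul_ne_zero z0 z1)) (mul_ne_zero ?_ ?_))
      (E_an hM hz).2
    · rw [Ne, Complex.cpow_eq_zero_iff]; tauto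
    · exact Finset.prod_ne_zero_iff.2 fun j _ => Pool.Agent.W355.LJ.gr_ne _ (hgam z j hz)
  have hopen : IsOpen {s : ℂ | 1 < s.re} := isOpen_lt continuous_const Complex.continuous_re
  have h1 : AnalyticOnNhd ℂ X {s : ℂ | 1 < s.re} := fun z _ => h.slow.1.analyticAt z
  have h2 : AnalyticOnNhd ℂ (fun z => (z * (z - 1)) ^ r * ((N : ℂ) ^ (z / 2) * ∏ j, Gammaℝ (z + a j)) *
      EP.E α z) {s : ℂ | 1 < s.re} := by
    refine DifferentiableOn.analyticOnNhd (fun z hz => ?_) hopen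
    have hz' : 1 < z.re := hz
    have d1 : DifferentiableAt ℂ (fun z : ℂ => (z * (z - 1)) ^ r) z := by fun_prop
    have d2 : DifferentiableAt ℂ (fun z : ℂ => (N : ℂ) ^ (z / 2)) z :=
      DifferentiableAt.const_cpow (by fun_prop) (Or.inl hN0)
    have d3 : DifferentiableAt ℂ (fun z : ℂ => ∏ j, Gammaℝ (z + a j)) z := by
      refine DifferentiableAt.fun_finsetProd fun j _ => ?_
      exact DifferentiableAt.comp (g := Gammaℝ) (f := fun s : ℂ => s + a j) z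
        (Pool.Agent.W355.LJ.gr_diff _ (hgam z j hz')) (by fun_prop)
    exact ((d1.mul (d2.mul d3)).mul (E_an hM hz').1).differentiableWithinAt
  have hz0 : ((max σ 1 + 1 : ℝ) : ℂ) ∈ {s : ℂ | 1 < s.re} := by
    have := le_max_right σ 1
    show 1 < (((max σ 1 + 1 : ℝ) : ℂ)).re
    rw [Complex.ofReal_re]
    linarith
  have := h1.eqOn_of_preconnected_of_eventuallyEq h2 (convex_halfSpace_re_gt 1).isPreconnected
    hz0 (by
      have h3 : ∀ᶠ z : ℂ in 𝓝 ((max σ 1 + 1 : ℝ) : ℂ), σ < z.re := by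
        have := le_max_left σ 1
        exact (Complex.continuous_re.tendsto _).eventually (lt_mem_nhds (by
          rw [Complex.ofReal_re]
          linarith))
      filter_upwards [h3] with z hz
      exact hσ z hz.le) hs
  rw [this]
  exact hG0 s hs

lemma aux_div (K L P : ℂ) : K⁻¹ * L / P = L / (P * K) := by
  rw [div_eq_mul_inv, div_eq_mul_inv, mul_inv]
  ring

/-- the data of a Hasse-Weil L-function -/
theorem data {i : ℕ} {h : ℕ → ℕ} {a b : ℕ} {P : ℕ → ℤ[X]}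
    (hpos : 1 ≤ 2 * ∑ p ∈ Finset.range ((i + 1) / 2), h p + (if Even i then a + b else 0))
    (hP0 : ∀ p, p.Prime → (P p).coeff 0 = 1)
    (hPd : ∀ p, p.Prime → (P p).natDegree ≤
      2 * ∑ p ∈ Finset.range ((i + 1) / 2), h p + (if Even i then a + b else 0))
    (hPr : ∀ p : ℕ, p.Prime → ∀ z : ℂ, aeval z (P p) = 0 → (p : ℝ) ^ (-(((i : ℝ) + 1) / 2)) ≤ ‖z‖)
    {N0 : ℕ} (hN0 : 0 < N0)
    (hPg : ∀ p : ℕ, p.Prime → ¬ p ∣ N0 → ∀ z : ℂ, aeval z (P p) = 0 → (p : ℝ) ^ (-((i : ℝ) / 2)) ≤ ‖z‖)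
    {A : ℝ} {r : ℕ} {Λ : ℂ → ℂ} (hA : 1 ≤ A)
    (hr : r ≤ 2 * ∑ p ∈ Finset.range ((i + 1) / 2), h p + (if Even i then a + b else 0))
    (hent : Differentiable ℂ Λ)
    (hord : ∃ A ρ : ℝ, ∀ s : ℂ, ‖Λ s‖ ≤ Real.exp (A * (1 + ‖s‖) ^ ρ))
    (hfe : ∃ ε : ℝ, (ε = 1 ∨ ε = -1) ∧ ∀ s : ℂ, Λ s = ε * Λ (i + 1 - s))
    (heq : ∃ σ : ℝ, ∀ s : ℂ, σ ≤ s.re → Λ s = ((s - (i : ℂ) / 2) * (s - (i : ℂ) / 2 - 1)) ^ r *
      ((A : ℂ) ^ (s / 2) * ((∏ p ∈ Finset.range ((i + 1) / 2), Gammaℂ (s - p) ^ h p) *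
        (if Even i then Gammaℝ (s - (i : ℂ) / 2) ^ a * Gammaℝ (s - (i : ℂ) / 2 + 1) ^ b else 1)) *
        ∏' p : Nat.Primes, (aeval (((p : ℕ) : ℂ) ^ (-s)) (P p))⁻¹)) :
    ∃ f : ℂ → ℂ, FD ((2 * ∑ p ∈ Finset.range ((i + 1) / 2), h p + (if Even i then a + b else 0) : ℕ) : ℝ)
      (((i : ℝ) + 1) / 2) f (fun s => Λ s / (((s - (i : ℂ) / 2) * (s - (i : ℂ) / 2 - 1)) ^ r *
        ((A : ℂ) ^ (s / 2) * ((∏ p ∈ Finset.range ((i + 1) / 2), Gammaℂ (s - p) ^ h p) *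
        (if Even i then Gammaℝ (s - (i : ℂ) / 2) ^ a * Gammaℝ (s - (i : ℂ) / 2 + 1) ^ b else 1))))) Λ := by
  obtain ⟨l, hl⟩ : ∃ l : List ℂ, l = shl i h a b := ⟨_, rfl⟩
  have hlen : l.length = 2 * ∑ p ∈ Finset.range ((i + 1) / 2), h p +
      (if Even i then a + b else 0) := by rw [hl, shl_length]
  have hA0 : 0 < A := by linarith
  have hAc : (A : ℂ) ≠ 0 := by exact_mod_cast hA0.ne'
  -- the reciprocal roots
  have hroots : ∀ p : Nat.Primes, ∃ α : Fin l.length → ℂ,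
      (∀ z : ℂ, aeval z (P p) = ∏ j, (1 - α j * z)) ∧
      (∀ j, ‖α j‖ ≤ ((p : ℕ) : ℝ) ^ (((i : ℝ) + 1) / 2)) ∧
      (¬ (p : ℕ) ∣ N0 → ∀ j, ‖α j‖ ≤ ((p : ℕ) : ℝ) ^ ((i : ℝ) / 2)) := by
    intro p
    have hp0 : (0 : ℝ) < ((p : ℕ) : ℝ) := by exact_mod_cast p.2.pos
    have hev : ∀ z : ℂ, ((P p).map (algebraMap ℤ ℂ)).eval z = aeval z (P p) := fun z => by
      rw [Polynomial.eval_map, Polynomial.aeval_def]
    obtain ⟨α, h1, h2⟩ := roots l.length ((P p).map (algebraMap ℤ ℂ)) (by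
      rw [Polynomial.coeff_map, hP0 p p.2, map_one]) ((Polynomial.natDegree_map_le).trans (by
        rw [hlen]; exact hPd p p.2))
    refine ⟨α, fun z => by rw [← hev, h1], fun j => ?_, fun hg j => ?_⟩
    · rcases h2 j with h3 | ⟨h3, h4⟩
      · rw [h3, norm_zero]
        exact Real.rpow_nonneg hp0.le _
      · rw [hev] at h4
        have h5 := hPr p p.2 _ h4
        rw [norm_inv, Real.rpow_neg hp0.le] at h5
        exact (inv_le_inv₀ (Real.rpow_pos_of_pos hp0 _) (norm_pos_iff.2 h3)).1 h5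
    · rcases h2 j with h3 | ⟨h3, h4⟩
      · rw [h3, norm_zero]
        exact Real.rpow_nonneg hp0.le _
      · rw [hev] at h4
        have h5 := hPg p p.2 hg _ h4
        rw [norm_inv, Real.rpow_neg hp0.le] at h5
        exact (inv_le_inv₀ (Real.rpow_pos_of_pos hp0 _) (norm_pos_iff.2 h3)).1 h5
  choose α0 hα1 hα2 hα3 using hroots
  obtain ⟨α, hαd⟩ : ∃ α : Nat.Primes → Fin l.length → ℂ, α = fun p j =>
      α0 p j * ((p : ℕ) : ℂ) ^ (-((i : ℂ) / 2)) := ⟨_, rfl⟩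
  have hα : ∀ p j, ‖α p j‖ ≤ ((p : ℕ) : ℝ) ^ (1 / 2 : ℝ) := by
    intro p j
    have hp0 : (0 : ℝ) < ((p : ℕ) : ℝ) := by exact_mod_cast p.2.pos
    have e : (-((i : ℂ) / 2)).re = -((i : ℝ) / 2) := by
      rw [show (-((i : ℂ) / 2)) = ((-((i : ℝ) / 2) : ℝ) : ℂ) by push_cast; rfl, ofReal_re]
    rw [hαd]
    show ‖α0 p j * ((p : ℕ) : ℂ) ^ (-((i : ℂ) / 2))‖ ≤ _
    rw [norm_mul, Complex.norm_natCast_cpow_of_pos p.2.pos, e]
    calc ‖α0 p j‖ * ((p : ℕ) : ℝ) ^ (-((i : ℝ) / 2)) ≤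
        ((p : ℕ) : ℝ) ^ (((i : ℝ) + 1) / 2) * ((p : ℕ) : ℝ) ^ (-((i : ℝ) / 2)) := by
          gcongr
          exact hα2 p j
      _ = ((p : ℕ) : ℝ) ^ (1 / 2 : ℝ) := by
          rw [← Real.rpow_add hp0]
          congr 1
          ring
  have hαg : ∀ (p : Nat.Primes) (j : Fin l.length), ¬ (p : ℕ) ∣ N0 → ‖α p j‖ ≤ 1 := by
    intro p j hg
    have hp0 : (0 : ℝ) < ((p : ℕ) : ℝ) := by exact_mod_cast p.2.pos
    have e : (-((i : ℂ) / 2)).re = -((i : ℝ) / 2) := by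
      rw [show (-((i : ℂ) / 2)) = ((-((i : ℝ) / 2) : ℝ) : ℂ) by push_cast; rfl, ofReal_re]
    rw [hαd]
    show ‖α0 p j * ((p : ℕ) : ℂ) ^ (-((i : ℂ) / 2))‖ ≤ _
    rw [norm_mul, Complex.norm_natCast_cpow_of_pos p.2.pos, e]
    calc ‖α0 p j‖ * ((p : ℕ) : ℝ) ^ (-((i : ℝ) / 2)) ≤
        ((p : ℕ) : ℝ) ^ ((i : ℝ) / 2) * ((p : ℕ) : ℝ) ^ (-((i : ℝ) / 2)) := by
          gcongr
          exact hα3 p hg j
      _ = 1 := by
          rw [← Real.rpow_add hp0, add_neg_cancel, Real.rpow_zero]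
  have hRT : RT α (N0 + 1) := by
    refine ⟨by omega, hα, fun p hp j => hαg p j fun hd => ?_⟩
    have := Nat.le_of_dvd hN0 hd
    omega
  -- the local factors in the normalised variable
  have hloc : ∀ (z : ℂ) (p : Nat.Primes), (aeval (((p : ℕ) : ℂ) ^ (-(z + (i : ℂ) / 2))) (P p))⁻¹ =
      ∏ j, (1 - α p j * ((p : ℕ) : ℂ) ^ (-z))⁻¹ := by
    intro z p
    rw [hα1, ← Finset.prod_inv_distrib]
    refine Finset.prod_congr rfl fun j _ => ?_
    rw [hαd]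
    show _ = (1 - α0 p j * ((p : ℕ) : ℂ) ^ (-((i : ℂ) / 2)) * ((p : ℕ) : ℂ) ^ (-z))⁻¹
    rw [mul_assoc, ← Complex.cpow_add _ _ (EP.p0 p)]
    congr 4
    ring
  -- the completed function for large real part
  obtain ⟨κ, hκd⟩ : ∃ κ : ℝ, κ = A ^ (-((i : ℝ) / 4)) := ⟨_, rfl⟩
  have hκ : 0 < κ := by rw [hκd]; positivity
  have hκA : (κ : ℂ) * (A : ℂ) ^ ((i : ℂ) / 4) = 1 := by
    rw [hκd, Complex.ofReal_cpow hA0.le, ← Complex.cpow_add _ _ hAc]
    push_cast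
    rw [neg_add_cancel, Complex.cpow_zero]
  have hhalf : ((i : ℂ) / 2) = ((((i : ℝ) / 2 : ℝ)) : ℂ) := by push_cast; rfl
  have hkey : ∃ σ : ℝ, ∀ z : ℂ, σ ≤ z.re → (κ : ℂ) * Λ (z + (((i : ℝ) / 2 : ℝ) : ℂ)) =
      (z * (z - 1)) ^ r * ((A : ℂ) ^ (z / 2) * ∏ j, Gammaℝ (z + l.get j)) * EP.E α z := by
    obtain ⟨σ, hσ⟩ := heq
    refine ⟨σ, fun z hz => ?_⟩
    rw [hσ (z + (((i : ℝ) / 2 : ℝ) : ℂ)) (by
      rw [add_re, ofReal_re]
      have : (0 : ℝ) ≤ (i : ℝ) / 2 := by positivity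
      linarith), ← hhalf]
    simp only [add_sub_cancel_right]
    have e1 : (A : ℂ) ^ ((z + (i : ℂ) / 2) / 2) = (A : ℂ) ^ (z / 2) * (A : ℂ) ^ ((i : ℂ) / 4) := by
      rw [← Complex.cpow_add _ _ hAc]
      congr 1
      ring
    have e2 : (∏ j, Gammaℝ (z + l.get j)) =
        (∏ p ∈ Finset.range ((i + 1) / 2), Gammaℂ (z + (i : ℂ) / 2 - p) ^ h p) *
        (if Even i then Gammaℝ z ^ a * Gammaℝ (z + 1) ^ b else 1) := by
      rw [Pool.Agent.W355.UN.prod_get l (fun c : ℂ => Gammaℝ (z + c)), hl, shl_prod]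
      simp only [add_zero]
      congr 1
      refine Finset.prod_congr rfl fun p _ => ?_
      rw [← Complex.Gammaℝ_mul_Gammaℝ_add_one]
      congr 3 <;> ring
    have e3 : (∏' p : Nat.Primes, (aeval (((p : ℕ) : ℂ) ^ (-(z + (i : ℂ) / 2))) (P p))⁻¹) =
        EP.E α z := tprod_congr fun p => hloc z p
    rw [e1, e2, e3]
    linear_combination ((z * (z - 1)) ^ r * ((A : ℂ) ^ (z / 2) *
      ((∏ p ∈ Finset.range ((i + 1) / 2), Gammaℂ (z + (i : ℂ) / 2 - p) ^ h p) *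
        (if Even i then Gammaℝ z ^ a * Gammaℝ (z + 1) ^ b else 1))) * EP.E α z) * hκA
  -- `Λ` is real on the real axis
  have hreal : ∀ s : ℂ, conj (Λ (conj s)) = Λ s := by
    have h1 : AnalyticOnNhd ℂ Λ univ := fun z _ => hent.analyticAt z
    have h2 : AnalyticOnNhd ℂ (fun s => conj (Λ (conj s))) univ := by
      have : Differentiable ℂ (fun s => conj (Λ (conj s))) := by
        intro z
        have := (hent (conj z)).hasDerivAt.conj_conj
        rw [Complex.conj_conj] at this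
        exact this.differentiableAt
      exact fun z _ => this.analyticAt z
    obtain ⟨σ, hσ⟩ := heq
    obtain ⟨τ, hτ⟩ : ∃ τ : ℝ, τ = max σ (2 + (i : ℝ) / 2) := ⟨_, rfl⟩
    intro s
    refine h2.eqOn_of_preconnected_of_eventuallyEq h1 isPreconnected_univ
      (mem_univ (((τ + 1 : ℝ) : ℂ))) ?_ (mem_univ s)
    have h3 : ∀ᶠ z : ℂ in 𝓝 ((τ + 1 : ℝ) : ℂ), τ < z.re :=
      (Complex.continuous_re.tendsto _).eventually (lt_mem_nhds (by
        rw [ofReal_re]; linarith))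
    filter_upwards [h3] with z hz
    have hz1 : σ ≤ z.re := by
      have := le_max_left σ (2 + (i : ℝ) / 2)
      linarith
    have hz2 : 2 + (i : ℝ) / 2 ≤ z.re := by
      have := le_max_right σ (2 + (i : ℝ) / 2)
      linarith
    rw [hσ (conj z) (by rw [Complex.conj_re]; exact hz1), hσ z hz1]
    have hAa : ((A : ℂ)).arg ≠ Real.pi := by
      rw [Complex.arg_ofReal_of_nonneg hA0.le]
      exact Real.pi_pos.ne
    have hE : conj (∏' p : Nat.Primes, (aeval (((p : ℕ) : ℂ) ^ (-(conj z))) (P p))⁻¹) =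
        ∏' p : Nat.Primes, (aeval (((p : ℕ) : ℂ) ^ (-z)) (P p))⁻¹ := by
      have hp := EP.prod_eq hα (s := conj z - (i : ℂ) / 2) (by
        rw [sub_re, Complex.conj_re, hhalf, ofReal_re]
        linarith)
      have hp2 := hp.map (starRingEnd ℂ) Complex.continuous_conj
      have e1 : ∀ p : Nat.Primes, (∏ j, (1 - α p j * ((p : ℕ) : ℂ) ^ (-(conj z - (i : ℂ) / 2)))⁻¹) =
          (aeval (((p : ℕ) : ℂ) ^ (-(conj z))) (P p))⁻¹ := fun p => by
        rw [← hloc, sub_add_cancel]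
      simp only [e1] at hp
      have e2 : ∀ p : Nat.Primes, conj ((aeval (((p : ℕ) : ℂ) ^ (-(conj z))) (P p))⁻¹) =
          (aeval (((p : ℕ) : ℂ) ^ (-z)) (P p))⁻¹ := fun p => by
        have hn : ((((p : ℕ) : ℕ) : ℂ)).arg ≠ Real.pi := by
          rw [Complex.natCast_arg]
          exact Real.pi_pos.ne
        rw [map_inv₀, ← aeval_conj, conj_pow hn (Complex.conj_natCast _)]
        simp only [map_neg, Complex.conj_conj]
      have hp3 : HasProd (fun p : Nat.Primes => (aeval (((p : ℕ) : ℂ) ^ (-z)) (P p))⁻¹)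
          (conj (cexp (EP.LG α (conj z - (i : ℂ) / 2)))) := by
        refine hp2.congr_fun fun p => ?_
        simp only [Function.comp_apply]
        rw [e1, e2]
      rw [hp.tprod_eq, hp3.tprod_eq]
    have hG : conj ((∏ p ∈ Finset.range ((i + 1) / 2), Gammaℂ (conj z - p) ^ h p) *
        (if Even i then Gammaℝ (conj z - (i : ℂ) / 2) ^ a * Gammaℝ (conj z - (i : ℂ) / 2 + 1) ^ b
          else 1)) = (∏ p ∈ Finset.range ((i + 1) / 2), Gammaℂ (z - p) ^ h p) *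
        (if Even i then Gammaℝ (z - (i : ℂ) / 2) ^ a * Gammaℝ (z - (i : ℂ) / 2 + 1) ^ b
          else 1) := by
      have e1 : ∀ p : ℕ, conj z - (p : ℂ) = conj (z - p) := fun p => by
        rw [map_sub, Complex.conj_natCast]
      have e2 : conj z - (i : ℂ) / 2 = conj (z - (i : ℂ) / 2) := by
        rw [map_sub, map_div₀, Complex.conj_natCast, map_ofNat]
      have e3 : conj z - (i : ℂ) / 2 + 1 = conj (z - (i : ℂ) / 2 + 1) := by
        rw [map_add, ← e2, map_one]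
      rw [e3, e2, map_mul, map_prod]
      congr 1
      · refine Finset.prod_congr rfl fun p _ => ?_
        rw [e1, map_pow, GC_conj, Complex.conj_conj]
      · split_ifs
        · rw [map_mul, map_pow, map_pow, GR_conj, GR_conj, Complex.conj_conj, Complex.conj_conj]
        · rw [map_one]
    have e4 : (starRingEnd ℂ) ((i : ℂ) / 2) = (i : ℂ) / 2 := by
      rw [map_div₀, Complex.conj_natCast, map_ofNat]
    have e5 : conj ((A : ℂ) ^ (conj z / 2)) = (A : ℂ) ^ (z / 2) := by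
      rw [conj_pow hAa (Complex.conj_ofReal _), map_div₀, Complex.conj_conj, map_ofNat]
    rw [map_mul, map_mul, map_mul, hE, hG, e5, map_pow, map_mul, map_sub, map_sub, map_sub,
      Complex.conj_conj, e4, map_one]
  -- the normalised function
  have hW : EP.HW l.length r A (fun j => l.get j) α
      (fun z => (κ : ℂ) * Λ (z + (((i : ℝ) / 2 : ℝ) : ℂ))) := by
    refine ⟨by omega, by omega, hA, fun j => ?_, hα, ?_, order_shift hκ (by positivity) hord, ?_,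
      hkey⟩
    · exact shl_re i h a b _ (by rw [← hl]; exact List.get_mem _ _)
    · exact (hent.comp (by fun_prop : Differentiable ℂ fun z : ℂ =>
        z + (((i : ℝ) / 2 : ℝ) : ℂ))).const_mul _
    · obtain ⟨ε, hε, hfe⟩ := hfe
      refine ⟨ε, ?_, fun s => ?_⟩
      · rcases hε with rfl | rfl <;> simp
      · show (κ : ℂ) * Λ (s + (((i : ℝ) / 2 : ℝ) : ℂ)) =
          ε * conj ((κ : ℂ) * Λ (1 - conj s + (((i : ℝ) / 2 : ℝ) : ℂ)))
        rw [map_mul, Complex.conj_ofReal]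
        have e : conj (Λ (1 - conj s + (((i : ℝ) / 2 : ℝ) : ℂ))) =
            Λ (i + 1 - (s + (((i : ℝ) / 2 : ℝ) : ℂ))) := by
          rw [← hreal (i + 1 - (s + (((i : ℝ) / 2 : ℝ) : ℂ)))]
          congr 2
          simp only [map_sub, map_add, Complex.conj_natCast, Complex.conj_ofReal, map_one]
          push_cast
          ring
        rw [e, hfe (s + (((i : ℝ) / 2 : ℝ) : ℂ))]
        ring
  have hNL : NL l.length r A (fun j => l.get j) α
      (fun z => (κ : ℂ) * Λ (z + (((i : ℝ) / 2 : ℝ) : ℂ))) :=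
    ⟨by omega, hA0, ⟨_, hRT⟩, hW.slow, hW.fe, hkey⟩
  have hcd := hNL.cd
  obtain ⟨Tg, hTg⟩ := hcd.gan
  -- the gamma factors
  have e2 : ∀ w : ℂ, (∏ j, Gammaℝ (w + l.get j)) =
      (∏ p ∈ Finset.range ((i + 1) / 2), Gammaℂ (w + (i : ℂ) / 2 - p) ^ h p) *
      (if Even i then Gammaℝ w ^ a * Gammaℝ (w + 1) ^ b else 1) := by
    intro w
    rw [Pool.Agent.W355.UN.prod_get l (fun c : ℂ => Gammaℝ (w + c)), hl, shl_prod]
    simp only [add_zero]
    congr 1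
    refine Finset.prod_congr rfl fun p _ => ?_
    rw [← Complex.Gammaℝ_mul_Gammaℝ_add_one]
    congr 3 <;> ring
  obtain ⟨D, hD⟩ : ∃ D : ℂ → ℂ, D = fun s => ((s - (i : ℂ) / 2) * (s - (i : ℂ) / 2 - 1)) ^ r *
        ((A : ℂ) ^ (s / 2) * ((∏ p ∈ Finset.range ((i + 1) / 2), Gammaℂ (s - p) ^ h p) *
        (if Even i then Gammaℝ (s - (i : ℂ) / 2) ^ a * Gammaℝ (s - (i : ℂ) / 2 + 1) ^ b else 1))) :=
    ⟨_, rfl⟩
  have hDs : ∀ w : ℂ, D (w + (i : ℂ) / 2) = (w * (w - 1)) ^ r * ((A : ℂ) ^ (w / 2) *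
      ∏ j, Gammaℝ (w + l.get j)) * (A : ℂ) ^ ((i : ℂ) / 4) := by
    intro w
    rw [hD, e2]
    simp only [add_sub_cancel_right]
    have e1 : (A : ℂ) ^ ((w + (i : ℂ) / 2) / 2) = (A : ℂ) ^ (w / 2) * (A : ℂ) ^ ((i : ℂ) / 4) := by
      rw [← Complex.cpow_add _ _ hAc]
      congr 1
      ring
    rw [e1]
    ring
  have hxz : ∀ z : ℂ, ((((i : ℝ) + 1) / 2 : ℝ) : ℂ) + z = 1 / 2 + z + (i : ℂ) / 2 := by
    intro z; push_cast; ring
  have hκi : (κ : ℂ) = ((A : ℂ) ^ ((i : ℂ) / 4))⁻¹ := eq_inv_of_mul_eq_one_left hκA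
  have hf : ∀ z : ℂ, (κ : ℂ) * Λ (1 / 2 + z + (((i : ℝ) / 2 : ℝ) : ℂ)) / gc r A (fun j => l.get j) z =
      Λ (((((i : ℝ) + 1) / 2 : ℝ) : ℂ) + z) / D (((((i : ℝ) + 1) / 2 : ℝ) : ℂ) + z) := by
    intro z
    rw [hxz, hDs, ← hhalf, hκi]
    exact aux_div _ _ _
  have hΛc : ∀ s : ℂ, Λ (conj s) = conj (Λ s) := by
    intro s
    have := hreal (conj s)
    rw [Complex.conj_conj] at this
    exact this.symm
  have hDc : ∀ s : ℂ, D (conj s) = conj (D s) := by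
    intro s
    have hAa : ((A : ℂ)).arg ≠ Real.pi := by
      rw [Complex.arg_ofReal_of_nonneg hA0.le]
      exact Real.pi_pos.ne
    have q1 : ∀ p : ℕ, conj s - (p : ℂ) = conj (s - p) := fun p => by
      rw [map_sub, Complex.conj_natCast]
    have q2 : conj s - (i : ℂ) / 2 = conj (s - (i : ℂ) / 2) := by
      rw [map_sub, map_div₀, Complex.conj_natCast, map_ofNat]
    have q3 : conj s - (i : ℂ) / 2 + 1 = conj (s - (i : ℂ) / 2 + 1) := by
      rw [map_add, ← q2, map_one]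
    have q4 : conj s - (i : ℂ) / 2 - 1 = conj (s - (i : ℂ) / 2 - 1) := by
      rw [map_sub _ _ 1, ← q2, map_one]
    have q5 : (A : ℂ) ^ (conj s / 2) = conj ((A : ℂ) ^ (s / 2)) := by
      have e : conj s / 2 = conj (s / 2) := by rw [map_div₀, map_ofNat]
      rw [e, conj_pow hAa (Complex.conj_ofReal _)]
    rw [hD]
    simp only
    rw [q5, map_mul, map_mul, map_mul, map_pow, map_mul, map_prod, q3, q4, q2]
    congr 3
    · refine Finset.prod_congr rfl fun p _ => ?_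
      rw [q1, map_pow, GC_conj]
    · split_ifs
      · rw [map_mul, map_pow, map_pow, GR_conj, GR_conj]
      · rw [map_one]
  refine ⟨fun z => (κ : ℂ) * Λ (1 / 2 + z + (((i : ℝ) / 2 : ℝ) : ℂ)) / gc r A (fun j => l.get j) z,
    ?_, ⟨0, fun z _ => ?_⟩, ?_, ?_, hΛc, ?_, hent, ?_⟩
  · rw [← hlen]
    exact hcd.rd
  · rw [hf, hD]
  · intro hL
    refine hcd.lh fun ε hε => ?_
    obtain ⟨T, hT⟩ := hL ε hε
    refine ⟨T, fun t ht => ?_⟩
    have h1 := hT t ht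
    have e : (κ : ℂ) * Λ (1 / 2 + I * (t : ℂ) + (((i : ℝ) / 2 : ℝ) : ℂ)) /
        gc r A (fun j => l.get j) (I * t) = Λ (((((i : ℝ) + 1) / 2 : ℝ) : ℂ) + I * t) /
          D (((((i : ℝ) + 1) / 2 : ℝ) : ℂ) + I * t) := hf (I * t)
    show ‖(κ : ℂ) * Λ (1 / 2 + I * (t : ℂ) + (((i : ℝ) / 2 : ℝ) : ℂ)) /
        gc r A (fun j => l.get j) (I * t)‖ ≤ _
    rw [e, mul_comm I, hD]
    exact h1
  · intro s
    have h1 : Λ (conj s) / D (conj s) = conj (Λ s / D s) := by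
      rw [hΛc, hDc, map_div₀]
    rw [hD] at h1
    exact h1
  · refine ⟨Tg, fun s hs => ?_⟩
    have e : ((((i : ℝ) + 1) / 2 : ℝ) : ℂ) + (s - ((((i : ℝ) + 1) / 2 : ℝ) : ℂ)) = s := by ring
    have h1 := hf (s - ((((i : ℝ) + 1) / 2 : ℝ) : ℂ))
    rw [e] at h1
    have him : (s - ((((i : ℝ) + 1) / 2 : ℝ) : ℂ)).im = s.im := by
      rw [Complex.sub_im, Complex.ofReal_im, sub_zero]
    have h2 := (hTg (s - ((((i : ℝ) + 1) / 2 : ℝ) : ℂ)) (by rw [him]; exact hs)).2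
    have hκ0 : (κ : ℂ) ≠ 0 := by exact_mod_cast hκ.ne'
    have e3 : 1 / 2 + (s - ((((i : ℝ) + 1) / 2 : ℝ) : ℂ)) + (((i : ℝ) / 2 : ℝ) : ℂ) = s := by
      push_cast; ring
    rw [e3] at h1
    have h3 : Λ s / D s = 0 ↔ Λ s = 0 := by
      rw [← h1, div_eq_zero_iff, mul_eq_zero]
      tauto
    rw [hD] at h3
    exact h3
  · intro s hs h0
    have e : s - (((i : ℝ) / 2 : ℝ) : ℂ) + (((i : ℝ) / 2 : ℝ) : ℂ) = s := by ring
    have h1 := hNL.far (fun j => shl_re i h a b _ (by rw [← hl]; exact List.get_mem _ _))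
      (s := s - (((i : ℝ) / 2 : ℝ) : ℂ)) (by
        rw [Complex.sub_re, Complex.ofReal_re]; linarith)
    apply h1
    show (κ : ℂ) * Λ (s - (((i : ℝ) / 2 : ℝ) : ℂ) + (((i : ℝ) / 2 : ℝ) : ℂ)) = 0
    rw [e, h0, mul_zero]

end Pool.Agent.K3h84.DL
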