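import Pool.Agent.K3h84.DL.RCl
import Pool.Agent.K3h84.DL.Fin
import Pool.Agent.TH839.UH.HWF

set_option autoImplicit false

/-! # The powers of `y² = x³ - x` -/

open Complex Filter Topology Set
open scoped ComplexConjugate

namespace Pool.Agent.K3h84.DL

open Pool.Agent.W355.UN Pool.Agent.W355.HW
open Pool.Agent.W354.PK (bK goodK)
open Pool.Agent.W354.HW (chiE qE chiE_pow_HC)

/-- the Hecke L-functions -/
lemma rc_FE (l : ℕ) : RC (FE (2 * l + 1)) := by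
  obtain ⟨c, X, h⟩ := hecke_raw (k := 2 * l + 1) (by omega) qE _ (chiE_pow_HC (odd_l l))
  exact (RC.of_conv Pool.Agent.W672.UN.coef h.one h.cb h.conv).congr
    fun s hs => (lseries_FE l hs).symm

lemma rc_LL0 (g m : ℕ) : RC (LL0 g m) := by
  unfold LL0
  exact RC.prod _ fun l => (rc_FE l).pow _

lemma lser_conj {b : ℕ → ℂ} (hb : ∀ n, conj (b n) = b n) (s : ℂ) :
    LSeries b (conj s) = conj (LSeries b s) := by
  unfold LSeries
  rw [Complex.conj_tsum]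
  refine tsum_congr fun n => ?_
  rcases Nat.eq_zero_or_pos n with rfl | hn
  · simp
  · have hna : ((n : ℂ)).arg ≠ Real.pi := by
      rw [Complex.natCast_arg]
      exact Real.pi_pos.ne
    rw [LSeries.term_of_ne_zero hn.ne', LSeries.term_of_ne_zero hn.ne', map_div₀, hb,
      Complex.cpow_conj _ _ hna, Complex.conj_natCast]

lemma FE_conj (l : ℕ) (s : ℂ) : FE (2 * l + 1) (conj s) = conj (FE (2 * l + 1) s) := by
  have h1 : AnalyticOnNhd ℂ (FE (2 * l + 1)) univ := fun z _ => (FE_diff l).analyticAt z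
  have h2 : AnalyticOnNhd ℂ (fun s => conj (FE (2 * l + 1) (conj s))) univ := by
    have : Differentiable ℂ (fun s => conj (FE (2 * l + 1) (conj s))) := by
      intro z
      have := ((FE_diff l) (conj z)).hasDerivAt.conj_conj
      rw [Complex.conj_conj] at this
      exact this.differentiableAt
    exact fun z _ => this.analyticAt z
  have key : ∀ z : ℂ, conj (FE (2 * l + 1) (conj z)) = FE (2 * l + 1) z := by
    intro z
    refine h2.eqOn_of_preconnected_of_eventuallyEq h1 isPreconnected_univ (mem_univ (2 : ℂ)) ?_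
      (mem_univ z)
    have h3 : ∀ᶠ w : ℂ in 𝓝 (2 : ℂ), 1 < w.re :=
      (Complex.continuous_re.tendsto _).eventually (lt_mem_nhds (by norm_num))
    filter_upwards [h3] with w hw
    rw [← lseries_FE l hw, ← lseries_FE l (s := conj w) (by rw [Complex.conj_re]; exact hw),
      lser_conj (bK_real _), Complex.conj_conj]
  have := key (conj s)
  rw [Complex.conj_conj] at this
  exact this.symm

lemma LL0_conj (g m : ℕ) (s : ℂ) : LL0 g m (conj s) = conj (LL0 g m s) := by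
  unfold LL0
  rw [map_prod]
  refine Finset.prod_congr rfl fun l _ => ?_
  rw [map_pow, FE_conj]

/-- `Γ_ℂ` -/
lemma GA.gammaC (c : ℂ) : GA 1 (fun z => Gammaℂ (z + c)) := by
  have h := (GA.gamma c).mul (GA.gamma (c + 1))
  have e : (1 / 2 + 1 / 2 : ℝ) = 1 := by norm_num
  rw [e] at h
  convert h using 2 with z
  rw [← Complex.Gammaℝ_mul_Gammaℝ_add_one, add_assoc]

/-- the centred gamma factor of `H^(2m+1)(E^g)` -/
noncomputable def gE2 (g m : ℕ) (z : ℂ) : ℂ :=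
  ((32 ^ BB g m : ℝ) : ℂ) ^ ((z + 1 / 2) / 2) * ∏ l ∈ Finset.range (m + 1),
    Gammaℂ (z + (l + 1)) ^ mu g m l

lemma ga_E2 (g m : ℕ) : GA (((2 * BB g m : ℕ) : ℝ) / 2) (gE2 g m) := by
  have h1 := GA.cond (N := 32 ^ BB g m) (by positivity) (1 / 2)
  have h2 := GA.prod (Finset.range (m + 1)) (k := fun l => (mu g m l : ℝ) * 1)
    (g := fun l z => Gammaℂ (z + ((l : ℂ) + 1)) ^ mu g m l) (fun l => (GA.gammaC _).pow _)
  have h3 := h1.mul h2
  have e : (0 : ℝ) + ∑ l ∈ Finset.range (m + 1), (mu g m l : ℝ) * 1 = ((2 * BB g m : ℕ) : ℝ) / 2 := by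
    unfold BB
    push_cast
    simp only [mul_one]
    ring
  rw [e] at h3
  exact h3

/-- **the data for `E^g`** -/
theorem dataE (g m : ℕ) (hm : m < g) : ∃ Λ : ℂ → ℂ, Differentiable ℂ Λ ∧
    (∀ s : ℂ, (((2 * m + 1 : ℕ) : ℝ) - 1) / 2 < s.re →
      Λ s = (Cond g (2 * m + 1) : ℂ) ^ ((s - ((2 * m + 1 : ℕ) : ℂ) / 2) / 2) *
        GamF g (2 * m + 1) s * LL0 g m (s - ((2 * m + 1 : ℕ) : ℂ) / 2)) ∧
    (∀ s : ℂ, Λ (conj s) = conj (Λ s)) ∧
    (∃ r : ℕ, r ≤ 1 ∧ ∀ s : ℂ, Λ (((2 * m + 1 : ℕ) : ℂ) + 1 - s) = (-1) ^ r * Λ s) ∧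
    ∃ f : ℂ → ℂ, FD (((2 * g).choose (2 * m + 1) : ℕ) : ℝ) ((((2 * m + 1 : ℕ) : ℝ) + 1) / 2) f
      (fun s => LL0 g m (s - ((2 * m + 1 : ℕ) : ℂ) / 2)) Λ := by
  obtain ⟨C', K, hC', -, H'⟩ := Pool.Agent.W355.UN.fin_all
  obtain ⟨Λ, h1, h2, h3, h4, -⟩ := Pool.Agent.W355.UN.main_pow H' hC' g m hm
  refine ⟨Λ, h1, h2, h3, h4, ?_⟩
  obtain ⟨X, hpk, hst⟩ := pk_pow g m hm
  have hd := hpk.diff
  obtain ⟨μ, L, u, ec, σ, hσ⟩ := hpk
  have hc2 : ((2 * m + 1 : ℕ) : ℂ) / 2 = (((((2 * m + 1 : ℕ) : ℝ) / 2 : ℝ)) : ℂ) := by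
    push_cast
    rfl
  have hX : ∀ z, X z = Λ (z + (((((2 * m + 1 : ℕ) : ℝ) / 2 : ℝ)) : ℂ)) := by
    intro z
    have hd2 : Differentiable ℂ fun z : ℂ => Λ (z + (((((2 * m + 1 : ℕ) : ℝ) / 2 : ℝ)) : ℂ)) :=
      h1.comp (by fun_prop)
    have e : (fun z => Λ (z + (((((2 * m + 1 : ℕ) : ℝ) / 2 : ℝ)) : ℂ))) = X := by
      refine Pk.uniq hd hd2 (G := GP g m) ⟨σ, hσ⟩ ⟨0, fun s hs => ?_⟩
      show Λ (s + (((((2 * m + 1 : ℕ) : ℝ) / 2 : ℝ)) : ℂ)) = _
      rw [h2 _ (by rw [add_re, ofReal_re]; linarith), hc2, add_sub_cancel_right]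
      unfold GP
      rw [BB_eq, ← GamF_eq]
      rw [← hc2]
      simp only [add_sub_cancel_right]
    exact (congrFun e z).symm
  -- the formula in the upper half-plane
  obtain ⟨hg1, Tg, hg2⟩ := ga_E2 g m
  have hLd : Differentiable ℂ (LL0 g m) := LL0_diff g m
  have hform : ∀ z : ℂ, Tg < z.im → X (1 / 2 + z) = gE2 g m z * LL0 g m (1 / 2 + z) := by
    intro z hz
    have hUo : IsOpen {w : ℂ | Tg < w.im} := isOpen_lt continuous_const Complex.continuous_im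
    have a1 : AnalyticOnNhd ℂ (fun w => X (1 / 2 + w)) {w : ℂ | Tg < w.im} := by
      refine DifferentiableOn.analyticOnNhd (fun w _ => ?_) hUo
      exact (DifferentiableAt.comp (g := X) (f := fun w : ℂ => 1 / 2 + w) w (hd _)
        (by fun_prop)).differentiableWithinAt
    have a2 : AnalyticOnNhd ℂ (fun w => gE2 g m w * LL0 g m (1 / 2 + w)) {w : ℂ | Tg < w.im} := by
      refine DifferentiableOn.analyticOnNhd (fun w hw => ?_) hUo
      have w2 : Tg < w.im := hw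
      have d2 : DifferentiableAt ℂ (fun w => LL0 g m (1 / 2 + w)) w :=
        DifferentiableAt.comp (g := LL0 g m) (f := fun w : ℂ => 1 / 2 + w) w (hLd _) (by fun_prop)
      exact ((hg2 w w2.le).1.mul d2).differentiableWithinAt
    obtain ⟨z0, hz0⟩ : ∃ z0 : ℂ, z0 = ((σ + 1 : ℝ) : ℂ) + ((Tg + 1 : ℝ) : ℂ) * I := ⟨_, rfl⟩
    have hz0r : z0.re = σ + 1 := by rw [hz0]; simp
    have hz0i : z0.im = Tg + 1 := by rw [hz0]; simp
    refine a1.eqOn_of_preconnected_of_eventuallyEq a2 (convex_halfSpace_im_gt _).isPreconnected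
      (show z0 ∈ {w : ℂ | Tg < w.im} by show Tg < z0.im; rw [hz0i]; linarith) ?_ hz
    have b3 : ∀ᶠ w : ℂ in 𝓝 z0, σ < w.re :=
      (Complex.continuous_re.tendsto _).eventually (lt_mem_nhds (by rw [hz0r]; linarith))
    filter_upwards [b3] with w hw
    rw [hσ (1 / 2 + w) (by simp; linarith)]
    unfold GP gE2
    congr 1
    congr 1
    · congr 1; ring
    · refine Finset.prod_congr rfl fun l _ => ?_
      congr 2; ring
  have hfX : ∀ z : ℂ, Tg < z.im → X (1 / 2 + z) / gE2 g m z = LL0 g m (1 / 2 + z) := by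
    intro z hz
    rw [hform z hz, mul_div_cancel_left₀ _ (hg2 z hz.le).2]
  have hdeg : (2 * BB g m : ℕ) = (2 * g).choose (2 * m + 1) := two_BB g m
  have hcd : CD (((2 * g).choose (2 * m + 1) : ℕ) : ℝ) (gE2 g m) (fun z => X (1 / 2 + z)) := by
    rw [← hdeg]
    refine ⟨?_, hg1, ⟨Tg, hg2⟩, ⟨?_, ?_⟩, ?_, ?_⟩
    · rw [hdeg]
      exact_mod_cast Nat.choose_pos (by omega)
    · exact hd.comp (by fun_prop : Differentiable ℂ fun z : ℂ => 1 / 2 + z)
    · intro δ hδ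
      obtain ⟨K, hK, hs⟩ := u.slow.2 (δ / 2) (by linarith)
      refine ⟨K * Real.exp δ, by positivity, fun z => (hs _).trans ?_⟩
      rw [mul_assoc, ← Real.exp_add]
      have h1 : ‖(1 / 2 : ℂ) + z‖ ≤ 1 / 2 + ‖z‖ := by
        refine (norm_add_le _ _).trans (le_of_eq ?_)
        norm_num
      have h2 : ‖(1 / 2 : ℂ) + z‖ ^ 2 ≤ 1 / 2 + 2 * ‖z‖ ^ 2 := by
        have h3 : ‖(1 / 2 : ℂ) + z‖ ^ 2 ≤ (1 / 2 + ‖z‖) ^ 2 := by gcongr
        nlinarith [sq_nonneg (1 / 2 - ‖z‖)]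
      have h4 : δ / 2 * ‖(1 / 2 : ℂ) + z‖ ^ 2 ≤ δ + δ * ‖z‖ ^ 2 := by
        have : δ / 2 * ‖(1 / 2 : ℂ) + z‖ ^ 2 ≤ δ / 2 * (1 / 2 + 2 * ‖z‖ ^ 2) := by gcongr
        linarith
      gcongr
    · obtain ⟨ε, hε, hfe⟩ := u.fe
      refine ⟨ε, hε, fun z => ?_⟩
      rw [hfe (1 / 2 + z)]
      have e1 : (1 : ℂ) - conj (1 / 2 + z) = 1 / 2 + -conj z := by
        rw [map_add, map_div₀, map_one, map_ofNat]; ring
      rw [e1]
    · intro ρ hρ
      obtain ⟨B, hB, hE⟩ := rc_LL0 g m ρ hρ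
      refine ⟨B, Tg + 1, hB, fun z hz hz2 => ?_⟩
      have w3 : 1 + ρ ≤ (1 / 2 + z).re := by simp; linarith
      obtain ⟨e0, e1, e2, e3, e4⟩ := hE (1 / 2 + z) w3
      have hXz := hfX z (by linarith)
      refine ⟨?_, ?_, ?_, ?_⟩
      · rw [hXz]; exact e1
      · have hev : (fun w => X (1 / 2 + w) / gE2 g m w) =ᶠ[𝓝 z] fun w => LL0 g m (1 / 2 + w) := by
          have o1 : IsOpen {w : ℂ | Tg < w.im} := isOpen_lt continuous_const Complex.continuous_im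
          filter_upwards [o1.mem_nhds (show Tg < z.im by linarith)] with w hw
          exact hfX w hw
        have h3 : logDeriv (fun w => X (1 / 2 + w) / gE2 g m w) z = logDeriv (LL0 g m) (1 / 2 + z) := by
          rw [logDeriv_apply, logDeriv_apply, hev.deriv_eq, hev.eq_of_nhds, deriv_comp_const_add]
        rw [h3]; exact e2
      · rw [hXz]; exact e3
      · rw [hXz]; exact e4
  have hx1 : ∀ z : ℂ, ((((((2 * m + 1 : ℕ) : ℝ) + 1) / 2 : ℝ)) : ℂ) + z - ((2 * m + 1 : ℕ) : ℂ) / 2 =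
      1 / 2 + z := by
    intro z; push_cast; ring
  refine ⟨fun z => X (1 / 2 + z) / gE2 g m z, hcd.rd, ⟨Tg + 1, fun z hz => ?_⟩, ?_, ?_, h3, ?_, h1, ?_⟩
  · rw [hfX z (by linarith), hx1]
  · intro hL
    refine hcd.lh fun ε hε => ?_
    obtain ⟨T, hT⟩ := hL ε hε
    refine ⟨max T (Tg + 1), fun t ht => ?_⟩
    have h1 := hT t ((le_max_left _ _).trans ht)
    have h5 : Tg < (I * (t : ℂ)).im := by
      have : Tg + 1 ≤ t := (le_max_right _ _).trans ht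
      simp
      linarith
    rw [hx1] at h1
    show ‖X (1 / 2 + I * (t : ℂ)) / gE2 g m (I * t)‖ ≤ _
    rw [hfX _ h5, mul_comm I]
    exact h1
  · intro s
    show LL0 g m (conj s - ((2 * m + 1 : ℕ) : ℂ) / 2) = conj (LL0 g m (s - ((2 * m + 1 : ℕ) : ℂ) / 2))
    rw [← LL0_conj, map_sub, map_div₀, Complex.conj_natCast, map_ofNat]
  · refine ⟨Tg + 1, fun s hs => ?_⟩
    have hs' : Tg < (s - ((((((2 * m + 1 : ℕ) : ℝ) + 1) / 2 : ℝ)) : ℂ)).im := by
      rw [Complex.sub_im, Complex.ofReal_im, sub_zero]; linarith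
    have h5 := hform _ hs'
    have e1 : 1 / 2 + (s - ((((((2 * m + 1 : ℕ) : ℝ) + 1) / 2 : ℝ)) : ℂ)) =
        s - ((2 * m + 1 : ℕ) : ℂ) / 2 := by push_cast; ring
    rw [e1, hX] at h5
    have e2 : s - ((2 * m + 1 : ℕ) : ℂ) / 2 + (((((2 * m + 1 : ℕ) : ℝ) / 2 : ℝ)) : ℂ) = s := by
      push_cast; ring
    rw [e2] at h5
    have h6 := (hg2 _ hs'.le).2
    rw [h5, mul_eq_zero]
    tauto
  · intro s hs h0
    have h5 : 1 + (0 : ℝ) < (s - (((((2 * m + 1 : ℕ) : ℝ) / 2 : ℝ)) : ℂ)).re := by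
      rw [Complex.sub_re, Complex.ofReal_re]; linarith
    have h6 := u.Xne h5
    rw [hX, sub_add_cancel] at h6
    exact h6 h0

end Pool.Agent.K3h84.DL
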