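import Pool.Agent.K3h84.DL.Fin

set_option autoImplicit false

/-! # The final statements for functions that need not be real on the real axis -/

namespace Pool.Agent.K3h84.DL

open Complex Filter Topology MeasureTheory Set
open scoped ComplexConjugate

/-- the dual function -/
noncomputable def dl (L : ℂ → ℂ) (s : ℂ) : ℂ := conj (L (conj s))

lemma dl_dl (L : ℂ → ℂ) : dl (dl L) = L := by
  funext s
  simp [dl]

lemma iter_dl (L : ℂ → ℂ) (k : ℕ) (s : ℂ) :
    iteratedDeriv k (dl L) s = conj (iteratedDeriv k L (conj s)) := by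
  have key : ∀ k : ℕ, iteratedDeriv k (dl L) =
      (⇑(starRingEnd ℂ) ∘ iteratedDeriv k L ∘ ⇑(starRingEnd ℂ)) := by
    intro k
    induction k with
    | zero =>
      funext s
      simp only [iteratedDeriv_zero, Function.comp_apply]
      rfl
    | succ k ih =>
      rw [iteratedDeriv_succ, ih, deriv_conj_conj, iteratedDeriv_succ]
  exact congrFun (key k) s

/-- the upper half of `Hor` -/
def HorU (x : ℝ) (L : ℂ → ℂ) (κ : ℝ) : Prop := ∃ K : ℕ, ∀ k : ℕ, K ≤ k → ∀ s : ℂ, (k : ℝ) ≤ s.im →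
  s.im ≤ Real.exp (κ * k) → x - s.im / 8 ≤ s.re → s.re ≤ x → iteratedDeriv k L s ≠ 0

/-- the Lindelöf hypothesis on the line `Re s = x`, in both half-planes -/
def Lin2 (x : ℝ) (L : ℂ → ℂ) : Prop := ∀ ε : ℝ, 0 < ε → ∃ T : ℝ, ∀ t : ℝ, T ≤ |t| →
  ‖L ((x : ℂ) + t * I)‖ ≤ |t| ^ ε

/-- the data in the upper half-plane -/
structure HF (m x : ℝ) (f L : ℂ → ℂ) : Prop where
  rd : ∃ Ψ : ℂ → ℂ, RD m f Ψ
  eqf : ∃ T0 : ℝ, ∀ z : ℂ, T0 ≤ z.im → f z = L (x + z)
  lh : Lin x L → LH f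

/-- the data for the final statements -/
structure F2 (m x : ℝ) (L Λ : ℂ → ℂ) : Prop where
  up : ∃ f : ℂ → ℂ, HF m x f L
  dn : ∃ f : ℂ → ℂ, HF m x f (dl L)
  zer : ∃ T0 : ℝ, ∀ s : ℂ, T0 ≤ |s.im| → (L s = 0 ↔ Λ s = 0)
  ent : Differentiable ℂ Λ
  far : ∀ s : ℂ, x + 1 / 2 < s.re → Λ s ≠ 0

variable {m x : ℝ} {f L Λ : ℂ → ℂ}

lemma HF.iter (h : HF m x f L) : ∃ T0 : ℝ, ∀ (k : ℕ) (z : ℂ), T0 ≤ z.im →
    iteratedDeriv k f z = iteratedDeriv k L (x + z) := by
  obtain ⟨T0, hT⟩ := h.eqf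
  refine ⟨T0 + 1, fun k z hz => ?_⟩
  have o1 : IsOpen {w : ℂ | T0 < w.im} := isOpen_lt continuous_const Complex.continuous_im
  have hev : f =ᶠ[𝓝 z] fun w => L (x + 1 * w) := by
    filter_upwards [o1.mem_nhds (show T0 < z.im by linarith)] with w hw
    rw [one_mul]
    exact hT w (le_of_lt hw)
  rw [hev.iteratedDeriv_eq k, iter_aff]
  simp

lemma HF.hor (h : HF m x f L) (κ : ℝ) : HorU x L κ ↔ Hz f κ := by
  obtain ⟨T0, hT⟩ := h.iter
  constructor
  · rintro ⟨K, hK⟩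
    refine ⟨max K (max ⌈T0⌉₊ 1), fun k hk z h1 h2 h3 h4 => ?_⟩
    have k1 : K ≤ k := (le_max_left _ _).trans hk
    have k2 : ⌈T0⌉₊ ≤ k := ((le_max_left _ _).trans (le_max_right _ _)).trans hk
    have k3 : T0 ≤ k := (Nat.le_ceil _).trans (by exact_mod_cast k2)
    rw [hT k z (by linarith)]
    have him : ((x : ℂ) + z).im = z.im := by simp
    have hre : ((x : ℂ) + z).re = x + z.re := by simp
    refine hK k k1 (x + z) ?_ ?_ ?_ ?_
    · rw [him]; exact h1
    · rw [him]; exact h2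
    · rw [him, hre]; linarith
    · rw [hre]; linarith
  · rintro ⟨K, hK⟩
    refine ⟨max K (max ⌈T0⌉₊ 1), fun k hk s h1 h2 h3 h4 => ?_⟩
    have k1 : K ≤ k := (le_max_left _ _).trans hk
    have k2 : ⌈T0⌉₊ ≤ k := ((le_max_left _ _).trans (le_max_right _ _)).trans hk
    have k3 : T0 ≤ k := (Nat.le_ceil _).trans (by exact_mod_cast k2)
    have e1 : (x : ℂ) + (s - x) = s := by ring
    have i1 : (s - (x : ℂ)).im = s.im := by simp
    have r1 : (s - (x : ℂ)).re = s.re - x := by simp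
    have := hK k k1 (s - x) (by rw [i1]; exact h1) (by rw [i1]; exact h2)
      (by rw [i1, r1]; linarith) (by rw [r1]; linarith)
    rw [hT k (s - x) (by rw [i1]; linarith), e1] at this
    exact this

lemma hor_iff (κ : ℝ) : Hor x L κ ↔ HorU x L κ ∧ HorU x (dl L) κ := by
  constructor
  · rintro ⟨K, hK⟩
    constructor
    · refine ⟨K, fun k hk s h1 h2 h3 h4 => ?_⟩
      have hab : |s.im| = s.im := abs_of_nonneg (by have := Nat.cast_nonneg (α := ℝ) k; linarith)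
      exact hK k hk s (by rw [hab]; exact h1) (by rw [hab]; exact h2) (by rw [hab]; exact h3) h4
    · refine ⟨K, fun k hk s h1 h2 h3 h4 => ?_⟩
      have hab : |(conj s).im| = s.im := by
        rw [Complex.conj_im, abs_neg]
        exact abs_of_nonneg (by have := Nat.cast_nonneg (α := ℝ) k; linarith)
      rw [iter_dl]
      refine (map_ne_zero _).2 (hK k hk (conj s) (by rw [hab]; exact h1) (by rw [hab]; exact h2) ?_ ?_)
      · rw [hab, Complex.conj_re]; exact h3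
      · rw [Complex.conj_re]; exact h4
  · rintro ⟨⟨K1, hK1⟩, ⟨K2, hK2⟩⟩
    refine ⟨max K1 K2, fun k hk s h1 h2 h3 h4 => ?_⟩
    rcases le_total 0 s.im with hs | hs
    · rw [abs_of_nonneg hs] at h1 h2 h3
      exact hK1 k ((le_max_left _ _).trans hk) s h1 h2 h3 h4
    · rw [abs_of_nonpos hs] at h1 h2 h3
      have := hK2 k ((le_max_right _ _).trans hk) (conj s) (by rw [Complex.conj_im]; exact h1)
        (by rw [Complex.conj_im]; exact h2) (by rw [Complex.conj_im, Complex.conj_re]; exact h3)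
        (by rw [Complex.conj_re]; exact h4)
      rw [iter_dl, Complex.conj_conj] at this
      exact (map_ne_zero _).1 this

/-- `AF` in terms of the centred functions -/
lemma af_iff {f1 f2 : ℂ → ℂ} (h1 : HF m x f1 L) (h2 : HF m x f2 (dl L))
    (hz : ∃ T0 : ℝ, ∀ s : ℂ, T0 ≤ |s.im| → (L s = 0 ↔ Λ s = 0)) (hent : Differentiable ℂ Λ)
    (hfar : ∀ s : ℂ, x + 1 / 2 < s.re → Λ s ≠ 0) {ϑ : ℝ} (hϑ : 0 ≤ ϑ) :
    AF (x + ϑ) Λ ↔ EF f1 ϑ ∧ EF f2 ϑ := by
  obtain ⟨T1, hT1⟩ := h1.eqf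
  obtain ⟨T2, hT2⟩ := h2.eqf
  obtain ⟨T3, hT3⟩ := hz
  obtain ⟨TT, hTT⟩ : ∃ TT, TT = max (max T1 T2) (max T3 0) := ⟨_, rfl⟩
  have a1 : T1 ≤ TT := by rw [hTT]; exact (le_max_left _ _).trans (le_max_left _ _)
  have a2 : T2 ≤ TT := by rw [hTT]; exact (le_max_right _ _).trans (le_max_left _ _)
  have a3 : T3 ≤ TT := by rw [hTT]; exact (le_max_left _ _).trans (le_max_right _ _)
  have a4 : 0 ≤ TT := by rw [hTT]; exact (le_max_right _ _).trans (le_max_right _ _)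
  have hf1 : ∀ z : ℂ, TT ≤ z.im → (f1 z = 0 ↔ Λ (x + z) = 0) := by
    intro z hz
    rw [hT1 z (by linarith)]
    refine hT3 _ ?_
    have : ((x : ℂ) + z).im = z.im := by simp
    rw [this, abs_of_nonneg (by linarith)]
    linarith
  have hf2 : ∀ z : ℂ, TT ≤ z.im → (f2 z = 0 ↔ Λ (conj (x + z)) = 0) := by
    intro z hz
    rw [hT2 z (by linarith), dl, map_eq_zero]
    refine hT3 _ ?_
    have : (conj ((x : ℂ) + z)).im = -z.im := by simp
    rw [this, abs_neg, abs_of_nonneg (by linarith)]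
    linarith
  constructor
  · intro hA
    constructor
    · intro ε hε
      have hfin := hA (ε / 2) (by linarith)
      obtain ⟨R, hR⟩ := hfin.isBounded.exists_norm_le
      refine ⟨max TT (R + 1), fun z hz hz2 hf0 => ?_⟩
      have b1 := (hf1 z ((le_max_left _ _).trans hz)).1 hf0
      have b2 := hR (x + z) ⟨b1, by simp; linarith⟩
      have b3 := Complex.abs_im_le_norm ((x : ℂ) + z)
      have b4 : ((x : ℂ) + z).im = z.im := by simp
      rw [b4] at b3
      have b5 := le_abs_self z.im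
      have b6 : R + 1 ≤ z.im := (le_max_right _ _).trans hz
      linarith
    · intro ε hε
      have hfin := hA (ε / 2) (by linarith)
      obtain ⟨R, hR⟩ := hfin.isBounded.exists_norm_le
      refine ⟨max TT (R + 1), fun z hz hz2 hf0 => ?_⟩
      have b1 := (hf2 z ((le_max_left _ _).trans hz)).1 hf0
      have b2 := hR (conj (x + z)) ⟨b1, by simp; linarith⟩
      have b3 := Complex.abs_im_le_norm (conj ((x : ℂ) + z))
      have b4 : (conj ((x : ℂ) + z)).im = -z.im := by simp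
      rw [b4, abs_neg] at b3
      have b5 := le_abs_self z.im
      have b6 : R + 1 ≤ z.im := (le_max_right _ _).trans hz
      linarith
  · rintro ⟨hE1, hE2⟩ ε hε
    obtain ⟨R1, hR1⟩ := hE1 ε hε
    obtain ⟨R2, hR2⟩ := hE2 ε hε
    refine finite_zeros hent ⟨((x + 1 : ℝ) : ℂ), hfar _ (by rw [Complex.ofReal_re]; linarith)⟩ ?_
      (fun s hs => hs.1)
    obtain ⟨R, hR⟩ : ∃ R, R = max (max R1 R2) TT := ⟨_, rfl⟩
    have r1 : R1 ≤ R := by rw [hR]; exact (le_max_left _ _).trans (le_max_left _ _)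
    have r2 : R2 ≤ R := by rw [hR]; exact (le_max_right _ _).trans (le_max_left _ _)
    have r3 : TT ≤ R := by rw [hR]; exact le_max_right _ _
    rw [isBounded_iff_forall_norm_le]
    refine ⟨|x| + 1 + |R|, fun s hs => ?_⟩
    obtain ⟨c1, c2⟩ := hs
    have c3 : s.im < R := by
      by_contra hc
      rw [not_lt] at hc
      have i1 : (s - (x : ℂ)).im = s.im := by simp
      have r1' : (s - (x : ℂ)).re = s.re - x := by simp
      have e1 : (x : ℂ) + (s - x) = s := by ring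
      refine hR1 (s - x) (by rw [i1]; linarith) (by rw [r1']; linarith) ?_
      rw [hf1 _ (by rw [i1]; linarith), e1]
      exact c1
    have c4 : -s.im < R := by
      by_contra hc
      rw [not_lt] at hc
      have i1 : (conj s - (x : ℂ)).im = -s.im := by simp
      have r1' : (conj s - (x : ℂ)).re = s.re - x := by simp
      have e1 : conj ((x : ℂ) + (conj s - x)) = s := by
        rw [add_sub_cancel, Complex.conj_conj]
      refine hR2 (conj s - x) (by rw [i1]; linarith) (by rw [r1']; linarith) ?_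
      rw [hf2 _ (by rw [i1]; linarith), e1]
      exact c1
    have c5 : s.re ≤ x + 1 / 2 := by
      by_contra hc
      exact hfar s (by linarith) c1
    have c6 := Complex.norm_le_abs_re_add_abs_im s
    have c7 : |s.re| ≤ |x| + 1 := by
      rw [abs_le]
      have := neg_abs_le x
      have := le_abs_self x
      constructor <;> linarith
    have c8 : |s.im| ≤ |R| := by
      rw [abs_le]
      have := le_abs_self R
      constructor <;> linarith
    linarith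

lemma lin_up (h : Lin2 x L) : Lin x L := by
  intro ε hε
  obtain ⟨T, hT⟩ := h ε hε
  refine ⟨max T 0, fun t ht => ?_⟩
  have h1 : 0 ≤ t := (le_max_right _ _).trans ht
  have h2 := hT t (by rw [abs_of_nonneg h1]; exact (le_max_left _ _).trans ht)
  rwa [abs_of_nonneg h1] at h2

lemma lin_dn (h : Lin2 x L) : Lin x (dl L) := by
  intro ε hε
  obtain ⟨T, hT⟩ := h ε hε
  refine ⟨max T 0, fun t ht => ?_⟩
  have h1 : 0 ≤ t := (le_max_right _ _).trans ht
  have h2 := hT (-t) (by rw [abs_neg, abs_of_nonneg h1]; exact (le_max_left _ _).trans ht)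
  rw [abs_neg, abs_of_nonneg h1] at h2
  rw [dl, RCLike.norm_conj]
  have e1 : conj ((x : ℂ) + t * I) = x + ((-t : ℝ) : ℂ) * I := by
    simp
  rw [e1]
  exact h2

/-- **the final theorem** -/
theorem F2.main (h : F2 m x L Λ) :
    (∀ κ : ℝ, κ * m < 2 → Hor x L κ) ∧
    (∀ ϑ κ : ℝ, 0 ≤ ϑ → AF (x + ϑ) Λ → κ * m * ϑ < 1 → Hor x L κ) ∧
    (∀ κ : ℝ, 0 < κ → Hor x L κ → AF (x + 2 / (κ * m)) Λ) ∧
    ((∀ κ : ℝ, Hor x L κ) ↔ AF x Λ) ∧
    (Lin2 x L → ∀ κ : ℝ, 0 < κ → ((∀ κ' : ℝ, κ' < κ → Hor x L κ') ↔ AF (x + 1 / (κ * m)) Λ)) := by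
  obtain ⟨f1, h1⟩ := h.up
  obtain ⟨f2, h2⟩ := h.dn
  obtain ⟨Ψ1, hr1⟩ := h1.rd
  obtain ⟨Ψ2, hr2⟩ := h2.rd
  have hm := hr1.hm
  have haf : ∀ {ϑ : ℝ}, 0 ≤ ϑ → (AF (x + ϑ) Λ ↔ EF f1 ϑ ∧ EF f2 ϑ) :=
    fun hϑ => af_iff h1 h2 h.zer h.ent h.far hϑ
  have e0 : AF x Λ ↔ EF f1 0 ∧ EF f2 0 := by
    have := haf (ϑ := 0) le_rfl
    rwa [add_zero] at this
  have hh : ∀ κ : ℝ, Hor x L κ ↔ Hz f1 κ ∧ Hz f2 κ := fun κ => by
    rw [hor_iff, h1.hor, h2.hor]
  simp only [hh]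
  refine ⟨fun κ hκ => ⟨hz_uncond hr1 hκ, hz_uncond hr2 hκ⟩, fun ϑ κ hϑ hA hκ => ?_,
    fun κ hκ hH => ?_, ?_, fun hL κ hκ => ?_⟩
  · have := (haf hϑ).1 hA
    exact ⟨hz_of_ef hr1 hϑ this.1 hκ, hz_of_ef hr2 hϑ this.2 hκ⟩
  · exact (haf (by positivity)).2 ⟨ef_of_hz hr1 hκ hH.1, ef_of_hz hr2 hκ hH.2⟩
  · rw [e0, ← hz_all hr1, ← hz_all hr2, forall_and]
  · rw [haf (by positivity), ← hz_lh hr1 (h1.lh (lin_up hL)) hκ, ← hz_lh hr2 (h2.lh (lin_dn hL)) hκ]
    constructor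
    · intro hA
      exact ⟨fun κ' hκ' => (hA κ' hκ').1, fun κ' hκ' => (hA κ' hκ').2⟩
    · rintro ⟨hA, hB⟩ κ' hκ'
      exact ⟨hA κ' hκ', hB κ' hκ'⟩

/-- the self-dual case -/
theorem FD.two (h : FD m x f L Λ) : F2 m x L Λ := by
  have e1 : dl L = L := by
    funext s
    rw [dl, h.cL, Complex.conj_conj]
  have h1 : HF m x f L := ⟨h.rd, h.eqf, h.lh⟩
  refine ⟨⟨f, h1⟩, ⟨f, by rw [e1]; exact h1⟩, ?_, h.ent, h.far⟩
  obtain ⟨T0, hT⟩ := h.zer
  refine ⟨T0, fun s hs => ?_⟩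
  rcases le_total 0 s.im with h0 | h0
  · rw [abs_of_nonneg h0] at hs
    exact hT s hs
  · rw [abs_of_nonpos h0] at hs
    have := hT (conj s) (by rw [Complex.conj_im]; exact hs)
    rw [h.cL, h.cΛ, map_eq_zero, map_eq_zero] at this
    exact this

end Pool.Agent.K3h84.DL
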