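import Pool.Agent.K3h84.DL.Bas

set_option autoImplicit false

namespace Pool.Agent.K3h84.DL

open Complex Filter Topology MeasureTheory Set
open scoped ComplexConjugate
open Pool.Agent.H156R2.DZArc (growF)
open Pool.Agent.H986R2.K4 (lapQ)
open Pool.Agent.H986R2.K4.AWAux (core cos_arc exp_I_re)

variable {m : ℝ} {f Ψ : ℂ → ℂ}

lemma log_close {t u : ℝ} (ht : 0 < t) (h1 : t / 2 ≤ u) (h2 : u ≤ 2 * t) :
    |Real.log u - Real.log t| ≤ 1 := by
  have hu : 0 < u := by linarith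
  have hl2 : Real.log 2 ≤ 1 := by
    have := Real.log_two_lt_d9; linarith
  rw [abs_le]
  constructor
  · have h3 : Real.log t ≤ Real.log (2 * u) := Real.log_le_log ht (by linarith)
    rw [Real.log_mul (by norm_num) hu.ne'] at h3
    linarith
  · have h3 : Real.log u ≤ Real.log (2 * t) := Real.log_le_log hu h2
    rw [Real.log_mul (by norm_num) ht.ne'] at h3
    linarith

lemma ev_fe {T0 : ℝ} (hfe : ∀ z : ℂ, T0 ≤ z.im → |z.re| ≤ z.im / 2 → fl f z = Ψ z * f z)
    {z : ℂ} (h1 : T0 < z.im) (h2 : |z.re| < z.im / 2) : ∀ᶠ w in 𝓝 z, fl f w = Ψ w * f w := by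
  have o1 : IsOpen {w : ℂ | T0 < w.im} := isOpen_lt continuous_const Complex.continuous_im
  have o2 : IsOpen {w : ℂ | |w.re| < w.im / 2} :=
    isOpen_lt (continuous_abs.comp Complex.continuous_re) (Complex.continuous_im.div_const 2)
  filter_upwards [o1.mem_nhds h1, o2.mem_nhds h2] with w h3 h4
  exact hfe w (le_of_lt h3) (le_of_lt h4)

lemma logDeriv_aff (g : ℂ → ℂ) (z c w : ℂ) :
    logDeriv (fun w => g (z + c * w)) w = c * logDeriv g (z + c * w) := by
  have h := congrFun (iter_aff g z c 1) w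
  rw [iteratedDeriv_one, iteratedDeriv_one, pow_one] at h
  rw [logDeriv_apply, logDeriv_apply, h, mul_div_assoc]

lemma diff_aff {g : ℂ → ℂ} {z c w : ℂ} (h : DifferentiableAt ℂ g (z + c * w)) :
    DifferentiableAt ℂ (fun w => g (z + c * w)) w :=
  DifferentiableAt.comp w (g := g) (f := fun w => z + c * w) h (by fun_prop)

/-- control of the reflected function -/
lemma ctrl (h : RD m f Ψ) {y ϑ η : ℝ} (hy : ZB f y) (hϑ : y < ϑ) (hϑ0 : 0 ≤ ϑ) (hη : 0 < η) :
    ∃ T0 : ℝ, 2 ≤ T0 ∧ ∀ t : ℝ, T0 ≤ t → ∀ z : ℂ, t / 2 ≤ z.im → z.im ≤ 2 * t → ϑ ≤ z.re →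
      z.re ≤ t / 5 → DifferentiableAt ℂ (fl f) z ∧ fl f z ≠ 0 ∧
      ‖logDeriv (fl f) z - ((m * Real.log t : ℝ) : ℂ)‖ ≤ η * (m * Real.log t) := by
  have hm := h.hm
  obtain ⟨K, T1, hK, hT1, h1, h2, -⟩ := h.all
  obtain ⟨ε, hε⟩ : ∃ ε, ε = min (ϑ - y) (η * m / 2) := ⟨_, rfl⟩
  have hε0 : 0 < ε := by rw [hε]; exact lt_min (by linarith) (by positivity)
  have hε1 : ε ≤ ϑ - y := by rw [hε]; exact min_le_left _ _
  have hε2 : ε ≤ η * m / 2 := by rw [hε]; exact min_le_right _ _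
  obtain ⟨t1, ht1, h3⟩ := hy ε hε0
  refine ⟨max (2 * T1 + 2) (max (2 * t1) (Real.exp (2 * (K + m + ε) / (η * m)))),
    le_max_of_le_left (by linarith), ?_⟩
  intro t ht z hz1 hz2 hz3 hz4
  have ht2 : 2 * T1 + 2 ≤ t := (le_max_left _ _).trans ht
  have ht3 : 2 * t1 ≤ t := ((le_max_left _ _).trans (le_max_right _ _)).trans ht
  have ht4 : Real.exp (2 * (K + m + ε) / (η * m)) ≤ t :=
    ((le_max_right _ _).trans (le_max_right _ _)).trans ht
  have ht0 : 0 < t := by linarith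
  have hlog : 2 * (K + m + ε) / (η * m) ≤ Real.log t := (Real.le_log_iff_exp_le ht0).2 ht4
  rw [div_le_iff₀ (by positivity)] at hlog
  have hre : |z.re| < z.im / 2 := by
    rw [abs_of_nonneg (by linarith)]; linarith
  obtain ⟨a1, a2, a3, a4⟩ := h1 z (by linarith) hre.le
  obtain ⟨b1, b2⟩ := h2 z (by linarith)
  obtain ⟨c1, c2, c3, c4⟩ := h3 z (by linarith) (by linarith)
  refine ⟨b2, ?_, ?_⟩
  · rw [a4]; exact mul_ne_zero a2 c1
  · rw [logDeriv_fl_eq a1 a2 b1 c1 (ev_fe (fun w h5 h6 => (h1 w h5 h6).2.2.2) (by linarith) hre)]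
    have hl := log_close ht0 hz1 hz2
    have e1 : logDeriv Ψ z + logDeriv f z - ((m * Real.log t : ℝ) : ℂ) =
        (logDeriv Ψ z - ((m * Real.log z.im : ℝ) : ℂ)) + logDeriv f z +
          ((m * (Real.log z.im - Real.log t) : ℝ) : ℂ) := by
      push_cast; ring
    rw [e1]
    refine (norm_add₃_le).trans ?_
    rw [Complex.norm_real, Real.norm_eq_abs, abs_mul, abs_of_pos hm]
    have d1 : Real.log z.im ≤ Real.log t + 1 := by linarith [(abs_le.1 hl).2]
    have d2 : ε * Real.log z.im ≤ ε * (Real.log t + 1) := by gcongr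
    have d3 : m * |Real.log z.im - Real.log t| ≤ m * 1 := by gcongr
    have d4 : 0 ≤ Real.log t := Real.log_nonneg (by linarith)
    have d5 : ε * Real.log t ≤ η * m / 2 * Real.log t := by gcongr
    nlinarith

/-- the reflected function to the left of the controlled region -/
lemma lowreg (h : RD m f Ψ) {y ϑ ε : ℝ} (hy : ZB f y) (hϑ : y < ϑ) (hϑ0 : 0 < ϑ) (hϑ1 : ϑ ≤ 1)
    (hε : 0 < ε) : ∃ T0 : ℝ, 2 ≤ T0 ∧ ∀ z : ℂ, T0 ≤ z.im → z.re ≤ ϑ →
      ‖fl f z‖ ≤ z.im ^ (m * ϑ + ε) := by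
  have hm := h.hm
  obtain ⟨T1, h1⟩ := h.conv ϑ hϑ0 hϑ1 (by
    intro ε1 hε1
    obtain ⟨t1, ht1, h3⟩ := hy (min ε1 (ϑ - y)) (lt_min hε1 (by linarith))
    refine ⟨t1, fun z hz hz2 => ?_⟩
    have h4 := (h3 z (by rw [hz2]; linarith [min_le_right ε1 (ϑ - y)]) hz).2.2.2
    refine h4.trans (Real.rpow_le_rpow_of_exponent_le (by linarith) (min_le_left _ _))) ε hε
  obtain ⟨t1, ht1, h3⟩ := hy (min ε (ϑ - y)) (lt_min hε (by linarith))
  refine ⟨max T1 t1, le_max_of_le_right ht1, fun z hz hz2 => ?_⟩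
  have hz3 : T1 ≤ z.im := (le_max_left _ _).trans hz
  have hz4 : t1 ≤ z.im := (le_max_right _ _).trans hz
  have him : 1 ≤ z.im := by linarith
  rw [norm_fl]
  by_cases hc : (-conj z).re ≤ ϑ
  · have h5 := h1 (-conj z) (by rw [nc_im]; exact hz3)
      (abs_le.2 ⟨by rw [nc_re]; linarith, hc⟩)
    refine h5.trans ?_
    rw [nc_re, nc_im]
    refine Real.rpow_le_rpow_of_exponent_le him ?_
    have : m / 2 * (ϑ - -z.re) ≤ m / 2 * (2 * ϑ) := by
      gcongr; linarith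
    linarith
  · have h4 := (h3 (-conj z) (by linarith [min_le_right ε (ϑ - y)]) (by rw [nc_im]; exact hz4)).2.2.2
    refine h4.trans ?_
    rw [nc_im]
    refine Real.rpow_le_rpow_of_exponent_le him ?_
    have := min_le_left ε (ϑ - y)
    have : 0 ≤ m * ϑ := by positivity
    linarith

/-- **forward theorem**: no zeros of the high derivatives to the left of the critical line -/
theorem fwd (h : RD m f Ψ) {y r0 : ℝ} (hy0 : 0 ≤ y) (hy : ZB f y) (hr : y < r0) (hr1 : r0 ≤ 1) :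
    ∃ T0 : ℝ, 2 ≤ T0 ∧ ∀ (z : ℂ) (n : ℕ), T0 ≤ z.im → 0 ≤ z.re → z.re ≤ z.im / 8 →
      r0 * (m * Real.log z.im) ≤ n → (n : ℝ) ≤ z.im → iteratedDeriv n (fl f) z ≠ 0 := by
  have hm := h.hm
  have hr0 : 0 < r0 := lt_of_le_of_lt hy0 hr
  obtain ⟨κ, hκ⟩ : ∃ κ, κ = (r0 - y) / (4 * r0) := ⟨_, rfl⟩
  have hκ0 : 0 < κ := by rw [hκ]; exact div_pos (by linarith) (by linarith)
  have hκ1 : κ ≤ 1 / 4 := by
    rw [hκ, div_le_iff₀ (by positivity)]; linarith
  have hκe : r0 * (4 * κ) = r0 - y := by rw [hκ]; field_simp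
  obtain ⟨ϑ, hϑ⟩ : ∃ ϑ, ϑ = r0 * (1 - 3 * κ) := ⟨_, rfl⟩
  have hϑe : ϑ = y + r0 * κ := by rw [hϑ]; linarith
  have hrk : 0 < r0 * κ := by positivity
  have hϑy : y < ϑ := by rw [hϑe]; linarith
  have hϑ0 : 0 < ϑ := by linarith
  have hϑr : ϑ ≤ r0 := by
    rw [hϑ]
    nlinarith
  have hϑ1 : ϑ ≤ 1 := hϑr.trans hr1
  obtain ⟨s, hs⟩ : ∃ s, s = κ / 5 := ⟨_, rfl⟩
  have hs0 : 0 < s := by rw [hs]; positivity
  obtain ⟨δ, hδ⟩ : ∃ δ, δ = min (s ^ 2 / 10) κ := ⟨_, rfl⟩
  have hδ0 : 0 < δ := by rw [hδ]; exact lt_min (by positivity) hκ0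
  have hδ1 : δ ≤ s ^ 2 / 10 := by rw [hδ]; exact min_le_left _ _
  have hδ2 : δ ≤ κ := by rw [hδ]; exact min_le_right _ _
  obtain ⟨η0, n1, hη0, hn1, H⟩ := core lapQ κ δ hκ0 (by linarith) hδ0
  obtain ⟨η, hη⟩ : ∃ η, η = min η0 (min (s ^ 2 / 20) (κ / 2)) := ⟨_, rfl⟩
  have hη1 : 0 < η := by
    rw [hη]; exact lt_min hη0 (lt_min (by positivity) (by positivity))
  have hη2 : η ≤ η0 := by rw [hη]; exact min_le_left _ _
  have hη3 : η ≤ s ^ 2 / 20 := by rw [hη]; exact (min_le_right _ _).trans (min_le_left _ _)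
  have hη4 : η ≤ κ / 2 := by rw [hη]; exact (min_le_right _ _).trans (min_le_right _ _)
  obtain ⟨Tc, hTc, hctrl⟩ := ctrl h hy hϑy hϑ0.le hη1
  obtain ⟨K, Ta, hK, hTa, ha1, ha2, ha3⟩ := h.all
  obtain ⟨ε, hε⟩ : ∃ ε, ε = κ * r0 * m / 4 := ⟨_, rfl⟩
  have hε0 : 0 < ε := by rw [hε]; positivity
  obtain ⟨Tl, hTl, hlow⟩ := lowreg h hy hϑy hϑ0 hϑ1 hε0
  obtain ⟨tz, htz, hz⟩ := hy (min ε (ϑ - y)) (lt_min hε0 (by linarith))
  obtain ⟨N0, hN0⟩ : ∃ N0 : ℝ, N0 = max (n1 : ℝ) (2 * (m + ε + K) / κ) := ⟨_, rfl⟩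
  refine ⟨max (max Tc (2 * Ta)) (max (max (2 * Tl) tz) (max (Real.exp (32 / m))
    (Real.exp (N0 / (r0 * m))))), le_max_of_le_left (le_max_of_le_left hTc), ?_⟩
  intro z n hzT hz0 hz8 hn1' hn2
  obtain ⟨t, ht⟩ : ∃ t, t = z.im := ⟨_, rfl⟩
  rw [← ht] at hzT hz8 hn1' hn2
  have e1 : Tc ≤ t := ((le_max_left _ _).trans (le_max_left _ _)).trans hzT
  have e2 : 2 * Ta ≤ t := ((le_max_right _ _).trans (le_max_left _ _)).trans hzT
  have e3 : 2 * Tl ≤ t :=
    ((le_max_left _ _).trans ((le_max_left _ _).trans (le_max_right _ _))).trans hzT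
  have e4 : tz ≤ t :=
    ((le_max_right _ _).trans ((le_max_left _ _).trans (le_max_right _ _))).trans hzT
  have e5 : Real.exp (32 / m) ≤ t :=
    ((le_max_left _ _).trans ((le_max_right _ _).trans (le_max_right _ _))).trans hzT
  have e6 : Real.exp (N0 / (r0 * m)) ≤ t :=
    ((le_max_right _ _).trans ((le_max_right _ _).trans (le_max_right _ _))).trans hzT
  clear hzT
  have ht0 : 0 < t := by linarith
  have hlog1 : 32 / m ≤ Real.log t := (Real.le_log_iff_exp_le ht0).2 e5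
  have hlog2 : N0 / (r0 * m) ≤ Real.log t := (Real.le_log_iff_exp_le ht0).2 e6
  rw [div_le_iff₀ (by positivity)] at hlog1 hlog2
  have hlogpos : 0 < Real.log t := by
    by_contra hc
    have : Real.log t * m ≤ 0 := mul_nonpos_of_nonpos_of_nonneg (not_lt.1 hc) hm.le
    linarith
  obtain ⟨Ω, hΩ⟩ : ∃ Ω, Ω = m * Real.log t := ⟨_, rfl⟩
  rw [← hΩ] at hn1'
  have hΩ32 : 32 ≤ Ω := by rw [hΩ]; linarith
  have hΩ0 : 0 < Ω := by linarith
  have hnN : N0 ≤ n := by
    refine le_trans ?_ hn1'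
    rw [hΩ]; linarith
  have hnn1 : n1 ≤ n := by
    have : (n1 : ℝ) ≤ n := (le_max_left _ _).trans (hN0 ▸ hnN)
    exact_mod_cast this
  have hnK : 2 * (m + ε + K) / κ ≤ n := (le_max_right _ _).trans (hN0 ▸ hnN)
  rw [div_le_iff₀ hκ0] at hnK
  have hnpos : (0 : ℝ) < n := by
    have : 0 < n := by omega
    exact_mod_cast this
  obtain ⟨r, hr'⟩ : ∃ r : ℝ, r = n / Ω := ⟨_, rfl⟩
  have hrΩ : r * Ω = n := by rw [hr']; field_simp
  have hr0r : r0 ≤ r := by rw [hr', le_div_iff₀ hΩ0]; exact hn1'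
  have hrpos : 0 < r := by linarith
  have hr32 : r ≤ t / 32 := by
    rw [hr']
    calc (n : ℝ) / Ω ≤ t / Ω := by gcongr
      _ ≤ t / 32 := by gcongr
  obtain ⟨F, hF⟩ : ∃ F : ℂ → ℂ, F = fun w => fl f (z + (r : ℂ) * w) := ⟨_, rfl⟩
  have hFapp : ∀ w, F w = fl f (z + (r : ℂ) * w) := fun w => by rw [hF]
  -- geometry
  have gre : ∀ w : ℂ, (z + (r : ℂ) * w).re = z.re + r * w.re := by
    intro w; simp
  have gim : ∀ w : ℂ, (z + (r : ℂ) * w).im = t + r * w.im := by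
    intro w; rw [ht]; simp
  have gim2 : ∀ w : ℂ, ‖w‖ ≤ 2 → t / 2 ≤ (z + (r : ℂ) * w).im ∧ (z + (r : ℂ) * w).im ≤ 2 * t := by
    intro w hw
    rw [gim]
    have h1 := (abs_le.1 ((Complex.abs_im_le_norm w).trans hw))
    constructor
    · have : r * (-2) ≤ r * w.im := by gcongr; exact h1.1
      linarith
    · have : r * w.im ≤ r * 2 := by gcongr; exact h1.2
      linarith
  have gre2 : ∀ w : ℂ, ‖w‖ ≤ 2 → (z + (r : ℂ) * w).re ≤ t / 5 := by
    intro w hw
    rw [gre]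
    have h1 := (abs_le.1 ((Complex.abs_re_le_norm w).trans hw))
    have : r * w.re ≤ r * 2 := by gcongr; exact h1.2
    linarith
  obtain ⟨c, hc⟩ : ∃ c : ℝ, c = (ϑ - z.re) / r := ⟨_, rfl⟩
  have hcr : r * c = ϑ - z.re := by rw [hc]; field_simp
  have hc1 : c ≤ 1 - 3 * κ := by
    rw [hc, div_le_iff₀ hrpos]
    have : (1 - 3 * κ) * r0 ≤ (1 - 3 * κ) * r := by
      apply mul_le_mul_of_nonneg_left hr0r; linarith
    linarith
  obtain ⟨S, hSdef⟩ : ∃ S : Set ℂ, S = ({w : ℂ | c ≤ w.re} ∩ Metric.closedBall 0 2) := ⟨_, rfl⟩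
  have hSc : Convex ℝ S := by
    rw [hSdef]; exact (convex_halfSpace_re_ge c).inter (convex_closedBall _ _)
  have hSmem : ∀ w : ℂ, w ∈ S ↔ c ≤ w.re ∧ ‖w‖ ≤ 2 := by
    intro w; rw [hSdef]
    simp
  have hcw : ∀ w : ℂ, c ≤ w.re → ϑ ≤ (z + (r : ℂ) * w).re := by
    intro w hw
    rw [gre]
    have : r * c ≤ r * w.re := by gcongr
    linarith
  have hS : ∀ w ∈ S, DifferentiableAt ℂ F w ∧ F w ≠ 0 ∧ ‖logDeriv F w - ((n : ℝ) : ℂ)‖ ≤ η * n := by
    intro w hw
    obtain ⟨w1, w2⟩ := (hSmem w).1 hw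
    obtain ⟨g1, g2⟩ := gim2 w w2
    obtain ⟨h1, h2, h3⟩ := hctrl t e1 (z + (r : ℂ) * w) g1 g2 (hcw w w1) (gre2 w w2)
    refine ⟨?_, ?_, ?_⟩
    · rw [hF]
      exact diff_aff h1
    · rw [hFapp]; exact h2
    · rw [hF, logDeriv_aff]
      have e7 : (r : ℂ) * logDeriv (fl f) (z + (r : ℂ) * w) - ((n : ℝ) : ℂ) =
          (r : ℂ) * (logDeriv (fl f) (z + (r : ℂ) * w) - ((m * Real.log t : ℝ) : ℂ)) := by
        rw [← hrΩ, hΩ]; push_cast; ring
      rw [e7, norm_mul, Complex.norm_real, Real.norm_eq_abs, abs_of_pos hrpos]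
      calc r * ‖logDeriv (fl f) (z + (r : ℂ) * w) - ((m * Real.log t : ℝ) : ℂ)‖
          ≤ r * (η * (m * Real.log t)) := by gcongr
        _ = η * n := by rw [← hrΩ, hΩ]; ring
  have hone : (1 : ℂ) ∈ S := (hSmem 1).2 ⟨by rw [Complex.one_re]; linarith, by rw [norm_one]; norm_num⟩
  have hball : ∀ w ∈ Metric.ball ((0 : ℂ) + 1) κ, w ∈ S := by
    intro w hw
    rw [zero_add, Metric.mem_ball, dist_eq_norm] at hw
    refine (hSmem w).2 ⟨?_, ?_⟩
    · have h1 := (abs_le.1 ((Complex.abs_re_le_norm (w - 1)).trans hw.le)).1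
      rw [Complex.sub_re, Complex.one_re] at h1
      linarith
    · have h2 := norm_add_le (w - 1) 1
      rw [sub_add_cancel, norm_one] at h2
      linarith
  have hdiff : ∀ w : ℂ, ‖w‖ ≤ 2 → DifferentiableAt ℂ F w := by
    intro w hw
    obtain ⟨g1, g2⟩ := gim2 w hw
    have h1 := (ha2 (z + (r : ℂ) * w) (by linarith)).2
    rw [hF]
    exact diff_aff h1
  have hmain : iteratedDeriv n F 0 ≠ 0 := by
    refine H n 0 F hnn1 ?_ ?_ ?_
    · intro w hw
      have h1 := hS w (hball w hw)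
      refine ⟨h1.1, h1.2.1, ?_⟩
      have h2 := h1.2.2.trans (mul_le_mul_of_nonneg_right hη2 hnpos.le)
      exact_mod_cast h2
    · intro w hw
      rw [Metric.mem_closedBall, dist_zero_right] at hw
      exact hdiff w (by linarith)
    · intro φ h1 h2
      rw [zero_add, zero_add]
      obtain ⟨w, hw⟩ : ∃ w, w = cexp (φ * I) := ⟨_, rfl⟩
      rw [← hw]
      have hwn : ‖w‖ = 1 := by rw [hw, Complex.norm_exp_ofReal_mul_I]
      have hwre : w.re = Real.cos φ := by rw [hw, exp_I_re]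
      have hcos := cos_arc hs0.le (by rw [hs]; exact h1) h2
      by_cases hcc : c ≤ w.re
      · have hwS : w ∈ S := (hSmem w).2 ⟨hcc, by rw [hwn]; norm_num⟩
        have h3 := growF hSc hS hone hwS
        refine h3.trans ?_
        rw [mul_comm]
        refine mul_le_mul_of_nonneg_right (Real.exp_le_exp.2 ?_) (norm_nonneg _)
        have h5 : ‖w - 1‖ ≤ 2 := by
          refine (norm_sub_le _ _).trans ?_
          rw [hwn, norm_one]; norm_num
        rw [hwre, Complex.one_re]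
        have h7 : (n : ℝ) * (Real.cos φ - 1) ≤ n * (-(s ^ 2 / 5)) :=
          mul_le_mul_of_nonneg_left hcos hnpos.le
        have h8 : η * n * ‖w - 1‖ ≤ s ^ 2 / 20 * n * 2 := by
          gcongr
        have h9 : δ * n ≤ s ^ 2 / 10 * n := mul_le_mul_of_nonneg_right hδ1 hnpos.le
        linarith
      · rw [not_le] at hcc
        have hcm1 : -1 ≤ c := by
          have := Real.neg_one_le_cos φ
          rw [hwre] at hcc; linarith
        have hcabs : |c| ≤ 1 := abs_le.2 ⟨hcm1, by linarith⟩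
        have hcn : ‖(c : ℂ)‖ ≤ 1 := by rw [Complex.norm_real]; exact hcabs
        have hcS : (c : ℂ) ∈ S := (hSmem _).2 ⟨by rw [Complex.ofReal_re], by linarith⟩
        have h3 := growF hSc hS hone hcS
        -- lower bound at c
        have p1 : z + (r : ℂ) * (c : ℂ) = (ϑ : ℂ) + I * t := by
          apply Complex.ext
          · rw [gre, Complex.ofReal_re, hcr]; simp
          · rw [gim]; simp
        have p2 : F (c : ℂ) = fl f ((ϑ : ℂ) + I * t) := by rw [hFapp, p1]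
        have q1 : ((ϑ : ℂ) + I * t).re = ϑ := by simp
        have q2 : ((ϑ : ℂ) + I * t).im = t := by simp
        have hϑt : |ϑ| ≤ t / 2 := by
          rw [abs_of_pos hϑ0]; linarith
        have p3 := (ha1 ((ϑ : ℂ) + I * t) (by rw [q2]; linarith) (by rw [q1, q2]; exact hϑt)).2.2.2
        have p4 := (ha3 ((ϑ : ℂ) + I * t) (by rw [q2]; linarith) (by rw [q1, q2]; exact hϑt)).1
        have p5 := (hz ((ϑ : ℂ) + I * t) (by rw [q1]; linarith [min_le_right ε (ϑ - y)])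
          (by rw [q2]; exact e4)).2.2.1
        rw [q1, q2] at p4
        rw [q2] at p5
        have p6 : Real.exp (m * ϑ * Real.log t - K - ε * Real.log t) ≤ ‖F (c : ℂ)‖ := by
          rw [p2, p3, norm_mul, sub_eq_add_neg, Real.exp_add]
          have h10 : Real.exp (m * ϑ * Real.log t - K) ≤ ‖Ψ ((ϑ : ℂ) + I * t)‖ := by
            refine le_trans (Real.exp_le_exp.2 ?_) p4
            have : K * |ϑ| ≤ K * 1 := by
              gcongr; rw [abs_of_pos hϑ0]; exact hϑ1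
            linarith
          have h11 : Real.exp (-(ε * Real.log t)) ≤ ‖f ((ϑ : ℂ) + I * t)‖ := by
            refine le_trans ?_ p5
            rw [Real.rpow_def_of_pos ht0]
            refine Real.exp_le_exp.2 ?_
            have := mul_le_mul_of_nonneg_right (min_le_left ε (ϑ - y)) hlogpos.le
            linarith
          gcongr
        -- upper bound at w
        obtain ⟨g1, g2⟩ := gim2 w (by rw [hwn]; norm_num)
        have hwϑ : (z + (r : ℂ) * w).re ≤ ϑ := by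
          rw [gre]
          have : r * w.re ≤ r * c := by gcongr
          linarith
        have p7 := hlow (z + (r : ℂ) * w) (by linarith) hwϑ
        rw [← hFapp] at p7
        have hUpos : 0 < (z + (r : ℂ) * w).im := by linarith
        have hlc := log_close ht0 g1 g2
        have p8 : ‖F w‖ ≤ Real.exp ((m * ϑ + ε) * (Real.log t + 1)) := by
          refine p7.trans ?_
          rw [Real.rpow_def_of_pos hUpos]
          refine Real.exp_le_exp.2 ?_
          rw [mul_comm]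
          have : 0 ≤ m * ϑ + ε := by positivity
          gcongr
          linarith [(abs_le.1 hlc).2]
        have p9 : ‖F w‖ ≤ Real.exp (κ * n) * ‖F (c : ℂ)‖ := by
          refine p8.trans (le_trans ?_ (mul_le_mul_of_nonneg_left p6 (Real.exp_pos _).le))
          rw [← Real.exp_add]
          refine Real.exp_le_exp.2 ?_
          have h12 : m * ϑ ≤ m := by nlinarith
          have h13 : κ * (r0 * Ω) ≤ κ * n := by gcongr
          have h14 : κ * (r0 * Ω) = 4 * ε * Real.log t := by rw [hΩ, hε]; ring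
          linarith
        have p10 : ‖F (c : ℂ)‖ ≤ Real.exp (-(2 * κ * n)) * ‖F 1‖ := by
          refine h3.trans ?_
          rw [mul_comm]
          refine mul_le_mul_of_nonneg_right (Real.exp_le_exp.2 ?_) (norm_nonneg _)
          rw [Complex.ofReal_re, Complex.one_re]
          have h5 : ‖(c : ℂ) - 1‖ ≤ 2 := by
            refine (norm_sub_le _ _).trans ?_
            rw [norm_one]; linarith
          have h6 : η * n * ‖(c : ℂ) - 1‖ ≤ κ / 2 * n * 2 := by gcongr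
          have h7 : (n : ℝ) * (c - 1) ≤ n * (-(3 * κ)) := by
            apply mul_le_mul_of_nonneg_left _ hnpos.le; linarith
          linarith
        calc ‖F w‖ ≤ Real.exp (κ * n) * ‖F (c : ℂ)‖ := p9
          _ ≤ Real.exp (κ * n) * (Real.exp (-(2 * κ * n)) * ‖F 1‖) := by gcongr
          _ = Real.exp (-(κ * n)) * ‖F 1‖ := by
            rw [← mul_assoc, ← Real.exp_add]; congr 2; ring
          _ ≤ Real.exp (-(δ * n)) * ‖F 1‖ := by
            refine mul_le_mul_of_nonneg_right (Real.exp_le_exp.2 ?_) (norm_nonneg _)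
            have := mul_le_mul_of_nonneg_right hδ2 hnpos.le
            linarith
  intro hzero
  apply hmain
  rw [hF, iter_aff]
  show (r : ℂ) ^ n * iteratedDeriv n (fl f) (z + r * 0) = 0
  rw [mul_zero, add_zero, hzero, mul_zero]

end Pool.Agent.K3h84.DL
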