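import Pool.Agent.K3h84.DL.ZBl
import Pool.Agent.K3h84.DL.TayL
import Pool.Agent.H986R2.K4.LL
import Pool.Agent.H986R2.K4.RG
import Pool.Agent.H986R2.K4.GR

set_option autoImplicit false

namespace Pool.Agent.K3h84.DL

open Complex Filter Topology MeasureTheory Set
open scoped ComplexConjugate
open Pool.Agent.H986R2.K4 (sab ll)
open Pool.Agent.H986R2.K4.RGAux (le_fact fact_le)
open Pool.Agent.H986R2.K4.GRAux (norm_le logDeriv_quot)

variable {m : ℝ} {f Ψ : ℂ → ℂ}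

lemma it_re (t : ℝ) (u : ℂ) : (I * (t : ℂ) + u).re = u.re := by simp

lemma it_im (t : ℝ) (u : ℂ) : (I * (t : ℂ) + u).im = t + u.im := by simp

/-- analyticity of the derivatives high up -/
lemma diffI {g : ℂ → ℂ} {T : ℝ} (hg : ∀ z : ℂ, T < z.im → DifferentiableAt ℂ g z) (n : ℕ) {z : ℂ}
    (hz : T < z.im) : DifferentiableAt ℂ (iteratedDeriv n g) z :=
  (TayL.anI hg n hz).differentiableAt

/-- Polynomial bound for the derivatives. -/
lemma ub (h : RD m f Ψ) : ∃ K T0 : ℝ, 1 ≤ K ∧ 2 ≤ T0 ∧ ∀ (t : ℝ) (n : ℕ), T0 ≤ t → 1 ≤ n →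
    (n : ℝ) ≤ m * Real.log t → ∀ u : ℂ, |u.re| ≤ 10 → |u.im| ≤ 10 →
    ‖iteratedDeriv n (fl f) (I * t + u)‖ ≤ t ^ K * (m * Real.log t) ^ n := by
  have hm := h.hm
  obtain ⟨K, Ta, hK, hTa, ha1, ha2, ha3⟩ := h.all
  obtain ⟨TP, hTP, hP⟩ := polyB h
  obtain ⟨K2, hK2⟩ : ∃ K2, K2 = 2 * (11 * m + (m + 1)) + 1 := ⟨_, rfl⟩
  refine ⟨K2, max (max (Ta + 11) (TP + 11)) (max 44 (Real.exp (11 * K))), ?_,
    le_max_of_le_left (le_max_of_le_left (by linarith)), ?_⟩
  · rw [hK2]; linarith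
  intro t n ht hn hnm u hu1 hu2
  have t1 : Ta + 11 ≤ t := ((le_max_left _ _).trans (le_max_left _ _)).trans ht
  have t2 : TP + 11 ≤ t := ((le_max_right _ _).trans (le_max_left _ _)).trans ht
  have t3 : 44 ≤ t := ((le_max_left _ _).trans (le_max_right _ _)).trans ht
  have t4 : Real.exp (11 * K) ≤ t := ((le_max_right _ _).trans (le_max_right _ _)).trans ht
  have ht0 : 0 < t := by linarith
  have hnpos : (0 : ℝ) < n := by exact_mod_cast hn
  have hΩ : 0 < m * Real.log t := lt_of_lt_of_le hnpos hnm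
  obtain ⟨r, hr⟩ : ∃ r : ℝ, r = n / (m * Real.log t) := ⟨_, rfl⟩
  have hr0 : 0 < r := by rw [hr]; positivity
  have hr1 : r ≤ 1 := by rw [hr, div_le_one hΩ]; exact hnm
  -- pointwise bound
  have hpt : ∀ v : ℂ, |v.re| ≤ 11 → |v.im| ≤ 11 → ‖fl f (I * t + v)‖ ≤ t ^ K2 := by
    intro v hv1 hv2
    have hv2' := abs_le.1 hv2
    have hv1' := abs_le.1 hv1
    have q1 : 1 ≤ t + v.im := by linarith
    have q2 : t + v.im ≤ t ^ (2 : ℝ) := by
      rw [Real.rpow_two]; nlinarith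
    have hpw : ∀ a : ℝ, 0 ≤ a → (t + v.im) ^ a ≤ t ^ (2 * a) := by
      intro a ha
      calc (t + v.im) ^ a ≤ (t ^ (2 : ℝ)) ^ a := Real.rpow_le_rpow (by linarith) q2 ha
        _ = t ^ (2 * a) := by rw [← Real.rpow_mul ht0.le]
    by_cases hc : v.re ≤ 1
    · rw [norm_fl]
      have := hP (-conj (I * t + v)) (by rw [nc_im, it_im]; linarith) (by rw [nc_re, it_re]; linarith)
      rw [nc_im, it_im] at this
      refine this.trans ((hpw (m + 1) (by linarith)).trans ?_)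
      exact Real.rpow_le_rpow_of_exponent_le (by linarith) (by rw [hK2]; linarith)
    · rw [not_le] at hc
      have hre2 : |(I * (t : ℂ) + v).re| ≤ (I * (t : ℂ) + v).im / 2 := by
        rw [it_re, it_im, abs_of_pos (by linarith)]; linarith
      have e1 := (ha1 (I * t + v) (by rw [it_im]; linarith) hre2).2.2.2
      have e2 := (ha3 (I * t + v) (by rw [it_im]; linarith) hre2).2
      have e3 := hP (I * t + v) (by rw [it_im]; linarith) (by rw [it_re]; linarith)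
      rw [it_re, it_im] at e2
      rw [it_im] at e3
      rw [e1, norm_mul]
      have e4 : Real.exp (m * v.re * Real.log (t + v.im) + K * |v.re|) ≤ t ^ (22 * m) * t := by
        rw [Real.exp_add]
        have e5 : Real.exp (m * v.re * Real.log (t + v.im)) ≤ t ^ (22 * m) := by
          have e6 : Real.exp (m * v.re * Real.log (t + v.im)) = (t + v.im) ^ (m * v.re) := by
            rw [Real.rpow_def_of_pos (by linarith)]; congr 1; ring
          rw [e6]
          calc (t + v.im) ^ (m * v.re) ≤ (t + v.im) ^ (11 * m) := by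
                refine Real.rpow_le_rpow_of_exponent_le q1 ?_
                nlinarith
            _ ≤ t ^ (2 * (11 * m)) := hpw _ (by linarith)
            _ = t ^ (22 * m) := by congr 1; ring
        have e7 : Real.exp (K * |v.re|) ≤ t := by
          refine le_trans (Real.exp_le_exp.2 ?_) t4
          nlinarith
        gcongr
      calc ‖Ψ (I * t + v)‖ * ‖f (I * t + v)‖ ≤ (t ^ (22 * m) * t) * t ^ (2 * (m + 1)) := by
            refine mul_le_mul (e2.trans e4) (e3.trans (hpw _ (by linarith))) (norm_nonneg _) (by positivity)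
        _ = t ^ K2 := by
            have e8 : t ^ (22 * m) * t = t ^ (22 * m + 1) := by
              rw [Real.rpow_add ht0, Real.rpow_one]
            rw [e8, ← Real.rpow_add ht0, hK2]
            congr 1; ring
  have hdc : DiffContOnCl ℂ (fl f) (Metric.ball (I * t + u) r) := by
    have h1 : DifferentiableOn ℂ (fl f) (Metric.closedBall (I * t + u) r) := by
      intro w hw
      rw [Metric.mem_closedBall, dist_eq_norm] at hw
      have h2 := (abs_le.1 ((Complex.abs_im_le_norm _).trans hw)).1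
      have h3 := abs_le.1 hu2
      simp only [Complex.sub_im, it_im] at h2
      exact ((ha2 w (by linarith)).2).differentiableWithinAt
    exact DifferentiableOn.diffContOnCl (h1.mono Metric.closure_ball_subset_closedBall)
  have h1 := Complex.norm_iteratedDeriv_le_of_forall_mem_sphere_norm_le n hr0 hdc (C := t ^ K2)
    (by
      intro z hz
      have hz' : ‖z - (I * t + u)‖ = r := by rw [← dist_eq_norm]; exact hz
      have a1 := (abs_le.1 ((Complex.abs_im_le_norm _).trans hz'.le))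
      have a2 := (abs_le.1 ((Complex.abs_re_le_norm _).trans hz'.le))
      simp only [Complex.sub_im, it_im, Complex.sub_re, it_re] at a1 a2
      have b1 := abs_le.1 hu1
      have b2 := abs_le.1 hu2
      have e1 : z = I * t + (z - I * t) := by ring
      rw [e1]
      have r1 : (z - I * (t : ℂ)).re = z.re := by simp
      have i1 : (z - I * (t : ℂ)).im = z.im - t := by simp
      refine hpt _ ?_ ?_
      · rw [r1, abs_le]; constructor <;> linarith
      · rw [i1, abs_le]; constructor <;> linarith)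
  refine h1.trans ?_
  have h4 : (n.factorial : ℝ) ≤ (n : ℝ) ^ n := by exact_mod_cast n.factorial_le_pow
  rw [hr, div_pow, div_div_eq_mul_div, div_le_iff₀ (by positivity)]
  have hp : 0 < (m * Real.log t) ^ n := by positivity
  calc (n.factorial : ℝ) * t ^ K2 * (m * Real.log t) ^ n
      ≤ (n : ℝ) ^ n * t ^ K2 * (m * Real.log t) ^ n := by gcongr
    _ = t ^ K2 * (m * Real.log t) ^ n * (n : ℝ) ^ n := by ring

/-- The derivative far to the right. -/
lemma rg (h : RD m f Ψ) (r0 r1 ε : ℝ) (hr0 : 0 < r0) (hr01 : r0 ≤ r1) (hr1 : r1 ≤ 1 / 2) (hε : 0 < ε) :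
    ∃ T0 : ℝ, 2 ≤ T0 ∧ ∀ (t : ℝ) (n : ℕ), T0 ≤ t → r0 * (m * Real.log t) ≤ n →
    (n : ℝ) ≤ r1 * (m * Real.log t) → ∀ u : ℂ, 3 / 2 ≤ u.re → u.re ≤ 10 → |u.im| ≤ 10 →
    t ^ (-ε) * ((m * Real.log t) ^ n * ‖Ψ (I * t + u)‖) ≤ ‖iteratedDeriv n (fl f) (I * t + u)‖ ∧
    ‖iteratedDeriv n (fl f) (I * t + u)‖ ≤ t ^ ε * ((m * Real.log t) ^ n * ‖Ψ (I * t + u)‖) := by
  have hm := h.hm
  obtain ⟨ε1, hε1⟩ : ∃ ε1, ε1 = ε / (4 * (m + 1)) := ⟨_, rfl⟩
  have hε1p : 0 < ε1 := by rw [hε1]; positivity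
  obtain ⟨η, n0, hη, hn0, hLL⟩ := ll ε1 hε1p
  obtain ⟨K, Ta, hK, hTa, ha1, ha2, ha3⟩ := h.all
  obtain ⟨Tc, hTc, hc⟩ := ctrl h (zb_half h) (show (1 : ℝ) / 2 < 5 / 8 by norm_num) (by norm_num) hη
  obtain ⟨B, TB, hB, hright⟩ := h.right 1 one_pos
  -- thresholds
  have ev0 : Tendsto (fun t : ℝ => r0 * (m * Real.log t)) atTop atTop :=
    (Real.tendsto_log_atTop.const_mul_atTop hm).const_mul_atTop hr0
  have ev2 : ∀ᶠ t : ℝ in atTop, (n0 : ℝ) + 1 ≤ r0 * (m * Real.log t) := ev0.eventually_ge_atTop _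
  have ev3 : ∀ᶠ t : ℝ in atTop, Real.exp 1 * m * Real.log t ≤ t ^ (ε / 4) := by
    have h := (isLittleO_log_rpow_atTop (show 0 < ε / 4 by linarith)).bound
      (show 0 < (Real.exp 1 * m)⁻¹ by positivity)
    filter_upwards [h, eventually_ge_atTop (1 : ℝ)] with x hx hx1
    rw [Real.norm_eq_abs, Real.norm_eq_abs, abs_of_nonneg (Real.log_nonneg hx1),
      abs_of_nonneg (Real.rpow_nonneg (by linarith) _)] at hx
    calc Real.exp 1 * m * Real.log x ≤ Real.exp 1 * m * ((Real.exp 1 * m)⁻¹ * x ^ (ε / 4)) :=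
          mul_le_mul_of_nonneg_left hx (by positivity)
      _ = x ^ (ε / 4) := by
          rw [← mul_assoc, mul_inv_cancel₀ (by positivity), one_mul]
  have ev4 : ∀ᶠ t : ℝ in atTop, B ≤ t ^ (ε / 4) :=
    (tendsto_rpow_atTop (show 0 < ε / 4 by linarith)).eventually_ge_atTop B
  obtain ⟨T0, hT0⟩ := eventually_atTop.1 (ev2.and (ev3.and ev4))
  refine ⟨max (max 2 T0) (max (max Tc 100) (max (Ta + 20) (TB + 20))),
    le_max_of_le_left (le_max_left _ _), ?_⟩
  intro t n ht hn1 hn2 u hu1 hu2 hu3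
  have t0 : T0 ≤ t := ((le_max_right _ _).trans (le_max_left _ _)).trans ht
  have t1 : Tc ≤ t := ((le_max_left _ _).trans ((le_max_left _ _).trans (le_max_right _ _))).trans ht
  have t2 : 100 ≤ t := ((le_max_right _ _).trans ((le_max_left _ _).trans (le_max_right _ _))).trans ht
  have t3 : Ta + 20 ≤ t :=
    ((le_max_left _ _).trans ((le_max_right _ _).trans (le_max_right _ _))).trans ht
  have t4 : TB + 20 ≤ t :=
    ((le_max_right _ _).trans ((le_max_right _ _).trans (le_max_right _ _))).trans ht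
  obtain ⟨b2, b3, b4⟩ := hT0 t t0
  have ht0 : 0 < t := by linarith
  have hlog0 : 0 ≤ Real.log t := Real.log_nonneg (by linarith)
  obtain ⟨Ω, hΩ⟩ : ∃ Ω, Ω = m * Real.log t := ⟨_, rfl⟩
  rw [← hΩ] at hn1 hn2 b2 ⊢
  have hΩpos : 0 < Ω := by
    by_contra hcon
    have : r0 * Ω ≤ 0 := mul_nonpos_of_nonneg_of_nonpos hr0.le (not_lt.1 hcon)
    have : (0 : ℝ) ≤ n0 := Nat.cast_nonneg _
    linarith
  have hnn0 : n0 ≤ n := by
    have : (n0 : ℝ) ≤ n := by linarith
    exact_mod_cast this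
  have hn1' : 1 ≤ n := by omega
  have hnpos : (0 : ℝ) < n := by exact_mod_cast hn1'
  obtain ⟨r, hr⟩ : ∃ r : ℝ, r = n / Ω := ⟨_, rfl⟩
  have hrpos : 0 < r := by rw [hr]; positivity
  have hrhalf : r ≤ 1 / 2 := by
    rw [hr, div_le_iff₀ hΩpos]
    nlinarith
  have hrΩ : r * Ω = n := by rw [hr]; field_simp
  obtain ⟨c, hc'⟩ : ∃ c : ℂ, c = I * t + u := ⟨_, rfl⟩
  rw [← hc']
  have cre : c.re = u.re := by rw [hc', it_re]
  have cim : c.im = t + u.im := by rw [hc', it_im]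
  have hu3' := abs_le.1 hu3
  have hball : ∀ w ∈ Metric.ball (0 : ℂ) (3 / 2), DifferentiableAt ℂ (fun w => fl f (c + (r : ℂ) * w)) w ∧
      fl f (c + (r : ℂ) * w) ≠ 0 ∧ ‖logDeriv (fun w => fl f (c + (r : ℂ) * w)) w - n‖ ≤ η * n := by
    intro w hw
    rw [mem_ball_zero_iff] at hw
    have hw1 := abs_le.1 ((Complex.abs_re_le_norm w).trans hw.le)
    have hw2 := abs_le.1 ((Complex.abs_im_le_norm w).trans hw.le)
    have hre : (c + (r : ℂ) * w).re = u.re + r * w.re := by simp [cre]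
    have him : (c + (r : ℂ) * w).im = t + u.im + r * w.im := by simp [cim]
    obtain ⟨c1, c2, c3⟩ := hc t t1 (c + (r : ℂ) * w) (by rw [him]; nlinarith) (by rw [him]; nlinarith)
      (by rw [hre]; nlinarith) (by rw [hre]; nlinarith)
    refine ⟨diff_aff c1, c2, ?_⟩
    rw [logDeriv_aff]
    have e7 : (r : ℂ) * logDeriv (fl f) (c + (r : ℂ) * w) - (n : ℂ) =
        (r : ℂ) * (logDeriv (fl f) (c + (r : ℂ) * w) - ((m * Real.log t : ℝ) : ℂ)) := by
      have : (n : ℂ) = ((r * Ω : ℝ) : ℂ) := by rw [hrΩ]; simp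
      rw [this, hΩ]; push_cast; ring
    rw [e7, norm_mul, Complex.norm_real, Real.norm_eq_abs, abs_of_pos hrpos]
    calc r * ‖logDeriv (fl f) (c + (r : ℂ) * w) - ((m * Real.log t : ℝ) : ℂ)‖
        ≤ r * (η * (m * Real.log t)) := by gcongr
      _ = η * n := by rw [← hrΩ, hΩ]; ring
  have hmain := hLL n 0 (fun w => fl f (c + (r : ℂ) * w)) hnn0 hball
  rw [iter_aff] at hmain
  simp only [mul_zero, add_zero] at hmain
  rw [norm_mul, norm_pow, Complex.norm_real, Real.norm_eq_abs, abs_of_pos hrpos] at hmain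
  have hre2 : |c.re| ≤ c.im / 2 := by
    rw [cre, cim, abs_of_pos (by linarith)]; linarith
  have hfe := (ha1 c (by rw [cim]; linarith) hre2).2.2.2
  obtain ⟨-, -, hB1, hB2⟩ := hright c (by rw [cim]; linarith) (by rw [cre]; linarith)
  rw [hfe, norm_mul] at hmain
  have hΨ0 : 0 ≤ ‖Ψ c‖ := norm_nonneg _
  have hrn : r ^ n = (n : ℝ) ^ n / Ω ^ n := by rw [hr, div_pow]
  have hnn : (0 : ℝ) < (n : ℝ) ^ n := by positivity
  have hΩn : 0 < Ω ^ n := by positivity
  have hnε : Real.exp (ε1 * n) ≤ t ^ (ε / 4) := by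
    rw [Real.rpow_def_of_pos ht0]
    apply Real.exp_le_exp.2
    have h1 : (n : ℝ) ≤ m * Real.log t := by rw [← hΩ]; nlinarith
    have h2 : ε1 * n ≤ ε1 * (m * Real.log t) := by gcongr
    refine h2.trans ?_
    have h3 : ε1 * m ≤ ε / 4 := by
      rw [hε1, div_mul_eq_mul_div, div_le_div_iff₀ (by positivity) (by norm_num)]
      nlinarith
    calc ε1 * (m * Real.log t) = (ε1 * m) * Real.log t := by ring
      _ ≤ ε / 4 * Real.log t := by gcongr
      _ = _ := by ring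
  have hfl := le_fact n
  have hfu := fact_le n hn1'
  have hexp1 : Real.exp ((1 - ε1) * n) = Real.exp n / Real.exp (ε1 * n) := by
    rw [← Real.exp_sub]; congr 1; ring
  have hexp2 : Real.exp ((1 + ε1) * n) = Real.exp n * Real.exp (ε1 * n) := by
    rw [← Real.exp_add]; congr 1; ring
  have htε : 0 < t ^ (ε / 4) := Real.rpow_pos_of_pos ht0 _
  have hfac0 : (0 : ℝ) < n.factorial := by exact_mod_cast Nat.factorial_pos n
  have hB1' : t ^ (-(ε / 4)) ≤ ‖f c‖ := by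
    refine le_trans ?_ hB1
    rw [Real.rpow_neg ht0.le]
    exact inv_anti₀ (by linarith) b4
  have hB2' : ‖f c‖ ≤ t ^ (ε / 4) := hB2.trans b4
  obtain ⟨Dn, hDn⟩ : ∃ Dn, Dn = ‖iteratedDeriv n (fl f) c‖ := ⟨_, rfl⟩
  rw [← hDn] at hmain ⊢
  constructor
  · -- lower bound
    have g1 := hmain.1
    rw [hexp1, hrn] at g1
    have g2 : (n : ℝ) ^ n * (t ^ (-(ε / 4)) * (‖Ψ c‖ * t ^ (-(ε / 4)))) ≤
        Real.exp n / Real.exp (ε1 * n) * (n.factorial * (‖Ψ c‖ * ‖f c‖)) := by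
      have g3 : t ^ (-(ε / 4)) ≤ 1 / Real.exp (ε1 * n) := by
        rw [Real.rpow_neg ht0.le, one_div]
        exact inv_anti₀ (Real.exp_pos _) hnε
      calc (n : ℝ) ^ n * (t ^ (-(ε / 4)) * (‖Ψ c‖ * t ^ (-(ε / 4))))
          ≤ (n.factorial * Real.exp n) * ((1 / Real.exp (ε1 * n)) * (‖Ψ c‖ * ‖f c‖)) := by
            have p1 : 0 ≤ t ^ (-(ε / 4)) := (Real.rpow_pos_of_pos ht0 _).le
            exact mul_le_mul hfl (mul_le_mul g3 (mul_le_mul_of_nonneg_left hB1' hΨ0)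
              (by positivity) (by positivity)) (by positivity) (by positivity)
        _ = _ := by ring
    have g4 : (n : ℝ) ^ n * (t ^ (-(ε / 4)) * (‖Ψ c‖ * t ^ (-(ε / 4)))) ≤
        (n : ℝ) ^ n / Ω ^ n * Dn := g2.trans g1
    have g5 : t ^ (-(ε / 4)) * (‖Ψ c‖ * t ^ (-(ε / 4))) * Ω ^ n ≤ Dn := by
      have e1 : (n : ℝ) ^ n / Ω ^ n * Dn = (n : ℝ) ^ n * (Dn / Ω ^ n) := by ring
      rw [e1] at g4
      have g6 := le_of_mul_le_mul_left g4 hnn
      rw [le_div_iff₀ hΩn] at g6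
      exact g6
    refine le_trans ?_ g5
    have e2 : t ^ (-(ε / 4)) * (‖Ψ c‖ * t ^ (-(ε / 4))) * Ω ^ n =
        (t ^ (-(ε / 4)) * t ^ (-(ε / 4))) * (Ω ^ n * ‖Ψ c‖) := by ring
    rw [e2]
    apply mul_le_mul_of_nonneg_right _ (by positivity)
    rw [← Real.rpow_add ht0]
    exact Real.rpow_le_rpow_of_exponent_le (by linarith) (by linarith)
  · -- upper bound
    have g1 := hmain.2
    rw [hexp2, hrn] at g1
    have g2 : Real.exp n * Real.exp (ε1 * n) * (n.factorial * (‖Ψ c‖ * ‖f c‖)) ≤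
        (n : ℝ) ^ n * (t ^ (ε / 4) * t ^ (ε / 4) * (‖Ψ c‖ * t ^ (ε / 4))) := by
      have g3 : Real.exp 1 * n ≤ t ^ (ε / 4) := by
        refine le_trans ?_ b3
        have h1 : (n : ℝ) ≤ m * Real.log t := by rw [← hΩ]; nlinarith
        calc Real.exp 1 * n ≤ Real.exp 1 * (m * Real.log t) :=
              mul_le_mul_of_nonneg_left h1 (Real.exp_pos _).le
          _ = _ := by ring
      have g4 : (n.factorial : ℝ) * Real.exp n ≤ t ^ (ε / 4) * (n : ℝ) ^ n :=
        hfu.trans (mul_le_mul_of_nonneg_right g3 hnn.le)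
      calc Real.exp n * Real.exp (ε1 * n) * (n.factorial * (‖Ψ c‖ * ‖f c‖))
          = (n.factorial * Real.exp n) * (Real.exp (ε1 * n) * (‖Ψ c‖ * ‖f c‖)) := by ring
        _ ≤ (t ^ (ε / 4) * (n : ℝ) ^ n) * (t ^ (ε / 4) * (‖Ψ c‖ * t ^ (ε / 4))) :=
            mul_le_mul g4 (mul_le_mul hnε (mul_le_mul_of_nonneg_left hB2' hΨ0)
              (by positivity) (by positivity)) (by positivity) (by positivity)
        _ = _ := by ring
    have g4 : (n : ℝ) ^ n / Ω ^ n * Dn ≤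
        (n : ℝ) ^ n * (t ^ (ε / 4) * t ^ (ε / 4) * (‖Ψ c‖ * t ^ (ε / 4))) := g1.trans g2
    have g5 : Dn ≤ t ^ (ε / 4) * t ^ (ε / 4) * (‖Ψ c‖ * t ^ (ε / 4)) * Ω ^ n := by
      have e1 : (n : ℝ) ^ n / Ω ^ n * Dn = (n : ℝ) ^ n * (Dn / Ω ^ n) := by ring
      rw [e1] at g4
      have g6 := le_of_mul_le_mul_left g4 hnn
      rw [div_le_iff₀ hΩn] at g6
      exact g6
    refine g5.trans ?_
    have e2 : t ^ (ε / 4) * t ^ (ε / 4) * (‖Ψ c‖ * t ^ (ε / 4)) * Ω ^ n =
        (t ^ (ε / 4) * t ^ (ε / 4) * t ^ (ε / 4)) * (Ω ^ n * ‖Ψ c‖) := by ring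
    rw [e2]
    apply mul_le_mul_of_nonneg_right _ (by positivity)
    rw [← Real.rpow_add ht0, ← Real.rpow_add ht0]
    exact Real.rpow_le_rpow_of_exponent_le (by linarith) (by linarith)

/-- If the derivative has no zeros to the right of the line near height `t`, its logarithmic derivative
is `m log t (1 + o(1))`. -/
lemma gr (h : RD m f Ψ) (r0 r1 η0 η : ℝ) (hr0 : 0 < r0) (hr01 : r0 ≤ r1) (hr1 : r1 ≤ 1 / 2)
    (hη0 : 0 < η0) (hη0' : η0 ≤ 1 / 4) (hη : 0 < η) :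
    ∃ T0 : ℝ, 2 ≤ T0 ∧ ∀ (t : ℝ) (n : ℕ), T0 ≤ t → r0 * (m * Real.log t) ≤ n →
    (n : ℝ) ≤ r1 * (m * Real.log t) →
    (∀ z : ℂ, |z.im - t| ≤ 20 → 0 < z.re → z.re ≤ z.im / 8 → iteratedDeriv n (fl f) z ≠ 0) →
    ∀ u : ℂ, η0 ≤ u.re → u.re ≤ 1 → |u.im| ≤ 1 →
    DifferentiableAt ℂ (iteratedDeriv n (fl f)) (I * t + u) ∧
    iteratedDeriv n (fl f) (I * t + u) ≠ 0 ∧
    ‖logDeriv (iteratedDeriv n (fl f)) (I * t + u) - ((m * Real.log t : ℝ) : ℂ)‖ ≤
      η * (m * Real.log t) ∧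
    t ^ (-η) * ((m * Real.log t) ^ n * ‖Ψ (I * t + u)‖) ≤ ‖iteratedDeriv n (fl f) (I * t + u)‖ := by
  have hm := h.hm
  obtain ⟨K, Ta, hK, hTa, ha1, ha2, ha3⟩ := h.all
  obtain ⟨KU, TU, hKU, hTU, hUB⟩ := ub h
  obtain ⟨η1, hη1⟩ : ∃ η1, η1 = min η (η * m / 4) := ⟨_, rfl⟩
  have hη1p : 0 < η1 := by rw [hη1]; exact lt_min hη (by positivity)
  have hη1a : η1 ≤ η := by rw [hη1]; exact min_le_left _ _
  have hη1b : η1 ≤ η * m / 4 := by rw [hη1]; exact min_le_right _ _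
  obtain ⟨ε, hε, hS⟩ := sab η0 η1 (KU + 10 * K) hη0 hη0' hη1p (by positivity)
  obtain ⟨TR, hTR, hRG⟩ := rg h r0 r1 ε hr0 hr01 hr1 hε
  refine ⟨max (max (Ta + 20) TU) (max (max TR 200) (Real.exp (max 1 (max (2 * (K + m) / (η * m))
    (1 / (r0 * m)))))), ?_, ?_⟩
  · exact le_max_of_le_left (le_max_of_le_right hTU)
  intro t n ht hn0 hn1 hz
  have htH : Ta + 20 ≤ t := ((le_max_left _ _).trans (le_max_left _ _)).trans ht
  have htU : TU ≤ t := ((le_max_right _ _).trans (le_max_left _ _)).trans ht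
  have htR : TR ≤ t := ((le_max_left _ _).trans ((le_max_left _ _).trans (le_max_right _ _))).trans ht
  have ht200 : 200 ≤ t :=
    ((le_max_right _ _).trans ((le_max_left _ _).trans (le_max_right _ _))).trans ht
  have htE : Real.exp (max 1 (max (2 * (K + m) / (η * m)) (1 / (r0 * m)))) ≤ t :=
    ((le_max_right _ _).trans (le_max_right _ _)).trans ht
  have ht0 : 0 < t := by linarith
  have hlog := (Real.le_log_iff_exp_le ht0).mpr htE
  have hL1 : 1 ≤ Real.log t := le_trans (le_max_left _ _) hlog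
  have hLK : 2 * (K + m) / (η * m) ≤ Real.log t :=
    ((le_max_left _ _).trans (le_max_right _ _)).trans hlog
  have hLn : 1 / (r0 * m) ≤ Real.log t :=
    ((le_max_right _ _).trans (le_max_right _ _)).trans hlog
  rw [div_le_iff₀ (by positivity)] at hLK hLn
  obtain ⟨Ω, hΩ⟩ : ∃ Ω, Ω = m * Real.log t := ⟨_, rfl⟩
  have hn0' := hn0
  have hn1' := hn1
  rw [← hΩ] at hn0 hn1 ⊢
  have hΩ0 : 0 < Ω := by rw [hΩ]; positivity
  have hn1one : 1 ≤ n := by
    have : (1 : ℝ) ≤ n := by rw [hΩ] at hn0; linarith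
    exact_mod_cast this
  have hnm : (n : ℝ) ≤ m * Real.log t := by rw [← hΩ]; nlinarith
  have hc : ((Ω : ℂ) ^ n) ≠ 0 := by
    apply pow_ne_zero
    exact_mod_cast hΩ0.ne'
  have hcn : ‖((Ω : ℂ) ^ n)‖ = Ω ^ n := by
    rw [norm_pow, Complex.norm_real, Real.norm_of_nonneg hΩ0.le]
  have hcpos : 0 < Ω ^ n := pow_pos hΩ0 n
  obtain ⟨F, hF⟩ : ∃ F, F = iteratedDeriv n (fl f) := ⟨_, rfl⟩
  rw [← hF] at hz ⊢
  have hFd : ∀ z : ℂ, Ta < z.im → DifferentiableAt ℂ F z := by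
    intro z hz
    rw [hF]
    exact diffI (fun w hw => (ha2 w (le_of_lt hw)).2) n hz
  obtain ⟨g, hg⟩ : ∃ g : ℂ → ℂ, g = fun v => F (I * t + v) / ((Ω : ℂ) ^ n * Ψ (I * t + v)) := ⟨_, rfl⟩
  -- non-vanishing
  have hF0 : ∀ u : ℂ, 0 < u.re → u.re ≤ 10 → |u.im| ≤ 10 → F (I * t + u) ≠ 0 := by
    intro u hu hu' hu2
    have := abs_le.1 hu2
    refine hz (I * t + u) ?_ ?_ ?_
    · rw [it_im, add_sub_cancel_left]; linarith
    · rw [it_re]; exact hu
    · rw [it_re, it_im]; linarith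
  have hH0 : ∀ u : ℂ, 0 < u.re → u.re ≤ 10 → |u.im| ≤ 10 → DifferentiableAt ℂ Ψ (I * t + u) ∧
      Ψ (I * t + u) ≠ 0 ∧ ‖logDeriv Ψ (I * t + u) - (Ω : ℂ)‖ ≤ K + m ∧
      Real.exp (-(10 * K)) ≤ ‖Ψ (I * t + u)‖ := by
    intro u hu hu' hu2
    have h3 := abs_le.1 hu2
    have hre2 : |(I * (t : ℂ) + u).re| ≤ (I * (t : ℂ) + u).im / 2 := by
      rw [it_re, it_im, abs_of_pos hu]; linarith
    have him2 : Ta ≤ (I * (t : ℂ) + u).im := by rw [it_im]; linarith
    obtain ⟨a, b, c, _⟩ := ha1 (I * t + u) him2 hre2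
    have d := (ha3 (I * t + u) him2 hre2).1
    rw [it_re, it_im] at d
    rw [it_im] at c
    refine ⟨a, b, ?_, ?_⟩
    · have hl := log_close ht0 (u := t + u.im) (by linarith) (by linarith)
      have e1 : logDeriv Ψ (I * t + u) - (Ω : ℂ) =
          (logDeriv Ψ (I * t + u) - ((m * Real.log (t + u.im) : ℝ) : ℂ)) +
          ((m * (Real.log (t + u.im) - Real.log t) : ℝ) : ℂ) := by
        rw [hΩ]; push_cast; ring
      rw [e1]
      refine (norm_add_le _ _).trans ?_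
      rw [Complex.norm_real, Real.norm_eq_abs, abs_mul, abs_of_pos hm]
      have : m * |Real.log (t + u.im) - Real.log t| ≤ m * 1 := by gcongr
      linarith
    · refine le_trans (Real.exp_le_exp.2 ?_) d
      have h4 : 0 ≤ Real.log (t + u.im) := Real.log_nonneg (by linarith)
      have h5 : 0 ≤ m * u.re * Real.log (t + u.im) := by positivity
      rw [abs_of_pos hu]
      nlinarith
  have hgn : ∀ u : ℂ, ‖g u‖ = ‖F (I * t + u)‖ / (Ω ^ n * ‖Ψ (I * t + u)‖) := by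
    intro u
    rw [hg]; simp only
    rw [norm_div, norm_mul, hcn]
  have hexpr : ∀ a : ℝ, Real.exp (a * Real.log t) = t ^ a := by
    intro a; rw [Real.rpow_def_of_pos ht0, mul_comm]
  have hnΨ : ∀ u : ℂ, 0 < u.re → u.re ≤ 10 → |u.im| ≤ 10 → 0 < Ω ^ n * ‖Ψ (I * t + u)‖ := by
    intro u h1 h2 h3
    exact mul_pos hcpos (norm_pos_iff.2 (hH0 u h1 h2 h3).2.1)
  have key := hS (Real.log t) g hL1 ?_ ?_
  · intro u hu1 hu2 hu3
    have hu1' : 0 < u.re := by linarith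
    have hu2' : u.re ≤ 10 := by linarith
    have hui : |u.im| ≤ 10 := by linarith
    obtain ⟨a1, a2, a3, a4⟩ := hH0 u hu1' hu2' hui
    have hFu := hF0 u hu1' hu2' hui
    obtain ⟨k1, k2, k3⟩ := key u hu1 (by linarith) (by linarith)
    have hFdu : DifferentiableAt ℂ F (I * t + u) := hFd _ (by
      rw [it_im]
      have := abs_le.1 hu3
      linarith)
    refine ⟨hFdu, hFu, ?_, ?_⟩
    · have e1 := logDeriv_quot (p := I * t) (u := u) hc hFdu hFu a1 a2
      have e2 : logDeriv F (I * t + u) - (Ω : ℂ) =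
          logDeriv g u + (logDeriv Ψ (I * t + u) - (Ω : ℂ)) := by
        rw [hg, e1]; ring
      rw [e2]
      calc _ ≤ ‖logDeriv g u‖ + ‖logDeriv Ψ (I * t + u) - (Ω : ℂ)‖ := norm_add_le _ _
        _ ≤ η1 * Real.log t + (K + m) := add_le_add k1 a3
        _ ≤ η * Ω := by
          have : η1 * Real.log t ≤ η * m / 4 * Real.log t := by gcongr
          rw [hΩ]
          nlinarith
    · rw [hgn, le_div_iff₀ (hnΨ u hu1' hu2' hui)] at k2
      refine le_trans ?_ k2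
      apply mul_le_mul_of_nonneg_right _ (by positivity)
      rw [Real.rpow_def_of_pos ht0]
      apply Real.exp_le_exp.mpr
      nlinarith
  · intro u hu1 hu2 hu3
    obtain ⟨a1, a2, a3, a4⟩ := hH0 u hu1 hu2 hu3
    have hFu := hF0 u hu1 hu2 hu3
    refine ⟨?_, ?_, ?_⟩
    · have hd : DifferentiableAt ℂ (fun v : ℂ => I * t + v) u := differentiableAt_id.const_add _
      have b1 : DifferentiableAt ℂ (fun v : ℂ => F (I * t + v)) u :=
        DifferentiableAt.comp u (hFd _ (by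
          rw [it_im]
          have := abs_le.1 hu3
          linarith)) hd
      have b2 : DifferentiableAt ℂ (fun v : ℂ => Ψ (I * t + v)) u :=
        DifferentiableAt.comp u a1 hd
      rw [hg]
      exact b1.div (b2.const_mul _) (mul_ne_zero hc a2)
    · rw [hg]; exact div_ne_zero hFu (mul_ne_zero hc a2)
    · rw [hgn, div_le_iff₀ (hnΨ u hu1 hu2 hu3)]
      have b1 := hUB t n htU hn1one hnm u (by rw [abs_of_pos hu1]; exact hu2) hu3
      rw [← hF, ← hΩ] at b1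
      refine b1.trans ?_
      have b3 : 1 ≤ Real.exp (10 * K) * ‖Ψ (I * t + u)‖ := by
        have := mul_le_mul_of_nonneg_left a4 (Real.exp_pos (10 * K)).le
        rwa [← Real.exp_add, add_neg_cancel, Real.exp_zero] at this
      have b5 : Real.exp (10 * K) ≤ Real.exp (10 * K * Real.log t) := by
        apply Real.exp_le_exp.mpr
        nlinarith
      have hpow : 0 < t ^ KU := Real.rpow_pos_of_pos ht0 _
      calc t ^ KU * Ω ^ n = t ^ KU * (Ω ^ n * 1) := by ring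
        _ ≤ t ^ KU * (Ω ^ n * (Real.exp (10 * K) * ‖Ψ (I * t + u)‖)) := by gcongr
        _ ≤ t ^ KU * (Ω ^ n * (Real.exp (10 * K * Real.log t) * ‖Ψ (I * t + u)‖)) := by gcongr
        _ = Real.exp ((KU + 10 * K) * Real.log t) * (Ω ^ n * ‖Ψ (I * t + u)‖) := by
          rw [add_mul, Real.exp_add, hexpr KU]; ring
  · intro u hu1 hu2 hu3
    have hu0 : 0 < u.re := by linarith
    obtain ⟨c1, c2⟩ := hRG t n htR hn0' hn1' u hu1 hu2 hu3
    rw [← hF, ← hΩ] at c1 c2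
    rw [hgn, le_div_iff₀ (hnΨ u hu0 hu2 hu3), div_le_iff₀ (hnΨ u hu0 hu2 hu3)]
    rw [← neg_mul, hexpr, hexpr]
    exact ⟨c1, c2⟩

end Pool.Agent.K3h84.DL
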