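import Pool.Agent.K3h84.DL.CDl
import Pool.Agent.W355.LJ.Gam

set_option autoImplicit false

/-! # Gamma factors -/

namespace Pool.Agent.K3h84.DL

open Complex Filter Topology MeasureTheory Set
open scoped ComplexConjugate

/-- a gamma factor of degree `2 k` -/
def GA (k : ℝ) (g : ℂ → ℂ) : Prop := (∃ K T0 : ℝ, 1 ≤ K ∧ 1 ≤ T0 ∧ ∀ z : ℂ, T0 ≤ z.im →
    |z.re| ≤ z.im / 2 → ‖logDeriv g z - ((k * Real.log z.im : ℝ) : ℂ)‖ ≤ K) ∧
  ∃ T0 : ℝ, ∀ z : ℂ, T0 ≤ z.im → DifferentiableAt ℂ g z ∧ g z ≠ 0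

lemma GA.mul {k1 k2 : ℝ} {g1 g2 : ℂ → ℂ} (h1 : GA k1 g1) (h2 : GA k2 g2) :
    GA (k1 + k2) (fun z => g1 z * g2 z) := by
  obtain ⟨⟨K1, T1, hK1, hT1, a1⟩, ⟨S1, b1⟩⟩ := h1
  obtain ⟨⟨K2, T2, hK2, hT2, a2⟩, ⟨S2, b2⟩⟩ := h2
  refine ⟨⟨K1 + K2, max (max T1 T2) (max S1 S2), by linarith, le_max_of_le_left (le_max_of_le_left hT1),
    fun z hz hz2 => ?_⟩, ⟨max S1 S2, fun z hz => ?_⟩⟩
  · have u1 : T1 ≤ z.im := ((le_max_left _ _).trans (le_max_left _ _)).trans hz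
    have u2 : T2 ≤ z.im := ((le_max_right _ _).trans (le_max_left _ _)).trans hz
    have u3 : S1 ≤ z.im := ((le_max_left _ _).trans (le_max_right _ _)).trans hz
    have u4 : S2 ≤ z.im := ((le_max_right _ _).trans (le_max_right _ _)).trans hz
    obtain ⟨c1, c2⟩ := b1 z u3
    obtain ⟨d1, d2⟩ := b2 z u4
    rw [logDeriv_mul z c2 d2 c1 d1]
    have e1 : logDeriv g1 z + logDeriv g2 z - (((k1 + k2) * Real.log z.im : ℝ) : ℂ) =
        (logDeriv g1 z - ((k1 * Real.log z.im : ℝ) : ℂ)) +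
        (logDeriv g2 z - ((k2 * Real.log z.im : ℝ) : ℂ)) := by
      push_cast; ring
    rw [e1]
    exact (norm_add_le _ _).trans (add_le_add (a1 z u1 hz2) (a2 z u2 hz2))
  · obtain ⟨c1, c2⟩ := b1 z ((le_max_left _ _).trans hz)
    obtain ⟨d1, d2⟩ := b2 z ((le_max_right _ _).trans hz)
    exact ⟨c1.mul d1, mul_ne_zero c2 d2⟩

lemma GA.one : GA 0 (fun _ => 1) := by
  refine ⟨⟨1, 1, le_rfl, le_rfl, fun z _ _ => ?_⟩, ⟨0, fun z _ => ⟨differentiableAt_const _, one_ne_zero⟩⟩⟩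
  rw [logDeriv_apply]
  simp

lemma GA.pow {k : ℝ} {g : ℂ → ℂ} (h : GA k g) (n : ℕ) : GA (n * k) (fun z => g z ^ n) := by
  induction n with
  | zero => simpa using GA.one
  | succ n ih =>
    have := ih.mul h
    simp only [pow_succ]
    have e : ((n + 1 : ℕ) : ℝ) * k = n * k + k := by push_cast; ring
    rw [e]
    exact this

lemma GA.prod {ι : Type} (s : Finset ι) {k : ι → ℝ} {g : ι → ℂ → ℂ} (h : ∀ i, GA (k i) (g i)) :
    GA (∑ i ∈ s, k i) (fun z => ∏ i ∈ s, g i z) := by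
  classical
  induction s using Finset.induction_on with
  | empty => simpa using GA.one
  | insert a s ha ih =>
    have := (h a).mul ih
    simp only [Finset.sum_insert ha, Finset.prod_insert ha]
    exact this

/-- `Γ_ℝ` -/
lemma GA.gamma (μ : ℂ) : GA (1 / 2) (fun z => Gammaℝ (z + μ)) := by
  obtain ⟨K, T0, hK, hT0, h⟩ := Pool.Agent.W355.LJ.gr_logd μ
  refine ⟨⟨max K 1, T0, le_max_right _ _, hT0, fun z hz hz2 => ?_⟩, ⟨|μ.im| + 1, fun z hz => ?_⟩⟩
  · exact (h z hz (by linarith)).2.2.trans (le_max_left _ _)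
  · have h1 : (z + μ).im ≠ 0 := by
      rw [Complex.add_im]
      have := neg_abs_le μ.im
      linarith
    have h2 := fun n => Pool.Agent.W355.LJ.im_ne h1 n
    refine ⟨?_, Pool.Agent.W355.LJ.gr_ne _ h2⟩
    have h3 := Pool.Agent.W355.LJ.gr_diff _ h2
    exact DifferentiableAt.comp (g := Gammaℝ) (f := fun s : ℂ => s + μ) z h3 (by fun_prop)

/-- the conductor -/
lemma GA.cond {N : ℝ} (hN : 0 < N) (c : ℂ) : GA 0 (fun z => (N : ℂ) ^ ((z + c) / 2)) := by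
  have hN0 : (N : ℂ) ≠ 0 := by exact_mod_cast hN.ne'
  have hd : ∀ z : ℂ, HasDerivAt (fun z : ℂ => (N : ℂ) ^ ((z + c) / 2))
      ((N : ℂ) ^ ((z + c) / 2) * Complex.log N * (1 / 2)) z := by
    intro z
    have h1 : HasDerivAt (fun z : ℂ => (z + c) / 2) (1 / 2) z :=
      ((hasDerivAt_id z).add_const c).div_const 2
    exact h1.const_cpow (Or.inl hN0)
  have hne : ∀ z : ℂ, (N : ℂ) ^ ((z + c) / 2) ≠ 0 := fun z => by
    rw [Ne, Complex.cpow_eq_zero_iff]; tauto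
  refine ⟨⟨‖Complex.log N * (1 / 2)‖ + 1, 1, by linarith [norm_nonneg (Complex.log N * (1 / 2))], le_rfl,
    fun z _ _ => ?_⟩, ⟨0, fun z _ => ⟨(hd z).differentiableAt, hne z⟩⟩⟩
  rw [logDeriv_apply, (hd z).deriv]
  have e1 : (N : ℂ) ^ ((z + c) / 2) * Complex.log N * (1 / 2) / (N : ℂ) ^ ((z + c) / 2) =
      Complex.log N * (1 / 2) := by
    have := hne z
    field_simp
  rw [e1, zero_mul, Complex.ofReal_zero, sub_zero]
  linarith

/-- the polar factor -/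
lemma GA.lin (c : ℂ) : GA 0 (fun z => z + c) := by
  have hn : ∀ z : ℂ, |c.im| + 1 ≤ z.im → 1 ≤ ‖z + c‖ := by
    intro z hz
    have h4 := Complex.abs_im_le_norm (z + c)
    rw [Complex.add_im] at h4
    have h5 := le_abs_self (z.im + c.im)
    have := neg_abs_le c.im
    linarith
  have hd : ∀ z : ℂ, HasDerivAt (fun z : ℂ => z + c) 1 z := fun z => (hasDerivAt_id z).add_const c
  refine ⟨⟨1, |c.im| + 1, le_rfl, by linarith [abs_nonneg c.im], fun z hz _ => ?_⟩,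
    ⟨|c.im| + 1, fun z hz => ⟨(hd z).differentiableAt, fun h0 => ?_⟩⟩⟩
  · have h1 := hn z hz
    rw [logDeriv_apply, (hd z).deriv, zero_mul, Complex.ofReal_zero, sub_zero, norm_div, norm_one,
      div_le_one (by linarith)]
    exact h1
  · have h1 := hn z hz
    have h0' : z + c = 0 := h0
    rw [h0', norm_zero] at h1
    linarith

/-- the full gamma factor, centred -/
lemma GA.full {m r : ℕ} {N : ℝ} (hN : 0 < N) (a : Fin m → ℂ) :
    GA ((m : ℝ) / 2) (fun z => ((1 / 2 + z) * (1 / 2 + z - 1)) ^ r *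
      ((N : ℂ) ^ ((1 / 2 + z) / 2) * ∏ j, Gammaℝ (1 / 2 + z + a j))) := by
  have h1 : GA 0 (fun z : ℂ => (1 / 2 + z) * (1 / 2 + z - 1)) := by
    have := (GA.lin (1 / 2)).mul (GA.lin (1 / 2 - 1))
    rw [add_zero] at this
    convert this using 2 with z
    ring
  have h2 := h1.pow r
  rw [mul_zero] at h2
  have h3 := GA.cond hN (1 / 2)
  have h4 := GA.prod Finset.univ (k := fun _ : Fin m => (1 / 2 : ℝ))
    (g := fun j z => Gammaℝ (z + (1 / 2 + a j))) (fun j => GA.gamma _)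
  rw [Finset.sum_const, Finset.card_univ, Fintype.card_fin, nsmul_eq_mul] at h4
  have h5 := h2.mul (h3.mul h4)
  have e1 : (0 : ℝ) + (0 + (m : ℝ) * (1 / 2)) = (m : ℝ) / 2 := by ring
  rw [e1] at h5
  convert h5 using 2 with z
  congr 1
  congr 1
  · congr 2; ring
  · refine Finset.prod_congr rfl fun j _ => ?_
    congr 1; ring

end Pool.Agent.K3h84.DL
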