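import Pool.Agent.K3h84.DL.Rw
import Pool.Agent.K3h84.DL.Fin2

set_option autoImplicit false

/-! # L-functions with control to the right of `Re s = 1` -/

open Complex Filter Topology Set
open scoped ComplexConjugate

namespace Pool.Agent.K3h84.DL

open Pool.Agent.W169.HF (Slow)

/-- `X` is the centred completed function of the entire L-function `L` (critical line `Re s = 1/2`) with the
real gamma factor `g` -/
structure LD (m : ℝ) (g X L : ℂ → ℂ) : Prop where
  ga : GA (m / 2) g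
  gre : ∀ z : ℂ, g (conj z) = conj (g z)
  gne : ∀ z : ℂ, z.im ≠ 0 ∨ 1 / 2 < z.re → g z ≠ 0
  slow : Slow X
  fe : ∃ ε : ℂ, ‖ε‖ = 1 ∧ ∀ z : ℂ, X z = ε * conj (X (-conj z))
  rc : RC L
  diff : Differentiable ℂ L
  eq : ∀ z : ℂ, z.im ≠ 0 ∨ 1 / 2 < z.re → X z = g z * L (1 / 2 + z)

variable {m m1 m2 : ℝ} {g X L g1 X1 L1 g2 X2 L2 : ℂ → ℂ}

lemma slow_mul {f h : ℂ → ℂ} (hf : Slow f) (hh : Slow h) : Slow (fun z => f z * h z) := by
  refine ⟨hf.1.mul hh.1, fun δ hδ => ?_⟩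
  obtain ⟨K1, hK1, h1⟩ := hf.2 (δ / 2) (by linarith)
  obtain ⟨K2, hK2, h2⟩ := hh.2 (δ / 2) (by linarith)
  refine ⟨K1 * K2, by positivity, fun z => ?_⟩
  rw [norm_mul]
  calc ‖f z‖ * ‖h z‖ ≤ (K1 * Real.exp (δ / 2 * ‖z‖ ^ 2)) * (K2 * Real.exp (δ / 2 * ‖z‖ ^ 2)) := by
        have := h1 z
        have := h2 z
        gcongr
    _ = K1 * K2 * (Real.exp (δ / 2 * ‖z‖ ^ 2) * Real.exp (δ / 2 * ‖z‖ ^ 2)) := by ring
    _ = _ := by rw [← Real.exp_add]; congr 2; ring

lemma LD.mul (h1 : LD m1 g1 X1 L1) (h2 : LD m2 g2 X2 L2) :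
    LD (m1 + m2) (fun z => g1 z * g2 z) (fun z => X1 z * X2 z) (fun z => L1 z * L2 z) := by
  refine ⟨?_, fun z => ?_, fun z hz => mul_ne_zero (h1.gne z hz) (h2.gne z hz), slow_mul h1.slow h2.slow,
    ?_, h1.rc.mul h2.rc, h1.diff.mul h2.diff, fun z hz => ?_⟩
  · rw [add_div]
    exact h1.ga.mul h2.ga
  · rw [h1.gre, h2.gre, map_mul]
  · obtain ⟨a, ha, ha2⟩ := h1.fe
    obtain ⟨b, hb, hb2⟩ := h2.fe
    refine ⟨a * b, by rw [norm_mul, ha, hb, one_mul], fun z => ?_⟩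
    show X1 z * X2 z = a * b * conj (X1 (-conj z) * X2 (-conj z))
    rw [map_mul, ha2 z, hb2 z]
    ring
  · show X1 z * X2 z = _
    rw [h1.eq z hz, h2.eq z hz]
    ring

lemma slow_one : Slow (fun _ : ℂ => (1 : ℂ)) := by
  refine ⟨differentiable_const _, fun δ hδ => ⟨1, one_pos, fun z => ?_⟩⟩
  rw [norm_one, one_mul]
  exact Real.one_le_exp (by positivity)

lemma LD.one : LD 0 (fun _ => 1) (fun _ => 1) (fun _ => 1) := by
  refine ⟨?_, fun z => by simp, fun z _ => one_ne_zero, slow_one, ⟨1, norm_one, fun z => by simp⟩, RC.one,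
    differentiable_const _, fun z _ => by simp⟩
  rw [zero_div]
  exact GA.one

lemma LD.prod {ι : Type} (S : Finset ι) {m : ι → ℝ} {g X L : ι → ℂ → ℂ} (h : ∀ i, LD (m i) (g i) (X i) (L i)) :
    LD (∑ i ∈ S, m i) (fun z => ∏ i ∈ S, g i z) (fun z => ∏ i ∈ S, X i z) (fun z => ∏ i ∈ S, L i z) := by
  classical
  induction S using Finset.induction_on with
  | empty => simpa using LD.one
  | insert a S ha ih =>
    simp only [Finset.sum_insert ha, Finset.prod_insert ha]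
    exact (h a).mul ih

lemma RC.dual (h : RC L) : RC (dl L) := by
  intro ρ hρ
  obtain ⟨B, hB, h⟩ := h ρ hρ
  refine ⟨B, hB, fun s hs => ?_⟩
  obtain ⟨a1, a2, a3, a4, a5⟩ := h (conj s) (by rw [Complex.conj_re]; exact hs)
  have hd : HasDerivAt (dl L) (conj (deriv L (conj s))) s := by
    have := a1.hasDerivAt.conj_conj
    rw [Complex.conj_conj] at this
    exact this
  refine ⟨hd.differentiableAt, (map_ne_zero _).2 a2, ?_, ?_, ?_⟩
  · rw [logDeriv_apply, hd.deriv, dl, ← map_div₀, RCLike.norm_conj, ← logDeriv_apply]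
    exact a3
  · rw [dl, RCLike.norm_conj]; exact a4
  · rw [dl, RCLike.norm_conj]; exact a5

lemma LD.dual (h : LD m g X L) : LD m g (dl X) (dl L) := by
  refine ⟨h.ga, h.gre, h.gne, ⟨?_, fun δ hδ => ?_⟩, ?_, h.rc.dual, ?_, fun z hz => ?_⟩
  · intro z
    have := (h.slow.1 (conj z)).hasDerivAt.conj_conj
    rw [Complex.conj_conj] at this
    exact this.differentiableAt
  · obtain ⟨K, hK, hs⟩ := h.slow.2 δ hδ
    refine ⟨K, hK, fun z => ?_⟩
    rw [dl, RCLike.norm_conj]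
    have := hs (conj z)
    rwa [RCLike.norm_conj] at this
  · obtain ⟨ε, hε, hfe⟩ := h.fe
    refine ⟨conj ε, by rw [RCLike.norm_conj]; exact hε, fun z => ?_⟩
    have h1 := congrArg conj (hfe (conj z))
    rw [map_mul] at h1
    show conj (X (conj z)) = conj ε * conj (conj (X (conj (-conj z))))
    rw [h1, map_neg]
  · intro z
    have := (h.diff (conj z)).hasDerivAt.conj_conj
    rw [Complex.conj_conj] at this
    exact this.differentiableAt
  · have h1 := h.eq (conj z) (by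
      rw [Complex.conj_im, Complex.conj_re]
      rcases hz with hz | hz
      · left; exact neg_ne_zero.2 hz
      · right; exact hz)
    have h2 := congrArg conj h1
    rw [map_mul] at h2
    show conj (X (conj z)) = g z * conj (L (conj (1 / 2 + z)))
    rw [h2, h.gre, Complex.conj_conj, map_add, map_div₀, map_one, map_ofNat]

lemma LD.cd (h : LD m g X L) (hm : 0 < m) : CD m g X := by
  obtain ⟨hg1, Tg, hg2⟩ := h.ga
  refine ⟨hm, hg1, ⟨Tg, hg2⟩, ⟨h.slow.1, fun δ hδ => h.slow.2 δ hδ⟩, h.fe, ?_⟩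
  intro ρ hρ
  obtain ⟨B, hB, hE⟩ := h.rc ρ hρ
  refine ⟨B, max (Tg + 1) 1, hB, fun z hz hz2 => ?_⟩
  have u1 : Tg + 1 ≤ z.im := (le_max_left _ _).trans hz
  have u2 : 1 ≤ z.im := (le_max_right _ _).trans hz
  have w3 : 1 + ρ ≤ (1 / 2 + z).re := by simp; linarith
  obtain ⟨e0, e1, e2, e3, e4⟩ := hE (1 / 2 + z) w3
  have hX : ∀ w : ℂ, 0 < w.im → X w / g w = L (1 / 2 + w) := by
    intro w hw
    have hw' : w.im ≠ 0 := hw.ne'
    rw [h.eq w (Or.inl hw'), mul_div_cancel_left₀ _ (h.gne w (Or.inl hw'))]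
  have hXz := hX z (by linarith)
  refine ⟨?_, ?_, ?_, ?_⟩
  · rw [hXz]; exact e1
  · have hev : (fun w => X w / g w) =ᶠ[𝓝 z] fun w => L (1 / 2 + w) := by
      have o1 : IsOpen {w : ℂ | 0 < w.im} := isOpen_lt continuous_const Complex.continuous_im
      filter_upwards [o1.mem_nhds (show (0 : ℝ) < z.im by linarith)] with w hw1
      exact hX w hw1
    have h3 : logDeriv (fun w => X w / g w) z = logDeriv L (1 / 2 + z) := by
      rw [logDeriv_apply, logDeriv_apply, hev.deriv_eq, hev.eq_of_nhds, deriv_comp_const_add]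
    rw [h3]; exact e2
  · rw [hXz]; exact e3
  · rw [hXz]; exact e4

lemma LD.far (h : LD m g X L) {z : ℂ} (hz : 1 / 2 < z.re) : X z ≠ 0 := by
  rw [h.eq z (Or.inr hz)]
  refine mul_ne_zero (h.gne z (Or.inr hz)) ?_
  obtain ⟨B, -, hB⟩ := h.rc (z.re - 1 / 2) (by linarith)
  exact (hB (1 / 2 + z) (by simp; linarith)).2.1

/-- the data in the upper half-plane; the critical line `Re s = 1/2` is moved to `Re s = x` -/
lemma LD.hf (h : LD m g X L) (hm : 0 < m) {x : ℝ} {L' : ℂ → ℂ}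
    (hL' : ∀ z : ℂ, L' (x + z) = L (1 / 2 + z)) : HF m x (fun z => X z / g z) L' := by
  have hcd := h.cd hm
  have hX : ∀ w : ℂ, 0 < w.im → X w / g w = L (1 / 2 + w) := by
    intro w hw
    have hw' : w.im ≠ 0 := hw.ne'
    rw [h.eq w (Or.inl hw'), mul_div_cancel_left₀ _ (h.gne w (Or.inl hw'))]
  refine ⟨hcd.rd, ⟨1, fun z hz => ?_⟩, fun hL => ?_⟩
  · rw [hL', hX z (by linarith)]
  · refine hcd.lh fun ε hε => ?_
    obtain ⟨T, hT⟩ := hL ε hε
    refine ⟨max T 1, fun t ht => ?_⟩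
    have h1 := hT t ((le_max_left _ _).trans ht)
    have h2 : (1 : ℝ) ≤ t := (le_max_right _ _).trans ht
    rw [hL'] at h1
    rw [hX (I * t) (by simp; linarith), mul_comm I]
    exact h1

/-- **the final data** -/
theorem LD.f2 (h : LD m g X L) (hm : 0 < m) {x : ℝ} {L' Λ : ℂ → ℂ}
    (hL' : ∀ z : ℂ, L' (x + z) = L (1 / 2 + z)) {v : ℂ} (hv : v ≠ 0)
    (hΛ : ∀ z : ℂ, Λ (x + z) = v * X z) (hd : Differentiable ℂ Λ) : F2 m x L' Λ := by
  refine ⟨⟨_, h.hf hm hL'⟩, ⟨_, h.dual.hf hm (L' := dl L') fun z => ?_⟩, ⟨1, fun s hs => ?_⟩, hd,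
    fun s hs => ?_⟩
  · have e1 : conj ((x : ℂ) + z) = x + conj z := by rw [map_add, Complex.conj_ofReal]
    have e2 : conj ((1 / 2 : ℂ) + z) = 1 / 2 + conj z := by
      rw [map_add, map_div₀, map_one, map_ofNat]
    show conj (L' (conj (x + z))) = conj (L (conj (1 / 2 + z)))
    rw [e1, e2, hL']
  · have him : (s - (x : ℂ)).im ≠ 0 := by
      rw [Complex.sub_im, Complex.ofReal_im, sub_zero]
      intro h0; rw [h0, abs_zero] at hs; linarith
    have e1 : (x : ℂ) + (s - x) = s := by ring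
    have a1 := hL' (s - x)
    have a2 := hΛ (s - x)
    rw [e1] at a1 a2
    rw [a1, a2, h.eq _ (Or.inl him)]
    have h3 := h.gne _ (Or.inl him)
    simp [hv, h3]
  · have e1 : (x : ℂ) + (s - x) = s := by ring
    have a2 := hΛ (s - x)
    rw [e1] at a2
    rw [a2]
    refine mul_ne_zero hv (h.far ?_)
    rw [Complex.sub_re, Complex.ofReal_re]; linarith

end Pool.Agent.K3h84.DL
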