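import Pool.Agent.K3h84.DL.GRl
import Pool.Agent.H986R2.K4.LR
import Pool.Agent.H986R2.K4.Conv

set_option autoImplicit false

namespace Pool.Agent.K3h84.DL

open Complex Filter Topology MeasureTheory Set
open scoped ComplexConjugate
open Pool.Agent.H986R2.K4 (lr)
open Pool.Agent.H986R2.K4.ConvAux (fact' grow ballRe)

variable {m : ℝ} {f Ψ : ℂ → ℂ}

lemma low (h : RD m f Ψ) (r' r1 y : ℝ) (hr'0 : 0 < r') (h2 : r' ≤ r1) (h3 : r1 < y) (hy : y ≤ 1 / 2)
    (h50 : y ≤ 50 * r') (η0 ε : ℝ) (hη0 : 0 < η0) (hη0' : η0 ≤ (y - r1) / 16) (hε : 0 < ε) :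
    ∃ K T0 : ℝ, 2 ≤ T0 ∧ 1 ≤ K ∧ ∀ (T : ℝ) (n : ℕ) (xp : ℝ), T0 ≤ T → r' * (m * Real.log T) ≤ n →
      (n : ℝ) ≤ r1 * (m * Real.log T) →
      (∀ z : ℂ, |z.im - T| ≤ 20 → 0 < z.re → z.re ≤ z.im / 8 → iteratedDeriv n (fl f) z ≠ 0) →
      y - (y - r1) / 8 ≤ xp → xp ≤ y + (y - r1) / 8 →
      Real.exp (-(ε * n)) * T ^ (-ε) * Real.exp (m * Real.log T * xp - K) ≤
        ‖∫ v in (0 : ℝ)..(xp - 2 * η0), iteratedDeriv n (fl f) ((I * T + xp) - v) *
          ((v : ℂ) ^ (n - 1) / ((n - 1).factorial : ℂ))‖ := by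
  have hm := h.hm
  have hg0 : 0 < y - r1 := by linarith
  obtain ⟨η, n0, hη, hn0, hLR⟩ := lr ε η0 (y - r1) hε hη0 (by linarith) hg0
  obtain ⟨T1, hT1, hGR⟩ := gr h r' r1 η0 (min η ε) hr'0 h2 (by linarith) hη0 (by linarith)
    (lt_min hη hε)
  obtain ⟨K, T2, hK, hT2, ha1, ha2, ha3⟩ := h.all
  refine ⟨K + 1, max (max T1 (T2 + 2)) (Real.exp ((n0 + 1) / (r' * m))), ?_, by linarith, ?_⟩
  · exact le_trans hT1 (le_trans (le_max_left _ _) (le_max_left _ _))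
  intro T n xp hT hn1 hn2 hz hx1 hx2
  have hTT1 : T1 ≤ T := le_trans (le_trans (le_max_left _ _) (le_max_left _ _)) hT
  have hTT2 : T2 + 2 ≤ T := le_trans (le_trans (le_max_right _ _) (le_max_left _ _)) hT
  have hTT3 : Real.exp ((n0 + 1) / (r' * m)) ≤ T := le_trans (le_max_right _ _) hT
  have hT0 : 0 < T := by linarith
  have hT1' : 1 ≤ T := by linarith
  have hlog : (n0 + 1) / (r' * m) ≤ Real.log T := by rwa [Real.le_log_iff_exp_le hT0]
  obtain ⟨Ω, hΩ⟩ : ∃ Ω, Ω = m * Real.log T := ⟨_, rfl⟩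
  have hn1o := hn1
  have hn2o := hn2
  rw [← hΩ] at hn1 hn2 ⊢
  have hn0' : (n0 : ℝ) + 1 ≤ n := by
    refine le_trans ?_ hn1
    rw [div_le_iff₀ (by positivity)] at hlog
    rw [hΩ]
    linarith
  have hnn0 : n0 ≤ n := by
    have : (n0 : ℝ) ≤ n := by linarith
    exact_mod_cast this
  have hn1' : 1 ≤ n := le_trans hn0 hnn0
  have hnpos : (0 : ℝ) < n := by exact_mod_cast hn1'
  have hOm : 0 < Ω := by
    by_contra hcon
    rw [not_lt] at hcon
    have : r1 * Ω ≤ 0 := mul_nonpos_of_nonneg_of_nonpos (by linarith) hcon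
    linarith
  obtain ⟨r, hr⟩ : ∃ r : ℝ, r = n / Ω := ⟨_, rfl⟩
  have hrOm : r * Ω = n := by rw [hr]; field_simp
  have hr0 : 0 < r := by rw [hr]; positivity
  have hrr' : r' ≤ r := by rw [hr, le_div_iff₀ hOm]; exact hn1
  have hrr1 : r ≤ r1 := by rw [hr, div_le_iff₀ hOm]; exact hn2
  obtain ⟨g, hg⟩ : ∃ g, g = iteratedDeriv n (fl f) := ⟨_, rfl⟩
  rw [← hg]
  obtain ⟨x, hx⟩ : ∃ x : ℝ, x = xp - 2 * η0 := ⟨_, rfl⟩
  rw [← hx]
  obtain ⟨Y, hY⟩ : ∃ Y : ℝ, Y = x / r := ⟨_, rfl⟩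
  have hrY : r * Y = x := by rw [hY]; field_simp
  have hx0 : r1 + 3 / 4 * (y - r1) ≤ x := by rw [hx]; linarith
  have hY1 : 1 + (y - r1) ≤ Y := by
    rw [hY, le_div_iff₀ hr0]
    nlinarith
  have hY2 : Y ≤ 100 := by
    rw [hY, div_le_iff₀ hr0]
    nlinarith
  obtain ⟨F, hF⟩ : ∃ F : ℂ → ℂ, F = fun y => g ((I * T + xp) - r * y) := ⟨_, rfl⟩
  have hFapp : ∀ w, F w = g ((I * T + xp) - r * w) := fun w => by rw [hF]
  -- the control
  have hctl : ∀ u : ℂ, η0 ≤ u.re → u.re ≤ 1 → |u.im| ≤ 1 → DifferentiableAt ℂ g (I * T + u) ∧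
      g (I * T + u) ≠ 0 ∧
      ‖logDeriv g (I * T + u) - (Ω : ℂ)‖ ≤ min η ε * Ω ∧
      T ^ (-(min η ε)) * (Ω ^ n * ‖Ψ (I * T + u)‖) ≤ ‖g (I * T + u)‖ := by
    intro u h1 h2 h3
    have := hGR T n hTT1 hn1o hn2o hz u h1 h2 h3
    rw [← hg, ← hΩ] at this
    exact this
  have key := hLR n Y F hnn0 hY1 hY2 (by
    intro y' hy0 hyY w hw
    have hw' : ‖w - y'‖ < η0 := by simpa [dist_eq_norm] using hw
    have hre : |w.re - y'| < η0 := by
      have := abs_re_le_norm (w - y')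
      simp only [sub_re, ofReal_re] at this
      linarith
    have him : |w.im| < η0 := by
      have := abs_im_le_norm (w - y')
      simp only [sub_im, ofReal_im, sub_zero] at this
      linarith
    have hre' := abs_lt.1 hre
    have e1 : (I * T + xp) - r * w = I * T + ((xp : ℂ) - r * w) := by ring
    have hure : ((xp : ℂ) - r * w).re = xp - r * w.re := by simp
    have huim : ((xp : ℂ) - r * w).im = -(r * w.im) := by simp
    have hry : r * y' ≤ x := by rw [← hrY]; gcongr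
    have hry0 : 0 ≤ r * y' := by positivity
    have hr12 : r ≤ 1 / 2 := by linarith
    have c1 : η0 ≤ ((xp : ℂ) - r * w).re := by
      rw [hure]
      nlinarith
    have c2 : ((xp : ℂ) - r * w).re ≤ 1 := by
      rw [hure]
      nlinarith
    have c3 : |((xp : ℂ) - r * w).im| ≤ 1 := by
      rw [huim, abs_neg, abs_mul, abs_of_pos hr0]
      nlinarith [abs_nonneg w.im]
    obtain ⟨d0, d1, d2, -⟩ := hctl _ c1 c2 c3
    rw [← e1] at d0
    have hFd : HasDerivAt F (deriv g ((I * T + xp) - r * w) * (-(r : ℂ))) w := by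
      have h0 : HasDerivAt (fun y : ℂ => (I * T + xp) - r * y) (-(r : ℂ)) w := by
        simpa using ((hasDerivAt_id w).const_mul (r : ℂ)).const_sub (I * T + xp)
      rw [hF]
      exact HasDerivAt.comp w d0.hasDerivAt h0
    refine ⟨hFd.differentiableAt, ?_, ?_⟩
    · rw [hFapp, e1]; exact d1
    · have e2 : logDeriv F w + n = -(r : ℂ) * (logDeriv g (I * T + ((xp : ℂ) - r * w)) - (Ω : ℂ)) := by
        rw [logDeriv_apply, logDeriv_apply, hFd.deriv, ← e1, hFapp]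
        have e3 : (n : ℂ) = (r : ℂ) * (Ω : ℂ) := by
          rw [← ofReal_mul, hrOm]; simp
        rw [e3]
        ring
      rw [e2, norm_mul, norm_neg, norm_real, Real.norm_eq_abs, abs_of_pos hr0]
      calc r * ‖logDeriv g (I * T + ((xp : ℂ) - r * w)) - (Ω : ℂ)‖ ≤ r * (min η ε * Ω) := by
            gcongr
        _ = min η ε * n := by rw [← hrOm]; ring
        _ ≤ η * n := by gcongr; exact min_le_left _ _)
  -- value at 1
  have hF1 : T ^ (-ε) * (Ω ^ n * Real.exp (Ω * (xp - r) - K)) ≤ ‖F 1‖ := by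
    have e1 : F 1 = g (I * T + ((xp - r : ℝ) : ℂ)) := by
      rw [hFapp]
      congr 1
      push_cast
      ring
    have hxr : x ≤ xp := by rw [hx]; linarith
    obtain ⟨-, -, -, d3⟩ := hctl ((xp - r : ℝ) : ℂ) (by
      rw [ofReal_re]; linarith) (by rw [ofReal_re]; linarith) (by simp)
    rw [e1]
    refine le_trans ?_ d3
    have i1 : (I * (T : ℂ) + ((xp - r : ℝ) : ℂ)).im = T := by simp
    have i2 : (I * (T : ℂ) + ((xp - r : ℝ) : ℂ)).re = xp - r := by simp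
    have hxr1 : |xp - r| ≤ 1 := by rw [abs_le]; constructor <;> linarith
    have b4 := (ha3 (I * (T : ℂ) + ((xp - r : ℝ) : ℂ)) (by rw [i1]; linarith) (by
      rw [i1, i2]; linarith)).1
    rw [i1, i2] at b4
    have hpow : T ^ (-ε) ≤ T ^ (-(min η ε)) :=
      Real.rpow_le_rpow_of_exponent_le hT1' (by simpa using min_le_right η ε)
    have hTe : 0 ≤ T ^ (-ε) := Real.rpow_nonneg hT0.le _
    have b5 : Real.exp (Ω * (xp - r) - K) ≤ ‖Ψ (I * (T : ℂ) + ((xp - r : ℝ) : ℂ))‖ := by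
      refine le_trans (Real.exp_le_exp.2 ?_) b4
      have : K * |xp - r| ≤ K * 1 := by gcongr
      rw [hΩ]
      linarith
    gcongr
  -- substitution
  have hsub : ‖∫ v in (0 : ℝ)..x, g ((I * T + xp) - v) * ((v : ℂ) ^ (n - 1) / ((n - 1).factorial : ℂ))‖ =
      r ^ n / ((n - 1).factorial : ℝ) * ‖∫ y in (0 : ℝ)..Y, F y * (y : ℂ) ^ (n - 1)‖ := by
    have e1 := intervalIntegral.smul_integral_comp_mul_left (a := 0) (b := Y)
      (fun v : ℝ => g ((I * T + xp) - v) * ((v : ℂ) ^ (n - 1) / ((n - 1).factorial : ℂ))) r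
    rw [mul_zero, hrY] at e1
    rw [← e1]
    have e2 : ∀ y : ℝ, g ((I * T + xp) - ((r * y : ℝ) : ℂ)) *
        (((r * y : ℝ) : ℂ) ^ (n - 1) / ((n - 1).factorial : ℂ)) =
        ((r ^ (n - 1) / ((n - 1).factorial : ℝ) : ℝ) : ℂ) * (F y * (y : ℂ) ^ (n - 1)) := by
      intro y
      rw [hF]
      push_cast
      rw [mul_pow]
      ring
    simp_rw [e2]
    rw [intervalIntegral.integral_const_mul, norm_smul, norm_mul, norm_real, Real.norm_eq_abs,
      Real.norm_eq_abs, abs_of_pos hr0, abs_of_nonneg (by positivity), ← mul_assoc]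
    congr 1
    rw [← mul_div_assoc]
    congr 1
    rw [← pow_succ']
    congr 1
    omega
  rw [hsub]
  have hfac := fact' n hn1'
  have hf : (0 : ℝ) < ((n - 1).factorial : ℝ) := by exact_mod_cast Nat.factorial_pos _
  have hTe : 0 ≤ T ^ (-ε) := Real.rpow_nonneg hT0.le _
  calc Real.exp (-(ε * n)) * T ^ (-ε) * Real.exp (Ω * xp - (K + 1))
      = Real.exp (-1) * (Real.exp (-(ε * n)) * T ^ (-ε) * Real.exp (Ω * xp - K)) := by
        have : Real.exp (Ω * xp - (K + 1)) = Real.exp (-1) * Real.exp (Ω * xp - K) := by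
          rw [← Real.exp_add]; congr 1; ring
        rw [this]; ring
    _ ≤ ((n : ℝ) ^ n * Real.exp (-n) / ((n - 1).factorial : ℝ)) *
        (Real.exp (-(ε * n)) * T ^ (-ε) * Real.exp (Ω * xp - K)) := by
        gcongr
    _ = r ^ n / ((n - 1).factorial : ℝ) * (Real.exp (-(ε * n)) *
        (T ^ (-ε) * (Ω ^ n * Real.exp (Ω * (xp - r) - K)))) := by
        have e1 : Real.exp (Ω * (xp - r) - K) = Real.exp (-n) * Real.exp (Ω * xp - K) := by
          rw [← Real.exp_add, ← hrOm]; congr 1; ring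
        have e2 : (n : ℝ) ^ n = r ^ n * Ω ^ n := by rw [← mul_pow, hrOm]
        rw [e1, e2]
        ring
    _ ≤ r ^ n / ((n - 1).factorial : ℝ) * (Real.exp (-(ε * n)) * ‖F 1‖) := by gcongr
    _ ≤ _ := by gcongr

/-- growth to the left of the controlled region: exponent `β` -/
def Gr (m : ℝ) (f : ℂ → ℂ) (β y : ℝ) : Prop := ∃ e0 : ℝ, 0 < e0 ∧ ∀ e : ℝ, 0 < e → e ≤ e0 →
  ∀ ε : ℝ, 0 < ε → ∃ T : ℝ, ∀ w : ℂ, T ≤ w.im → |w.re| ≤ y - e →
    ‖fl f w‖ ≤ w.im ^ (m * (y - β * e) + ε)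

/-- no zeros of the derivatives of order `≥ r' m log t` -/
def NZ (m : ℝ) (f : ℂ → ℂ) (r' : ℝ) : Prop := ∃ T0 : ℝ, ∀ (z : ℂ) (n : ℕ), T0 ≤ z.im → 0 < z.re →
  z.re ≤ z.im / 8 → r' * (m * Real.log z.im) ≤ n → (n : ℝ) ≤ z.im → iteratedDeriv n (fl f) z ≠ 0

end Pool.Agent.K3h84.DL
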