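import Pool.Agent.K3h84.DL.Gam
import Pool.Agent.TH839.UH.EP

set_option autoImplicit false

/-! # L-functions with an Euler product of degree `m` -/

namespace Pool.Agent.K3h84.DL

open Complex Filter Topology MeasureTheory Set
open scoped ComplexConjugate
open Pool.Agent.TH839.UH.EP (u F LG E p0)

variable {m r : ℕ} {N : ℝ} {a : Fin m → ℂ} {α : Nat.Primes → Fin m → ℂ} {X : ℂ → ℂ}

/-- local roots at most `√p`, and at most `1` for `p ≥ M` -/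
def RT (α : Nat.Primes → Fin m → ℂ) (M : ℕ) : Prop := 1 ≤ M ∧ (∀ p j, ‖α p j‖ ≤ ((p : ℕ) : ℝ) ^ (1 / 2 : ℝ)) ∧
  ∀ p : Nat.Primes, M ≤ (p : ℕ) → ∀ j, ‖α p j‖ ≤ 1

lemma u_le {M : ℕ} (h : RT α M) {ρ : ℝ} (hρ : 0 < ρ) (p : Nat.Primes) (j : Fin m) {s : ℂ}
    (hs : 1 + ρ ≤ s.re) : ‖u α p j s‖ ≤ M * ((p : ℕ) : ℝ) ^ (-(1 + ρ)) ∧ ‖u α p j s‖ ≤ 3 / 4 := by
  obtain ⟨hM, h1, h2⟩ := h
  have hp2 : (2 : ℝ) ≤ ((p : ℕ) : ℝ) := by exact_mod_cast p.2.two_le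
  have hp0 : (0 : ℝ) < ((p : ℕ) : ℝ) := by linarith
  have hM1 : (1 : ℝ) ≤ M := by exact_mod_cast hM
  have hu : ‖u α p j s‖ = ‖α p j‖ * ((p : ℕ) : ℝ) ^ (-s.re) := by
    unfold u
    rw [norm_mul, Complex.norm_natCast_cpow_of_pos p.2.pos, neg_re]
  have hps : ((p : ℕ) : ℝ) ^ (-s.re) ≤ ((p : ℕ) : ℝ) ^ (-(1 + ρ)) :=
    Real.rpow_le_rpow_of_exponent_le (by linarith) (by linarith)
  constructor
  · rw [hu]
    have hα : ‖α p j‖ ≤ M := by
      by_cases hc : M ≤ (p : ℕ)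
      · exact (h2 p hc j).trans hM1
      · rw [not_le] at hc
        refine (h1 p j).trans ?_
        have h3 : ((p : ℕ) : ℝ) ≤ M := by exact_mod_cast hc.le
        calc ((p : ℕ) : ℝ) ^ (1 / 2 : ℝ) ≤ ((p : ℕ) : ℝ) ^ (1 : ℝ) :=
              Real.rpow_le_rpow_of_exponent_le (by linarith) (by norm_num)
          _ = ((p : ℕ) : ℝ) := Real.rpow_one _
          _ ≤ M := h3
    gcongr
  · rw [hu]
    have h3 : ‖α p j‖ * ((p : ℕ) : ℝ) ^ (-s.re) ≤ ((p : ℕ) : ℝ) ^ (-(1 / 2) : ℝ) := by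
      calc ‖α p j‖ * ((p : ℕ) : ℝ) ^ (-s.re) ≤
            ((p : ℕ) : ℝ) ^ (1 / 2 : ℝ) * ((p : ℕ) : ℝ) ^ (-s.re) := by
            gcongr; exact h1 p j
        _ = ((p : ℕ) : ℝ) ^ (1 / 2 + -s.re) := (Real.rpow_add hp0 _ _).symm
        _ ≤ _ := Real.rpow_le_rpow_of_exponent_le (by linarith) (by linarith)
    refine h3.trans ?_
    have h4 : ((p : ℕ) : ℝ) ^ (-(1 / 2) : ℝ) ≤ (2 : ℝ) ^ (-(1 / 2) : ℝ) :=
      Real.rpow_le_rpow_of_nonpos (by norm_num) hp2 (by norm_num)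
    refine h4.trans ?_
    have h5 : (2 : ℝ) ^ (-(1 / 2) : ℝ) = (Real.sqrt 2)⁻¹ := by
      rw [Real.rpow_neg (by norm_num), Real.sqrt_eq_rpow]
    rw [h5, inv_le_comm₀ (Real.sqrt_pos.2 (by norm_num)) (by norm_num)]
    have h6 : (4 / 3 : ℝ) ≤ Real.sqrt 2 := Real.le_sqrt_of_sq_le (by norm_num)
    refine le_trans ?_ h6
    norm_num

lemma log_le4 {z : ℂ} (hz : ‖z‖ ≤ 3 / 4) : ‖log (1 + z)‖ ≤ 3 * ‖z‖ := by
  have h1 := Complex.norm_log_one_add_le (z := z) (by linarith)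
  have h2 : (1 - ‖z‖)⁻¹ ≤ 4 := by
    rw [inv_le_comm₀ (by linarith) (by norm_num)]
    norm_num
    linarith
  have h3 := norm_nonneg z
  have h4 : ‖z‖ ^ 2 * (1 - ‖z‖)⁻¹ / 2 ≤ 2 * ‖z‖ := by
    have h5 : ‖z‖ ^ 2 * (1 - ‖z‖)⁻¹ ≤ ‖z‖ ^ 2 * 4 := by gcongr
    nlinarith
  linarith

lemma one_add_ne4 {z : ℂ} (hz : ‖z‖ ≤ 3 / 4) : 1 + z ≠ 0 := by
  intro h
  have h1 : z = -1 := by linear_combination h
  rw [h1, norm_neg, norm_one] at hz
  norm_num at hz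

lemma slit4 {z : ℂ} (hz : ‖z‖ ≤ 3 / 4) : 1 + z ∈ slitPlane := by
  rw [mem_slitPlane_iff]
  left
  rw [add_re, one_re]
  have := (abs_le.1 (Complex.abs_re_le_norm z)).1
  linarith

lemma F_le {M : ℕ} (h : RT α M) {ρ : ℝ} (hρ : 0 < ρ) (p : Nat.Primes) {s : ℂ}
    (hs : 1 + ρ ≤ s.re) : ‖F α p s‖ ≤ m * (3 * M) * ((p : ℕ) : ℝ) ^ (-(1 + ρ)) := by
  unfold F
  have h1 : ∀ j : Fin m, ‖-log (1 + -u α p j s)‖ ≤ 3 * M * ((p : ℕ) : ℝ) ^ (-(1 + ρ)) := by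
    intro j
    obtain ⟨a1, a2⟩ := u_le h hρ p j hs
    have h2 := log_le4 (z := -u α p j s) (by rw [norm_neg]; exact a2)
    rw [norm_neg] at h2 ⊢
    linarith
  refine (norm_sum_le _ _).trans ((Finset.sum_le_sum fun j _ => h1 j).trans (le_of_eq ?_))
  rw [Finset.sum_const, Finset.card_univ, Fintype.card_fin, nsmul_eq_mul]
  ring

lemma p_sum {ρ : ℝ} (hρ : 0 < ρ) : Summable fun p : Nat.Primes => ((p : ℕ) : ℝ) ^ (-(1 + ρ)) :=
  Nat.Primes.summable_rpow.2 (by linarith)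

lemma LG_sum {M : ℕ} (h : RT α M) {ρ : ℝ} (hρ : 0 < ρ) {s : ℂ} (hs : 1 + ρ ≤ s.re) :
    Summable fun p : Nat.Primes => F α p s :=
  Summable.of_norm_bounded ((p_sum hρ).mul_left ((m : ℝ) * (3 * M))) fun p => F_le h hρ p hs

/-- the bound for the logarithm -/
noncomputable def B1 (m M : ℕ) (ρ : ℝ) : ℝ := (m : ℝ) * (3 * M) * ∑' p : Nat.Primes, ((p : ℕ) : ℝ) ^ (-(1 + ρ))

lemma B1_nonneg (m M : ℕ) (ρ : ℝ) : 0 ≤ B1 m M ρ := by
  unfold B1
  have : 0 ≤ ∑' p : Nat.Primes, ((p : ℕ) : ℝ) ^ (-(1 + ρ)) :=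
    tsum_nonneg fun p => Real.rpow_nonneg (Nat.cast_nonneg _) _
  positivity

lemma LG_le {M : ℕ} (h : RT α M) {ρ : ℝ} (hρ : 0 < ρ) {s : ℂ} (hs : 1 + ρ ≤ s.re) :
    ‖LG α s‖ ≤ B1 m M ρ := by
  unfold LG B1
  refine (tsum_of_norm_bounded ((p_sum hρ).mul_left ((m : ℝ) * (3 * M))).hasSum
    fun p => F_le h hρ p hs).trans ?_
  rw [tsum_mul_left]

lemma LG_diff {M : ℕ} (h : RT α M) {ρ : ℝ} (hρ : 0 < ρ) :
    DifferentiableOn ℂ (LG α) {s : ℂ | 1 + ρ < s.re} := by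
  have hopen : IsOpen {s : ℂ | 1 + ρ < s.re} := isOpen_lt continuous_const Complex.continuous_re
  refine differentiableOn_tsum_of_summable_norm (u := fun p : Nat.Primes =>
    m * (3 * M) * ((p : ℕ) : ℝ) ^ (-(1 + ρ))) ((p_sum hρ).mul_left ((m : ℝ) * (3 * M)))
    (fun p s hs => ?_) hopen (fun p s hs => F_le h hρ p (le_of_lt hs))
  have hs' : 1 + ρ < s.re := hs
  unfold F
  refine DifferentiableAt.differentiableWithinAt ?_
  refine DifferentiableAt.fun_sum fun j _ => ?_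
  have hg : DifferentiableAt ℂ (fun s => 1 + -u α p j s) s := by
    unfold u
    have h1 : DifferentiableAt ℂ (fun s : ℂ => ((p : ℕ) : ℂ) ^ (-s)) s :=
      DifferentiableAt.const_cpow (by fun_prop) (Or.inl (p0 p))
    exact ((h1.const_mul (α p j)).neg).const_add 1
  exact (hg.clog (slit4 (z := -u α p j s) (by rw [norm_neg]; exact (u_le h hρ p j hs'.le).2))).neg

theorem prod_eq {M : ℕ} (h : RT α M) {ρ : ℝ} (hρ : 0 < ρ) {s : ℂ} (hs : 1 + ρ ≤ s.re) :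
    HasProd (fun p : Nat.Primes => ∏ j, (1 - α p j * ((p : ℕ) : ℂ) ^ (-s))⁻¹) (cexp (LG α s)) := by
  have H := (LG_sum h hρ hs).hasSum.cexp
  refine H.congr_fun ?_ |> fun h => h
  intro p
  simp only [Function.comp_apply]
  unfold F
  rw [Complex.exp_sum]
  refine Finset.prod_congr rfl fun j _ => ?_
  rw [Complex.exp_neg, Complex.exp_log (one_add_ne4 (z := -u α p j s) (by
    rw [norm_neg]; exact (u_le h hρ p j hs).2))]
  unfold u
  rw [← sub_eq_add_neg]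

lemma E_eq {M : ℕ} (h : RT α M) {s : ℂ} (hs : 1 < s.re) : E α s = cexp (LG α s) :=
  (prod_eq h (ρ := s.re - 1) (by linarith) (by linarith)).tprod_eq

lemma E_ev {M : ℕ} (h : RT α M) {s : ℂ} (hs : 1 < s.re) :
    E α =ᶠ[𝓝 s] fun s => cexp (LG α s) := by
  have hopen : IsOpen {s : ℂ | 1 < s.re} := isOpen_lt continuous_const Complex.continuous_re
  filter_upwards [hopen.mem_nhds hs] with z hz
  exact E_eq h hz

lemma LG_at {M : ℕ} (h : RT α M) {s : ℂ} (hs : 1 < s.re) : DifferentiableAt ℂ (LG α) s := by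
  have hopen : IsOpen {z : ℂ | 1 + (s.re - 1) / 2 < z.re} :=
    isOpen_lt continuous_const Complex.continuous_re
  exact (LG_diff h (ρ := (s.re - 1) / 2) (by linarith)).differentiableAt
    (hopen.mem_nhds (by show 1 + (s.re - 1) / 2 < s.re; linarith))

lemma E_an {M : ℕ} (h : RT α M) {s : ℂ} (hs : 1 < s.re) : DifferentiableAt ℂ (E α) s ∧ E α s ≠ 0 := by
  constructor
  · exact ((LG_at h hs).cexp).congr_of_eventuallyEq (E_ev h hs)
  · rw [E_eq h hs]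
    exact Complex.exp_ne_zero _

/-- control to the right of `Re s = 1` -/
lemma E_ctrl {M : ℕ} (h : RT α M) {ρ : ℝ} (hρ : 0 < ρ) : ∃ B : ℝ, 1 ≤ B ∧ ∀ s : ℂ, 1 + ρ ≤ s.re →
    ‖logDeriv (E α) s‖ ≤ B ∧ B⁻¹ ≤ ‖E α s‖ ∧ ‖E α s‖ ≤ B := by
  have hb := B1_nonneg m M (ρ / 2)
  refine ⟨max (Real.exp (B1 m M (ρ / 2))) (B1 m M (ρ / 2) / (ρ / 4)), ?_, fun s hs => ?_⟩
  · exact le_max_of_le_left (Real.one_le_exp hb)
  have hs1 : 1 < s.re := by linarith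
  have hE := E_eq h hs1
  have hL := LG_le h (ρ := ρ / 2) (by linarith) (s := s) (by linarith)
  have hexp : 0 < Real.exp (B1 m M (ρ / 2)) := Real.exp_pos _
  refine ⟨?_, ?_, ?_⟩
  · have h1 : logDeriv (E α) s = deriv (LG α) s := by
      rw [logDeriv_apply, (E_ev h hs1).deriv_eq, (E_ev h hs1).eq_of_nhds,
        (LG_at h hs1).hasDerivAt.cexp.deriv, mul_div_cancel_left₀ _ (Complex.exp_ne_zero _)]
    rw [h1]
    have hre : ∀ z : ℂ, ‖z - s‖ ≤ ρ / 4 → 1 + ρ / 2 < z.re := by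
      intro z hz
      have h2 := (abs_le.1 ((Complex.abs_re_le_norm (z - s)).trans hz)).1
      rw [sub_re] at h2
      linarith
    have h2 := Complex.norm_deriv_le_of_forall_mem_sphere_norm_le (c := s) (R := ρ / 4)
      (C := B1 m M (ρ / 2)) (f := LG α) (by linarith) ?_ (fun z hz => ?_)
    · exact h2.trans (le_max_right _ _)
    · apply DifferentiableOn.diffContOnCl
      rw [closure_ball _ (by linarith)]
      refine (LG_diff h (ρ := ρ / 2) (by linarith)).mono fun z hz => ?_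
      rw [Metric.mem_closedBall, dist_eq_norm] at hz
      exact hre z hz
    · rw [mem_sphere_iff_norm] at hz
      exact LG_le h (by linarith) (hre z hz.le).le
  · rw [hE, Complex.norm_exp]
    have h2 : (max (Real.exp (B1 m M (ρ / 2))) (B1 m M (ρ / 2) / (ρ / 4)))⁻¹ ≤
        (Real.exp (B1 m M (ρ / 2)))⁻¹ := inv_anti₀ hexp (le_max_left _ _)
    refine h2.trans ?_
    rw [← Real.exp_neg]
    apply Real.exp_le_exp.2
    have := (abs_le.1 ((Complex.abs_re_le_norm (LG α s)).trans hL)).1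
    linarith
  · rw [hE, Complex.norm_exp]
    refine le_trans (Real.exp_le_exp.2 ?_) (le_max_left _ _)
    exact (Complex.re_le_norm _).trans hL

/-- a completed L-function with an Euler product of degree `m`, local roots at most `√p` and almost all at
most `1` -/
structure NL (m r : ℕ) (N : ℝ) (a : Fin m → ℂ) (α : Nat.Primes → Fin m → ℂ) (X : ℂ → ℂ) : Prop where
  hm : 1 ≤ m
  hN : 0 < N
  rt : ∃ M : ℕ, RT α M
  slow : Differentiable ℂ X ∧ ∀ δ : ℝ, 0 < δ → ∃ K : ℝ, 0 < K ∧ ∀ z : ℂ, ‖X z‖ ≤ K * Real.exp (δ * ‖z‖ ^ 2)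
  fe : ∃ ε : ℂ, ‖ε‖ = 1 ∧ ∀ s : ℂ, X s = ε * conj (X (1 - conj s))
  eq : ∃ σ : ℝ, ∀ s : ℂ, σ ≤ s.re → X s = (s * (s - 1)) ^ r *
    ((N : ℂ) ^ (s / 2) * ∏ j, Gammaℝ (s + a j)) * E α s

/-- the centred gamma factor -/
noncomputable def gc (r : ℕ) (N : ℝ) (a : Fin m → ℂ) (z : ℂ) : ℂ :=
  ((1 / 2 + z) * (1 / 2 + z - 1)) ^ r * ((N : ℂ) ^ ((1 / 2 + z) / 2) * ∏ j, Gammaℝ (1 / 2 + z + a j))

/-- the formula for `X` to the right of `Re s = 1` -/
lemma NL.eq' (h : NL m r N a α X) : ∃ T0 : ℝ, ∀ z : ℂ, T0 ≤ z.im → 1 / 2 < z.re →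
    X (1 / 2 + z) = gc r N a z * E α (1 / 2 + z) := by
  obtain ⟨-, T0, hg⟩ := GA.full (r := r) h.hN a
  obtain ⟨M, hM⟩ := h.rt
  obtain ⟨σ, hσ⟩ := h.eq
  refine ⟨T0 + 1, fun z hz hz2 => ?_⟩
  obtain ⟨U, hU⟩ : ∃ U : Set ℂ, U = {w : ℂ | 1 / 2 < w.re} ∩ {w : ℂ | T0 < w.im} := ⟨_, rfl⟩
  have hUo : IsOpen U := by
    rw [hU]
    exact (isOpen_lt continuous_const Complex.continuous_re).inter
      (isOpen_lt continuous_const Complex.continuous_im)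
  have hUc : Convex ℝ U := by
    rw [hU]
    exact (convex_halfSpace_re_gt _).inter (convex_halfSpace_im_gt _)
  have h1 : AnalyticOnNhd ℂ (fun w => X (1 / 2 + w)) U := by
    refine DifferentiableOn.analyticOnNhd (fun w _ => ?_) hUo
    exact (DifferentiableAt.comp (g := X) (f := fun w : ℂ => 1 / 2 + w) w (h.slow.1 _)
      (by fun_prop)).differentiableWithinAt
  have h2 : AnalyticOnNhd ℂ (fun w => gc r N a w * E α (1 / 2 + w)) U := by
    refine DifferentiableOn.analyticOnNhd (fun w hw => ?_) hUo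
    rw [hU] at hw
    have w1 : 1 / 2 < w.re := hw.1
    have w2 : T0 < w.im := hw.2
    have w3 : 1 < (1 / 2 + w).re := by simp; linarith
    have d1 : DifferentiableAt ℂ (gc r N a) w := (hg w w2.le).1
    have d2 : DifferentiableAt ℂ (fun w => E α (1 / 2 + w)) w :=
      DifferentiableAt.comp (g := E α) (f := fun w : ℂ => 1 / 2 + w) w (E_an hM w3).1 (by fun_prop)
    exact (d1.mul d2).differentiableWithinAt
  obtain ⟨z0, hz0⟩ : ∃ z0 : ℂ, z0 = ((max σ (1 / 2) + 1 : ℝ) : ℂ) + ((T0 + 1 : ℝ) : ℂ) * I := ⟨_, rfl⟩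
  have hz0r : z0.re = max σ (1 / 2) + 1 := by rw [hz0]; simp
  have hz0i : z0.im = T0 + 1 := by rw [hz0]; simp
  have hz0U : z0 ∈ U := by
    rw [hU]
    constructor
    · show 1 / 2 < z0.re
      rw [hz0r]; have := le_max_right σ (1 / 2); linarith
    · show T0 < z0.im
      rw [hz0i]; linarith
  refine h1.eqOn_of_preconnected_of_eventuallyEq h2 hUc.isPreconnected hz0U ?_ (?_ : z ∈ U)
  · have h3 : ∀ᶠ w : ℂ in 𝓝 z0, σ < w.re :=
      (Complex.continuous_re.tendsto _).eventually (lt_mem_nhds (by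
        rw [hz0r]; have := le_max_left σ (1 / 2); linarith))
    filter_upwards [h3] with w hw
    have := hσ (1 / 2 + w) (by simp; linarith)
    rw [this]
    rfl
  · rw [hU]
    exact ⟨hz2, by show T0 < z.im; linarith⟩

/-- **the centred data** -/
theorem NL.cd (h : NL m r N a α X) : CD m (gc r N a) (fun z => X (1 / 2 + z)) := by
  obtain ⟨hg1, hg2⟩ := GA.full (r := r) h.hN a
  obtain ⟨M, hM⟩ := h.rt
  obtain ⟨T0, hT0⟩ := h.eq'
  refine ⟨by have := h.hm; exact_mod_cast this, hg1, hg2, ⟨?_, ?_⟩, ?_, ?_⟩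
  · exact h.slow.1.comp (by fun_prop : Differentiable ℂ fun z : ℂ => 1 / 2 + z)
  · intro δ hδ
    obtain ⟨K, hK, hs⟩ := h.slow.2 (δ / 2) (by linarith)
    refine ⟨K * Real.exp δ, by positivity, fun z => (hs _).trans ?_⟩
    rw [mul_assoc, ← Real.exp_add]
    have h1 : ‖(1 / 2 : ℂ) + z‖ ≤ 1 / 2 + ‖z‖ := by
      refine (norm_add_le _ _).trans (le_of_eq ?_)
      norm_num
    have h2 : ‖(1 / 2 : ℂ) + z‖ ^ 2 ≤ 1 / 2 + 2 * ‖z‖ ^ 2 := by
      have h3 : ‖(1 / 2 : ℂ) + z‖ ^ 2 ≤ (1 / 2 + ‖z‖) ^ 2 := by gcongr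
      nlinarith [sq_nonneg (1 / 2 - ‖z‖)]
    have h4 : δ / 2 * ‖(1 / 2 : ℂ) + z‖ ^ 2 ≤ δ + δ * ‖z‖ ^ 2 := by
      have : δ / 2 * ‖(1 / 2 : ℂ) + z‖ ^ 2 ≤ δ / 2 * (1 / 2 + 2 * ‖z‖ ^ 2) := by gcongr
      linarith
    gcongr
  · obtain ⟨ε, hε, hfe⟩ := h.fe
    refine ⟨ε, hε, fun z => ?_⟩
    rw [hfe (1 / 2 + z)]
    have e1 : (1 : ℂ) - conj (1 / 2 + z) = 1 / 2 + -conj z := by
      rw [map_add, map_div₀, map_one, map_ofNat]; ring
    rw [e1]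
  · intro ρ hρ
    obtain ⟨T1, hg2⟩ := hg2
    obtain ⟨B, hB, hE⟩ := E_ctrl hM hρ
    refine ⟨B, max (T0 + 1) T1, hB, fun z hz hz2 => ?_⟩
    have u1 : T0 + 1 ≤ z.im := (le_max_left _ _).trans hz
    have u2 : T1 ≤ z.im := (le_max_right _ _).trans hz
    have hg0 : gc r N a z ≠ 0 := (hg2 z u2).2
    have w3 : 1 + ρ ≤ (1 / 2 + z).re := by simp; linarith
    obtain ⟨e1, e2, e3⟩ := hE (1 / 2 + z) w3
    have hX : ∀ w : ℂ, T0 ≤ w.im → 1 / 2 < w.re → gc r N a w ≠ 0 →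
        X (1 / 2 + w) / gc r N a w = E α (1 / 2 + w) := by
      intro w hw1 hw2 hw3
      rw [hT0 w hw1 hw2, mul_div_cancel_left₀ _ hw3]
    have hXz := hX z (by linarith) (by linarith) hg0
    refine ⟨?_, ?_, ?_, ?_⟩
    · rw [hXz]; exact (E_an hM (by linarith)).2
    · have hev : (fun w => X (1 / 2 + w) / gc r N a w) =ᶠ[𝓝 z] fun w => E α (1 / 2 + w) := by
        have o1 : IsOpen {w : ℂ | T0 < w.im} := isOpen_lt continuous_const Complex.continuous_im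
        have o2 : IsOpen {w : ℂ | 1 / 2 < w.re} := isOpen_lt continuous_const Complex.continuous_re
        have o3 : ∀ᶠ w in 𝓝 z, gc r N a w ≠ 0 :=
          ContinuousAt.eventually_ne (hg2 z u2).1.continuousAt hg0
        filter_upwards [o1.mem_nhds (show T0 < z.im by linarith),
          o2.mem_nhds (show 1 / 2 < z.re by linarith), o3] with w hw1 hw2 hw3
        exact hX w (le_of_lt hw1) hw2 hw3
      have h3 : logDeriv (fun w => X (1 / 2 + w) / gc r N a w) z = logDeriv (E α) (1 / 2 + z) := by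
        rw [logDeriv_apply, logDeriv_apply, hev.deriv_eq, hev.eq_of_nhds, deriv_comp_const_add]
      rw [h3]; exact e1
    · rw [hXz]; exact e2
    · rw [hXz]; exact e3

end Pool.Agent.K3h84.DL
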