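import Pool.Agent.K3h84.DL.LD
import Pool.Agent.R838.TW.Fe
import Pool.Agent.R838.NB.Twf
import Pool.Agent.W388.TC.GoodC
import Pool.Agent.W440.TC.Twist
import Pool.Agent.W108.TW.Mellin
import Pool.Agent.Y771.GL.MF
import Pool.Agent.Y671.GL.Cg
import Pool.Agent.W22.TC.Dir
import Pool.Agent.W482.TW.Id
import Pool.Agent.W482.TW.Id2
import Pool.Agent.W688.TW.Kara
import Pool.Agent.W688.TW.Sel

set_option autoImplicit false

/-!
# Newforms of any weight and nebentypus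

`exists_L` and `euler` follow `Pool.Agent.R838.NB.Form` of the starting files.
-/

namespace Pool.Agent.K3h84.DL

open UpperHalfPlane hiding I
open MatrixGroups CongruenceSubgroup Filter Topology Complex
open Pool.Agent.Y671.GL (Frm IsL LData Hg)
open Pool.Agent.R838.NB
open Pool.Agent.R838.TW (GG_diff GG_conj exists_entire ldata_of)
open Pool.Agent.W169.HF (Slow)
open scoped ComplexConjugate

lemma ga_const {c : ℂ} (hc : c ≠ 0) : GA 0 (fun _ => c) := by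
  refine ⟨⟨1, 1, le_rfl, le_rfl, fun z _ _ => ?_⟩, ⟨0, fun z _ => ⟨differentiableAt_const _, hc⟩⟩⟩
  rw [logDeriv_apply]
  simp

lemma ga_pw {N : ℝ} (hN : 0 < N) (c : ℂ) : GA 0 (fun z => (N : ℂ) ^ (z + c)) := by
  have hN0 : (N : ℂ) ≠ 0 := by exact_mod_cast hN.ne'
  have hd : ∀ z : ℂ, HasDerivAt (fun z : ℂ => (N : ℂ) ^ (z + c))
      ((N : ℂ) ^ (z + c) * Complex.log N * 1) z := by
    intro z
    have h1 : HasDerivAt (fun z : ℂ => z + c) 1 z := (hasDerivAt_id z).add_const c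
    exact h1.const_cpow (Or.inl hN0)
  have hne : ∀ z : ℂ, (N : ℂ) ^ (z + c) ≠ 0 := fun z => by
    rw [Ne, Complex.cpow_eq_zero_iff]; tauto
  refine ⟨⟨‖Complex.log N‖ + 1, 1, by linarith [norm_nonneg (Complex.log N)], le_rfl,
    fun z _ _ => ?_⟩, ⟨0, fun z _ => ⟨(hd z).differentiableAt, hne z⟩⟩⟩
  rw [logDeriv_apply, (hd z).deriv]
  have e1 : (N : ℂ) ^ (z + c) * Complex.log N * 1 / (N : ℂ) ^ (z + c) = Complex.log N := by
    have := hne z
    field_simp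
  rw [e1, zero_mul, Complex.ofReal_zero, sub_zero]
  linarith

lemma ga_gammaC (c : ℂ) : GA 1 (fun z => Gammaℂ (z + c)) := by
  have h := (GA.gamma c).mul (GA.gamma (c + 1))
  have e : (1 / 2 + 1 / 2 : ℝ) = 1 := by norm_num
  rw [e] at h
  convert h using 2 with z
  rw [← Complex.Gammaℝ_mul_Gammaℝ_add_one, add_assoc]

lemma ga_gamma (c : ℂ) : GA 1 (fun z => Gamma (z + c)) := by
  have hpi : (0 : ℝ) < 2 * Real.pi := by positivity
  have h := ((ga_const (c := 1 / 2) (by norm_num)).mul (ga_pw hpi c)).mul (ga_gammaC c)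
  have e : (0 + 0 + 1 : ℝ) = 1 := by norm_num
  rw [e] at h
  convert h using 2 with z
  unfold Gammaℂ
  have h0 : ((2 * Real.pi : ℝ) : ℂ) ≠ 0 := by exact_mod_cast hpi.ne'
  have h1 : ((2 * Real.pi : ℝ) : ℂ) ^ (z + c) * (2 * (Real.pi : ℂ)) ^ (-(z + c)) = 1 := by
    have e2 : (2 * (Real.pi : ℂ)) = ((2 * Real.pi : ℝ) : ℂ) := by push_cast; ring
    rw [e2, ← Complex.cpow_add _ _ h0, add_neg_cancel, Complex.cpow_zero]
  linear_combination (-Gamma (z + c)) * h1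

lemma ga_GG (k : ℤ) {N Q : ℝ} (hN : 0 < N) (hQ : 0 < Q) : GA 1 (fun z => W388.GG k N Q (1 / 2 + z)) := by
  have hpi := Real.pi_pos
  have hsq : 0 < Real.sqrt N := Real.sqrt_pos.2 hN
  have hc : (0 : ℝ) < Real.sqrt N * Q / (2 * Real.pi) := by positivity
  have h := (ga_pw hc (1 / 2)).mul (ga_gamma (1 / 2 + ((k : ℂ) - 1) / 2))
  rw [zero_add] at h
  convert h using 2 with z
  unfold W388.GG
  congr 2 <;> ring

lemma GG_ne {k : ℤ} (hk : 1 ≤ k) {N Q : ℝ} (hN : 0 < N) (hQ : 0 < Q) {s : ℂ} (hs : s.im ≠ 0 ∨ 0 < s.re) :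
    W388.GG k N Q s ≠ 0 := by
  have hpi := Real.pi_pos
  have hsq : 0 < Real.sqrt N := Real.sqrt_pos.2 hN
  have hc : (0 : ℝ) < Real.sqrt N * Q / (2 * Real.pi) := by positivity
  have hcc : ((Real.sqrt N * Q / (2 * Real.pi) : ℝ) : ℂ) ≠ 0 := by exact_mod_cast hc.ne'
  have hk1 : (1 : ℝ) ≤ k := by exact_mod_cast hk
  have e0 : ((k : ℂ) - 1) / 2 = ((((k : ℝ) - 1) / 2 : ℝ) : ℂ) := by push_cast; ring
  unfold W388.GG
  refine mul_ne_zero ?_ ?_
  · rw [Ne, Complex.cpow_eq_zero_iff]; tauto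
  · apply Complex.Gamma_ne_zero
    intro m hm
    rcases hs with hs | hs
    · have h1 := congrArg Complex.im hm
      rw [e0, Complex.add_im, Complex.ofReal_im, add_zero] at h1
      simp at h1
      exact hs h1
    · have h1 := congrArg Complex.re hm
      rw [e0, Complex.add_re, Complex.ofReal_re] at h1
      simp at h1
      have hm0 : (0 : ℝ) ≤ m := Nat.cast_nonneg m
      linarith

theorem p_sel : W388.StSel := W688.TW.t_sel Pool.Agent.W482.TW.t_id2 W688.TW.t_kara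

theorem p_dirG : W388.StDirG := Pool.Agent.W22.TC.t_dirG Pool.Agent.W482.TW.t_id1 p_sel

variable {N : ℕ} [NeZero N] {k : ℕ} {ψ : DirichletCharacter ℂ N}
  {f : CuspForm (Gamma1 N : Subgroup (GL (Fin 2) ℝ)) (k : ℤ)} {η : ℂ}

theorem one_val (n : ℕ) : (1 : DirichletCharacter ℂ 1) (n : ZMod 1) = 1 :=
  MulChar.one_apply (isUnit_of_subsingleton _)

theorem exists_L (hk : 1 ≤ k) (hf : W388.IsNewfC N k ψ f η) :
    ∃ F : ℂ → ℂ, W388.FE2 k N 1 F ∧ IsL (lmc f) F := by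
  have hsum : ∀ (q : ℕ) [NeZero q] (χ : DirichletCharacter ℂ q) (s : ℂ), 1 < s.re →
      Summable (fun n : ℕ => ‖χ (n : ZMod q) * W388.lamC f n * (n : ℂ) ^ (-s)‖) := by
    intro q _ χ s hs
    have h0 : Frm k N (fun p => ψ ((p : ℕ) : ZMod N)) (lmc f) := frm_newfC hk hf
    obtain ⟨-, -, -, h4⟩ := Pool.Agent.Y771.GL.mf k N (fun p => ψ ((p : ℕ) : ZMod N)) (lmc f) h0
    refine (h4 s.re hs).1.of_nonneg_of_le (fun n => norm_nonneg _) fun n => ?_
    rcases Nat.eq_zero_or_pos n with rfl | hn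
    · rw [W388.lamC_zero]
      simp
      positivity
    · rw [norm_mul, norm_mul, Complex.norm_natCast_cpow_of_pos hn, neg_re]
      have h6 := χ.norm_le_one (n : ZMod q)
      have h7 : ‖lmc f n‖ = ‖W388.lamC f n‖ := rfl
      rw [h7]
      have h8 : (0 : ℝ) ≤ (n : ℝ) ^ (-s.re) := by positivity
      have h9 := norm_nonneg (W388.lamC f n)
      calc ‖χ (n : ZMod q)‖ * ‖W388.lamC f n‖ * (n : ℝ) ^ (-s.re) ≤
          1 * ‖W388.lamC f n‖ * (n : ℝ) ^ (-s.re) := by gcongr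
        _ = _ := by ring
  have hk' : (1 : ℤ) ≤ (k : ℤ) := by exact_mod_cast hk
  obtain ⟨F, hF, hs⟩ := W388.exists_twistC Pool.Agent.W440.TC.t_twistC Pool.Agent.W108.TW.t_mellin
    hk' hf hsum 1 (1 : DirichletCharacter ℂ 1) DirichletCharacter.isPrimitive_one_level_one
    (Nat.coprime_one_left N)
  rw [Nat.cast_one] at hF
  refine ⟨F, hF, hF.diff, fun s hs' => ?_⟩
  rw [hs s hs']
  refine tsum_congr fun n => ?_
  rw [one_val, one_mul]
  rfl

/-- the Euler product -/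
theorem euler (hk : 1 ≤ k) (hf : W388.IsNewfC N k ψ f η) {F : ℂ → ℂ} (hF : IsL (lmc f) F) {s : ℂ}
    (hs : 1 < s.re) :
    HasProd (fun p : Nat.Primes =>
        (1 - W388.lamC f p * ((p : ℕ) : ℂ) ^ (-s) +
          ψ ((p : ℕ) : ZMod N) * ((p : ℕ) : ℂ) ^ (-2 * s))⁻¹) (F s) := by
  have hN : 0 < N := Nat.pos_of_ne_zero (NeZero.ne N)
  obtain ⟨θ, lam, hθ, hθ1, hθ2, hH, hR, hlam⟩ := red_lmc hk hf
  obtain ⟨A, -, -, -, h⟩ := p_dirG N hN lam hH hR
  have hterm : ∀ n : ℕ, lmc f n = ((1 : DirichletCharacter ℂ 1) (n : ZMod 1) * θ n) * (lam n : ℂ) := by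
    intro n
    rw [hlam n, one_val]; ring
  have h1 := (h _ (W388.cmul_twist hθ (1 : DirichletCharacter ℂ 1)) F (fun s hs => by
    rw [hF.ser s hs]
    exact tsum_congr fun n => by rw [hterm])).2.2.2.2.2 s hs
  refine h1.congr_fun fun p => ?_
  have hp := p.2
  congr 1
  rw [← hterm]
  congr 1
  by_cases hpN : (p : ℕ) ∣ N
  · have : ψ ((p : ℕ) : ZMod N) = 0 := by
      apply MulChar.map_nonunit
      rw [ZMod.isUnit_iff_coprime]
      intro hc
      exact ((Nat.Prime.coprime_iff_not_dvd hp).mp hc) hpN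
    rw [if_pos hpN, this]
    ring
  · rw [if_neg hpN, one_val, one_mul, hθ2 p hp.ne_zero ((Nat.Prime.coprime_iff_not_dvd hp).mpr hpN)]

lemma slow_of_exp {X : ℂ → ℂ} (hd : Differentiable ℂ X) {K : ℝ} (hK : 0 < K)
    (h : ∀ z : ℂ, ‖X z‖ ≤ Real.exp (K * (1 + ‖z‖) ^ (3 / 2 : ℝ))) : Slow X := by
  refine ⟨hd, fun δ hδ => ?_⟩
  -- `K x^{3/2} ≤ δ/2 x² + M`, `x = 1 + ‖z‖`, `x² ≤ 2 + 2 ‖z‖²`
  obtain ⟨M, hM⟩ : ∃ M : ℝ, ∀ x : ℝ, 1 ≤ x → K * x ^ (3 / 2 : ℝ) ≤ δ / 2 * x ^ 2 + M := by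
    refine ⟨K * (2 * K / δ) ^ 3, fun x hx => ?_⟩
    have hx0 : 0 < x := by linarith
    have e1 : x ^ 2 = x ^ (3 / 2 : ℝ) * x ^ (1 / 2 : ℝ) := by
      rw [← Real.rpow_add hx0, ← Real.rpow_natCast]
      norm_num
    rcases le_total (2 * K / δ) (x ^ (1 / 2 : ℝ)) with hc | hc
    · have h1 : K ≤ δ / 2 * x ^ (1 / 2 : ℝ) := by
        rw [div_le_iff₀ hδ] at hc; linarith
      have h2 : K * x ^ (3 / 2 : ℝ) ≤ δ / 2 * x ^ (1 / 2 : ℝ) * x ^ (3 / 2 : ℝ) := by gcongr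
      have h3 : 0 ≤ K * (2 * K / δ) ^ 3 := by positivity
      rw [e1]; linarith
    · have e2 : x ^ (3 / 2 : ℝ) = (x ^ (1 / 2 : ℝ)) ^ 3 := by
        rw [← Real.rpow_natCast (x ^ (1 / 2 : ℝ)), ← Real.rpow_mul hx0.le]
        norm_num
      have h1 : K * x ^ (3 / 2 : ℝ) ≤ K * (2 * K / δ) ^ 3 := by
        rw [e2]; gcongr
      have h2 : 0 ≤ δ / 2 * x ^ 2 := by positivity
      linarith
  refine ⟨Real.exp (δ + M), Real.exp_pos _, fun z => (h z).trans ?_⟩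
  rw [← Real.exp_add]
  apply Real.exp_le_exp.2
  have h1 := hM (1 + ‖z‖) (by linarith [norm_nonneg z])
  have h2 : (1 + ‖z‖) ^ 2 ≤ 2 + 2 * ‖z‖ ^ 2 := by nlinarith [sq_nonneg (1 - ‖z‖)]
  have h3 : δ / 2 * (1 + ‖z‖) ^ 2 ≤ δ / 2 * (2 + 2 * ‖z‖ ^ 2) := by gcongr
  linarith

/-- **the data of a newform** -/
theorem ld_new (hk : 1 ≤ k) (hf : W388.IsNewfC N k ψ f η) :
    ∃ X F : ℂ → ℂ, LD 2 (fun z => W388.GG k N 1 (1 / 2 + z)) X F ∧ ∀ s : ℂ, 1 < s.re →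
      HasProd (fun p : Nat.Primes =>
        (1 - W388.lamC f p * ((p : ℕ) : ℂ) ^ (-s) +
          ψ ((p : ℕ) : ZMod N) * ((p : ℕ) : ℂ) ^ (-2 * s))⁻¹) (F s) := by
  obtain ⟨F, hFE, hL⟩ := exists_L hk hf
  have hfm : Frm k N (fun p => ψ ((p : ℕ) : ZMod N)) (lmc f) := frm_newfC hk hf
  have hN1 : (1 : ℝ) ≤ N := by exact_mod_cast Nat.one_le_iff_ne_zero.2 (NeZero.ne N)
  have hN0 : (0 : ℝ) < N := by linarith
  have hk' : (1 : ℤ) ≤ (k : ℤ) := by exact_mod_cast hk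
  obtain ⟨Λ, w, hw, hd, hfe, heq, -⟩ := exists_entire hk' hN0 one_pos hFE
  obtain ⟨u, v, X', hD, hv, hX'⟩ := ldata_of hk hN1 le_rfl hFE hfm hL
  obtain ⟨K, hK, hs⟩ := (Pool.Agent.Y671.GL.cg_of hfm hL hD).slow
  have hXd : Differentiable ℂ fun z : ℂ => Λ (1 / 2 + z) :=
    hd.comp (by fun_prop : Differentiable ℂ fun z : ℂ => 1 / 2 + z)
  have hXX : ∀ z : ℂ, X' z = v * Λ (1 / 2 + z) := by
    intro z
    have a1 : AnalyticOnNhd ℂ X' Set.univ := fun w _ => hD.diff.analyticAt w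
    have a2 : AnalyticOnNhd ℂ (fun z => v * Λ (1 / 2 + z)) Set.univ :=
      fun w _ => (hXd.const_mul v).analyticAt w
    refine a1.eqOn_of_preconnected_of_eventuallyEq a2 isPreconnected_univ (Set.mem_univ (2 : ℂ)) ?_
      (Set.mem_univ z)
    have b3 : ∀ᶠ w : ℂ in 𝓝 (2 : ℂ), 1 / 2 < w.re :=
      (Complex.continuous_re.tendsto _).eventually (lt_mem_nhds (by norm_num))
    filter_upwards [b3] with w hw
    rw [hX' w hw, heq (1 / 2 + w) (Or.inr (by simp; linarith))]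
  refine ⟨fun z => Λ (1 / 2 + z), F, ⟨?_, fun z => ?_, fun z hz => ?_, ?_, ⟨w, hw, fun z => ?_⟩, ?_,
    hL.diff, fun z hz => ?_⟩, fun s hs => euler hk hf hL hs⟩
  · have e : (2 / 2 : ℝ) = 1 := by norm_num
    rw [e]
    exact ga_GG k hN0 one_pos
  · have e1 : (1 / 2 : ℂ) + conj z = conj (1 / 2 + z) := by
      rw [map_add, map_div₀, map_one, map_ofNat]
    rw [e1, GG_conj k hN0 one_pos]
  · refine GG_ne hk' hN0 one_pos ?_
    rcases hz with hz | hz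
    · left; simpa using hz
    · right; simp; linarith
  · have h1 : Slow X' := slow_of_exp hD.diff hK hs
    refine ⟨hXd, fun δ hδ => ?_⟩
    obtain ⟨C, hC, h2⟩ := h1.2 δ hδ
    have hvn : 0 < ‖v‖ := norm_pos_iff.2 hv
    refine ⟨C / ‖v‖, by positivity, fun z => ?_⟩
    have h3 := h2 z
    rw [hXX z, norm_mul] at h3
    rw [div_mul_eq_mul_div, le_div_iff₀ hvn, mul_comm]
    exact h3
  · show Λ (1 / 2 + z) = w * conj (Λ (1 / 2 + -conj z))
    rw [hfe (1 / 2 + z)]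
    congr 3
    rw [map_add, map_div₀, map_one, map_ofNat]; ring
  · intro ρ hρ
    obtain ⟨c, K, hc, hK, h⟩ := Pool.Agent.Y671.GL.rgt_of hfm hL ρ hρ
    refine ⟨max 1 (max c⁻¹ K), le_max_left _ _, fun s hs => ?_⟩
    obtain ⟨b1, b2, b3⟩ := h s hs
    refine ⟨hL.diff s, fun h0 => ?_, b3.trans ((le_max_right _ _).trans (le_max_right _ _)), ?_,
      b2.trans ((le_max_right _ _).trans (le_max_right _ _))⟩
    · rw [h0, norm_zero] at b1; linarith
    · refine le_trans ?_ b1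
      rw [inv_le_comm₀ (by positivity) hc]
      exact (le_max_left _ _).trans (le_max_right _ _)
  · show Λ (1 / 2 + z) = _
    refine heq _ ?_
    rcases hz with hz | hz
    · left; simpa using hz
    · right; simp; linarith

end Pool.Agent.K3h84.DL
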