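import Pool.Agent.K3h84.DL.Fwd

set_option autoImplicit false

/-! # Phragmén-Lindelöf in a half-strip, by rectangles -/

namespace Pool.Agent.K3h84.DL

open Complex Filter Topology MeasureTheory Set
open scoped ComplexConjugate

/-- maximum principle on a rectangle -/
lemma rect {G : ℂ → ℂ} {a b c d C : ℝ} (hab : a < b) (hcd : c < d)
    (hd : ∀ z : ℂ, a ≤ z.re → z.re ≤ b → c ≤ z.im → z.im ≤ d → DifferentiableAt ℂ G z)
    (hl : ∀ z : ℂ, z.re = a → c ≤ z.im → z.im ≤ d → ‖G z‖ ≤ C)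
    (hr : ∀ z : ℂ, z.re = b → c ≤ z.im → z.im ≤ d → ‖G z‖ ≤ C)
    (hb : ∀ z : ℂ, z.im = c → a ≤ z.re → z.re ≤ b → ‖G z‖ ≤ C)
    (ht : ∀ z : ℂ, z.im = d → a ≤ z.re → z.re ≤ b → ‖G z‖ ≤ C)
    {z : ℂ} (h1 : a ≤ z.re) (h2 : z.re ≤ b) (h3 : c ≤ z.im) (h4 : z.im ≤ d) : ‖G z‖ ≤ C := by
  have hcl : closure (Ioo a b ×ℂ Ioo c d) = Icc a b ×ℂ Icc c d := by
    rw [closure_reProdIm, closure_Ioo hab.ne, closure_Ioo hcd.ne]
  refine Complex.norm_le_of_forall_mem_frontier_norm_le (U := Ioo a b ×ℂ Ioo c d)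
    ((Metric.isBounded_Ioo a b).reProdIm (Metric.isBounded_Ioo c d)) ?_ ?_ ?_
  · apply DifferentiableOn.diffContOnCl
    rw [hcl]
    intro w hw
    rw [mem_reProdIm] at hw
    exact (hd w hw.1.1 hw.1.2 hw.2.1 hw.2.2).differentiableWithinAt
  · intro w hw
    rw [frontier_reProdIm, closure_Ioo hab.ne, closure_Ioo hcd.ne, frontier_Ioo hab,
      frontier_Ioo hcd] at hw
    rcases hw with hw | hw
    · rw [mem_reProdIm] at hw
      obtain ⟨w1, w2⟩ := hw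
      rcases w2 with w2 | w2
      · exact hb w w2 w1.1 w1.2
      · exact ht w w2 w1.1 w1.2
    · rw [mem_reProdIm] at hw
      obtain ⟨w1, w2⟩ := hw
      rcases w1 with w1 | w1
      · exact hl w w1 w2.1 w2.2
      · exact hr w w1 w2.1 w2.2
  · rw [hcl, mem_reProdIm]
    exact ⟨⟨h1, h2⟩, ⟨h3, h4⟩⟩

/-- **Phragmén-Lindelöf** -/
theorem pl {f : ℂ → ℂ} {a b p q : ℝ} (hab : a < b) (ha : -1 ≤ a) (hb : b ≤ 1)
    (hdiff : ∃ T : ℝ, ∀ z : ℂ, T ≤ z.im → DifferentiableAt ℂ f z)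
    (hap : ∃ T : ℝ, ∀ z : ℂ, T ≤ z.im → |z.re| ≤ 1 → ‖f z‖ ≤ Real.exp (z.im ^ 2 / 20))
    (h1 : ∀ ε : ℝ, 0 < ε → ∃ T : ℝ, ∀ z : ℂ, T ≤ z.im → z.re = a → ‖f z‖ ≤ z.im ^ (p + ε))
    (h2 : ∀ ε : ℝ, 0 < ε → ∃ T : ℝ, ∀ z : ℂ, T ≤ z.im → z.re = b → ‖f z‖ ≤ z.im ^ (q + ε)) :
    ∀ ε : ℝ, 0 < ε → ∃ T : ℝ, ∀ z : ℂ, T ≤ z.im → a ≤ z.re → z.re ≤ b →
      ‖f z‖ ≤ z.im ^ (p + (q - p) * ((z.re - a) / (b - a)) + ε) := by
  intro ε hε
  have hba : 0 < b - a := by linarith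
  obtain ⟨e, he⟩ : ∃ e, e = min (ε / 2) 1 := ⟨_, rfl⟩
  have he0 : 0 < e := by rw [he]; exact lt_min (by linarith) one_pos
  have he1 : e ≤ 1 := by rw [he]; exact min_le_right _ _
  have he2 : e ≤ ε / 2 := by rw [he]; exact min_le_left _ _
  obtain ⟨TD, hD⟩ := hdiff
  obtain ⟨TA, hA⟩ := hap
  obtain ⟨T1, h1⟩ := h1 e he0
  obtain ⟨T2, h2⟩ := h2 e he0
  obtain ⟨K1, hK1⟩ : ∃ K1, K1 = 2 * (|p - q| / (b - a)) + |p| := ⟨_, rfl⟩
  have hK10 : 0 ≤ K1 := by rw [hK1]; positivity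
  obtain ⟨T0, hT0⟩ : ∃ T0 : ℝ, T0 = 2 * (|TD| + |TA| + |T1| + |T2|) + 8 * (K1 + 1) + 2 +
    Real.exp ((|p| + |q| + 2) / (ε / 2)) := ⟨_, rfl⟩
  refine ⟨T0, fun z0 hz0 hz1 hz2 => ?_⟩
  obtain ⟨t, ht⟩ : ∃ t, t = z0.im := ⟨_, rfl⟩
  rw [← ht] at hz0 ⊢
  have hexp0 := Real.exp_pos ((|p| + |q| + 2) / (ε / 2))
  have a1 := abs_nonneg TD
  have a2 := abs_nonneg TA
  have a3 := abs_nonneg T1
  have a4 := abs_nonneg T2
  have b1 := le_abs_self TD
  have b2 := le_abs_self TA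
  have b3 := le_abs_self T1
  have b4 := le_abs_self T2
  have ht2 : 2 ≤ t := by linarith
  have ht0 : 0 < t := by linarith
  obtain ⟨L, hL⟩ : ∃ L, L = Real.log t := ⟨_, rfl⟩
  have hL0 : 0 ≤ L := by rw [hL]; exact Real.log_nonneg (by linarith)
  have hLt : L ≤ t := by rw [hL]; exact (Real.log_le_sub_one_of_pos ht0).trans (by linarith)
  have hLε : (|p| + |q| + 2) / (ε / 2) ≤ L := by
    rw [hL, Real.le_log_iff_exp_le ht0]; linarith
  rw [div_le_iff₀ (by linarith)] at hLε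
  obtain ⟨lam, hlam⟩ : ∃ lam : ℝ, lam = (p - q) / (b - a) * L := ⟨_, rfl⟩
  obtain ⟨G, hG⟩ : ∃ G : ℂ → ℂ, G = fun z => f z * cexp (lam * (z - a)) * cexp ((z - I * t) ^ 2) :=
    ⟨_, rfl⟩
  have hGn : ∀ z : ℂ, ‖G z‖ = ‖f z‖ * Real.exp (lam * (z.re - a)) *
      Real.exp (z.re ^ 2 - (z.im - t) ^ 2) := by
    intro z
    rw [hG]
    simp only
    rw [norm_mul, norm_mul, Complex.norm_exp, Complex.norm_exp]
    have e1 : ((lam : ℂ) * (z - a)).re = lam * (z.re - a) := by simp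
    have e2 : ((z - I * t) ^ 2).re = z.re ^ 2 - (z.im - t) ^ 2 := by
      rw [pow_two, Complex.mul_re]
      simp
      ring
    rw [e1, e2]
  have hgeom : ∀ z : ℂ, t / 2 ≤ z.im → z.im ≤ 3 * t / 2 → TD ≤ z.im ∧ TA ≤ z.im ∧ T1 ≤ z.im ∧ T2 ≤ z.im ∧
      0 < z.im ∧ |Real.log z.im - L| ≤ 1 := by
    intro z hz3 hz4
    refine ⟨by linarith, by linarith, by linarith, by linarith, by linarith, ?_⟩
    rw [hL]
    exact log_close ht0 hz3 (by linarith)
  have hpw : ∀ (z : ℂ) (c : ℝ), t / 2 ≤ z.im → z.im ≤ 3 * t / 2 →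
      z.im ^ (c + e) ≤ Real.exp ((c + e) * L + (|c| + 1)) := by
    intro z c hz3 hz4
    obtain ⟨-, -, -, -, g5, g6⟩ := hgeom z hz3 hz4
    rw [Real.rpow_def_of_pos g5]
    apply Real.exp_le_exp.2
    have h3 : (c + e) * (Real.log z.im - L) ≤ |c + e| * |Real.log z.im - L| := by
      rw [← abs_mul]; exact le_abs_self _
    have h4 : |c + e| ≤ |c| + 1 := (abs_add_le _ _).trans (by rw [abs_of_pos he0]; linarith)
    have h5 : |c + e| * |Real.log z.im - L| ≤ (|c| + 1) * 1 := by gcongr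
    linarith
  have hgauss : ∀ z : ℂ, a ≤ z.re → z.re ≤ b → Real.exp (z.re ^ 2 - (z.im - t) ^ 2) ≤
      Real.exp (1 - (z.im - t) ^ 2) := by
    intro z hz3 hz4
    apply Real.exp_le_exp.2
    nlinarith
  have hgauss1 : ∀ z : ℂ, a ≤ z.re → z.re ≤ b → Real.exp (z.re ^ 2 - (z.im - t) ^ 2) ≤
      Real.exp 1 := by
    intro z hz3 hz4
    refine (hgauss z hz3 hz4).trans (Real.exp_le_exp.2 ?_)
    nlinarith [sq_nonneg (z.im - t)]
  have hlamK : 2 * |lam| + |p| * L ≤ K1 * L := by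
    rw [hlam, hK1, abs_mul, abs_div, abs_of_pos hba, abs_of_nonneg hL0]
    apply le_of_eq
    ring
  have hhoriz : ∀ z : ℂ, (z.im = t / 2 ∨ z.im = 3 * t / 2) → a ≤ z.re → z.re ≤ b →
      ‖G z‖ ≤ Real.exp ((p + e) * L + (|p| + |q| + 2)) := by
    intro z hz3 hz4 hz5
    have hz6 : t / 2 ≤ z.im ∧ z.im ≤ 3 * t / 2 := by
      rcases hz3 with h | h <;> rw [h] <;> constructor <;> linarith
    have hz7 : (z.im - t) ^ 2 = t ^ 2 / 4 := by
      rcases hz3 with h | h <;> rw [h] <;> ring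
    have hz8 : z.im ^ 2 ≤ 9 / 4 * t ^ 2 := by nlinarith [hz6.1, hz6.2]
    obtain ⟨-, g2, -, -, g5, -⟩ := hgeom z hz6.1 hz6.2
    have h3 := hA z g2 (by rw [abs_le]; constructor <;> linarith)
    rw [hGn]
    have h4 : lam * (z.re - a) ≤ 2 * |lam| := by
      have h5 : lam * (z.re - a) ≤ |lam| * |z.re - a| := by
        rw [← abs_mul]; exact le_abs_self _
      have h6 : |z.re - a| ≤ 2 := by rw [abs_le]; constructor <;> linarith
      have h7 : |lam| * |z.re - a| ≤ |lam| * 2 := by gcongr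
      linarith
    calc ‖f z‖ * Real.exp (lam * (z.re - a)) * Real.exp (z.re ^ 2 - (z.im - t) ^ 2)
        ≤ Real.exp (z.im ^ 2 / 20) * Real.exp (2 * |lam|) * Real.exp (1 - (z.im - t) ^ 2) := by
          have := hgauss z hz4 hz5
          gcongr
      _ = Real.exp (z.im ^ 2 / 20 + 2 * |lam| + (1 - t ^ 2 / 4)) := by
          rw [← Real.exp_add, ← Real.exp_add, hz7]
      _ ≤ _ := by
          apply Real.exp_le_exp.2
          have h8 : K1 * L ≤ K1 * t := by gcongr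
          have h9 : 8 * (K1 + 1) ≤ t := by linarith
          have h10 : 0 ≤ |p| * L := by positivity
          have h11 : -(|p| * L) ≤ p * L := by
            have := neg_abs_le p
            nlinarith
          have h12 : 0 ≤ e * L := by positivity
          have h13 := abs_nonneg p
          have h14 := abs_nonneg q
          nlinarith
  have key : ‖G z0‖ ≤ Real.exp ((p + e) * L + (|p| + |q| + 2)) := by
    refine rect (a := a) (b := b) (c := t / 2) (d := 3 * t / 2) hab (by linarith) ?_ ?_ ?_ ?_ ?_ hz1 hz2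
      (by linarith) (by linarith)
    · intro z _ _ hz5 hz6
      obtain ⟨g1, -⟩ := hgeom z hz5 hz6
      have := hD z g1
      rw [hG]
      fun_prop
    · intro z hz3 hz5 hz6
      obtain ⟨-, -, g3, -⟩ := hgeom z hz5 hz6
      rw [hGn, hz3, sub_self, mul_zero, Real.exp_zero, mul_one]
      have h3 := (h1 z g3 hz3).trans (hpw z p hz5 hz6)
      have h4 := hgauss1 z (by linarith) (by linarith)
      rw [hz3] at h4
      calc ‖f z‖ * Real.exp (a ^ 2 - (z.im - t) ^ 2) ≤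
            Real.exp ((p + e) * L + (|p| + 1)) * Real.exp 1 := by gcongr
        _ = Real.exp ((p + e) * L + (|p| + 1) + 1) := by rw [← Real.exp_add]
        _ ≤ _ := by
            apply Real.exp_le_exp.2
            have := abs_nonneg q
            linarith
    · intro z hz3 hz5 hz6
      obtain ⟨-, -, -, g4, -⟩ := hgeom z hz5 hz6
      rw [hGn, hz3]
      have h3 := (h2 z g4 hz3).trans (hpw z q hz5 hz6)
      have h4 := hgauss1 z (by linarith) (by linarith)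
      rw [hz3] at h4
      have h5 : lam * (b - a) = (p - q) * L := by rw [hlam]; field_simp
      rw [h5]
      calc ‖f z‖ * Real.exp ((p - q) * L) * Real.exp (b ^ 2 - (z.im - t) ^ 2) ≤
            Real.exp ((q + e) * L + (|q| + 1)) * Real.exp ((p - q) * L) * Real.exp 1 := by gcongr
        _ = Real.exp ((q + e) * L + (|q| + 1) + (p - q) * L + 1) := by
            rw [← Real.exp_add, ← Real.exp_add]
        _ ≤ _ := by
            apply Real.exp_le_exp.2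
            have := abs_nonneg p
            linarith
    · intro z hz3 hz4 hz5
      exact hhoriz z (Or.inl hz3) hz4 hz5
    · intro z hz3 hz4 hz5
      exact hhoriz z (Or.inr hz3) hz4 hz5
  rw [hGn, ← ht, sub_self] at key
  have h3 : ‖f z0‖ ≤ Real.exp ((p + e) * L + (|p| + |q| + 2) - lam * (z0.re - a)) := by
    have h4 : (1 : ℝ) ≤ Real.exp (z0.re ^ 2 - 0 ^ 2) := Real.one_le_exp (by nlinarith)
    have h5 : ‖f z0‖ * Real.exp (lam * (z0.re - a)) ≤ Real.exp ((p + e) * L + (|p| + |q| + 2)) := by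
      refine le_trans ?_ key
      have : 0 ≤ ‖f z0‖ * Real.exp (lam * (z0.re - a)) := by positivity
      nlinarith
    rw [Real.exp_sub, le_div_iff₀ (Real.exp_pos _)]
    exact h5
  refine h3.trans ?_
  rw [Real.rpow_def_of_pos ht0, ← hL]
  apply Real.exp_le_exp.2
  have h6 : lam * (z0.re - a) = -((q - p) * ((z0.re - a) / (b - a)) * L) := by
    rw [hlam]; field_simp; ring
  rw [h6]
  have h7 : e * L ≤ ε / 2 * L := by gcongr
  linarith

end Pool.Agent.K3h84.DL
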