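import Pool.Agent.K3h84.DL.Nf

set_option autoImplicit false

/-! # Sums of parts `V(f) (-r)`, `f` a newform -/

namespace Pool.Agent.K3h84.DL

open UpperHalfPlane hiding I
open MatrixGroups CongruenceSubgroup Filter Topology Complex
open scoped ComplexConjugate

/-- one part -/
theorem one_part {N : ℕ} [NeZero N] {k : ℕ} {ψ : DirichletCharacter ℂ N}
    {f : CuspForm (Gamma1 N : Subgroup (GL (Fin 2) ℝ)) (k : ℤ)} {η : ℂ} (hk : 1 ≤ k)
    (hf : W388.IsNewfC N k ψ f η) {i r : ℕ} (hi : k + 2 * r = i + 1) :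
    ∃ (X F : ℂ → ℂ) (v : ℂ), v ≠ 0 ∧ conj v = v ∧ LD 2 (fun z => W388.GG k N 1 (1 / 2 + z)) X F ∧
      (∀ s : ℂ, (i : ℝ) / 2 + 1 < s.re → HasProd (fun p : Nat.Primes =>
        (1 - (qExpansion 1 f).coeff p * ((p : ℕ) : ℂ) ^ ((r : ℂ) - s) +
          ψ ((p : ℕ) : ZMod N) * ((p : ℕ) : ℂ) ^ ((i : ℂ) - 2 * s))⁻¹) (F (s - (i : ℂ) / 2))) ∧
      ∀ s : ℂ, (s.im ≠ 0 ∨ (i : ℝ) / 2 + 1 < s.re) → v * X (s - ((((i : ℝ) + 1) / 2 : ℝ) : ℂ)) =
        ((Real.sqrt N / (2 * Real.pi) : ℝ) : ℂ) ^ s * Complex.Gamma (s - r) * F (s - (i : ℂ) / 2) := by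
  have hpi := Real.pi_pos
  obtain ⟨X, F, hLD, hE⟩ := ld_new hk hf
  have hN0 : (0 : ℝ) < N := by exact_mod_cast Nat.pos_of_ne_zero (NeZero.ne N)
  have hsq : 0 < Real.sqrt N := Real.sqrt_pos.2 hN0
  obtain ⟨c, hc⟩ : ∃ c : ℝ, c = Real.sqrt N / (2 * Real.pi) := ⟨_, rfl⟩
  have hcp : 0 < c := by rw [hc]; positivity
  have hcc : (c : ℂ) ≠ 0 := by exact_mod_cast hcp.ne'
  have hir : (k : ℂ) + 2 * r = i + 1 := by exact_mod_cast hi
  have hik : (k : ℂ) = i + 1 - 2 * r := by linear_combination hir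
  have hre : ∀ s : ℂ, (s - (i : ℂ) / 2).re = s.re - (i : ℝ) / 2 := by
    intro s
    rw [Complex.sub_re]
    congr 1
    rw [show ((i : ℂ) / 2) = (((i : ℝ) / 2 : ℝ) : ℂ) by push_cast; ring, Complex.ofReal_re]
  have him : ∀ s : ℂ, (s - (i : ℂ) / 2).im = s.im := by
    intro s
    rw [Complex.sub_im, show ((i : ℂ) / 2) = (((i : ℝ) / 2 : ℝ) : ℂ) by push_cast; ring,
      Complex.ofReal_im, sub_zero]
  refine ⟨X, F, (c : ℂ) ^ ((i : ℂ) / 2), ?_, ?_, hLD, fun s hs => ?_, fun s hs => ?_⟩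
  · rw [Ne, Complex.cpow_eq_zero_iff]
    exact fun h => hcc h.1
  · have harg : ((c : ℂ)).arg ≠ Real.pi := by
      rw [Complex.arg_ofReal_of_nonneg hcp.le]
      exact Real.pi_pos.ne
    have h1 := Complex.cpow_conj (c : ℂ) ((i : ℂ) / 2) harg
    rw [Complex.conj_ofReal, map_div₀, Complex.conj_natCast, map_ofNat] at h1
    exact h1.symm
  · have hs' : 1 < (s - (i : ℂ) / 2).re := by
      rw [hre]; linarith
    have h1 := hE _ hs'
    convert h1 using 2 with p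
    have hp := p.2
    have hp0 : (0 : ℝ) < (p : ℕ) := by exact_mod_cast hp.pos
    have hpc : (((p : ℕ)) : ℂ) ≠ 0 := by exact_mod_cast hp.ne_zero
    have e1 : W388.lamC f p * ((p : ℕ) : ℂ) ^ (-(s - (i : ℂ) / 2)) =
        (qExpansion 1 f).coeff (p : ℕ) * ((p : ℕ) : ℂ) ^ ((r : ℂ) - s) := by
      unfold W388.lamC
      rw [Complex.ofReal_cpow hp0.le, Complex.ofReal_natCast]
      have e2 : ((((((k : ℕ) : ℤ) : ℝ) - 1) / 2 : ℝ) : ℂ) = ((k : ℂ) - 1) / 2 := by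
        push_cast
        ring
      rw [e2, div_mul_eq_mul_div, mul_div_assoc, ← Complex.cpow_sub _ _ hpc]
      congr 2
      rw [hik]
      ring
    have e3 : ((p : ℕ) : ℂ) ^ ((i : ℂ) - 2 * s) = ((p : ℕ) : ℂ) ^ (-2 * (s - (i : ℂ) / 2)) := by
      congr 1
      ring
    rw [e3, e1]
  · have e1 : s - ((((i : ℝ) + 1) / 2 : ℝ) : ℂ) = s - (i : ℂ) / 2 - 1 / 2 := by
      push_cast
      ring
    have h1 := hLD.eq (s - (i : ℂ) / 2 - 1 / 2) (by
      rcases hs with hs | hs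
      · left
        rw [Complex.sub_im, him]
        simpa using hs
      · right
        rw [Complex.sub_re, hre]
        norm_num
        linarith)
    rw [e1, h1]
    have e3 : (1 / 2 : ℂ) + (s - (i : ℂ) / 2 - 1 / 2) = s - (i : ℂ) / 2 := by ring
    rw [e3]
    unfold W388.GG
    rw [mul_one, ← hc]
    have e2 : s - (i : ℂ) / 2 + ((((k : ℕ) : ℤ) : ℂ) - 1) / 2 = s - r := by
      push_cast
      rw [hik]
      ring
    have e4 : (c : ℂ) ^ ((i : ℂ) / 2) * (c : ℂ) ^ (s - (i : ℂ) / 2) = (c : ℂ) ^ s := by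
      rw [← Complex.cpow_add _ _ hcc]
      congr 1
      ring
    rw [e2, ← e4]
    ring

/-- **the data of a sum of parts** -/
theorem data_parts {i n : ℕ} (M k r : Fin (n + 1) → ℕ) [∀ j, NeZero (M j)]
    (ψ : ∀ j, DirichletCharacter ℂ (M j))
    (f : ∀ j, CuspForm (Gamma1 (M j) : Subgroup (GL (Fin 2) ℝ)) (k j : ℤ)) (η : Fin (n + 1) → ℂ)
    (hk : ∀ j, 1 ≤ k j) (hf : ∀ j, W388.IsNewfC (M j) (k j) (ψ j) (f j) (η j))
    (hi : ∀ j, k j + 2 * r j = i + 1) :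
    ∃ L Λ : ℂ → ℂ, Differentiable ℂ L ∧
      (∀ s : ℂ, (i : ℝ) / 2 + 1 < s.re → HasProd (fun p : Nat.Primes =>
        (∏ j, (1 - (qExpansion 1 (f j)).coeff p * ((p : ℕ) : ℂ) ^ ((r j : ℂ) - s) +
          ψ j ((p : ℕ) : ZMod (M j)) * ((p : ℕ) : ℂ) ^ ((i : ℂ) - 2 * s)))⁻¹) (L s)) ∧
      Differentiable ℂ Λ ∧
      (∀ s : ℂ, (s.im ≠ 0 ∨ (i : ℝ) / 2 + 1 < s.re) → Λ s =
        (∏ j, (((Real.sqrt (M j) / (2 * Real.pi) : ℝ) : ℂ) ^ s * Complex.Gamma (s - r j))) * L s) ∧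
      (∃ W : ℂ, ‖W‖ = 1 ∧ ∀ s : ℂ, Λ (i + 1 - s) = W * conj (Λ (conj s))) ∧
      F2 ((2 * (n + 1) : ℕ) : ℝ) (((i : ℝ) + 1) / 2) L Λ := by
  choose X F v hv hvc hLD hE hG using fun j => one_part (hk j) (hf j) (hi j)
  have hprod := LD.prod Finset.univ hLD
  have hm : (∑ _j : Fin (n + 1), (2 : ℝ)) = ((2 * (n + 1) : ℕ) : ℝ) := by
    rw [Finset.sum_const, Finset.card_univ, Fintype.card_fin, nsmul_eq_mul]
    push_cast
    ring
  rw [hm] at hprod
  have hV : (∏ j, v j) ≠ 0 := Finset.prod_ne_zero_iff.2 fun j _ => hv j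
  have hVc : conj (∏ j, v j) = ∏ j, v j := by
    rw [map_prod]
    exact Finset.prod_congr rfl fun j _ => hvc j
  obtain ⟨x, hx⟩ : ∃ x : ℂ, x = ((((i : ℝ) + 1) / 2 : ℝ) : ℂ) := ⟨_, rfl⟩
  have hx2 : x = 1 / 2 + (i : ℂ) / 2 := by rw [hx]; push_cast; ring
  have hxc : conj x = x := by rw [hx, Complex.conj_ofReal]
  have hd : Differentiable ℂ fun s => (∏ j, v j) * ∏ j, X j (s - x) := by
    exact (hprod.slow.1.comp (by fun_prop : Differentiable ℂ fun s : ℂ => s - x)).const_mul _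
  refine ⟨fun s => ∏ j, F j (s - (i : ℂ) / 2), fun s => (∏ j, v j) * ∏ j, X j (s - x), ?_,
    fun s hs => ?_, hd, fun s hs => ?_, ?_, ?_⟩
  · exact hprod.diff.comp (by fun_prop : Differentiable ℂ fun s : ℂ => s - (i : ℂ) / 2)
  · have h1 := hasProd_prod (s := Finset.univ) fun j _ => hE j s hs
    refine h1.congr_fun fun p => ?_
    rw [Finset.prod_inv_distrib]
  · show (∏ j, v j) * ∏ j, X j (s - x) = _ * ∏ j, F j (s - (i : ℂ) / 2)
    rw [← Finset.prod_mul_distrib, ← Finset.prod_mul_distrib]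
    refine Finset.prod_congr rfl fun j _ => ?_
    rw [hx]
    exact hG j s hs
  · obtain ⟨ε, hε, hfe⟩ := hprod.fe
    refine ⟨ε, hε, fun s => ?_⟩
    have h1 := hfe (i + 1 - s - x)
    have e1 : -conj ((i : ℂ) + 1 - s - x) = conj s - x := by
      rw [map_sub, map_sub, map_add, map_one, Complex.conj_natCast, hxc, hx2]
      ring
    rw [e1] at h1
    show (∏ j, v j) * ∏ j, X j (i + 1 - s - x) = ε * conj ((∏ j, v j) * ∏ j, X j (conj s - x))
    rw [h1, map_mul, hVc]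
    ring
  · refine hprod.f2 (by positivity) (fun z => ?_) hV (fun z => ?_) hd
    · refine Finset.prod_congr rfl fun j _ => ?_
      congr 1
      rw [← hx, hx2]
      ring
    · rw [← hx]
      simp only [add_sub_cancel_left]

end Pool.Agent.K3h84.DL
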