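import Pool.Agent.K3h84.DL.Gam
import Pool.Agent.W355.UN.Fin

set_option autoImplicit false

/-! # Control of L-functions to the right of `Re s = 1` -/

namespace Pool.Agent.K3h84.DL

open Complex Filter Topology MeasureTheory Set
open scoped ComplexConjugate
open Pool.Agent.W355.UN (S_COEF lc_bound)

/-- control to the right of `Re s = 1` -/
def RC (L : ℂ → ℂ) : Prop := ∀ ρ : ℝ, 0 < ρ → ∃ B : ℝ, 1 ≤ B ∧ ∀ s : ℂ, 1 + ρ ≤ s.re →
  DifferentiableAt ℂ L s ∧ L s ≠ 0 ∧ ‖logDeriv L s‖ ≤ B ∧ B⁻¹ ≤ ‖L s‖ ∧ ‖L s‖ ≤ B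

lemma RC.mul {L1 L2 : ℂ → ℂ} (h1 : RC L1) (h2 : RC L2) : RC (fun s => L1 s * L2 s) := by
  intro ρ hρ
  obtain ⟨B1, hB1, h1⟩ := h1 ρ hρ
  obtain ⟨B2, hB2, h2⟩ := h2 ρ hρ
  refine ⟨max (B1 + B2) (B1 * B2), le_max_of_le_left (by linarith), fun s hs => ?_⟩
  obtain ⟨a1, a2, a3, a4, a5⟩ := h1 s hs
  obtain ⟨b1, b2, b3, b4, b5⟩ := h2 s hs
  refine ⟨a1.mul b1, mul_ne_zero a2 b2, ?_, ?_, ?_⟩
  · rw [logDeriv_mul s a2 b2 a1 b1]
    exact ((norm_add_le _ _).trans (add_le_add a3 b3)).trans (le_max_left _ _)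
  · have h3 : (max (B1 + B2) (B1 * B2))⁻¹ ≤ (B1 * B2)⁻¹ :=
      inv_anti₀ (by positivity) (le_max_right _ _)
    refine h3.trans ?_
    rw [mul_inv, norm_mul]
    have : 0 ≤ B2⁻¹ := by positivity
    gcongr
  · rw [norm_mul]
    refine le_trans ?_ (le_max_right _ _)
    gcongr

lemma RC.one : RC (fun _ => 1) := by
  intro ρ hρ
  refine ⟨1, le_rfl, fun s _ => ⟨differentiableAt_const _, one_ne_zero, ?_, ?_, ?_⟩⟩
  · rw [logDeriv_apply]; simp
  · simp
  · simp

lemma RC.pow {L : ℂ → ℂ} (h : RC L) (n : ℕ) : RC (fun s => L s ^ n) := by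
  induction n with
  | zero => simpa using RC.one
  | succ n ih =>
    simp only [pow_succ]
    exact ih.mul h

lemma RC.prod {ι : Type} (S : Finset ι) {L : ι → ℂ → ℂ} (h : ∀ i, RC (L i)) :
    RC (fun s => ∏ i ∈ S, L i s) := by
  classical
  induction S using Finset.induction_on with
  | empty => simpa using RC.one
  | insert a S ha ih =>
    simp only [Finset.prod_insert ha]
    exact (h a).mul ih

lemma RC.congr {L L' : ℂ → ℂ} (h : RC L) (he : ∀ s : ℂ, 1 < s.re → L' s = L s) : RC L' := by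
  intro ρ hρ
  obtain ⟨B, hB, h⟩ := h ρ hρ
  refine ⟨B, hB, fun s hs => ?_⟩
  obtain ⟨a1, a2, a3, a4, a5⟩ := h s hs
  have hev : L' =ᶠ[𝓝 s] L := by
    have o1 : IsOpen {w : ℂ | 1 < w.re} := isOpen_lt continuous_const Complex.continuous_re
    filter_upwards [o1.mem_nhds (show 1 < s.re by linarith)] with w hw
    exact he w hw
  have e1 := hev.eq_of_nhds
  refine ⟨a1.congr_of_eventuallyEq hev, by rw [e1]; exact a2, ?_, by rw [e1]; exact a4,
    by rw [e1]; exact a5⟩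
  rw [logDeriv_apply, hev.deriv_eq, e1]
  exact a3

/-- L-functions given by coefficients -/
lemma RC.of_conv (hC : S_COEF) {m : ℕ} {b c : ℕ → ℂ} (h1 : b 1 = 1) (hc : ∀ n, ‖c n‖ ≤ m)
    (hconv : Pool.Agent.W355.UN.Conv b c) : RC (LSeries b) := by
  intro ρ hρ
  have hsum : ∀ s : ℂ, 1 < s.re → LSeriesSummable b s := fun s hs => (hC m b c h1 hc hconv s hs).1
  have habs : LSeries.abscissaOfAbsConv b ≤ 1 := by
    refine LSeries.abscissaOfAbsConv_le_of_forall_lt_LSeriesSummable' fun y hy => ?_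
    refine hsum _ ?_
    rw [Complex.ofReal_re]
    exact_mod_cast hy
  have hd : ∀ s : ℂ, 1 < s.re → DifferentiableAt ℂ (LSeries b) s := by
    intro s hs
    refine (LSeries_analyticOnNhd b s ?_).differentiableAt
    refine lt_of_le_of_lt habs ?_
    exact_mod_cast hs
  -- the logarithmic derivative
  obtain ⟨B0, hB0⟩ : ∃ B0 : ℝ, B0 = m * ∑' n : ℕ,
      ‖LSeries.term (fun n => ((ArithmeticFunction.vonMangoldt n : ℝ) : ℂ)) (1 + ρ) n‖ := ⟨_, rfl⟩
  have hB00 : 0 ≤ B0 := by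
    rw [hB0]
    have : 0 ≤ ∑' n : ℕ, ‖LSeries.term (fun n => ((ArithmeticFunction.vonMangoldt n : ℝ) : ℂ)) (1 + ρ) n‖ :=
      tsum_nonneg fun _ => norm_nonneg _
    positivity
  have hlog : ∀ s : ℂ, 1 + ρ ≤ s.re → ‖logDeriv (LSeries b) s‖ ≤ B0 := by
    intro s hs
    rw [(hC m b c h1 hc hconv s (by linarith)).2.2, norm_neg, hB0]
    exact lc_bound hc hρ hs
  have hne : ∀ s : ℂ, 1 < s.re → LSeries b s ≠ 0 := fun s hs => (hC m b c h1 hc hconv s hs).2.1
  -- upper bound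
  obtain ⟨S1, hS1⟩ : ∃ S1 : ℝ, S1 = ∑' n : ℕ, ‖LSeries.term b ((1 + ρ : ℝ) : ℂ) n‖ := ⟨_, rfl⟩
  have hup : ∀ s : ℂ, 1 + ρ ≤ s.re → ‖LSeries b s‖ ≤ S1 := by
    intro s hs
    have a1 := (hsum s (by linarith)).norm
    have a2 := (hsum ((1 + ρ : ℝ) : ℂ) (by rw [Complex.ofReal_re]; linarith)).norm
    unfold LSeries
    refine (norm_tsum_le_tsum_norm a1).trans ?_
    rw [hS1]
    exact a1.tsum_le_tsum (fun n => LSeries.norm_term_le_of_re_le_re b (by
      rw [Complex.ofReal_re]; exact hs) n) a2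
  -- close to one far to the right
  obtain ⟨S2, hS2⟩ : ∃ S2 : ℝ, S2 = ∑' n : ℕ, ‖LSeries.term b (2 : ℂ) n‖ := ⟨_, rfl⟩
  have hS20 : 0 ≤ S2 := by rw [hS2]; exact tsum_nonneg fun _ => norm_nonneg _
  have hs2 := (hsum 2 (by norm_num)).norm
  obtain ⟨k, hk⟩ := exists_pow_lt_of_lt_one (show (0 : ℝ) < 1 / (2 * (S2 + 1)) by positivity)
    (show (1 / 2 : ℝ) < 1 by norm_num)
  have hclose : ∀ s : ℂ, 2 + (k : ℝ) ≤ s.re → 1 / 2 ≤ ‖LSeries b s‖ := by
    intro s hs
    have hk0 : (0 : ℝ) ≤ k := Nat.cast_nonneg k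
    have a1 := hsum s (by linarith)
    have e1 : LSeries b s = LSeries.term b s 1 + ∑' n : ℕ, ite (n = 1) 0 (LSeries.term b s n) := by
      unfold LSeries
      exact a1.tsum_eq_add_tsum_ite 1
    have e2 : LSeries.term b s 1 = 1 := by
      rw [LSeries.term_of_ne_zero one_ne_zero, h1]
      simp
    have hle : ∀ n : ℕ, ‖(ite (n = 1) 0 (LSeries.term b s n) : ℂ)‖ ≤
        (1 / 2 : ℝ) ^ k * ‖LSeries.term b (2 : ℂ) n‖ := by
      intro n
      split_ifs with hn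
      · rw [norm_zero]; positivity
      · rw [LSeries.norm_term_eq, LSeries.norm_term_eq]
        split_ifs with hn0
        · simp
        · have hn2 : 2 ≤ n := by omega
          have hn2' : (2 : ℝ) ≤ n := by exact_mod_cast hn2
          have hn0' : (0 : ℝ) < n := by linarith
          have e3 : (2 : ℂ).re = 2 := by norm_num
          rw [e3, mul_div_assoc', div_le_div_iff₀ (by positivity) (by positivity)]
          have h4 : (n : ℝ) ^ (2 : ℝ) * (2 : ℝ) ^ k ≤ (n : ℝ) ^ s.re := by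
            calc (n : ℝ) ^ (2 : ℝ) * (2 : ℝ) ^ k ≤ (n : ℝ) ^ (2 : ℝ) * (n : ℝ) ^ k := by gcongr
              _ = (n : ℝ) ^ (2 + (k : ℝ)) := by
                  rw [Real.rpow_add hn0', Real.rpow_natCast]
              _ ≤ _ := Real.rpow_le_rpow_of_exponent_le (by linarith) hs
          have h5 : (1 / 2 : ℝ) ^ k * (2 : ℝ) ^ k = 1 := by rw [← mul_pow]; norm_num
          calc ‖b n‖ * (n : ℝ) ^ (2 : ℝ) = (1 / 2 : ℝ) ^ k * ‖b n‖ * ((n : ℝ) ^ (2 : ℝ) * (2 : ℝ) ^ k) := by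
                linear_combination (-(‖b n‖ * (n : ℝ) ^ (2 : ℝ))) * h5
            _ ≤ _ := by gcongr
    have h6 : ‖∑' n : ℕ, (ite (n = 1) 0 (LSeries.term b s n) : ℂ)‖ ≤ 1 / 2 := by
      have h7 := tsum_of_norm_bounded (hs2.mul_left ((1 / 2 : ℝ) ^ k)).hasSum hle
      rw [tsum_mul_left, ← hS2] at h7
      refine h7.trans ?_
      calc (1 / 2 : ℝ) ^ k * S2 ≤ 1 / (2 * (S2 + 1)) * (S2 + 1) := by
            gcongr
            linarith
        _ = 1 / 2 := by field_simp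
    rw [e1, e2]
    have h8 := norm_sub_norm_le (1 : ℂ) (-∑' n : ℕ, (ite (n = 1) 0 (LSeries.term b s n) : ℂ))
    rw [norm_neg, norm_one, sub_neg_eq_add] at h8
    linarith
  -- lower bound
  obtain ⟨R, hR⟩ : ∃ R : ℝ, R = 2 + (k : ℝ) := ⟨_, rfl⟩
  rw [← hR] at hclose
  have hR0 : 0 ≤ R := by rw [hR]; positivity
  have hlow : ∀ s : ℂ, 1 + ρ ≤ s.re → 1 / 2 * Real.exp (-(B0 * R)) ≤ ‖LSeries b s‖ := by
    intro s hs
    by_cases hc2 : R ≤ s.re
    · refine le_trans ?_ (hclose s hc2)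
      have : Real.exp (-(B0 * R)) ≤ 1 := Real.exp_le_one_iff.2 (by
        have : 0 ≤ B0 * R := by positivity
        linarith)
      linarith
    · rw [not_le] at hc2
      have hpt : ∀ τ ∈ Icc (0 : ℝ) 1, 1 + ρ ≤ (s + (τ : ℂ) * ((R - s.re : ℝ) : ℂ)).re := by
        intro τ hτ
        have e1 : (s + (τ : ℂ) * ((R - s.re : ℝ) : ℂ)).re = s.re + τ * (R - s.re) := by simp
        rw [e1]
        have : 0 ≤ τ * (R - s.re) := mul_nonneg hτ.1 (by linarith)
        linarith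
      have hseg := seg (F := LSeries b) (s := s) (v := ((R - s.re : ℝ) : ℂ)) (ℓ := 0) (K := B0)
        (fun τ hτ => hd _ (by linarith [hpt τ hτ])) (fun τ hτ => hne _ (by linarith [hpt τ hτ]))
        (fun τ hτ => by
          rw [Complex.ofReal_zero, sub_zero]
          exact hlog _ (hpt τ hτ))
      have h3 := hclose (s + ((R - s.re : ℝ) : ℂ)) (by
        rw [Complex.add_re, Complex.ofReal_re]; linarith)
      rw [zero_mul, zero_add, Complex.norm_real, Real.norm_eq_abs,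
        abs_of_pos (by linarith : 0 < R - s.re)] at hseg
      have h4 : Real.exp (B0 * (R - s.re)) ≤ Real.exp (B0 * R) := by
        apply Real.exp_le_exp.2
        have : 0 ≤ s.re := by linarith
        gcongr
        linarith
      have h5 : 1 / 2 ≤ ‖LSeries b s‖ * Real.exp (B0 * R) :=
        h3.trans (hseg.trans (by gcongr))
      have h6 := mul_le_mul_of_nonneg_right h5 (Real.exp_pos (-(B0 * R))).le
      rwa [mul_assoc, ← Real.exp_add, add_neg_cancel, Real.exp_zero, mul_one] at h6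
  refine ⟨max (max 1 B0) (max S1 (2 * Real.exp (B0 * R))), le_max_of_le_left (le_max_left _ _),
    fun s hs => ⟨hd s (by linarith), hne s (by linarith), ?_, ?_, ?_⟩⟩
  · exact (hlog s hs).trans ((le_max_right _ _).trans (le_max_left _ _))
  · refine le_trans ?_ (hlow s hs)
    have h3 : (max (max 1 B0) (max S1 (2 * Real.exp (B0 * R))))⁻¹ ≤ (2 * Real.exp (B0 * R))⁻¹ :=
      inv_anti₀ (by positivity) ((le_max_right _ _).trans (le_max_right _ _))
    refine h3.trans (le_of_eq ?_)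
    rw [mul_inv, ← Real.exp_neg]
    norm_num
  · exact (hup s hs).trans ((le_max_left _ _).trans (le_max_right _ _))

end Pool.Agent.K3h84.DL
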