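import Pool.Agent.K3h84.DL.RCl
import Pool.Agent.K3h84.DL.Fin
import Pool.Agent.K3h84.DL.NLc

set_option autoImplicit false

/-! # L-functions given by their Dirichlet coefficients -/

open Complex Filter Topology Set
open scoped ComplexConjugate

namespace Pool.Agent.K3h84.DL

open Pool.Agent.W355.UN (Raw)

variable {m r : ℕ} {N : ℝ} {a : Fin m → ℂ} {b c : ℕ → ℂ} {X L : ℂ → ℂ}

/-- the formula for `X` to the right of `Re s = 1` -/
lemma eq_gen (hN : 0 < N) (hX : Differentiable ℂ X) (hRC : RC L)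
    (heq : ∃ σ : ℝ, ∀ s : ℂ, σ ≤ s.re → X s = (s * (s - 1)) ^ r *
      ((N : ℂ) ^ (s / 2) * ∏ j, Gammaℝ (s + a j)) * L s) : ∃ T0 : ℝ, ∀ z : ℂ, T0 ≤ z.im → 1 / 2 < z.re →
    X (1 / 2 + z) = gc r N a z * L (1 / 2 + z) := by
  obtain ⟨-, T0, hg⟩ := GA.full (r := r) hN a
  obtain ⟨σ, hσ⟩ := heq
  have hLd : ∀ s : ℂ, 1 < s.re → DifferentiableAt ℂ L s := by
    intro s hs
    obtain ⟨B, -, hB⟩ := hRC (s.re - 1) (by linarith)
    exact (hB s (by linarith)).1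
  refine ⟨T0 + 1, fun z hz hz2 => ?_⟩
  obtain ⟨U, hU⟩ : ∃ U : Set ℂ, U = {w : ℂ | 1 / 2 < w.re} ∩ {w : ℂ | T0 < w.im} := ⟨_, rfl⟩
  have hUo : IsOpen U := by
    rw [hU]
    exact (isOpen_lt continuous_const Complex.continuous_re).inter
      (isOpen_lt continuous_const Complex.continuous_im)
  have hUc : Convex ℝ U := by
    rw [hU]
    exact (convex_halfSpace_re_gt _).inter (convex_halfSpace_im_gt _)
  have h1 : AnalyticOnNhd ℂ (fun w => X (1 / 2 + w)) U := by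
    refine DifferentiableOn.analyticOnNhd (fun w _ => ?_) hUo
    exact (DifferentiableAt.comp (g := X) (f := fun w : ℂ => 1 / 2 + w) w (hX _)
      (by fun_prop)).differentiableWithinAt
  have h2 : AnalyticOnNhd ℂ (fun w => gc r N a w * L (1 / 2 + w)) U := by
    refine DifferentiableOn.analyticOnNhd (fun w hw => ?_) hUo
    rw [hU] at hw
    have w1 : 1 / 2 < w.re := hw.1
    have w2 : T0 < w.im := hw.2
    have w3 : 1 < (1 / 2 + w).re := by simp; linarith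
    have d1 : DifferentiableAt ℂ (gc r N a) w := (hg w w2.le).1
    have d2 : DifferentiableAt ℂ (fun w => L (1 / 2 + w)) w :=
      DifferentiableAt.comp (g := L) (f := fun w : ℂ => 1 / 2 + w) w (hLd _ w3) (by fun_prop)
    exact (d1.mul d2).differentiableWithinAt
  obtain ⟨z0, hz0⟩ : ∃ z0 : ℂ, z0 = ((max σ (1 / 2) + 1 : ℝ) : ℂ) + ((T0 + 1 : ℝ) : ℂ) * I := ⟨_, rfl⟩
  have hz0r : z0.re = max σ (1 / 2) + 1 := by rw [hz0]; simp
  have hz0i : z0.im = T0 + 1 := by rw [hz0]; simp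
  have hz0U : z0 ∈ U := by
    rw [hU]
    constructor
    · show 1 / 2 < z0.re
      rw [hz0r]; have := le_max_right σ (1 / 2); linarith
    · show T0 < z0.im
      rw [hz0i]; linarith
  refine h1.eqOn_of_preconnected_of_eventuallyEq h2 hUc.isPreconnected hz0U ?_ (?_ : z ∈ U)
  · have h3 : ∀ᶠ w : ℂ in 𝓝 z0, σ < w.re :=
      (Complex.continuous_re.tendsto _).eventually (lt_mem_nhds (by
        rw [hz0r]; have := le_max_left σ (1 / 2); linarith))
    filter_upwards [h3] with w hw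
    have := hσ (1 / 2 + w) (by simp; linarith)
    rw [this]
    rfl
  · rw [hU]
    exact ⟨hz2, by show T0 < z.im; linarith⟩

/-- **the centred data** -/
theorem cd_gen (hm : 1 ≤ m) (hN : 0 < N) (hslow : Differentiable ℂ X ∧ ∀ δ : ℝ, 0 < δ →
      ∃ K : ℝ, 0 < K ∧ ∀ z : ℂ, ‖X z‖ ≤ K * Real.exp (δ * ‖z‖ ^ 2))
    (hfe : ∃ ε : ℂ, ‖ε‖ = 1 ∧ ∀ s : ℂ, X s = ε * conj (X (1 - conj s))) (hRC : RC L)
    (heq : ∃ σ : ℝ, ∀ s : ℂ, σ ≤ s.re → X s = (s * (s - 1)) ^ r *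
      ((N : ℂ) ^ (s / 2) * ∏ j, Gammaℝ (s + a j)) * L s) : CD m (gc r N a) (fun z => X (1 / 2 + z)) := by
  obtain ⟨hg1, hg2⟩ := GA.full (r := r) hN a
  obtain ⟨T0, hT0⟩ := eq_gen hN hslow.1 hRC heq
  refine ⟨by exact_mod_cast hm, hg1, hg2, ⟨?_, ?_⟩, ?_, ?_⟩
  · exact hslow.1.comp (by fun_prop : Differentiable ℂ fun z : ℂ => 1 / 2 + z)
  · intro δ hδ
    obtain ⟨K, hK, hs⟩ := hslow.2 (δ / 2) (by linarith)
    refine ⟨K * Real.exp δ, by positivity, fun z => (hs _).trans ?_⟩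
    rw [mul_assoc, ← Real.exp_add]
    have h1 : ‖(1 / 2 : ℂ) + z‖ ≤ 1 / 2 + ‖z‖ := by
      refine (norm_add_le _ _).trans (le_of_eq ?_)
      norm_num
    have h2 : ‖(1 / 2 : ℂ) + z‖ ^ 2 ≤ 1 / 2 + 2 * ‖z‖ ^ 2 := by
      have h3 : ‖(1 / 2 : ℂ) + z‖ ^ 2 ≤ (1 / 2 + ‖z‖) ^ 2 := by gcongr
      nlinarith [sq_nonneg (1 / 2 - ‖z‖)]
    have h4 : δ / 2 * ‖(1 / 2 : ℂ) + z‖ ^ 2 ≤ δ + δ * ‖z‖ ^ 2 := by
      have : δ / 2 * ‖(1 / 2 : ℂ) + z‖ ^ 2 ≤ δ / 2 * (1 / 2 + 2 * ‖z‖ ^ 2) := by gcongr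
      linarith
    gcongr
  · obtain ⟨ε, hε, hfe⟩ := hfe
    refine ⟨ε, hε, fun z => ?_⟩
    rw [hfe (1 / 2 + z)]
    have e1 : (1 : ℂ) - conj (1 / 2 + z) = 1 / 2 + -conj z := by
      rw [map_add, map_div₀, map_one, map_ofNat]; ring
    rw [e1]
  · intro ρ hρ
    obtain ⟨T1, hg2⟩ := hg2
    obtain ⟨B, hB, hE⟩ := hRC ρ hρ
    refine ⟨B, max (T0 + 1) T1, hB, fun z hz hz2 => ?_⟩
    have u1 : T0 + 1 ≤ z.im := (le_max_left _ _).trans hz
    have u2 : T1 ≤ z.im := (le_max_right _ _).trans hz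
    have hg0 : gc r N a z ≠ 0 := (hg2 z u2).2
    have w3 : 1 + ρ ≤ (1 / 2 + z).re := by simp; linarith
    obtain ⟨e0, e1, e2, e3, e4⟩ := hE (1 / 2 + z) w3
    have hX : ∀ w : ℂ, T0 ≤ w.im → 1 / 2 < w.re → gc r N a w ≠ 0 →
        X (1 / 2 + w) / gc r N a w = L (1 / 2 + w) := by
      intro w hw1 hw2 hw3
      rw [hT0 w hw1 hw2, mul_div_cancel_left₀ _ hw3]
    have hXz := hX z (by linarith) (by linarith) hg0
    refine ⟨?_, ?_, ?_, ?_⟩
    · rw [hXz]; exact e1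
    · have hev : (fun w => X (1 / 2 + w) / gc r N a w) =ᶠ[𝓝 z] fun w => L (1 / 2 + w) := by
        have o1 : IsOpen {w : ℂ | T0 < w.im} := isOpen_lt continuous_const Complex.continuous_im
        have o2 : IsOpen {w : ℂ | 1 / 2 < w.re} := isOpen_lt continuous_const Complex.continuous_re
        have o3 : ∀ᶠ w in 𝓝 z, gc r N a w ≠ 0 :=
          ContinuousAt.eventually_ne (hg2 z u2).1.continuousAt hg0
        filter_upwards [o1.mem_nhds (show T0 < z.im by linarith),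
          o2.mem_nhds (show 1 / 2 < z.re by linarith), o3] with w hw1 hw2 hw3
        exact hX w (le_of_lt hw1) hw2 hw3
      have h3 : logDeriv (fun w => X (1 / 2 + w) / gc r N a w) z = logDeriv L (1 / 2 + z) := by
        rw [logDeriv_apply, logDeriv_apply, hev.deriv_eq, hev.eq_of_nhds, deriv_comp_const_add]
      rw [h3]; exact e2
    · rw [hXz]; exact e3
    · rw [hXz]; exact e4

/-- the data of an L-function given by its coefficients -/
theorem cd_of_raw (h : Raw m r N a b c X) : CD m (gc r N a) (fun z => X (1 / 2 + z)) := by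
  have hs : Pool.Agent.W169.HF.Slow X := Raw.slow Pool.Agent.W672.UN.coef Pool.Agent.W12.UN.slow
    Pool.Agent.W215.UN.gam h
  refine cd_gen h.hm (by linarith [h.hN]) ⟨hs.1, fun δ hδ => ?_⟩ h.fe
    (RC.of_conv Pool.Agent.W672.UN.coef h.one h.cb h.conv) h.eq
  exact hs.2 δ hδ

end Pool.Agent.K3h84.DL
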