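import Pool.Agent.H986R2.K4.AW
import Pool.Agent.H986R2.K4.Lap

set_option autoImplicit false

/-!
# Derivatives of L-functions to the left of the critical line: standing data

`f` is an L-function, centred so that the critical line is `Re z = 0`; `fl f z = conj f(-conj z)` is the
reflected function; its zeros with `Re z > 0` are the reflections of the zeros of `f` with `Re z < 0`.
-/

namespace Pool.Agent.K3h84.DL

open Complex Filter Topology MeasureTheory Set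
open scoped ComplexConjugate

/-- the reflected function -/
noncomputable def fl (f : ℂ → ℂ) (z : ℂ) : ℂ := conj (f (-conj z))

/-- an L-function of degree `m` with functional equation, high up in the upper half-plane -/
structure RD (m : ℝ) (f Ψ : ℂ → ℂ) : Prop where
  hm : 0 < m
  psi : ∃ K T0 : ℝ, 1 ≤ K ∧ 1 ≤ T0 ∧ ∀ z : ℂ, T0 ≤ z.im → |z.re| ≤ z.im / 2 →
    DifferentiableAt ℂ Ψ z ∧ Ψ z ≠ 0 ∧ ‖logDeriv Ψ z - ((m * Real.log z.im : ℝ) : ℂ)‖ ≤ K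
  unit : ∃ T0 : ℝ, ∀ t : ℝ, T0 ≤ t → ‖Ψ (I * t)‖ = 1
  diff : ∃ T0 : ℝ, ∀ z : ℂ, T0 ≤ z.im → DifferentiableAt ℂ f z
  fe : ∃ T0 : ℝ, ∀ z : ℂ, T0 ≤ z.im → |z.re| ≤ z.im / 2 → fl f z = Ψ z * f z
  right : ∀ ρ : ℝ, 0 < ρ → ∃ B T0 : ℝ, 1 ≤ B ∧ ∀ z : ℂ, T0 ≤ z.im → 1 / 2 + ρ ≤ z.re →
    f z ≠ 0 ∧ ‖logDeriv f z‖ ≤ B ∧ B⁻¹ ≤ ‖f z‖ ∧ ‖f z‖ ≤ B
  conv : ∀ ϑ : ℝ, 0 < ϑ → ϑ ≤ 1 →
    (∀ ε : ℝ, 0 < ε → ∃ T : ℝ, ∀ z : ℂ, T ≤ z.im → z.re = ϑ → ‖f z‖ ≤ z.im ^ ε) →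
    ∀ ε : ℝ, 0 < ε → ∃ T : ℝ, ∀ z : ℂ, T ≤ z.im → |z.re| ≤ ϑ →
      ‖f z‖ ≤ z.im ^ (m / 2 * (ϑ - z.re) + ε)

/-- control to the right of `Re z = y` -/
def ZB (f : ℂ → ℂ) (y : ℝ) : Prop := ∀ ε : ℝ, 0 < ε → ∃ t1 : ℝ, 2 ≤ t1 ∧ ∀ z : ℂ, y + ε ≤ z.re →
  t1 ≤ z.im → f z ≠ 0 ∧ ‖logDeriv f z‖ ≤ ε * Real.log z.im ∧ z.im ^ (-ε) ≤ ‖f z‖ ∧ ‖f z‖ ≤ z.im ^ ε

/-- only finitely many zeros (in bounded height) to the right of `Re z = y + ε`, for every `ε` -/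
def EF (f : ℂ → ℂ) (y : ℝ) : Prop := ∀ ε : ℝ, 0 < ε → ∃ T : ℝ, ∀ z : ℂ, T ≤ z.im → y + ε ≤ z.re → f z ≠ 0

variable {m : ℝ} {f Ψ : ℂ → ℂ}

/-- growth along a segment -/
lemma seg {F : ℂ → ℂ} {s v : ℂ} {ℓ K : ℝ}
    (hd : ∀ τ ∈ Icc (0 : ℝ) 1, DifferentiableAt ℂ F (s + τ * v))
    (h0 : ∀ τ ∈ Icc (0 : ℝ) 1, F (s + τ * v) ≠ 0)
    (hK : ∀ τ ∈ Icc (0 : ℝ) 1, ‖logDeriv F (s + τ * v) - ℓ‖ ≤ K) :
    ‖F (s + v)‖ ≤ ‖F s‖ * Real.exp (ℓ * v.re + K * ‖v‖) := by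
  obtain ⟨h, hh⟩ : ∃ h : ℝ → ℂ, h = fun τ : ℝ => F (s + (τ : ℂ) * v) * cexp (-((ℓ : ℂ) * ((τ : ℂ) * v))) := ⟨_, rfl⟩
  have hder : ∀ τ ∈ Icc (0 : ℝ) 1, HasDerivAt h (h τ * ((logDeriv F (s + τ * v) - ℓ) * v)) τ := by
    intro τ hτ
    have h1 : HasDerivAt (fun x : ℝ => s + (x : ℂ) * v) v τ := by
      have := ((hasDerivAt_id (τ : ℝ)).ofReal_comp.mul_const v).const_add s
      simpa using this
    have h2 : HasDerivAt (fun x : ℝ => F (s + (x : ℂ) * v)) (deriv F (s + τ * v) * v) τ :=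
      HasDerivAt.comp_of_eq (h₂ := F) τ (hd τ hτ).hasDerivAt h1 rfl
    have h3 : HasDerivAt (fun x : ℝ => -((ℓ : ℂ) * ((x : ℂ) * v))) (-((ℓ : ℂ) * v)) τ := by
      have := (((hasDerivAt_id (τ : ℝ)).ofReal_comp.mul_const v).const_mul (ℓ : ℂ)).fun_neg
      simpa using this
    have h4 := h2.fun_mul h3.cexp
    rw [hh]
    refine h4.congr_deriv ?_
    have h5 := h0 τ hτ
    rw [logDeriv_apply]
    field_simp
    ring
  have hb := norm_le_gronwallBound_of_norm_deriv_right_le (f := h)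
    (f' := fun τ => h τ * ((logDeriv F (s + τ * v) - ℓ) * v)) (δ := ‖F s‖) (K := K * ‖v‖) (ε := 0)
    (a := 0) (b := 1) (fun τ hτ => (hder τ hτ).continuousAt.continuousWithinAt)
    (fun τ hτ => (hder τ ⟨hτ.1, hτ.2.le⟩).hasDerivWithinAt)
    (by rw [hh]; simp)
    (fun τ hτ => by
      rw [norm_mul, norm_mul, add_zero, mul_comm]
      have := hK τ ⟨hτ.1, hτ.2.le⟩
      gcongr) 1 (by simp)
  rw [gronwallBound_ε0, hh] at hb
  simp only [ofReal_one, one_mul, sub_zero, mul_one] at hb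
  rw [norm_mul, Complex.norm_exp] at hb
  have e1 : (-((ℓ : ℂ) * v)).re = -(ℓ * v.re) := by simp
  rw [e1] at hb
  calc ‖F (s + v)‖ = ‖F (s + v)‖ * Real.exp (-(ℓ * v.re)) * Real.exp (ℓ * v.re) := by
        rw [mul_assoc, ← Real.exp_add]; simp
    _ ≤ ‖F s‖ * Real.exp (K * ‖v‖) * Real.exp (ℓ * v.re) := by gcongr
    _ = _ := by rw [Real.exp_add]; ring

lemma fl_apply (f : ℂ → ℂ) (z : ℂ) : fl f z = conj (f (-conj z)) := rfl

lemma norm_fl (f : ℂ → ℂ) (z : ℂ) : ‖fl f z‖ = ‖f (-conj z)‖ := by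
  rw [fl_apply, RCLike.norm_conj]

lemma fl_fl (f : ℂ → ℂ) : fl (fl f) = f := by
  funext z
  simp [fl]

lemma nc_re (z : ℂ) : (-conj z).re = -z.re := by simp

lemma nc_im (z : ℂ) : (-conj z).im = z.im := by simp

/-- derivative of the reflected function -/
lemma fl_hasDeriv {f : ℂ → ℂ} {z f' : ℂ} (h : HasDerivAt f f' (-conj z)) :
    HasDerivAt (fl f) (-conj f') z := by
  have h1 : HasDerivAt (fun w => f (-w)) (-f') (conj z) := by
    have := HasDerivAt.comp (conj z) h (hasDerivAt_neg (conj z))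
    simpa [Function.comp_def] using this
  have h2 := h1.conj_conj
  rw [Complex.conj_conj, map_neg] at h2
  exact h2

lemma fl_diff {f : ℂ → ℂ} {z : ℂ} (h : DifferentiableAt ℂ f (-conj z)) : DifferentiableAt ℂ (fl f) z :=
  (fl_hasDeriv h.hasDerivAt).differentiableAt

/-- the combined data -/
lemma RD.all (h : RD m f Ψ) : ∃ K T0 : ℝ, 1 ≤ K ∧ 2 ≤ T0 ∧ (∀ z : ℂ, T0 ≤ z.im → |z.re| ≤ z.im / 2 →
    DifferentiableAt ℂ Ψ z ∧ Ψ z ≠ 0 ∧ ‖logDeriv Ψ z - ((m * Real.log z.im : ℝ) : ℂ)‖ ≤ K ∧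
    fl f z = Ψ z * f z) ∧
    (∀ z : ℂ, T0 ≤ z.im → DifferentiableAt ℂ f z ∧ DifferentiableAt ℂ (fl f) z) ∧
    (∀ z : ℂ, T0 ≤ z.im → |z.re| ≤ z.im / 2 →
      Real.exp (m * z.re * Real.log z.im - K * |z.re|) ≤ ‖Ψ z‖ ∧
      ‖Ψ z‖ ≤ Real.exp (m * z.re * Real.log z.im + K * |z.re|)) := by
  obtain ⟨K, T1, hK, hT1, hpsi⟩ := h.psi
  obtain ⟨T2, hu⟩ := h.unit
  obtain ⟨T3, hd⟩ := h.diff
  obtain ⟨T4, hfe⟩ := h.fe
  refine ⟨K, max (max T1 T2) (max (max T3 T4) 2), hK,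
    (le_max_right _ _).trans (le_max_right _ _), ?_, ?_, ?_⟩
  · intro z hz hz2
    have a1 : T1 ≤ z.im := ((le_max_left _ _).trans (le_max_left _ _)).trans hz
    have a4 : T4 ≤ z.im := ((le_max_right _ _).trans ((le_max_left _ _).trans (le_max_right _ _))).trans hz
    obtain ⟨b1, b2, b3⟩ := hpsi z a1 hz2
    exact ⟨b1, b2, b3, hfe z a4 hz2⟩
  · intro z hz
    have a3 : T3 ≤ z.im := ((le_max_left _ _).trans ((le_max_left _ _).trans (le_max_right _ _))).trans hz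
    exact ⟨hd z a3, fl_diff (hd _ (by rw [nc_im]; exact a3))⟩
  · intro z hz hz2
    have a1 : T1 ≤ z.im := ((le_max_left _ _).trans (le_max_left _ _)).trans hz
    have a2 : T2 ≤ z.im := ((le_max_right _ _).trans (le_max_left _ _)).trans hz
    have him : 0 < z.im := by linarith
    have hre := abs_le.1 hz2
    have e0 : I * (z.im : ℂ) + (z.re : ℂ) = z := by
      apply Complex.ext <;> simp
    have hnv : ‖((z.re : ℝ) : ℂ)‖ = |z.re| := by rw [Complex.norm_real, Real.norm_eq_abs]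
    have hpt : ∀ c : ℝ, 0 ≤ c → c ≤ 1 → DifferentiableAt ℂ Ψ (I * (z.im : ℂ) + ((c * z.re : ℝ) : ℂ)) ∧
        Ψ (I * (z.im : ℂ) + ((c * z.re : ℝ) : ℂ)) ≠ 0 ∧
        ‖logDeriv Ψ (I * (z.im : ℂ) + ((c * z.re : ℝ) : ℂ)) - ((m * Real.log z.im : ℝ) : ℂ)‖ ≤ K := by
      intro c hc0 hc1
      have i1 : (I * (z.im : ℂ) + ((c * z.re : ℝ) : ℂ)).im = z.im := by simp
      have r1 : (I * (z.im : ℂ) + ((c * z.re : ℝ) : ℂ)).re = c * z.re := by simp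
      have := hpsi (I * (z.im : ℂ) + ((c * z.re : ℝ) : ℂ)) (by rw [i1]; exact a1) (by
        rw [i1, r1, abs_mul, abs_of_nonneg hc0]
        calc c * |z.re| ≤ 1 * |z.re| := by gcongr
          _ ≤ z.im / 2 := by linarith)
      rw [i1] at this
      exact this
    constructor
    · have h1 := seg (F := Ψ) (s := z) (v := ((-z.re : ℝ) : ℂ)) (ℓ := m * Real.log z.im) (K := K)
        (fun τ hτ => ?_) (fun τ hτ => ?_) (fun τ hτ => ?_)
      · have e1 : z + ((-z.re : ℝ) : ℂ) = I * (z.im : ℂ) := by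
          nth_rewrite 1 [← e0]
          push_cast; ring
        rw [e1, hu z.im a2, ofReal_re, Complex.norm_real, Real.norm_eq_abs, abs_neg] at h1
        have h2 : Real.exp (m * z.re * Real.log z.im - K * |z.re|) *
            Real.exp (m * Real.log z.im * -z.re + K * |z.re|) = 1 := by
          rw [← Real.exp_add, ← Real.exp_zero]; congr 1; ring
        have h3 : 0 < Real.exp (m * Real.log z.im * -z.re + K * |z.re|) := Real.exp_pos _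
        refine le_of_mul_le_mul_right ?_ h3
        rw [h2]; exact h1
      all_goals
        have e2 : z + (τ : ℂ) * ((-z.re : ℝ) : ℂ) = I * (z.im : ℂ) + (((1 - τ) * z.re : ℝ) : ℂ) := by
          nth_rewrite 1 [← e0]
          push_cast; ring
        rw [e2]
        obtain ⟨p1, p2, p3⟩ := hpt (1 - τ) (by linarith [hτ.2]) (by linarith [hτ.1])
      · exact p1
      · exact p2
      · exact p3
    · have h1 := seg (F := Ψ) (s := I * (z.im : ℂ)) (v := ((z.re : ℝ) : ℂ)) (ℓ := m * Real.log z.im) (K := K)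
        (fun τ hτ => ?_) (fun τ hτ => ?_) (fun τ hτ => ?_)
      · rw [e0, hu z.im a2, ofReal_re, hnv, one_mul] at h1
        refine h1.trans (le_of_eq ?_)
        congr 1; ring
      all_goals
        have e2 : I * (z.im : ℂ) + (τ : ℂ) * ((z.re : ℝ) : ℂ) = I * (z.im : ℂ) + ((τ * z.re : ℝ) : ℂ) := by
          push_cast; ring
        rw [e2]
        obtain ⟨p1, p2, p3⟩ := hpt τ hτ.1 hτ.2
      · exact p1
      · exact p2
      · exact p3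

end Pool.Agent.K3h84.DL
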