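import Pool.Agent.K3h84.DL.Low

set_option autoImplicit false

namespace Pool.Agent.K3h84.DL

open Complex Filter Topology MeasureTheory Set
open scoped ComplexConjugate
open Pool.Agent.H986R2.K4 (lr)
open Pool.Agent.H986R2.K4.ConvAux (fact' grow ballRe)

variable {m : ℝ} {f Ψ : ℂ → ℂ}

/-- **one step of the converse** -/
theorem step (h : RD m f Ψ) {y β r0 : ℝ} (hy0 : 0 < y) (hy1 : y ≤ 1 / 2) (hβ : 1 / 2 ≤ β) (hβ1 : β ≤ 1)
    (hE : EF f y) (hG : Gr m f β y) (hN : NZ m f r0) (hr : r0 < β * y) :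
    ∃ ε0 : ℝ, 0 < ε0 ∧ EF f (y - ε0) := by
  have hm := h.hm
  have hβ0 : 0 < β := by linarith
  have hβy : 0 < β * y := by positivity
  -- parameters
  obtain ⟨r', hr'⟩ : ∃ r', r' = max r0 (β * y / 2) := ⟨_, rfl⟩
  have hr'1 : r0 ≤ r' := by rw [hr']; exact le_max_left _ _
  have hr'2 : β * y / 2 ≤ r' := by rw [hr']; exact le_max_right _ _
  have hr'3 : r' < β * y := by rw [hr']; exact max_lt hr (by linarith)
  have hr'0 : 0 < r' := by linarith
  obtain ⟨g0, hg0⟩ : ∃ g0, g0 = β * y - r' := ⟨_, rfl⟩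
  have hg0p : 0 < g0 := by rw [hg0]; linarith
  have hβyy : β * y ≤ y := by nlinarith
  have hg01 : g0 ≤ 1 / 2 := by rw [hg0]; linarith
  obtain ⟨r2, hr2⟩ : ∃ r2, r2 = r' + g0 / 4 := ⟨_, rfl⟩
  obtain ⟨r1, hr1⟩ : ∃ r1, r1 = r' + g0 / 2 := ⟨_, rfl⟩
  have hr1y : r1 = β * y - g0 / 2 := by rw [hr1, hg0]; ring
  have hr1y2 : r1 < y := by linarith
  have hyr1 : g0 / 2 ≤ y - r1 := by linarith
  obtain ⟨η0, hη0⟩ : ∃ η0, η0 = g0 / 64 := ⟨_, rfl⟩
  obtain ⟨e0, he0, hG⟩ := hG
  obtain ⟨ε2, hε2⟩ : ∃ ε2, ε2 = min e0 (g0 / 32) := ⟨_, rfl⟩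
  have hε2p : 0 < ε2 := by rw [hε2]; exact lt_min he0 (by linarith)
  have hε2a : ε2 ≤ e0 := by rw [hε2]; exact min_le_left _ _
  have hε2b : ε2 ≤ g0 / 32 := by rw [hε2]; exact min_le_right _ _
  obtain ⟨ε4, hε4⟩ : ∃ ε4, ε4 = g0 * ε2 / 32 := ⟨_, rfl⟩
  have hε4p : 0 < ε4 := by rw [hε4]; positivity
  have hε42 : ε4 ≤ ε2 / 32 := by
    rw [hε4]; nlinarith
  obtain ⟨ε, hε⟩ : ∃ ε, ε = m * g0 * ε2 / (32 * (m + 2)) := ⟨_, rfl⟩
  have hεp : 0 < ε := by rw [hε]; positivity
  have hεe : ε * (m + 2) = m * g0 * ε2 / 32 := by rw [hε]; field_simp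
  have hε1 : ε ≤ 1 := by
    have : ε * (m + 2) ≤ 1 * (m + 2) := by
      rw [hεe]
      have : g0 * ε2 ≤ 1 := by nlinarith
      nlinarith
    exact le_of_mul_le_mul_right this (by linarith)
  obtain ⟨e, he⟩ : ∃ e, e = ε2 - ε4 := ⟨_, rfl⟩
  have hep : 0 < e := by rw [he]; linarith
  obtain ⟨T1, hT1⟩ := hG e hep (by rw [he]; linarith) ε hεp
  obtain ⟨K, T2, hT2, hK, hlow⟩ := low h r2 r1 y (by linarith) (by linarith) hr1y2 hy1
    (by nlinarith) η0 ε (by linarith) (by linarith) hεp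
  obtain ⟨TE, hTE⟩ := hE ε4 hε4p
  obtain ⟨TN, hTN⟩ := hN
  obtain ⟨KA, TA, hKA, hTA, ha1, ha2, -⟩ := h.all
  obtain ⟨L0, hL01, hL0⟩ := grow (m * g0 * ε2 / 4) (m * Real.exp (m + 1 + K)) (by positivity)
  have ev1 : Tendsto (fun t : ℝ => r2 * (m * Real.log t)) atTop atTop :=
    (Real.tendsto_log_atTop.const_mul_atTop hm).const_mul_atTop (by linarith)
  have evA : ∀ᶠ t : ℝ in atTop, 1 / (r1 - r2) ≤ m * Real.log t :=
    (Real.tendsto_log_atTop.const_mul_atTop hm).eventually_ge_atTop _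
  have evB : ∀ᶠ t : ℝ in atTop, r' * m / (g0 / 4 * m) ≤ Real.log t :=
    Real.tendsto_log_atTop.eventually_ge_atTop _
  have evC : ∀ᶠ t : ℝ in atTop, L0 ≤ Real.log t := Real.tendsto_log_atTop.eventually_ge_atTop _
  have evD : ∀ᶠ t : ℝ in atTop, m * Real.log t ≤ t - 20 := by
    have h1 := (Real.isLittleO_log_id_atTop).bound (show 0 < 1 / (2 * m) by positivity)
    filter_upwards [h1, eventually_ge_atTop (40 : ℝ)] with t h2 h3
    rw [Real.norm_eq_abs, Real.norm_eq_abs, abs_of_nonneg (Real.log_nonneg (by linarith))] at h2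
    simp only [id_eq] at h2
    rw [abs_of_pos (by linarith)] at h2
    have h4 : m * Real.log t ≤ m * (1 / (2 * m) * t) := by gcongr
    have h5 : m * (1 / (2 * m) * t) = t / 2 := by field_simp
    linarith
  obtain ⟨T3, hT3⟩ := eventually_atTop.1 (evA.and (evB.and (evC.and evD)))
  refine ⟨ε4, hε4p, fun ε' hε' => ?_⟩
  refine ⟨max (max (max T1 T2 + 2) (max TE (TN + 20))) (max (TA + 2) (max T3 100)), ?_⟩
  intro z0 hz hzre hf0
  obtain ⟨T, hT⟩ : ∃ T, T = z0.im := ⟨_, rfl⟩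
  rw [← hT] at hz
  have u0 : max T1 T2 + 2 ≤ T := ((le_max_left _ _).trans (le_max_left _ _)).trans hz
  have u1 : T1 ≤ T - 2 := by linarith [le_max_left T1 T2]
  have u2 : T2 ≤ T - 2 := by linarith [le_max_right T1 T2]
  have u3 : TE ≤ T := ((le_max_left _ _).trans ((le_max_right _ _).trans (le_max_left _ _))).trans hz
  have u4 : TN + 20 ≤ T :=
    ((le_max_right _ _).trans ((le_max_right _ _).trans (le_max_left _ _))).trans hz
  have u5 : TA + 2 ≤ T := ((le_max_left _ _).trans (le_max_right _ _)).trans hz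
  have u6 : T3 ≤ T := ((le_max_left _ _).trans ((le_max_right _ _).trans (le_max_right _ _))).trans hz
  have u7 : 100 ≤ T := ((le_max_right _ _).trans ((le_max_right _ _).trans (le_max_right _ _))).trans hz
  obtain ⟨v1, v2, v3, v4⟩ := hT3 T u6
  have hTp : 0 < T := by linarith
  obtain ⟨L, hL⟩ : ∃ L, L = Real.log T := ⟨_, rfl⟩
  have hL1 : 1 ≤ L := by rw [hL]; linarith
  have hLp : 0 < L := by linarith
  rw [← hL] at v1 v2 v3 v4
  obtain ⟨xp, hxp⟩ : ∃ xp, xp = z0.re := ⟨_, rfl⟩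
  have hxp1 : y - ε4 ≤ xp := by rw [hxp]; linarith
  have hxp2 : xp ≤ y + ε4 := by
    by_contra hc
    rw [not_le] at hc
    exact hTE z0 (by rw [← hT]; exact u3) (by rw [← hxp]; exact hc.le) hf0
  have hz0 : z0 = I * T + xp := by
    apply Complex.ext
    · simp [hxp]
    · simp [hT]
  -- the order of the derivative
  obtain ⟨n, hn⟩ : ∃ n : ℕ, n = ⌈r2 * (m * L)⌉₊ := ⟨_, rfl⟩
  have hn1 : r2 * (m * L) ≤ n := by rw [hn]; exact Nat.le_ceil _
  have hn2 : (n : ℝ) ≤ r1 * (m * L) := by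
    have h1 : (n : ℝ) < r2 * (m * L) + 1 := by
      rw [hn]; exact Nat.ceil_lt_add_one (by
        have : 0 < r2 := by linarith
        positivity)
    have h2 : 0 < r1 - r2 := by rw [hr1, hr2]; linarith
    rw [div_le_iff₀ h2] at v1
    linarith
  have hr2p : 0 < r2 := by linarith
  have hn1' : 1 ≤ n := by
    have : (0 : ℝ) < n := lt_of_lt_of_le (by positivity) hn1
    exact_mod_cast this
  have hnpos : (0 : ℝ) < n := by exact_mod_cast hn1'
  have hnm : (n : ℝ) ≤ m * L := by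
    refine hn2.trans ?_
    have : 0 < m * L := by positivity
    nlinarith
  -- no zeros near height T
  have hzeros : ∀ z : ℂ, |z.im - T| ≤ 20 → 0 < z.re → z.re ≤ z.im / 8 →
      iteratedDeriv n (fl f) z ≠ 0 := by
    intro z h1 h2 h3
    have h1' := abs_le.1 h1
    refine hTN z n (by linarith) h2 h3 ?_ (by linarith)
    refine le_trans ?_ hn1
    have h4 : Real.log z.im ≤ L + 1 := by
      have := log_close hTp (u := z.im) (by linarith) (by linarith)
      rw [hL]
      linarith [(abs_le.1 this).2]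
    have h5 : 0 ≤ m * Real.log z.im := by
      have : 0 ≤ Real.log z.im := Real.log_nonneg (by linarith)
      positivity
    calc r0 * (m * Real.log z.im) ≤ r' * (m * Real.log z.im) := by gcongr
      _ ≤ r' * (m * (L + 1)) := by gcongr
      _ ≤ r2 * (m * L) := by
        rw [div_le_iff₀ (by positivity)] at v2
        rw [hr2]
        linarith
  have hlow := hlow T n xp (by linarith) (by rw [← hL]; exact hn1) (by rw [← hL]; exact hn2) hzeros
    (by linarith) (by linarith)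
  rw [← hL] at hlow
  obtain ⟨x, hx⟩ : ∃ x : ℝ, x = xp - 2 * η0 := ⟨_, rfl⟩
  rw [← hx] at hlow
  obtain ⟨ρ, hρ⟩ : ∃ ρ : ℝ, ρ = x - ε2 := ⟨_, rfl⟩
  have hρy : y - ε4 - g0 / 32 - ε2 ≤ ρ := by rw [hρ, hx, hη0]; linarith
  have hgy : g0 ≤ y / 2 := by
    rw [hg0]; nlinarith
  have hρp : 0 < ρ := by linarith
  have hρ1 : ρ ≤ 1 := by rw [hρ, hx]; linarith
  obtain ⟨a, ha⟩ : ∃ a : ℝ, a = m * (y - β * e) + ε := ⟨_, rfl⟩
  have ha0 : 0 ≤ a := by
    rw [ha]
    have : 0 ≤ y - β * e := by nlinarith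
    positivity
  have ham : a ≤ m + 1 := by
    rw [ha]
    have : y - β * e ≤ 1 := by nlinarith
    nlinarith
  have hM : ∀ w ∈ Metric.closedBall ((I * T + (xp : ℂ)) - (x : ℂ)) ρ,
      ‖fl f w‖ ≤ Real.exp (a * L + (m + 1)) := by
    intro w hw
    have e0 : (I * T + (xp : ℂ)) - (x : ℂ) = I * T + ((xp - x : ℝ) : ℂ) := by push_cast; ring
    rw [e0] at hw
    obtain ⟨b1, b2⟩ := ballRe hw
    have i1 : (w - I * (T : ℂ)).re = w.re := by simp
    have i2 : (w - I * (T : ℂ)).im = w.im - T := by simp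
    rw [i1] at b1
    rw [i2] at b2
    have b1' := abs_le.1 b1
    have b2' := abs_le.1 b2
    have hT1w := hT1 w (by linarith) (by
      rw [abs_le]
      constructor
      · linarith
      · linarith)
    refine hT1w.trans ?_
    rw [← ha, Real.rpow_def_of_pos (by linarith)]
    refine Real.exp_le_exp.2 ?_
    have h4 : Real.log w.im ≤ L + 1 := by
      have := log_close hTp (u := w.im) (by linarith) (by linarith)
      rw [hL]
      linarith [(abs_le.1 this).2]
    calc Real.log w.im * a ≤ (L + 1) * a := by gcongr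
      _ ≤ a * L + (m + 1) := by linarith
  have htay := tayL (fl f) TA (I * T + (xp : ℂ)) x ρ (Real.exp (a * L + (m + 1))) n
    (fun w hw => (ha2 w hw.le).2) hn1' hρp
    (by rw [hρ]; linarith) (by
      have : (I * (T : ℂ) + (xp : ℂ)).im = T := by simp
      rw [this]; linarith) hM
  have hfl0 : fl f (I * T + (xp : ℂ)) = 0 := by
    rw [← hz0]
    have hxpa : |xp| ≤ 1 := by rw [abs_le]; constructor <;> linarith
    have := (ha1 z0 (by rw [← hT]; linarith) (by rw [← hT, ← hxp]; linarith)).2.2.2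
    rw [this, hf0, mul_zero]
  rw [hfl0, zero_sub, norm_neg] at htay
  have hfin := hlow.trans htay
  -- numerics
  have hTpow : ∀ b : ℝ, T ^ b = Real.exp (b * L) := by
    intro b
    rw [Real.rpow_def_of_pos hTp, ← hL, mul_comm]
  have hxρ : (x / ρ) ^ n ≤ Real.exp (m * ε2 * (β - 3 / 8 * g0) * L) := by
    have h1 : x / ρ ≤ Real.exp (ε2 / ρ) := by
      have : x / ρ = ε2 / ρ + 1 := by
        have hxe : x = ε2 + ρ := by rw [hρ]; ring
        rw [hxe]
        field_simp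
      rw [this]
      exact Real.add_one_le_exp _
    have hx0 : 0 ≤ x / ρ := by
      have : 0 ≤ x := by linarith
      positivity
    have h2 : (x / ρ) ^ n ≤ Real.exp (ε2 / ρ) ^ n := by
      gcongr
    refine h2.trans ?_
    rw [← Real.exp_nat_mul]
    apply Real.exp_le_exp.2
    have h3 : (n : ℝ) * (ε2 / ρ) ≤ r1 * (m * L) * (ε2 / ρ) := by gcongr
    have h4 : r1 / ρ ≤ β - 3 / 8 * g0 := by
      rw [div_le_iff₀ hρp]
      have h5 : β * (y - ε4 - g0 / 32 - ε2) ≤ β * ρ := by gcongr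
      have h6 : β * (ε4 + g0 / 32 + ε2) ≤ 1 * (ε4 + g0 / 32 + ε2) := by gcongr
      have h7 : 3 / 8 * g0 * ρ ≤ 3 / 8 * g0 * 1 := by gcongr
      nlinarith
    have h5 : r1 * (m * L) * (ε2 / ρ) = m * ε2 * (r1 / ρ) * L := by ring
    rw [h5] at h3
    refine h3.trans ?_
    gcongr
  have hup : (n : ℝ) * (x / ρ) ^ n * Real.exp (a * L + (m + 1)) ≤
      m * L * Real.exp (m * y * L - 3 / 8 * (m * g0 * ε2) * L + m * ε4 * L + ε * L + (m + 1)) := by
    have hx0 : 0 ≤ (x / ρ) ^ n := by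
      have : 0 ≤ x := by linarith
      positivity
    calc (n : ℝ) * (x / ρ) ^ n * Real.exp (a * L + (m + 1))
        ≤ m * L * Real.exp (m * ε2 * (β - 3 / 8 * g0) * L) * Real.exp (a * L + (m + 1)) := by gcongr
      _ = m * L * Real.exp (m * ε2 * (β - 3 / 8 * g0) * L + (a * L + (m + 1))) := by
          rw [mul_assoc, ← Real.exp_add]
      _ ≤ _ := by
          have h8 : m * ε2 * (β - 3 / 8 * g0) * L + (a * L + (m + 1)) ≤
              m * y * L - 3 / 8 * (m * g0 * ε2) * L + m * ε4 * L + ε * L + (m + 1) := by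
            rw [ha, he]
            have h9 : β * (m * ε4 * L) ≤ 1 * (m * ε4 * L) := by gcongr
            linarith
          gcongr
  have hlo : Real.exp (m * y * L - m * ε4 * L - ε * (m + 1) * L - K) ≤
      Real.exp (-(ε * n)) * T ^ (-ε) * Real.exp (m * L * xp - K) := by
    rw [hTpow, ← Real.exp_add, ← Real.exp_add]
    apply Real.exp_le_exp.2
    have h1 : ε * n ≤ ε * (m * L) := by gcongr
    have h2 : m * L * (y - ε4) ≤ m * L * xp := by gcongr
    linarith
  have hall := hlo.trans (hfin.trans hup)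
  have h6 := hL0 L v3
  have h7 : Real.exp (m * g0 * ε2 / 4 * L) ≤ m * Real.exp (m + 1 + K) * L := by
    have h8 : Real.exp (m * g0 * ε2 / 4 * L) * Real.exp (m * y * L - 3 / 8 * (m * g0 * ε2) * L +
        m * ε4 * L + ε * L - K) ≤ Real.exp (m * y * L - m * ε4 * L - ε * (m + 1) * L - K) := by
      rw [← Real.exp_add]
      apply Real.exp_le_exp.2
      have h9 : m * ε4 * L = (m * g0 * ε2) * L / 32 := by rw [hε4]; ring
      have h10 : ε * (m + 2) * L = (m * g0 * ε2) * L / 32 := by rw [hεe]; ring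
      have h11 : 0 ≤ (m * g0 * ε2) * L := by positivity
      nlinarith
    have h12 := h8.trans hall
    have h13 : m * L * Real.exp (m * y * L - 3 / 8 * (m * g0 * ε2) * L + m * ε4 * L + ε * L + (m + 1)) =
        m * Real.exp (m + 1 + K) * L * Real.exp (m * y * L - 3 / 8 * (m * g0 * ε2) * L +
        m * ε4 * L + ε * L - K) := by
      have : Real.exp (m * y * L - 3 / 8 * (m * g0 * ε2) * L + m * ε4 * L + ε * L + (m + 1)) =
          Real.exp (m + 1 + K) * Real.exp (m * y * L - 3 / 8 * (m * g0 * ε2) * L +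
            m * ε4 * L + ε * L - K) := by
        rw [← Real.exp_add]; congr 1; ring
      rw [this]; ring
    rw [h13] at h12
    exact le_of_mul_le_mul_right h12 (Real.exp_pos _)
  linarith

end Pool.Agent.K3h84.DL
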