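import Pool.Agent.K3h84.DL.Abs
import Pool.Agent.K3h84.DL.PLr

set_option autoImplicit false

/-! # The threshold `κ m = 2` -/

open Complex Filter Topology Set
open scoped ComplexConjugate

namespace Pool.Agent.K3h84.DL

variable {m : ℝ} {f Ψ : ℂ → ℂ}

/-- a priori bound -/
lemma RD.ap (h : RD m f Ψ) : ∃ T : ℝ, ∀ z : ℂ, T ≤ z.im → |z.re| ≤ 1 →
    ‖f z‖ ≤ Real.exp (z.im ^ 2 / 20) := by
  have hm := h.hm
  obtain ⟨T1, hT1⟩ := h.conv 1 one_pos le_rfl (edge (zb_half h) (by norm_num)) 1 one_pos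
  have ev1 : ∀ᶠ t : ℝ in atTop, Real.log t ≤ 1 / (20 * (m + 1)) * t := by
    have h1 := (Real.isLittleO_log_id_atTop).bound (show 0 < 1 / (20 * (m + 1)) by positivity)
    filter_upwards [h1, eventually_ge_atTop (1 : ℝ)] with t h2 h3
    rw [Real.norm_eq_abs, Real.norm_eq_abs, abs_of_nonneg (Real.log_nonneg h3)] at h2
    simp only [id_eq] at h2
    rwa [abs_of_pos (by linarith)] at h2
  obtain ⟨T3, hT3⟩ := eventually_atTop.1 ev1
  refine ⟨max (max T1 T3) 1, fun z hz hz2 => ?_⟩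
  have u1 : T1 ≤ z.im := ((le_max_left _ _).trans (le_max_left _ _)).trans hz
  have u2 : T3 ≤ z.im := ((le_max_right _ _).trans (le_max_left _ _)).trans hz
  have u3 : 1 ≤ z.im := (le_max_right _ _).trans hz
  have him : 0 < z.im := by linarith
  refine (hT1 z u1 hz2).trans ?_
  have h3 := abs_le.1 hz2
  rw [Real.rpow_def_of_pos him]
  apply Real.exp_le_exp.2
  have h4 : Real.log z.im ≤ 1 / (20 * (m + 1)) * z.im := hT3 z.im u2
  have h5 : 0 ≤ Real.log z.im := Real.log_nonneg u3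
  have h6 : m / 2 * (1 - z.re) + 1 ≤ m + 1 := by nlinarith
  have h7 : 0 ≤ m / 2 * (1 - z.re) + 1 := by
    have : 0 ≤ 1 - z.re := by linarith
    positivity
  calc Real.log z.im * (m / 2 * (1 - z.re) + 1) ≤ (1 / (20 * (m + 1)) * z.im) * (m + 1) := by gcongr
    _ = z.im / 20 := by field_simp
    _ ≤ z.im ^ 2 / 20 := by nlinarith

/-- convexity, with an exponent on the edge -/
lemma RD.convq (h : RD m f Ψ) {ϑ q : ℝ} (hϑ0 : 0 < ϑ) (hϑ1 : ϑ ≤ 1)
    (hbd : ∀ ε : ℝ, 0 < ε → ∃ T : ℝ, ∀ z : ℂ, T ≤ z.im → z.re = ϑ → ‖f z‖ ≤ z.im ^ (q + ε)) :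
    ∀ ε : ℝ, 0 < ε → ∃ T : ℝ, ∀ z : ℂ, T ≤ z.im → |z.re| ≤ ϑ →
      ‖f z‖ ≤ z.im ^ (m / 2 * (ϑ - z.re) + q + ε) := by
  intro ε1 hε1
  have hm := h.hm
  obtain ⟨K, TA, hK, hTA, ha1, ha2, ha3⟩ := h.all
  obtain ⟨T4, hT4⟩ := pl (f := f) (a := -ϑ) (b := ϑ) (p := m * ϑ + q) (q := q) (by linarith)
    (by linarith) hϑ1 h.diff h.ap (by
      intro e he
      obtain ⟨T3, hT3⟩ := hbd (e / 2) (by linarith)
      refine ⟨max (max TA T3) (Real.exp (2 * K / e)), fun z hz hz2 => ?_⟩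
      have u1 : TA ≤ z.im := ((le_max_left _ _).trans (le_max_left _ _)).trans hz
      have u2 : T3 ≤ z.im := ((le_max_right _ _).trans (le_max_left _ _)).trans hz
      have u3 : Real.exp (2 * K / e) ≤ z.im := (le_max_right _ _).trans hz
      have him : 0 < z.im := by linarith
      have hlog : 2 * K / e ≤ Real.log z.im := (Real.le_log_iff_exp_le him).2 u3
      rw [div_le_iff₀ he] at hlog
      have w1 : (-conj z).re = ϑ := by rw [nc_re, hz2, neg_neg]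
      have w2 := nc_im z
      have w3 : |(-conj z).re| ≤ (-conj z).im / 2 := by
        rw [w1, w2, abs_of_pos hϑ0]; linarith
      have e1 := (ha1 (-conj z) (by rw [w2]; exact u1) w3).2.2.2
      have e2 := (ha3 (-conj z) (by rw [w2]; exact u1) w3).2
      have e3 := hT3 (-conj z) (by rw [w2]; exact u2) w1
      have e4 : ‖f z‖ = ‖fl f (-conj z)‖ := by
        rw [norm_fl]
        simp
      rw [w1, w2] at e2
      rw [w2] at e3
      rw [e4, e1, norm_mul]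
      calc ‖Ψ (-conj z)‖ * ‖f (-conj z)‖
          ≤ Real.exp (m * ϑ * Real.log z.im + K * |ϑ|) * z.im ^ (q + e / 2) := by gcongr
        _ = Real.exp (m * ϑ * Real.log z.im + K * |ϑ| + Real.log z.im * (q + e / 2)) := by
            rw [Real.rpow_def_of_pos him, ← Real.exp_add]
        _ ≤ Real.exp (Real.log z.im * (m * ϑ + q + e)) := by
            apply Real.exp_le_exp.2
            have : K * |ϑ| ≤ K * 1 := by
              gcongr; rw [abs_of_pos hϑ0]; exact hϑ1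
            linarith
        _ = _ := by rw [Real.rpow_def_of_pos him]) hbd ε1 hε1
  refine ⟨T4, fun z hz hz2 => ?_⟩
  have hz3 := abs_le.1 hz2
  have := hT4 z hz hz3.1 hz3.2
  have e1 : m * ϑ + q + (q - (m * ϑ + q)) * ((z.re - -ϑ) / (ϑ - -ϑ)) + ε1 =
      m / 2 * (ϑ - z.re) + q + ε1 := by
    have : ϑ - -ϑ = 2 * ϑ := by ring
    rw [this]
    field_simp
    ring
  rw [e1] at this
  exact this

/-- van der Corput's bound: the exponent at distance `e` of the edge of convergence is `o(e)` -/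
def VC (m : ℝ) (f : ℂ → ℂ) : Prop := ∀ δ : ℝ, 0 < δ → ∃ e0 : ℝ, 0 < e0 ∧ e0 ≤ 1 / 4 ∧
  ∀ e : ℝ, 0 < e → e ≤ e0 → ∀ ε : ℝ, 0 < ε → ∃ T : ℝ, ∀ z : ℂ, T ≤ z.im → z.re = 1 / 2 - e →
    ‖f z‖ ≤ z.im ^ (m * (δ * e) + ε)

lemma gr_vc (h : RD m f Ψ) (hV : VC m f) {δ : ℝ} (hδ : 0 < δ) : Gr m f (1 - δ) (1 / 2) := by
  have hm := h.hm
  obtain ⟨e0, he0, he1, hV⟩ := hV δ hδ
  refine ⟨e0, he0, fun e he hee ε hε => ?_⟩
  obtain ⟨T, hT⟩ := h.convq (ϑ := 1 / 2 - e) (q := m * (δ * e)) (by linarith) (by linarith)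
    (hV e he hee) ε hε
  refine ⟨max T 1, fun w hw hw2 => ?_⟩
  have h1 : T ≤ w.im := (le_max_left _ _).trans hw
  have h2 : 1 ≤ w.im := (le_max_right _ _).trans hw
  have h3 := abs_le.1 hw2
  rw [norm_fl]
  refine (hT (-conj w) (by rw [nc_im]; exact h1) (by
    rw [nc_re, abs_le]; constructor <;> linarith)).trans ?_
  rw [nc_im, nc_re]
  refine Real.rpow_le_rpow_of_exponent_le h2 ?_
  have h4 : m / 2 * (1 / 2 - e - -w.re) ≤ m / 2 * (1 / 2 - e + (1 / 2 - e)) := by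
    gcongr; linarith
  linarith

/-- **beyond the threshold** -/
theorem thr (h : RD m f Ψ) (hV : VC m f) {κ : ℝ} (hκ : 2 < κ * m) (hH : Hz f κ) :
    ∃ ε0 : ℝ, 0 < ε0 ∧ EF f (1 / 2 - ε0) := by
  have hm := h.hm
  have hκ0 : 0 < κ := by
    by_contra hc
    rw [not_lt] at hc
    have : κ * m ≤ 0 := mul_nonpos_of_nonpos_of_nonneg hc hm.le
    linarith
  obtain ⟨r0, hr0⟩ : ∃ r0, r0 = 1 / (κ * m) := ⟨_, rfl⟩
  have hr1 : r0 < 1 / 2 := by
    rw [hr0]
    exact one_div_lt_one_div_of_lt (by norm_num) hκ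
  obtain ⟨δ, hδ⟩ : ∃ δ, δ = min (1 / 2) (1 / 2 - r0) := ⟨_, rfl⟩
  have hδ0 : 0 < δ := by rw [hδ]; exact lt_min (by norm_num) (by linarith)
  have hδ1 : δ ≤ 1 / 2 := by rw [hδ]; exact min_le_left _ _
  have hδ2 : δ ≤ 1 / 2 - r0 := by rw [hδ]; exact min_le_right _ _
  exact step h (by norm_num) le_rfl (β := 1 - δ) (by linarith) (by linarith) (ef_half h)
    (gr_vc h hV hδ0) (hz_nz hm hκ0 hH) (by rw [← hr0]; linarith)

end Pool.Agent.K3h84.DL
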