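import Pool.Agent.K3h84.DL.Fwd
import Pool.Agent.H986R2.K4.SAB

set_option autoImplicit false

namespace Pool.Agent.K3h84.DL

open Complex Filter Topology MeasureTheory Set
open scoped ComplexConjugate
open Pool.Agent.H986R2.K4 (sab)

variable {m : ℝ} {f Ψ : ℂ → ℂ}

/-- polynomial growth -/
lemma polyB (h : RD m f Ψ) : ∃ T0 : ℝ, 2 ≤ T0 ∧ ∀ z : ℂ, T0 ≤ z.im → -1 ≤ z.re →
    ‖f z‖ ≤ z.im ^ (m + 1) := by
  have hm := h.hm
  obtain ⟨B, T1, hB, hr⟩ := h.right (1 / 2) (by norm_num)
  obtain ⟨T2, h2⟩ := h.conv 1 one_pos le_rfl (by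
    intro ε hε
    refine ⟨max T1 (max 1 (B ^ (1 / ε))), fun z hz hz2 => ?_⟩
    have a1 : T1 ≤ z.im := (le_max_left _ _).trans hz
    have a2 : 1 ≤ z.im := ((le_max_left _ _).trans (le_max_right _ _)).trans hz
    have a3 : B ^ (1 / ε) ≤ z.im := ((le_max_right _ _).trans (le_max_right _ _)).trans hz
    refine (hr z a1 (by rw [hz2]; norm_num)).2.2.2.trans ?_
    have a4 : (B ^ (1 / ε)) ^ ε ≤ z.im ^ ε := Real.rpow_le_rpow (by positivity) a3 hε.le
    rwa [← Real.rpow_mul (by linarith), one_div, inv_mul_cancel₀ hε.ne', Real.rpow_one] at a4) 1 one_pos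
  refine ⟨max (max T1 T2) (max 2 B), le_max_of_le_right (le_max_left _ _), fun z hz hz2 => ?_⟩
  have a1 : T1 ≤ z.im := ((le_max_left _ _).trans (le_max_left _ _)).trans hz
  have a2 : T2 ≤ z.im := ((le_max_right _ _).trans (le_max_left _ _)).trans hz
  have a3 : 2 ≤ z.im := ((le_max_left _ _).trans (le_max_right _ _)).trans hz
  have a4 : B ≤ z.im := ((le_max_right _ _).trans (le_max_right _ _)).trans hz
  by_cases hc : z.re ≤ 1
  · refine (h2 z a2 (abs_le.2 ⟨hz2, hc⟩)).trans ?_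
    refine Real.rpow_le_rpow_of_exponent_le (by linarith) ?_
    have : m / 2 * (1 - z.re) ≤ m / 2 * 2 := by gcongr; linarith
    linarith
  · refine (hr z a1 (by linarith)).2.2.2.trans (a4.trans ?_)
    calc z.im = z.im ^ (1 : ℝ) := (Real.rpow_one _).symm
      _ ≤ z.im ^ (m + 1) := Real.rpow_le_rpow_of_exponent_le (by linarith) (by linarith)

/-- control right of the half line `Re z = 1/2` -/
lemma zb_half (h : RD m f Ψ) : ZB f (1 / 2) := by
  intro ε hε
  obtain ⟨B, T1, hB, hr⟩ := h.right ε hε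
  refine ⟨max (max T1 2) (max (Real.exp (B / ε)) (B ^ (1 / ε))),
    le_max_of_le_left (le_max_right _ _), fun z hz hz2 => ?_⟩
  have a1 : T1 ≤ z.im := ((le_max_left _ _).trans (le_max_left _ _)).trans hz2
  have a2 : 2 ≤ z.im := ((le_max_right _ _).trans (le_max_left _ _)).trans hz2
  have a3 : Real.exp (B / ε) ≤ z.im := ((le_max_left _ _).trans (le_max_right _ _)).trans hz2
  have a4 : B ^ (1 / ε) ≤ z.im := ((le_max_right _ _).trans (le_max_right _ _)).trans hz2
  have a5 : B ≤ z.im ^ ε := by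
    have a4 : (B ^ (1 / ε)) ^ ε ≤ z.im ^ ε := Real.rpow_le_rpow (by positivity) a4 hε.le
    rwa [← Real.rpow_mul (by linarith), one_div, inv_mul_cancel₀ hε.ne', Real.rpow_one] at a4
  obtain ⟨b1, b2, b3, b4⟩ := hr z a1 hz
  refine ⟨b1, ?_, ?_, b4.trans a5⟩
  · refine b2.trans ?_
    have : B / ε ≤ Real.log z.im := (Real.le_log_iff_exp_le (by linarith)).2 a3
    rw [div_le_iff₀ hε] at this
    linarith
  · refine le_trans ?_ b3
    rw [Real.rpow_neg (by linarith)]
    exact inv_anti₀ (by linarith) a5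

lemma ef_half (h : RD m f Ψ) : EF f (1 / 2) := by
  intro ε hε
  obtain ⟨t1, ht1, h1⟩ := zb_half h ε hε
  exact ⟨t1, fun z hz hz2 => (h1 z hz2 hz).1⟩

lemma EF.mono {y y' : ℝ} (h : EF f y) (hy : y ≤ y') : EF f y' := by
  intro ε hε
  obtain ⟨T, hT⟩ := h ε hε
  exact ⟨T, fun z hz hz2 => hT z hz (by linarith)⟩

lemma EF.closed {y : ℝ} (h : ∀ y' : ℝ, y < y' → EF f y') : EF f y := by
  intro ε hε
  obtain ⟨T, hT⟩ := h (y + ε / 2) (by linarith) (ε / 2) (by linarith)
  exact ⟨T, fun z hz hz2 => hT z hz (by linarith)⟩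

/-- from zero-freeness to control -/
theorem zb_of_ef (h : RD m f Ψ) {y : ℝ} (hy0 : 0 ≤ y) (hE : EF f y) : ZB f y := by
  intro ε hε
  have hm := h.hm
  obtain ⟨η0, hη0⟩ : ∃ η0, η0 = min (ε / 2) (1 / 4) := ⟨_, rfl⟩
  have hη0p : 0 < η0 := by rw [hη0]; exact lt_min (by linarith) (by norm_num)
  have hη01 : η0 ≤ 1 / 4 := by rw [hη0]; exact min_le_right _ _
  have hη02 : η0 ≤ ε / 2 := by rw [hη0]; exact min_le_left _ _
  obtain ⟨ε1, hε1, hS⟩ := sab η0 ε (2 * (m + 1)) hη0p hη01 hε (by positivity)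
  obtain ⟨TE, hE⟩ := hE (ε / 2) (by linarith)
  obtain ⟨TP, hTP, hP⟩ := polyB h
  obtain ⟨TA, hTA, hA⟩ := zb_half h (min (ε1 / 2) (1 / 2)) (lt_min (by linarith) (by norm_num))
  obtain ⟨TB, hTB, hB⟩ := zb_half h (min ε 1) (lt_min hε (by norm_num))
  obtain ⟨TD, hD⟩ := h.diff
  refine ⟨max (max (TE + 10) (TP + 10)) (max (max (TA + 10) TB) (max (TD + 10) 21)), ?_, ?_⟩
  · exact le_max_of_le_left (le_max_of_le_right (by linarith))
  intro s hs ht
  have t1 : TE + 10 ≤ s.im := ((le_max_left _ _).trans (le_max_left _ _)).trans ht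
  have t2 : TP + 10 ≤ s.im := ((le_max_right _ _).trans (le_max_left _ _)).trans ht
  have t3 : TA + 10 ≤ s.im :=
    ((le_max_left _ _).trans ((le_max_left _ _).trans (le_max_right _ _))).trans ht
  have t4 : TB ≤ s.im :=
    ((le_max_right _ _).trans ((le_max_left _ _).trans (le_max_right _ _))).trans ht
  have t5 : TD + 10 ≤ s.im :=
    ((le_max_left _ _).trans ((le_max_right _ _).trans (le_max_right _ _))).trans ht
  have t6 : 21 ≤ s.im :=
    ((le_max_right _ _).trans ((le_max_right _ _).trans (le_max_right _ _))).trans ht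
  have ht0 : 0 < s.im := by linarith
  by_cases hbig : s.re - y ≤ 3
  · have hL : 1 ≤ Real.log s.im := by
      rw [Real.le_log_iff_exp_le ht0]
      have := Real.exp_one_lt_d9
      linarith
    obtain ⟨c, hc⟩ : ∃ c : ℂ, c = ((y + ε / 2 : ℝ) : ℂ) + (s.im : ℂ) * I := ⟨_, rfl⟩
    have hcre : ∀ u : ℂ, (c + u).re = y + ε / 2 + u.re := by
      intro u
      simp [hc]
    have hcim : ∀ u : ℂ, (c + u).im = s.im + u.im := by
      intro u
      simp [hc]
    have hsc : c + ((s.re - y - ε / 2 : ℝ) : ℂ) = s := by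
      apply Complex.ext
      · rw [hcre, Complex.ofReal_re]
        ring
      · rw [hcim, Complex.ofReal_im]
        ring
    have hsq : ∀ u : ℂ, |u.im| ≤ 10 → 1 ≤ s.im + u.im ∧ s.im + u.im ≤ s.im ^ (2 : ℝ) := by
      intro u hu
      have := abs_le.1 hu
      refine ⟨by linarith, ?_⟩
      rw [Real.rpow_two]
      nlinarith
    have P1 : ∀ u : ℂ, 0 < u.re → u.re ≤ 10 → |u.im| ≤ 10 →
        DifferentiableAt ℂ (fun u => f (c + u)) u ∧ f (c + u) ≠ 0 ∧
          ‖f (c + u)‖ ≤ Real.exp (2 * (m + 1) * Real.log s.im) := by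
      intro u hu1 hu2 hu3
      have hu4 := abs_le.mp hu3
      refine ⟨?_, ?_, ?_⟩
      · have := hD (c + u) (by rw [hcim]; linarith)
        exact DifferentiableAt.comp u (g := f) (f := fun u => c + u) this (by fun_prop)
      · apply hE
        · rw [hcim]; linarith
        · rw [hcre]; linarith
      · refine (hP (c + u) (by rw [hcim]; linarith) (by rw [hcre]; linarith)).trans ?_
        rw [hcim]
        obtain ⟨q1, q2⟩ := hsq u hu3
        calc (s.im + u.im) ^ (m + 1) ≤ (s.im ^ (2 : ℝ)) ^ (m + 1) :=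
              Real.rpow_le_rpow (by linarith) q2 (by linarith)
          _ = Real.exp (2 * (m + 1) * Real.log s.im) := by
              rw [← Real.rpow_mul ht0.le, Real.rpow_def_of_pos ht0]
              congr 1; ring
    have P2 : ∀ u : ℂ, 3 / 2 ≤ u.re → u.re ≤ 10 → |u.im| ≤ 10 →
        Real.exp (-(ε1 * Real.log s.im)) ≤ ‖f (c + u)‖ ∧
          ‖f (c + u)‖ ≤ Real.exp (ε1 * Real.log s.im) := by
      intro u hu1 hu2 hu3
      have hu4 := abs_le.mp hu3
      obtain ⟨-, -, h3, h4⟩ := hA (c + u)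
        (by rw [hcre]; have := min_le_right (ε1 / 2) (1 / 2 : ℝ); linarith)
        (by rw [hcim]; linarith)
      rw [hcim] at h3 h4
      obtain ⟨q1, q2⟩ := hsq u hu3
      have e1 : Real.exp (ε1 * Real.log s.im) = s.im ^ ε1 := by
        rw [Real.rpow_def_of_pos ht0, mul_comm]
      have e2 : Real.exp (-(ε1 * Real.log s.im)) = s.im ^ (-ε1) := by
        rw [Real.rpow_def_of_pos ht0]; congr 1; ring
      rw [e1, e2]
      have hmin := min_le_left (ε1 / 2) (1 / 2 : ℝ)
      have hpow : (s.im + u.im) ^ (ε1 / 2) ≤ s.im ^ ε1 := by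
        calc (s.im + u.im) ^ (ε1 / 2) ≤ (s.im ^ (2 : ℝ)) ^ (ε1 / 2) :=
              Real.rpow_le_rpow (by linarith) q2 (by linarith)
          _ = s.im ^ ε1 := by
              rw [← Real.rpow_mul ht0.le]
              congr 1
              ring
      constructor
      · refine le_trans ?_ h3
        calc s.im ^ (-ε1) = (s.im ^ ε1)⁻¹ := Real.rpow_neg ht0.le _
          _ ≤ ((s.im + u.im) ^ (ε1 / 2))⁻¹ :=
              inv_anti₀ (Real.rpow_pos_of_pos (by linarith) _) hpow
          _ = (s.im + u.im) ^ (-(ε1 / 2)) := (Real.rpow_neg (by linarith) _).symm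
          _ ≤ (s.im + u.im) ^ (-(min (ε1 / 2) (1 / 2))) :=
              Real.rpow_le_rpow_of_exponent_le q1 (by linarith)
      · refine h4.trans (le_trans ?_ hpow)
        exact Real.rpow_le_rpow_of_exponent_le q1 hmin
    have key := hS (Real.log s.im) (fun u => f (c + u)) hL P1 P2
      ((s.re - y - ε / 2 : ℝ) : ℂ)
      (by
        rw [Complex.ofReal_re]
        linarith)
      (by rw [Complex.ofReal_re]; linarith)
      (by rw [Complex.ofReal_im, abs_zero]; norm_num)
    have hlog : logDeriv (fun u => f (c + u)) ((s.re - y - ε / 2 : ℝ) : ℂ) =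
        logDeriv f s := by
      rw [logDeriv_apply, logDeriv_apply, deriv_comp_const_add, hsc]
    have e1 : Real.exp (ε * Real.log s.im) = s.im ^ ε := by
      rw [Real.rpow_def_of_pos ht0, mul_comm]
    have e2 : Real.exp (-(ε * Real.log s.im)) = s.im ^ (-ε) := by
      rw [Real.rpow_def_of_pos ht0]; congr 1; ring
    rw [hlog, e1, e2] at key
    simp only [hsc] at key
    refine ⟨hE s (by linarith) (by linarith), key.1, key.2.1, key.2.2⟩
  · have hre : 1 / 2 + min ε 1 ≤ s.re := by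
      have := min_le_right ε (1 : ℝ)
      rw [not_le] at hbig
      linarith
    obtain ⟨k1, k2, k3, k4⟩ := hB s hre t4
    have hmin := min_le_left ε (1 : ℝ)
    have hlog0 : 0 ≤ Real.log s.im := Real.log_nonneg (by linarith)
    refine ⟨k1, k2.trans (mul_le_mul_of_nonneg_right hmin hlog0), ?_, ?_⟩
    · exact (Real.rpow_le_rpow_of_exponent_le (by linarith) (by linarith)).trans k3
    · exact k4.trans (Real.rpow_le_rpow_of_exponent_le (by linarith) hmin)

end Pool.Agent.K3h84.DL
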