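import Pool.Agent.K3h84.DL.Rw
import Pool.Agent.K3h84.DL.Thr
import Pool.Agent.H986R2.K4.VdC

set_option autoImplicit false

/-! # The Riemann zeta function -/

open Complex Filter Topology Set
open scoped ComplexConjugate

namespace Pool.Agent.K3h84.DL

/-- `ξ`, up to a factor `2` -/
noncomputable def X0 (s : ℂ) : ℂ := s * (s - 1) * completedRiemannZeta₀ s + 1

lemma X0_diff : Differentiable ℂ X0 := by
  have h1 := differentiable_completedZeta₀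
  unfold X0
  fun_prop

lemma X0_eq {s : ℂ} (h0 : s ≠ 0) (h1 : s ≠ 1) (hG : Gammaℝ s ≠ 0) :
    X0 s = s * (s - 1) * (Gammaℝ s * riemannZeta s) := by
  have h2 : 1 - s ≠ 0 := sub_ne_zero.2 (Ne.symm h1)
  rw [riemannZeta_def_of_ne_zero h0, mul_div_cancel₀ _ hG, completedRiemannZeta_eq]
  unfold X0
  field_simp
  ring

lemma GR_ne {s : ℂ} (h : 0 < s.re ∨ 0 < s.im) : Gammaℝ s ≠ 0 := by
  rcases h with h | h
  · exact Gammaℝ_ne_zero_of_re_pos h
  · rw [Ne, Gammaℝ_eq_zero_iff]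
    rintro ⟨n, hn⟩
    rw [hn] at h
    simp at h

lemma X0_one_sub (s : ℂ) : X0 (1 - s) = X0 s := by
  unfold X0
  rw [completedRiemannZeta₀_one_sub]
  ring

lemma X0_conj (s : ℂ) : X0 (conj s) = conj (X0 s) := by
  obtain ⟨ε, hε, hfe⟩ := (Pool.Agent.W355.UN.zeta_raw).fe
  have h0 : X0 0 = 1 := by unfold X0; simp
  have h1 : ε = 1 := by
    have := hfe 0
    change X0 0 = ε * conj (X0 (1 - conj 0)) at this
    rw [map_zero, X0_one_sub, h0, map_one, mul_one] at this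
    exact this.symm
  have := hfe (conj s)
  change X0 (conj s) = ε * conj (X0 (1 - conj (conj s))) at this
  rw [h1, one_mul, Complex.conj_conj, X0_one_sub] at this
  exact this

lemma zero_iff {s : ℂ} (h : 0 < s.re ∨ 0 < s.im) : riemannZeta s = 0 ↔ X0 s = 0 := by
  by_cases h1 : s = 1
  · have e1 : X0 1 = 1 := by unfold X0; simp
    rw [h1, e1]
    have := riemannZeta_ne_zero_of_one_le_re (s := 1) (by simp)
    simp [this]
  have h0 : s ≠ 0 := by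
    rintro rfl
    rcases h with h | h <;> simp at h
  rw [X0_eq h0 h1 (GR_ne h)]
  have h2 := GR_ne h
  have h3 : s - 1 ≠ 0 := sub_ne_zero.2 h1
  constructor
  · intro h4; rw [h4]; ring
  · intro h4
    rw [mul_eq_zero, mul_eq_zero, mul_eq_zero] at h4
    tauto

/-- the data for zeta -/
theorem fd_zeta : ∃ f : ℂ → ℂ, FD ((1 : ℕ) : ℝ) (1 / 2) f riemannZeta X0 ∧
    ∀ z : ℂ, 1 ≤ z.im → f z = riemannZeta (1 / 2 + z) := by
  have hraw := Pool.Agent.W355.UN.zeta_raw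
  have hcd := cd_of_raw hraw
  have hlen : (([0] : List ℂ).length) = 1 := rfl
  obtain ⟨f, hf⟩ : ∃ f : ℂ → ℂ, f = fun z => X0 (1 / 2 + z) / gc 1 1 (fun j => ([0] : List ℂ).get j) z :=
    ⟨_, rfl⟩
  have hgc : ∀ z : ℂ, gc 1 1 (fun j => ([0] : List ℂ).get j) z =
      (1 / 2 + z) * (1 / 2 + z - 1) * Gammaℝ (1 / 2 + z) := by
    intro z
    unfold gc
    rw [Pool.Agent.W355.UN.prod_get ([0] : List ℂ) (fun c : ℂ => Gammaℝ (1 / 2 + z + c))]
    simp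
  have hfz : ∀ z : ℂ, 1 ≤ z.im → f z = riemannZeta (1 / 2 + z) := by
    intro z hz
    have him : (1 / 2 + z).im = z.im := by simp
    have h0 : 1 / 2 + z ≠ 0 := by
      intro h; rw [h] at him; simp at him; linarith
    have h1 : 1 / 2 + z ≠ 1 := by
      intro h; rw [h] at him; simp at him; linarith
    have hG := GR_ne (s := 1 / 2 + z) (Or.inr (by rw [him]; linarith))
    have h2 : 1 / 2 + z - 1 ≠ 0 := sub_ne_zero.2 h1
    rw [hf]
    simp only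
    rw [hgc, X0_eq h0 h1 hG]
    obtain ⟨w, hw⟩ : ∃ w, w = 1 / 2 + z := ⟨_, rfl⟩
    rw [← hw] at h0 h2 hG ⊢
    rw [← mul_assoc, mul_div_cancel_left₀ _ (mul_ne_zero (mul_ne_zero h0 h2) hG)]
  have hx : ∀ z : ℂ, (((1 / 2 : ℝ) : ℝ) : ℂ) + z = 1 / 2 + z := by
    intro z; push_cast; ring
  refine ⟨f, ⟨?_, ⟨1, fun z hz => ?_⟩, ?_, fun s => ?_, X0_conj, ⟨1, fun s hs => ?_⟩, X0_diff, ?_⟩, hfz⟩
  · rw [hf]
    exact hcd.rd
  · rw [hx, hfz z hz]
  · intro hL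
    rw [hf]
    refine hcd.lh fun ε hε => ?_
    obtain ⟨T, hT⟩ := hL ε hε
    refine ⟨max T 1, fun t ht => ?_⟩
    have h1 := hT t ((le_max_left _ _).trans ht)
    have h2 := hfz (I * t) (by simpa using (le_max_right _ _).trans ht)
    rw [hf] at h2
    have h3 : X0 (1 / 2 + I * t) / gc 1 1 (fun j => ([0] : List ℂ).get j) (I * t) =
        riemannZeta (1 / 2 + I * t) := h2
    change ‖X0 (1 / 2 + I * t) / gc 1 1 (fun j => ([0] : List ℂ).get j) (I * t)‖ ≤ _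
    rw [h3, mul_comm I, ← hx]
    exact h1
  · exact riemannZeta_conj s
  · exact zero_iff (Or.inr (by linarith))
  · intro s hs h0
    have h1 : 1 ≤ s.re := by linarith
    rw [← zero_iff (Or.inl (by linarith))] at h0
    exact riemannZeta_ne_zero_of_one_le_re h1 h0

lemma vc_zeta {f : ℂ → ℂ} (hf : ∀ z : ℂ, 1 ≤ z.im → f z = riemannZeta (1 / 2 + z)) : VC 1 f := by
  intro δ hδ
  obtain ⟨e0, he0, he1, hV⟩ := Pool.Agent.H986R2.K4.vdcQ δ hδ
  refine ⟨e0, he0, he1, fun e he hee ε hε => ?_⟩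
  obtain ⟨C, hC, hV⟩ := hV e he hee
  obtain ⟨T, hT⟩ := eventually_atTop.1 ((tendsto_rpow_atTop hε).eventually_ge_atTop C)
  refine ⟨max T 2, fun z hz hz2 => ?_⟩
  have h1 : T ≤ z.im := (le_max_left _ _).trans hz
  have h2 : 2 ≤ z.im := (le_max_right _ _).trans hz
  rw [hf z (by linarith)]
  have e1 : 1 / 2 + z = 1 - (e : ℂ) + z.im * I := by
    apply Complex.ext
    · simp [hz2]; ring
    · simp
  rw [e1, one_mul, Real.rpow_add (by linarith)]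
  refine (hV z.im h2).trans ?_
  have h3 := hT z.im h1
  rw [mul_comm]
  gcongr

/-- zeros of zeta to the right of the line -/
lemma af_zeta {σ : ℝ} (hσ : 1 / 2 ≤ σ) : AF σ riemannZeta ↔ AF σ X0 := by
  unfold AF
  refine forall_congr' fun ε => forall_congr' fun hε => ?_
  have : {s : ℂ | riemannZeta s = 0 ∧ σ + ε < s.re} = {s : ℂ | X0 s = 0 ∧ σ + ε < s.re} := by
    ext s
    simp only [mem_ofPred_eq]
    constructor
    · rintro ⟨h1, h2⟩
      exact ⟨(zero_iff (Or.inl (by linarith))).1 h1, h2⟩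
    · rintro ⟨h1, h2⟩
      exact ⟨(zero_iff (Or.inl (by linarith))).2 h1, h2⟩
  rw [this]

/-- **zeta** -/
theorem main_zeta :
    (∀ κ : ℝ, κ < 2 → Hor (1 / 2) riemannZeta κ) ∧
    (∀ ϑ κ : ℝ, 0 ≤ ϑ → AF (1 / 2 + ϑ) riemannZeta → κ * ϑ < 1 → Hor (1 / 2) riemannZeta κ) ∧
    (∀ κ : ℝ, 0 < κ → Hor (1 / 2) riemannZeta κ → AF (1 / 2 + 2 / κ) riemannZeta) ∧
    ((∃ κ : ℝ, 2 < κ ∧ Hor (1 / 2) riemannZeta κ) ↔ ∃ θ : ℝ, θ < 1 ∧ ∀ s : ℂ, θ < s.re → riemannZeta s ≠ 0) ∧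
    ((∀ κ : ℝ, Hor (1 / 2) riemannZeta κ) ↔ AF (1 / 2) riemannZeta) ∧
    (Lin (1 / 2) riemannZeta → ∀ κ : ℝ, 0 < κ →
      ((∀ κ' : ℝ, κ' < κ → Hor (1 / 2) riemannZeta κ') ↔ AF (1 / 2 + 1 / κ) riemannZeta)) := by
  obtain ⟨f, hF, hf⟩ := fd_zeta
  obtain ⟨h1, h2, h3, h4, h5⟩ := hF.main
  simp only [Nat.cast_one, mul_one] at h1 h2 h3 h4 h5
  have h2' : ∀ ϑ κ : ℝ, 0 ≤ ϑ → AF (1 / 2 + ϑ) riemannZeta → κ * ϑ < 1 → Hor (1 / 2) riemannZeta κ :=
    fun ϑ κ hϑ hA hκ => h2 ϑ κ hϑ ((af_zeta (by linarith)).1 hA) hκ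
  refine ⟨h1, h2', fun κ hκ hH => (af_zeta (by
    have : 0 < 2 / κ := by positivity
    linarith)).2 (h3 κ hκ hH), ⟨?_, ?_⟩, ?_, fun hL κ hκ => ?_⟩
  · rintro ⟨κ, hκ, hH⟩
    obtain ⟨Ψ, hrd⟩ := hF.rd
    rw [Nat.cast_one] at hrd
    obtain ⟨ε0, hε0, hE⟩ := thr hrd (vc_zeta hf) (κ := κ) (by linarith) ((hF.hor κ).1 hH)
    obtain ⟨ε1, hε1⟩ : ∃ ε1, ε1 = min ε0 (1 / 2) := ⟨_, rfl⟩
    have q1 : 0 < ε1 := by rw [hε1]; exact lt_min hε0 (by norm_num)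
    have q2 : ε1 ≤ ε0 := by rw [hε1]; exact min_le_left _ _
    have q3 : ε1 ≤ 1 / 2 := by rw [hε1]; exact min_le_right _ _
    have hA := (hF.af (ϑ := 1 / 2 - ε1) (by linarith)).2 (hE.mono (by linarith))
    have hfin := hA (ε1 / 2) (by linarith)
    have e1 : (1 / 2 + (1 / 2 - ε1) + ε1 / 2 : ℝ) = 1 - ε1 / 2 := by ring
    rw [e1] at hfin
    rcases {s : ℂ | X0 s = 0 ∧ 1 - ε1 / 2 < s.re}.eq_empty_or_nonempty with he | hne
    · refine ⟨1 - ε1 / 2, by linarith, fun s hs h0 => ?_⟩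
      have : s ∈ {s : ℂ | X0 s = 0 ∧ 1 - ε1 / 2 < s.re} :=
        ⟨(zero_iff (Or.inl (by linarith))).1 h0, hs⟩
      rw [he] at this
      exact this
    · obtain ⟨ρ, hρ, hmax⟩ := hfin.exists_maximalFor (fun s : ℂ => s.re) _ hne
      have hρ1 : ρ.re < 1 := by
        by_contra hc
        rw [not_lt] at hc
        exact riemannZeta_ne_zero_of_one_le_re hc ((zero_iff (Or.inl (by linarith))).2 hρ.1)
      refine ⟨ρ.re, hρ1, fun s hs h0 => ?_⟩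
      have hρ2 : 1 - ε1 / 2 < ρ.re := hρ.2
      have hs2 : s ∈ {s : ℂ | X0 s = 0 ∧ 1 - ε1 / 2 < s.re} :=
        ⟨(zero_iff (Or.inl (by linarith))).1 h0, by show 1 - ε1 / 2 < s.re; linarith⟩
      have := hmax hs2 hs.le
      linarith
  · rintro ⟨θ, hθ, hz⟩
    obtain ⟨ϑ, hϑ⟩ : ∃ ϑ, ϑ = max θ (1 / 2) - 1 / 2 := ⟨_, rfl⟩
    have q0 : 0 ≤ ϑ := by rw [hϑ]; linarith [le_max_right θ (1 / 2)]
    have q1 : ϑ < 1 / 2 := by
      rw [hϑ]
      have : max θ (1 / 2) < 1 := max_lt hθ (by norm_num)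
      linarith
    have q2 : θ ≤ 1 / 2 + ϑ := by rw [hϑ]; linarith [le_max_left θ (1 / 2)]
    refine ⟨2 / (ϑ + 1 / 2), ?_, h2' ϑ _ q0 (fun ε hε => ?_) ?_⟩
    · rw [lt_div_iff₀ (by linarith)]; linarith
    · have : {s : ℂ | riemannZeta s = 0 ∧ 1 / 2 + ϑ + ε < s.re} = ∅ := by
        ext s
        simp only [mem_ofPred_eq, mem_empty_iff_false, iff_false, not_and]
        intro h0 hs
        exact hz s (by linarith) h0
      rw [this]
      exact finite_empty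
    · rw [div_mul_eq_mul_div, div_lt_one (by linarith)]; linarith
  · rw [h4, af_zeta le_rfl]
  · rw [h5 hL κ hκ, af_zeta (by
      have : 0 < 1 / κ := by positivity
      linarith)]

end Pool.Agent.K3h84.DL
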